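import Pool.Agent.Run7.h768.Defs

/-! Definitions for the statement of Murphy's law. -/

noncomputable section

namespace Pool.Agent.Run7.h768

open MvPolynomial

/-- The ideal of the point `gB` in the coordinate ring of `Y` in the chart around `gB`. -/
def originChart {n : ℕ} (Y : Set (Flag n)) (g : GL (Fin n) ℂ) :
    Ideal (MvPolynomial (LowIdx n) ℂ ⧸ chartIdeal Y g) :=
  Ideal.span (Set.range fun k => Ideal.Quotient.mk (chartIdeal Y g) (X k))

/-- The ideal of the origin in `ℂ[Z][t_1, ..., t_N]`. -/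
def originProd {q : ℕ} (Z : Set (Fin q → ℂ)) (N : ℕ) :
    Ideal (MvPolynomial (Fin N) (MvPolynomial (Fin q) ℂ ⧸ vanishingIdeal ℂ Z)) :=
  Ideal.span (Set.range (fun i => C (Ideal.Quotient.mk (vanishingIdeal ℂ Z) (X i))) ∪ Set.range X)

/-- In the chart around `gB` the closed set `Y` is isomorphic to `Z × ℂ^N`, the point `gB` going to
the origin. -/
def ChartIsProduct {n q : ℕ} (Y : Set (Flag n)) (g : GL (Fin n) ℂ) (Z : Set (Fin q → ℂ))
    (N : ℕ) : Prop :=
  ∃ E : (MvPolynomial (LowIdx n) ℂ ⧸ chartIdeal Y g) ≃ₐ[ℂ]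
    MvPolynomial (Fin N) (MvPolynomial (Fin q) ℂ ⧸ vanishingIdeal ℂ Z),
    (originChart Y g).map E = originProd Z N

/-- The closure of the Springer cell `C_w ∩ S_X`. -/
def cellClosure {n : ℕ} (w : Equiv.Perm (Fin n)) (X : Matrix (Fin n) (Fin n) ℂ) : Set (Flag n) :=
  zariskiClosure (SchubertCell w ∩ SpringerFiber X)

end Pool.Agent.Run7.h768
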