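import Pool.Agent.Run7.h768.Struct

/-! Analysis of the Springer condition. -/

set_option linter.unusedSectionVars false
set_option linter.unusedVariables false
set_option linter.unusedSimpArgs false

noncomputable section

namespace Pool.Agent.Run7.h768

open Matrix

variable {S : Type} [Fintype S] [DecidableEq S] {h : ℕ}

/-- the time block -/
def tb (x : Fin h × KK S) : ℕ := Sum.elim (fun _ => (x.1 : ℕ) + 1) (fun _ => (x.1 : ℕ)) x.2

@[simp] theorem tb_inl (j : Fin h) (r : S) : tb (S := S) (j, Sum.inl r) = (j : ℕ) + 1 := rfl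
@[simp] theorem tb_inr (j : Fin h) (i : Fin 2) : tb (S := S) (j, Sum.inr i) = (j : ℕ) := rfl

/-- the two total orders, given by injective functions to `ℕ` -/
structure Orders (h : ℕ) (S : Type) (s : Fin h → S) where
  val : Fin h × KK S → ℕ
  time : Fin h × KK S → ℕ
  val_inj : Function.Injective val
  time_inj : Function.Injective time
  val_blk : ∀ x y : Fin h × KK S, x.1 < y.1 → val x < val y
  val1 : ∀ (j : Fin h) (r : S), r ≠ s j → val (j, Sum.inl r) < val (j, Sum.inr 0)
  val2 : ∀ j : Fin h, val (j, Sum.inr 0) < val (j, Sum.inl (s j))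
  val3 : ∀ j : Fin h, val (j, Sum.inl (s j)) < val (j, Sum.inr 1)
  time_iff : ∀ x y : Fin h × KK S, time x < time y ↔ tb x < tb y ∨ (tb x = tb y ∧ val y < val x)

/-- the nilpotent matrix -/
def XX {R : Type} [CommRing R] (c : Fin h → Cond S R) : Matrix (Fin h × KK S) (Fin h × KK S) R :=
  ofBl fun j k => if (k : ℕ) = (j : ℕ) + 1 then (c j).gamInv * (c k).gam else 0

theorem bl_XX {R : Type} [CommRing R] (c : Fin h → Cond S R) (j k : Fin h) :
    bl (XX c) j k = if (k : ℕ) = (j : ℕ) + 1 then (c j).gamInv * (c k).gam else 0 := rfl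

/-- columns `inr` -/
def colP {A : Type} (M : Matrix A (KK S) ℂ) : Matrix A (Fin 2) ℂ := fun a i => M a (Sum.inr i)

def rowP {A : Type} (M : Matrix (KK S) A ℂ) : Matrix (Fin 2) A ℂ := fun i a => M (Sum.inr i) a

theorem colP_mul {A B : Type} [Fintype B] (M : Matrix A B ℂ) (N : Matrix B (KK S) ℂ) :
    colP (M * N) = M * colP N := rfl

theorem rowP_mul {A B : Type} [Fintype B] (M : Matrix (KK S) B ℂ) (N : Matrix B A ℂ) :
    rowP (M * N) = rowP M * N := rfl

section

variable {s : Fin h → S} (o : Orders h S s)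

theorem bl_zero_of_val {b : Matrix (Fin h × KK S) (Fin h × KK S) ℂ}
    (hb : b.BlockTriangular o.val) {j k : Fin h} (hjk : k < j) : bl b j k = 0 := by
  ext a c
  exact hb (o.val_blk (k, c) (j, a) hjk)

theorem blk_col0_s {b : Matrix (Fin h × KK S) (Fin h × KK S) ℂ}
    (hb : b.BlockTriangular o.val) (j : Fin h) : bl b j j (Sum.inl (s j)) (Sum.inr 0) = 0 :=
  hb (o.val2 j)

theorem blk_col0_1 {b : Matrix (Fin h × KK S) (Fin h × KK S) ℂ}
    (hb : b.BlockTriangular o.val) (j : Fin h) : bl b j j (Sum.inr 1) (Sum.inr 0) = 0 :=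
  hb ((o.val2 j).trans (o.val3 j))

theorem diag_ne_zero {b bi : Matrix (Fin h × KK S) (Fin h × KK S) ℂ} (hbi : bi * b = 1)
    (hb : b.BlockTriangular o.val) (hbi' : bi.BlockTriangular o.val) (x : Fin h × KK S) :
    b x x ≠ 0 := by
  intro h0
  have h1 : (bi * b) x x = 1 := by rw [hbi, Matrix.one_apply_eq]
  rw [Matrix.mul_apply, Finset.sum_eq_single x] at h1
  · rw [h0, mul_zero] at h1
    exact zero_ne_one h1
  · intro y _ hy
    rcases lt_trichotomy (o.val x) (o.val y) with h2 | h2 | h2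
    · rw [hb h2, mul_zero]
    · exact absurd (o.val_inj h2).symm hy
    · rw [hbi' h2, zero_mul]
  · intro hx
    exact absurd (Finset.mem_univ x) hx

theorem bl_inv_diag {b bi : Matrix (Fin h × KK S) (Fin h × KK S) ℂ} (hbi : bi * b = 1)
    (hb : b.BlockTriangular o.val) (hbi' : bi.BlockTriangular o.val) (j : Fin h) :
    bl bi j j * bl b j j = 1 := by
  have h1 : bl (bi * b) j j = 1 := by rw [hbi, bl_one, if_pos rfl]
  rw [bl_mul, Finset.sum_eq_single j] at h1
  · exact h1
  · intro l _ hl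
    rcases lt_or_gt_of_ne hl with h2 | h2
    · rw [bl_zero_of_val o hbi' h2, zero_mul]
    · rw [bl_zero_of_val o hb h2, mul_zero]
  · intro hx
    exact absurd (Finset.mem_univ j) hx

theorem key_relation (c : Fin h → Cond S ℂ) (hc : ∀ j, (c j).Good)
    {b bi : Matrix (Fin h × KK S) (Fin h × KK S) ℂ} (hbbi : b * bi = 1)
    (hb : b.BlockTriangular o.val) (hbi' : bi.BlockTriangular o.val)
    (hX : (bi * XX c * b).BlockTriangular o.time) (j k : Fin h) (hjk : (k : ℕ) = (j : ℕ) + 1) :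
    ∃ C : Matrix (Fin 2) (Fin 2) ℂ,
      colP ((c k).gam * bl b k k) = colP ((c j).gam * bl b j j) * C := by
  have hlt : j < k := by rw [Fin.lt_def]; omega
  have hz1 : ∀ l m : Fin h, m ≤ l → bl (bi * XX c) l m = 0 := by
    intro l m hml
    rw [bl_mul]
    apply Finset.sum_eq_zero
    intro x _
    rcases lt_or_ge x l with h1 | h1
    · rw [bl_zero_of_val o hbi' h1, zero_mul]
    · rw [bl_XX, if_neg, mul_zero]
      have h2 : (m : ℕ) ≤ l := hml
      have h3 : (l : ℕ) ≤ x := h1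
      omega
  have hz2 : ∀ l m : Fin h, m ≤ l → bl (bi * XX c * b) l m = 0 := by
    intro l m hml
    rw [bl_mul]
    apply Finset.sum_eq_zero
    intro x _
    rcases lt_or_ge l x with h1 | h1
    · rw [bl_zero_of_val o hb (lt_of_le_of_lt hml h1), mul_zero]
    · rw [hz1 l x h1, zero_mul]
  have e1 : b * (bi * XX c * b) = XX c * b := by
    rw [Matrix.mul_assoc bi, ← Matrix.mul_assoc b, hbbi, Matrix.one_mul]
  have e2 : bl b j j * bl (bi * XX c * b) j k = (c j).gamInv * (c k).gam * bl b k k := by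
    have h1 : bl (b * (bi * XX c * b)) j k = bl (XX c * b) j k := by rw [e1]
    rw [bl_mul, bl_mul, Finset.sum_eq_single j, Finset.sum_eq_single k] at h1
    · rw [h1, bl_XX, if_pos hjk]
    · intro l _ hl
      rw [bl_XX, if_neg, zero_mul]
      intro h2
      exact hl (Fin.ext (by omega))
    · intro hx
      exact absurd (Finset.mem_univ k) hx
    · intro l _ hl
      rcases lt_or_gt_of_ne hl with h2 | h2
      · rw [bl_zero_of_val o hb h2, zero_mul]
      · rw [hz2 l k, mul_zero]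
        rw [Fin.le_def]
        have : (j : ℕ) < l := h2
        omega
    · intro hx
      exact absurd (Finset.mem_univ j) hx
  have e3 : (c j).gam * bl b j j * bl (bi * XX c * b) j k = (c k).gam * bl b k k := by
    rw [Matrix.mul_assoc, e2, ← Matrix.mul_assoc, ← Matrix.mul_assoc, (hc j).gam_mul,
      Matrix.one_mul]
  refine ⟨rowP (colP (bl (bi * XX c * b) j k)), ?_⟩
  rw [← e3]
  ext a i
  simp only [colP, rowP, Matrix.mul_apply (M := (c j).gam * bl b j j), Fintype.sum_sum_type]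
  rw [Finset.sum_eq_zero, zero_add]
  · rfl
  · intro r _
    have : bl (bi * XX c * b) j k (Sum.inl r) (Sum.inr i) = 0 := by
      apply hX
      rw [o.time_iff]
      right
      refine ⟨by simp [hjk], o.val_blk _ _ hlt⟩
    rw [this, mul_zero]

theorem all_relation (c : Fin h → Cond S ℂ) (hc : ∀ j, (c j).Good)
    {b bi : Matrix (Fin h × KK S) (Fin h × KK S) ℂ} (hbbi : b * bi = 1)
    (hb : b.BlockTriangular o.val) (hbi' : bi.BlockTriangular o.val)
    (hX : (bi * XX c * b).BlockTriangular o.time) (hpos : 0 < h) (m : ℕ) : ∀ hm : m < h,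
    ∃ C : Matrix (Fin 2) (Fin 2) ℂ,
      colP ((c ⟨m, hm⟩).gam * bl b ⟨m, hm⟩ ⟨m, hm⟩) =
        colP ((c ⟨0, hpos⟩).gam * bl b ⟨0, hpos⟩ ⟨0, hpos⟩) * C := by
  induction m with
  | zero => exact fun _ => ⟨1, by rw [Matrix.mul_one]⟩
  | succ m ih =>
    intro hm
    obtain ⟨C, hC⟩ := ih (by omega)
    obtain ⟨C', hC'⟩ := key_relation o c hc hbbi hb hbi' hX ⟨m, by omega⟩ ⟨m+1, hm⟩ rfl
    exact ⟨C * C', by rw [hC', hC, Matrix.mul_assoc]⟩

theorem analysis (c : Fin h → Cond S ℂ) (hc : ∀ j, (c j).Good) (o : Orders h S (fun j => (c j).s))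
    (j0 : Fin h) (hQ0 : (c j0).Q = 1) (hα0 : (c j0).α = 0)
    (H2 : ∀ T, (∀ j, (c j).α = 0 → dot (app (c j).φ T) ((c j).col 0) = 0) →
      ∀ j, dot (app (c j).α T) ((c j).col 1) = 0)
    {b bi : Matrix (Fin h × KK S) (Fin h × KK S) ℂ} (hbbi : b * bi = 1)
    (hb : b.BlockTriangular o.val) (hbi' : bi.BlockTriangular o.val)
    (hX : (bi * XX c * b).BlockTriangular o.time) :
    ∃ T : Matrix S (Fin 2) ℂ, (∀ j, (c j).Sol T) ∧ ∀ j, ∃ K : Matrix (Fin 2) (Fin 2) ℂ,
      IsUnit K ∧ (c j).gam * colP (bl b j j) = stack T * K := by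
  have hbib : bi * b = 1 := mul_eq_one_comm.1 hbbi
  have hpos : 0 < h := lt_of_le_of_lt (Nat.zero_le _) j0.2
  have hrel := all_relation o c hc hbbi hb hbi' hX hpos
  choose C hC using fun j : Fin h => hrel j.1 j.2
  -- C j invertible
  have hCu : ∀ j, IsUnit (C j) := by
    intro j
    have h1 : (bl bi j j * (c j).gamInv) * ((c j).gam * bl b j j) = 1 := by
      rw [Matrix.mul_assoc, ← Matrix.mul_assoc (c j).gamInv, (hc j).gamInv_mul, Matrix.one_mul,
        bl_inv_diag o hbib hb hbi']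
    have h2 : rowP (bl bi j j * (c j).gamInv) * colP ((c j).gam * bl b j j) = 1 := by
      rw [← colP_mul, ← rowP_mul]
      ext i k
      have := congrFun (congrFun h1 (Sum.inr i)) (Sum.inr k)
      simp only [rowP, colP, this, Matrix.one_apply, Sum.inr.injEq]
    rw [show (c j) = c ⟨j.1, j.2⟩ from rfl, hC j, ← Matrix.mul_assoc] at h2
    exact IsUnit.of_mul_eq_one_right _ h2
  -- the graph form
  let K0 : Matrix (Fin 2) (Fin 2) ℂ := rowP (colP (bl b j0 j0))
  have hK0det : K0.det ≠ 0 := by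
    rw [Matrix.det_fin_two]
    have h1 : K0 1 0 = 0 := blk_col0_1 o hb j0
    rw [h1, mul_zero, sub_zero]
    exact mul_ne_zero (diag_ne_zero o hbib hb hbi' (j0, Sum.inr 0))
      (diag_ne_zero o hbib hb hbi' (j0, Sum.inr 1))
  have hK0u : IsUnit K0 := (Matrix.isUnit_iff_isUnit_det K0).2 (isUnit_iff_ne_zero.2 hK0det)
  have hK0inv : K0⁻¹ * K0 = 1 := Matrix.nonsing_inv_mul K0 (isUnit_iff_ne_zero.2 hK0det)
  let A0 : Matrix (KK S) (Fin 2) ℂ := (c j0).gam * colP (bl b j0 j0)
  have hA0r : ∀ i k, A0 (Sum.inr i) k = K0 i k := by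
    intro i k
    have hD : (c j0).D = 0 := by
      ext i r
      simp [Cond.D, hα0]
    simp only [A0, Cond.gam, hD, hQ0, Matrix.mul_apply, Fintype.sum_sum_type]
    simp [Matrix.one_apply]
    rfl
  let T : Matrix S (Fin 2) ℂ := (Matrix.of fun r i => A0 (Sum.inl r) i) * K0⁻¹
  have hT : A0 = stack T * K0 := by
    ext a i
    rcases a with r | i'
    · have h1 : (T * K0) r i = A0 (Sum.inl r) i := by
        simp only [T]
        rw [Matrix.mul_assoc, hK0inv, Matrix.mul_one]
        rfl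
      rw [← h1]
      rfl
    · rw [hA0r]
      simp only [stack, Matrix.mul_apply, Matrix.of_apply, Sum.elim_inr]
      simp
  -- all relations
  have hall : ∀ j, ∃ K : Matrix (Fin 2) (Fin 2) ℂ,
      IsUnit K ∧ (c j).gam * colP (bl b j j) = stack T * K := by
    intro j
    obtain ⟨u, hu⟩ := hCu j0
    refine ⟨K0 * (↑u⁻¹ : Matrix (Fin 2) (Fin 2) ℂ) * C j, (hK0u.mul u⁻¹.isUnit).mul (hCu j), ?_⟩
    have h1 : colP ((c ⟨0, hpos⟩).gam * bl b ⟨0, hpos⟩ ⟨0, hpos⟩) =
        stack T * K0 * (↑u⁻¹ : Matrix (Fin 2) (Fin 2) ℂ) := by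
      have h2 : A0 = colP ((c ⟨0, hpos⟩).gam * bl b ⟨0, hpos⟩ ⟨0, hpos⟩) * C j0 := hC j0
      rw [← hT, h2, Matrix.mul_assoc, ← hu, Units.mul_inv, Matrix.mul_one]
    have h3 : (c j).gam * colP (bl b j j) =
      colP ((c ⟨0, hpos⟩).gam * bl b ⟨0, hpos⟩ ⟨0, hpos⟩) * C j := hC j
    rw [h3, h1]
    simp only [Matrix.mul_assoc]
  refine ⟨T, ?_, hall⟩
  -- equations
  have heq : ∀ j, ∃ β y : ℂ, β ≠ 0 ∧ y = - (β * dot (app (c j).α T) ((c j).col 0) +
        y * dot (app (c j).α T) ((c j).col 1)) ∧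
        β * dot (app (c j).φ T) ((c j).col 0) + y * dot (app (c j).φ T) ((c j).col 1) = 0 := by
    intro j
    obtain ⟨K, _, hK⟩ := hall j
    let u : Fin 2 → ℂ := fun k => K k 0
    have h1 : ∀ a, (((c j).gamInv * stack T).mulVec u) a = bl b j j a (Sum.inr 0) := by
      intro a
      have h2 : (c j).gamInv * (stack T * K) = colP (bl b j j) := by
        rw [← hK, ← Matrix.mul_assoc, (hc j).gamInv_mul, Matrix.one_mul]
      have h3 := congrFun (congrFun h2 a) 0
      rw [← Matrix.mul_assoc] at h3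
      exact h3
    have hs := h1 (Sum.inl (c j).s)
    rw [(hc j).mulVec_stack_s] at hs
    have hs0 : bl b j j (Sum.inl (c j).s) (Sum.inr 0) = 0 := blk_col0_s o hb j
    rw [hs0] at hs
    have hr1 := h1 (Sum.inr 1)
    rw [Cond.mulVec_stack_inr, if_pos rfl] at hr1
    have hr10 : bl b j j (Sum.inr 1) (Sum.inr 0) = 0 := blk_col0_1 o hb j
    rw [hr10] at hr1
    have hr0 := h1 (Sum.inr 0)
    rw [Cond.mulVec_stack_inr, if_neg (by decide), zero_add] at hr0
    have hβ : bl b j j (Sum.inr 0) (Sum.inr 0) ≠ 0 :=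
      diag_ne_zero o hbib hb hbi' (j, Sum.inr 0)
    have hu : u = fun k => ((c j).Qi.mulVec u) 0 * (c j).Q k 0 + ((c j).Qi.mulVec u) 1 * (c j).Q k 1 := by
      have h4 : (c j).Q.mulVec ((c j).Qi.mulVec u) = u := by
        rw [Matrix.mulVec_mulVec, (hc j).hQ, Matrix.one_mulVec]
      funext k
      have h5 := congrFun h4 k
      rw [Matrix.mulVec, dotProduct, Fin.sum_univ_two] at h5
      rw [← h5]
      ring
    refine ⟨((c j).Qi.mulVec u) 0, ((c j).Qi.mulVec u) 1, ?_, ?_, ?_⟩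
    · rw [hr0]; exact hβ
    · rw [← dot_add_smul, ← hu]
      linear_combination hr1
    · rw [← dot_add_smul, ← hu]
      exact hs
  have hα : ∀ j, (c j).α = 0 → dot (app (c j).φ T) ((c j).col 0) = 0 := by
    intro j hj
    obtain ⟨β, y, hβ, h1, h2⟩ := heq j
    have h3 : app (c j).α T = 0 := by
      funext i
      simp [app, hj]
    rw [h3] at h1
    have h4 : y = 0 := by
      simpa [dot] using h1
    rw [h4, zero_mul, add_zero] at h2
    exact (mul_eq_zero.1 h2).resolve_left hβ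
  have hv' := H2 T hα
  intro j
  refine ⟨hv' j, ?_⟩
  obtain ⟨β, y, hβ, h1, h2⟩ := heq j
  rw [hv' j, mul_zero, add_zero] at h1
  rw [h1] at h2
  have : β * (dot (app (c j).φ T) ((c j).col 0) -
    dot (app (c j).α T) ((c j).col 0) * dot (app (c j).φ T) ((c j).col 1)) = 0 := by
    linear_combination h2
  exact sub_eq_zero.1 ((mul_eq_zero.1 this).resolve_left hβ)

end

end Pool.Agent.Run7.h768
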