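import Pool.Agent.Run7.h768.CMDef
import Pool.Agent.H379R3.Reg

/-! Commutative algebra: regular local rings are Gorenstein; a line and a plane. -/

noncomputable section

namespace Pool.Agent.Run7.h768

open IsLocalRing RingTheory.Sequence
open scoped Pointwise

theorem exists_notMem_mul_mem {R : Type} [CommRing R] {I p : Ideal R} (hI : I.IsRadical)
    (hp : p ∈ I.minimalPrimes) {x : R} (hx : x ∈ p) : ∃ y, y ∉ p ∧ y * x ∈ I := by
  obtain ⟨⟨hp₁, hp₂⟩, hp₃⟩ := hp
  have : p.map (algebraMap R (Localization.AtPrime p)) ≤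
      (I.map (algebraMap R (Localization.AtPrime p))).radical := by
    rw [Ideal.radical_eq_sInf, le_sInf_iff]
    rintro q ⟨hq', hq⟩
    obtain ⟨h₁, h₂⟩ := ((IsLocalization.AtPrime.orderIsoOfPrime _ p) ⟨q, hq⟩).2
    rw [Ideal.map_le_iff_le_comap] at hq' ⊢
    exact hp₃ ⟨h₁, hq'⟩ h₂
  obtain ⟨n, hn⟩ := this (Ideal.mem_map_of_mem _ hx)
  rw [IsLocalization.mem_map_algebraMap_iff (M := p.primeCompl)] at hn
  obtain ⟨⟨a, b⟩, hn⟩ := hn
  rw [← map_pow, ← map_mul, IsLocalization.eq_iff_exists p.primeCompl] at hn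
  obtain ⟨t, ht⟩ := hn
  refine ⟨t * b, (t * b).2, ?_⟩
  apply hI
  refine ⟨n + 1, ?_⟩
  simp only at ht
  have : (t.1 * b.1 * x) ^ (n + 1) = (t.1 ^ n * b.1 ^ n * x * t.1) * a.1 := by
    have e1 : (t.1 * b.1 * x) ^ (n + 1) = (t.1 ^ n * b.1 ^ n * x) * (t.1 * (x ^ n * b.1)) := by
      ring
    rw [e1, ht]
    ring
  rw [this]
  exact I.mul_mem_left _ a.2

theorem mem_smul_top_iff' {R : Type} [CommRing R] (f x : R) :
    (Submodule.Quotient.mk x : QuotSMulTop f R) = 0 ↔ x ∈ Ideal.span {f} := by
  rw [Submodule.Quotient.mk_eq_zero, Submodule.mem_smul_pointwise_iff_exists,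
    Ideal.mem_span_singleton]
  constructor
  · rintro ⟨b, _, rfl⟩
    exact ⟨b, rfl⟩
  · rintro ⟨b, rfl⟩
    exact ⟨b, trivial, rfl⟩

/-- The local ring of a line and a plane has depth at most one. -/
theorem depth_le_one {R : Type} [CommRing R] [IsLocalRing R] [IsNoetherianRing R] (y0 y1 y2 : R)
    (hm : maximalIdeal R = Ideal.span {y0, y1, y2}) (h01 : y0 * y1 = 0) (h02 : y0 * y2 = 0)
    (h0 : y0 ≠ 0) (rs : List R) (hreg : IsRegular R rs) : rs.length ≤ 1 := by
  by_contra hlen
  obtain ⟨f1, f2, rest, rfl⟩ : ∃ f1 f2 rest, rs = f1 :: f2 :: rest := by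
    rcases rs with _ | ⟨f1, _ | ⟨f2, rest⟩⟩
    · simp at hlen
    · simp at hlen
    · exact ⟨f1, f2, rest, rfl⟩
  have hmem : ∀ f ∈ f1 :: f2 :: rest, f ∈ maximalIdeal R := by
    intro f hf
    rw [mem_maximalIdeal]
    intro hu
    apply hreg.top_ne_smul
    have h1 : Ideal.ofList (f1 :: f2 :: rest) = ⊤ :=
      Ideal.eq_top_of_isUnit_mem _ (Ideal.subset_span hf) hu
    rw [h1]
    simp
  rw [isRegular_cons_iff] at hreg
  obtain ⟨hf1, hreg⟩ := hreg
  rw [isRegular_cons_iff] at hreg
  obtain ⟨hf2, _⟩ := hreg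
  have hm1 := hmem f1 (by simp)
  have hm2 := hmem f2 (by simp)
  have r1 : ∀ x, f1 * x = 0 → x = 0 := fun x hx => hf1.right_eq_zero_of_smul hx
  have r2 : ∀ x, f2 * x ∈ Ideal.span {f1} → x ∈ Ideal.span {f1} := by
    intro x hx
    rw [← mem_smul_top_iff'] at hx ⊢
    apply hf2.right_eq_zero_of_smul
    rw [← Submodule.Quotient.mk_smul]
    exact hx
  -- decomposition of elements of the maximal ideal
  have hdec : ∀ x ∈ maximalIdeal R, ∃ a b c, x = a * y0 + b * y1 + c * y2 := by
    intro x hx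
    rw [hm, Ideal.mem_span_insert] at hx
    obtain ⟨a, z, hz, rfl⟩ := hx
    rw [Ideal.mem_span_pair] at hz
    obtain ⟨b, c, rfl⟩ := hz
    exact ⟨a, b, c, by ring⟩
  -- a power of `y0` lies in `(f1)`
  have hpow : ∃ k : ℕ, y0 ^ (k + 1) ∈ Ideal.span {f1} := by
    by_contra hcon
    push Not at hcon
    have hk : ∀ k : ℕ, ∃ c, y0 * f1 = y0 ^ (k + 1) * c := by
      intro k
      induction k with
      | zero => exact ⟨f1, by ring⟩
      | succ k ih =>
        obtain ⟨c, hc⟩ := ih
        by_cases hcu : IsUnit c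
        · exfalso
          obtain ⟨u, rfl⟩ := hcu
          apply hcon k
          rw [Ideal.mem_span_singleton]
          refine ⟨y0 * (↑u⁻¹ : R), ?_⟩
          have h1 : f1 * (y0 * (↑u⁻¹ : R)) = (y0 * f1) * (↑u⁻¹ : R) := by ring
          rw [h1, hc, mul_assoc, Units.mul_inv, mul_one]
        · obtain ⟨a, b, c', rfl⟩ := hdec c ((mem_maximalIdeal c).2 hcu)
          refine ⟨a, ?_⟩
          rw [hc]
          have e1 : y0 ^ (k + 1) * (a * y0 + b * y1 + c' * y2) =
            y0 ^ (k + 1 + 1) * a + y0 ^ k * b * (y0 * y1) + y0 ^ k * c' * (y0 * y2) := by ring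
          rw [e1, h01, h02]
          ring
    have hinf : y0 * f1 ∈ (⨅ i : ℕ, maximalIdeal R ^ i) := by
      rw [Ideal.mem_iInf]
      intro i
      obtain ⟨c, hc⟩ := hk i
      rw [hc]
      have hy0 : y0 ∈ maximalIdeal R := by
        rw [hm]
        exact Ideal.subset_span (by simp)
      exact Ideal.mul_mem_right _ _ (Ideal.pow_le_pow_right (Nat.le_succ i)
        (Ideal.pow_mem_pow hy0 _))
    rw [Ideal.iInf_pow_eq_bot_of_isLocalRing _ (Ideal.IsPrime.ne_top'), Ideal.mem_bot] at hinf
    exact h0 (r1 y0 (by rw [mul_comm]; exact hinf))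
  obtain ⟨k, hk⟩ := hpow
  -- an element killed by `y1`, `y2` outside `(f1)`
  obtain ⟨z, hz1, hz2, hz⟩ : ∃ z, y1 * z = 0 ∧ y2 * z = 0 ∧ z ∉ Ideal.span {f1} := by
    by_contra hcon
    push Not at hcon
    let N : Ideal R :=
      { carrier := {z | y1 * z = 0 ∧ y2 * z = 0}
        add_mem' := fun {a b} ha hb => ⟨by rw [mul_add, ha.1, hb.1, add_zero],
          by rw [mul_add, ha.2, hb.2, add_zero]⟩
        zero_mem' := ⟨mul_zero _, mul_zero _⟩
        smul_mem' := fun c x hx => ⟨by
          rw [smul_eq_mul]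
          have : y1 * (c * x) = c * (y1 * x) := by ring
          rw [this, hx.1, mul_zero], by
          rw [smul_eq_mul]
          have : y2 * (c * x) = c * (y2 * x) := by ring
          rw [this, hx.2, mul_zero]⟩ }
    have hN : N ≤ maximalIdeal R • N := by
      intro x hx
      obtain ⟨hx1, hx2⟩ := hx
      have h1 := hcon x hx1 hx2
      rw [Ideal.mem_span_singleton] at h1
      obtain ⟨t, rfl⟩ := h1
      have ht : t ∈ N := by
        refine ⟨r1 _ ?_, r1 _ ?_⟩
        · rw [← hx1]; ring
        · rw [← hx2]; ring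
      exact Submodule.smul_mem_smul hm1 ht
    have hN0 : N = ⊥ := Submodule.eq_bot_of_le_smul_of_le_jacobson_bot (maximalIdeal R) N
      (IsNoetherian.noetherian N) hN (maximalIdeal_le_jacobson _)
    have : y0 ∈ N := ⟨by rw [mul_comm]; exact h01, by rw [mul_comm]; exact h02⟩
    rw [hN0, Ideal.mem_bot] at this
    exact h0 this
  -- the last power not in `(f1)`
  classical
  have hex : ∃ j, y0 ^ j * z ∈ Ideal.span {f1} := ⟨k + 1, Ideal.mul_mem_right _ _ hk⟩
  have hj := Nat.find_spec hex
  have hj0 : Nat.find hex ≠ 0 := by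
    intro h
    rw [h, pow_zero, one_mul] at hj
    exact hz hj
  obtain ⟨j, hjj⟩ := Nat.exists_eq_succ_of_ne_zero hj0
  have hjm : y0 ^ j * z ∉ Ideal.span {f1} := Nat.find_min hex (by omega)
  rw [hjj] at hj
  apply hjm
  apply r2
  obtain ⟨a, b, c, hf2'⟩ := hdec f2 hm2
  have e1 : f2 * (y0 ^ j * z) = a * (y0 ^ j.succ * z) + b * y0 ^ j * (y1 * z) +
      c * y0 ^ j * (y2 * z) := by
    rw [hf2']
    rw [pow_succ]
    ring
  rw [e1, hz1, hz2, mul_zero, mul_zero, add_zero, add_zero]
  exact Ideal.mul_mem_left _ _ hj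

/-- a regular local ring has a regular sequence of length its dimension generating the maximal
ideal -/
theorem regular_seq (d : ℕ) : ∀ (R : Type) [CommRing R] [IsRegularLocalRing R],
    ringKrullDim R = d → ∃ rs : List R, IsRegular R rs ∧ rs.length = d ∧
      Ideal.ofList rs = maximalIdeal R := by
  induction d with
  | zero =>
    intro R _ _ hd
    refine ⟨[], ?_, rfl, ?_⟩
    · have : Nontrivial R := inferInstance
      exact IsRegular.nil R R
    · rw [Ideal.ofList_nil]
      have h1 : (maximalIdeal R).spanFinrank = 0 := by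
        have := IsRegularLocalRing.spanFinrank_maximalIdeal (R := R)
        rw [hd] at this
        exact_mod_cast this
      rw [Submodule.spanFinrank_eq_zero_iff_eq_bot (IsNoetherian.noetherian _)] at h1
      exact h1.symm
  | succ d ih =>
    intro R _ _ hd
    have hdom : IsDomain R := Pool.Agent.H379R3.isDomain R
    obtain ⟨t, ht, ht2⟩ : ∃ t ∈ maximalIdeal R, t ∉ maximalIdeal R ^ 2 := by
      by_contra hcon
      push Not at hcon
      have h1 : maximalIdeal R ≤ maximalIdeal R • maximalIdeal R := by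
        intro x hx
        have := hcon x hx
        rwa [pow_two] at this
      have h2 : maximalIdeal R = ⊥ := Submodule.eq_bot_of_le_smul_of_le_jacobson_bot
        (maximalIdeal R) _ (IsNoetherian.noetherian _) h1 (maximalIdeal_le_jacobson _)
      have h3 : IsField R := by
        rw [IsLocalRing.isField_iff_maximalIdeal_eq]
        exact h2
      have h4 := ringKrullDim_eq_zero_of_isField h3
      rw [hd] at h4
      exact absurd h4 (by exact_mod_cast (Nat.succ_ne_zero d))
    obtain ⟨hreg, hdim⟩ := Pool.Agent.H379R3.regular_quotient t ht ht2 d hd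
    obtain ⟨rs, h1, h2, h3⟩ := ih (R ⧸ Ideal.span {t}) hdim
    choose f hf using (Ideal.Quotient.mk_surjective (I := Ideal.span {t}))
    have hmap : (rs.map f).map (Ideal.Quotient.mk (Ideal.span {t})) = rs := by
      rw [List.map_map]
      conv_rhs => rw [← List.map_id rs]
      apply List.map_congr_left
      intro x _
      exact hf x
    refine ⟨t :: rs.map f, ?_, by simp [h2], ?_⟩
    · rw [isRegular_cons_iff']
      refine ⟨?_, ?_⟩
      · have ht0 : t ≠ 0 := by
          rintro rfl
          exact ht2 (Ideal.zero_mem _)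
        exact fun a b hab => mul_left_cancel₀ ht0 hab
      · rw [hmap]
        have hEq : (Ideal.span {t} : Submodule R R) = t • ⊤ := by
          ext x
          rw [Submodule.mem_smul_pointwise_iff_exists]
          change x ∈ Ideal.span {t} ↔ _
          rw [Ideal.mem_span_singleton]
          constructor
          · rintro ⟨b, rfl⟩
            exact ⟨b, trivial, rfl⟩
          · rintro ⟨b, _, rfl⟩
            exact ⟨b, rfl⟩
        let e : (R ⧸ Ideal.span {t}) ≃ₗ[R] QuotSMulTop t R :=
          Submodule.quotEquivOfEq (Ideal.span {t} : Submodule R R) (t • ⊤) hEq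
        refine (AddEquiv.isRegular_congr (e := e.toAddEquiv) (as := rs) (bs := rs) ?_).1 h1
        apply List.forall₂_same.mpr
        intro r _ x
        obtain ⟨r', rfl⟩ := Ideal.Quotient.mk_surjective r
        exact e.map_smul r' x
    · rw [Ideal.ofList_cons]
      have h4 : (Ideal.ofList (rs.map f)).map (Ideal.Quotient.mk (Ideal.span {t})) =
          maximalIdeal (R ⧸ Ideal.span {t}) := by
        rw [Ideal.map_ofList, hmap, h3]
      have h5 : (maximalIdeal (R ⧸ Ideal.span {t})).comap (Ideal.Quotient.mk (Ideal.span {t})) =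
          maximalIdeal R :=
        IsLocalRing.eq_maximalIdeal (Ideal.comap_isMaximal_of_surjective _
          Ideal.Quotient.mk_surjective)
      rw [← h5, ← h4, Ideal.comap_map_of_surjective _ Ideal.Quotient.mk_surjective,
        ← RingHom.ker_eq_comap_bot, Ideal.mk_ker, sup_comm]

/-- regular local rings are Gorenstein -/
theorem gorenstein_of_regular (R : Type) [CommRing R] [IsRegularLocalRing R] :
    IsGorensteinLocal R := by
  obtain ⟨d, hd⟩ := Pool.Agent.H379R3.exists_dim_eq (B := R)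
  obtain ⟨rs, h1, h2, h3⟩ := regular_seq d R hd
  refine ⟨rs, h1, by rw [hd, h2], 1, ?_, ?_⟩
  · rw [h3]
    intro h
    exact (Ideal.ne_top_iff_one _).1 (maximalIdeal.isMaximal R).ne_top h
  · intro v
    rw [Ideal.span_singleton_one, top_sup_eq]
    refine ⟨fun _ => trivial, fun _ x hx => ?_⟩
    rw [h3]
    exact Ideal.mul_mem_right _ _ ((mem_maximalIdeal x).2 hx)

theorem cm_of_gorenstein {R : Type} [CommRing R] (h : IsGorensteinLocal R) : IsCMLocal R := by
  obtain ⟨rs, h1, h2, _⟩ := h
  exact ⟨rs, h1, h2⟩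

end Pool.Agent.Run7.h768
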