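import Mathlib

/-! Coordinate rings of sets parametrized by a product of an algebraic set and an affine space. -/

set_option linter.unusedSectionVars false

noncomputable section

namespace Pool.Agent.Run7.h768

open MvPolynomial

section

variable {σ V ι : Type} [Finite σ] [Finite V] [Finite ι]

/-- evaluation of an iterated polynomial -/
def ev2 (z : V → ℂ) (u : ι → ℂ) : MvPolynomial ι (MvPolynomial V ℂ) →+* ℂ :=
  eval₂Hom (eval z) u

@[simp] theorem ev2_C (z : V → ℂ) (u : ι → ℂ) (p : MvPolynomial V ℂ) :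
    ev2 z u (C p) = eval z p := by
  simp [ev2]

@[simp] theorem ev2_X (z : V → ℂ) (u : ι → ℂ) (i : ι) :
    ev2 z u (X i : MvPolynomial ι (MvPolynomial V ℂ)) = u i := by
  simp [ev2]

variable (Z : Set (V → ℂ))

/-- evaluation of the coordinate ring at a point -/
def evZ {z : V → ℂ} (hz : z ∈ Z) : (MvPolynomial V ℂ ⧸ vanishingIdeal ℂ Z) →+* ℂ :=
  Ideal.Quotient.lift _ (eval z) fun a ha => by
    have := (mem_vanishingIdeal_iff.1 ha) z hz
    rwa [aeval_eq_eval] at this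

@[simp] theorem evZ_mk {z : V → ℂ} (hz : z ∈ Z) (p : MvPolynomial V ℂ) :
    evZ Z hz (Ideal.Quotient.mk _ p) = eval z p := rfl

def evZ2 {z : V → ℂ} (hz : z ∈ Z) (u : ι → ℂ) :
    MvPolynomial ι (MvPolynomial V ℂ ⧸ vanishingIdeal ℂ Z) →+* ℂ :=
  eval₂Hom (evZ Z hz) u

theorem evZ2_map {z : V → ℂ} (hz : z ∈ Z) (u : ι → ℂ) (p : MvPolynomial ι (MvPolynomial V ℂ)) :
    evZ2 Z hz u (map (Ideal.Quotient.mk (vanishingIdeal ℂ Z)) p) = ev2 z u p := by
  have : (evZ2 Z hz u).comp (map (Ideal.Quotient.mk (vanishingIdeal ℂ Z))) =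
      (ev2 z u : MvPolynomial ι (MvPolynomial V ℂ) →+* ℂ) := by
    apply MvPolynomial.ringHom_ext
    · intro r
      simp [evZ2]
    · intro i
      simp [evZ2]
  exact congrArg (fun f => f p) this

theorem zero_of_evZ2 (G : MvPolynomial ι (MvPolynomial V ℂ ⧸ vanishingIdeal ℂ Z))
    (hG : ∀ (z : V → ℂ) (hz : z ∈ Z) (u : ι → ℂ), evZ2 Z hz u G = 0) : G = 0 := by
  ext m
  rw [coeff_zero]
  obtain ⟨p, hp⟩ := Ideal.Quotient.mk_surjective (coeff m G)
  rw [← hp, Ideal.Quotient.eq_zero_iff_mem, mem_vanishingIdeal_iff]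
  intro z hz
  rw [aeval_eq_eval]
  have h1 : map (evZ Z hz) G = 0 := by
    apply MvPolynomial.funext
    intro u
    rw [eval_map, map_zero]
    exact hG z hz u
  have h2 : coeff m (map (evZ Z hz) G) = 0 := by rw [h1, coeff_zero]
  rw [coeff_map, ← hp, evZ_mk] at h2
  exact h2

theorem ext_evZ2 {G G' : MvPolynomial ι (MvPolynomial V ℂ ⧸ vanishingIdeal ℂ Z)}
    (hG : ∀ (z : V → ℂ) (hz : z ∈ Z) (u : ι → ℂ), evZ2 Z hz u G = evZ2 Z hz u G') : G = G' := by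
  apply sub_eq_zero.1
  apply zero_of_evZ2
  intro z hz u
  rw [map_sub, hG, sub_self]

variable (𝒞 : Set (σ → ℂ)) (Φ : σ → MvPolynomial ι (MvPolynomial V ℂ))

/-- the comorphism of the parametrization -/
def theta : MvPolynomial σ ℂ →ₐ[ℂ] MvPolynomial ι (MvPolynomial V ℂ ⧸ vanishingIdeal ℂ Z) :=
  aeval fun k => map (Ideal.Quotient.mk (vanishingIdeal ℂ Z)) (Φ k)

theorem evZ2_theta {z : V → ℂ} (hz : z ∈ Z) (u : ι → ℂ) (F : MvPolynomial σ ℂ) :
    evZ2 Z hz u (theta Z Φ F) = eval (fun k => ev2 z u (Φ k)) F := by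
  have : (evZ2 Z hz u).comp (theta Z Φ).toRingHom = (eval (fun k => ev2 z u (Φ k)) :
      MvPolynomial σ ℂ →+* ℂ) := by
    apply MvPolynomial.ringHom_ext
    · intro r
      have h1 : theta Z Φ (C r) = C (algebraMap ℂ _ r) := by
        rw [theta, ← algebraMap_eq, AlgHom.commutes]
        rfl
      have h2 : (algebraMap ℂ (MvPolynomial V ℂ ⧸ vanishingIdeal ℂ Z) r) =
        Ideal.Quotient.mk _ (C r) := rfl
      simp only [AlgHom.toRingHom_eq_coe, RingHom.coe_comp, RingHom.coe_coe, Function.comp_apply,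
        h1, h2, eval_C]
      simp [evZ2]
    · intro k
      simp only [AlgHom.toRingHom_eq_coe, RingHom.coe_comp, RingHom.coe_coe, Function.comp_apply,
        theta, aeval_X, evZ2_map, eval_X]
  exact congrArg (fun f => f F) this

theorem ker_theta (h1 : ∀ z ∈ Z, ∀ u : ι → ℂ, (fun k => ev2 z u (Φ k)) ∈ 𝒞)
    (h2 : ∀ y ∈ 𝒞, ∃ z ∈ Z, ∃ u : ι → ℂ, ∀ k, ev2 z u (Φ k) = y k) :
    RingHom.ker (theta Z Φ).toRingHom = vanishingIdeal ℂ 𝒞 := by
  ext F
  rw [RingHom.mem_ker, mem_vanishingIdeal_iff]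
  constructor
  · intro h y hy
    obtain ⟨z, hz, u, hu⟩ := h2 y hy
    have h3 : (fun k => ev2 z u (Φ k)) = y := funext hu
    rw [aeval_eq_eval, ← h3]
    have h4 := evZ2_theta Z Φ hz u F
    have h5 : theta Z Φ F = 0 := h
    rw [h5, map_zero] at h4
    exact h4.symm
  · intro h
    change theta Z Φ F = 0
    apply zero_of_evZ2
    intro z hz u
    rw [evZ2_theta]
    have := h _ (h1 z hz u)
    rwa [aeval_eq_eval] at this

theorem theta_surjective (Ψ : V → MvPolynomial σ ℂ)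
    (h3 : ∀ z ∈ Z, ∀ u : ι → ℂ, ∀ v, eval (fun k => ev2 z u (Φ k)) (Ψ v) = z v)
    (Υ : ι → MvPolynomial σ ℂ)
    (h4 : ∀ z ∈ Z, ∀ u : ι → ℂ, ∀ i, eval (fun k => ev2 z u (Φ k)) (Υ i) = u i) :
    Function.Surjective (theta Z Φ) := by
  have hC : ∀ p : MvPolynomial V ℂ, theta Z Φ (aeval Ψ p) =
      C (Ideal.Quotient.mk (vanishingIdeal ℂ Z) p) := by
    intro p
    apply ext_evZ2
    intro z hz u
    rw [evZ2_theta]
    have h5 : (eval (fun k => ev2 z u (Φ k)) : MvPolynomial σ ℂ →+* ℂ).comp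
        (aeval Ψ : MvPolynomial V ℂ →ₐ[ℂ] MvPolynomial σ ℂ).toRingHom = eval z := by
      apply MvPolynomial.ringHom_ext
      · intro r
        simp
      · intro v
        simp [h3 z hz u v]
    have h6 := congrArg (fun f => f p) h5
    simp only [AlgHom.toRingHom_eq_coe, RingHom.coe_comp, RingHom.coe_coe,
      Function.comp_apply] at h6
    rw [h6]
    simp [evZ2]
  have hX : ∀ i, theta Z Φ (Υ i) = X i := by
    intro i
    apply ext_evZ2
    intro z hz u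
    rw [evZ2_theta, h4 z hz u i]
    simp [evZ2]
  intro G
  induction G using MvPolynomial.induction_on with
  | C a =>
    obtain ⟨p, rfl⟩ := Ideal.Quotient.mk_surjective a
    exact ⟨aeval Ψ p, hC p⟩
  | add p q hp hq =>
    obtain ⟨a, ha⟩ := hp
    obtain ⟨b, hb⟩ := hq
    exact ⟨a + b, by rw [map_add, ha, hb]⟩
  | mul_X p i hp =>
    obtain ⟨a, ha⟩ := hp
    exact ⟨a * Υ i, by rw [map_mul, ha, hX]⟩

/-- The coordinate ring of a set with a polynomial parametrization by `Z × ℂ^ι`. -/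
def coordEquiv (h1 : ∀ z ∈ Z, ∀ u : ι → ℂ, (fun k => ev2 z u (Φ k)) ∈ 𝒞)
    (h2 : ∀ y ∈ 𝒞, ∃ z ∈ Z, ∃ u : ι → ℂ, ∀ k, ev2 z u (Φ k) = y k)
    (hs : Function.Surjective (theta Z Φ)) :
    (MvPolynomial σ ℂ ⧸ vanishingIdeal ℂ 𝒞) ≃ₐ[ℂ]
      MvPolynomial ι (MvPolynomial V ℂ ⧸ vanishingIdeal ℂ Z) :=
  (Ideal.quotientEquivAlgOfEq ℂ (ker_theta Z 𝒞 Φ h1 h2).symm).trans
    (Ideal.quotientKerAlgEquivOfSurjective hs)

theorem coordEquiv_mk (h1 : ∀ z ∈ Z, ∀ u : ι → ℂ, (fun k => ev2 z u (Φ k)) ∈ 𝒞)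
    (h2 : ∀ y ∈ 𝒞, ∃ z ∈ Z, ∃ u : ι → ℂ, ∀ k, ev2 z u (Φ k) = y k)
    (hs : Function.Surjective (theta Z Φ)) (F : MvPolynomial σ ℂ) :
    coordEquiv Z 𝒞 Φ h1 h2 hs (Ideal.Quotient.mk _ F) = theta Z Φ F := rfl

end

end Pool.Agent.Run7.h768
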