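import Pool.Agent.Run7.h768.CMAlg
import Pool.Agent.Run7.h768.CoordRing

/-! Polynomial extensions of a line and a plane are not Cohen-Macaulay. -/

set_option linter.unusedSectionVars false
set_option linter.unusedVariables false

noncomputable section

namespace Pool.Agent.Run7.h768

open MvPolynomial

theorem isPrime_map_C {B ι : Type} [CommRing B] (P : Ideal B) [P.IsPrime] :
    (P.map (C : B →+* MvPolynomial ι B)).IsPrime := by
  have h1 : P.map (C : B →+* MvPolynomial ι B) =
      RingHom.ker (map (Ideal.Quotient.mk P) : MvPolynomial ι B →+* MvPolynomial ι (B ⧸ P)) := by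
    rw [MvPolynomial.ker_map, Ideal.mk_ker]
  rw [h1]
  exact RingHom.ker_isPrime _

theorem map_C_lt {B ι : Type} [CommRing B] {P Q : Ideal B} (h : P < Q) :
    P.map (C : B →+* MvPolynomial ι B) < Q.map (C : B →+* MvPolynomial ι B) := by
  refine lt_of_le_of_ne (Ideal.map_mono h.le) ?_
  intro he
  apply h.not_ge
  intro x hx
  have h1 : (C x : MvPolynomial ι B) ∈ P.map (C : B →+* MvPolynomial ι B) := by
    rw [he]
    exact Ideal.mem_map_of_mem _ hx
  rw [MvPolynomial.mem_map_C_iff] at h1
  have := h1 0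
  simpa using this

theorem not_cm_of_line_plane {B : Type} [CommRing B] [IsNoetherianRing B] (N : ℕ) (y0 y1 y2 : B)
    (h01 : y0 * y1 = 0) (h02 : y0 * y2 = 0) (P0 P1 P2 : Ideal B) [P0.IsPrime] [P1.IsPrime]
    [P2.IsPrime] (hP01 : P0 < P1) (hP12 : P1 < P2) (m0 : y0 ∈ P2) (m1 : y1 ∈ P2) (m2 : y2 ∈ P2)
    (B1 : ∀ F ∈ P2, ∃ s, s ∉ P2 ∧ s * F ∈ Ideal.span {y0, y1, y2})
    (B2 : ∀ t, t * y0 = 0 → t ∈ P2) :
    ∃ (P : Ideal (MvPolynomial (Fin N) B)) (_ : P.IsPrime),
      ¬ IsCMLocal (Localization.AtPrime P) := by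
  have hP : (P2.map (C : B →+* MvPolynomial (Fin N) B)).IsPrime := isPrime_map_C P2
  refine ⟨P2.map C, hP, ?_⟩
  set P := P2.map (C : B →+* MvPolynomial (Fin N) B) with hPdef
  let al := (algebraMap (MvPolynomial (Fin N) B) (Localization.AtPrime P))
  have hCs : ∀ s : B, s ∉ P2 → IsUnit (al (C s)) := by
    intro s hs
    apply IsLocalization.map_units (Localization.AtPrime P) (⟨C s, ?_⟩ : P.primeCompl)
    intro h
    have h1 : (C s : MvPolynomial (Fin N) B) ∈ P := h
    rw [hPdef, MvPolynomial.mem_map_C_iff] at h1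
    have := h1 0
    rw [coeff_C, if_pos rfl] at this
    exact hs this
  have hmax : IsLocalRing.maximalIdeal (Localization.AtPrime P) =
      Ideal.span {al (C y0), al (C y1), al (C y2)} := by
    rw [← Localization.AtPrime.map_eq_maximalIdeal]
    have hPm : P.map al = P2.map (al.comp C) := by
      rw [← Ideal.map_map]
    change P.map al = _
    rw [hPm]
    apply le_antisymm
    · rw [Ideal.map_le_iff_le_comap]
      intro F hF
      obtain ⟨s, hs, hsF⟩ := B1 F hF
      rw [Ideal.mem_comap]
      obtain ⟨u, hu⟩ := hCs s hs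
      have h1 : al (C (s * F)) ∈ Ideal.span {al (C y0), al (C y1), al (C y2)} := by
        have h2 := Ideal.mem_map_of_mem (al.comp C) hsF
        rw [Ideal.map_span] at h2
        have h3 : (al.comp C) '' {y0, y1, y2} = {al (C y0), al (C y1), al (C y2)} := by
          rw [Set.image_insert_eq, Set.image_insert_eq, Set.image_singleton]
          rfl
        rw [h3] at h2
        exact h2
      have h4 : al (C F) = (↑u⁻¹ : Localization.AtPrime P) * al (C (s * F)) := by
        rw [C_mul, map_mul, ← hu, ← mul_assoc, Units.inv_mul, one_mul]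
      change al (C F) ∈ _
      rw [h4]
      exact Ideal.mul_mem_left _ _ h1
    · rw [Ideal.span_le]
      intro x hx
      simp only [Set.mem_insert_iff, Set.mem_singleton_iff] at hx
      rcases hx with rfl | rfl | rfl
      · exact Ideal.mem_map_of_mem _ m0
      · exact Ideal.mem_map_of_mem _ m1
      · exact Ideal.mem_map_of_mem _ m2
  have hy0 : al (C y0) ≠ 0 := by
    intro h
    rw [IsLocalization.map_eq_zero_iff P.primeCompl (Localization.AtPrime P)] at h
    obtain ⟨⟨t, ht⟩, h⟩ := h
    apply ht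
    change t ∈ P
    rw [hPdef, MvPolynomial.mem_map_C_iff]
    intro m
    apply B2
    have h1 : coeff m (C y0 * t) = 0 := by
      have h2 : C y0 * t = 0 := by
        first
          | exact h
          | (rw [mul_comm]; exact h)
      rw [h2, coeff_zero]
    rwa [coeff_C_mul, mul_comm] at h1
  have hdim : (2 : ℕ∞) ≤ P.height := by
    have i0 : (P0.map (C : B →+* MvPolynomial (Fin N) B)).IsPrime := isPrime_map_C P0
    have i1 : (P1.map (C : B →+* MvPolynomial (Fin N) B)).IsPrime := isPrime_map_C P1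
    have h1 := Ideal.height_add_one_le_of_lt_of_isPrime (map_C_lt (ι := Fin N) hP01)
    have h2 := Ideal.height_add_one_le_of_lt_of_isPrime (map_C_lt (ι := Fin N) hP12)
    have h3 : (0 : ℕ∞) + 1 + 1 ≤ P.height :=
      (add_le_add_left ((add_le_add_left (bot_le) 1).trans h1) 1).trans h2
    exact h3
  rintro ⟨rs, hreg, hlen⟩
  have h1 := depth_le_one (al (C y0)) (al (C y1)) (al (C y2)) hmax
    (by rw [← map_mul, ← C_mul, h01, C_0, map_zero])
    (by rw [← map_mul, ← C_mul, h02, C_0, map_zero]) hy0 rs hreg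
  rw [IsLocalization.AtPrime.ringKrullDim_eq_height P (Localization.AtPrime P)] at hlen
  have h2 : ((rs.length : ℕ∞) : WithBot ℕ∞) = (P.height : WithBot ℕ∞) := by
    rw [← hlen]
    rfl
  have h3 : (rs.length : ℕ∞) = P.height := WithBot.coe_injective h2
  rw [← h3] at hdim
  have h4 : 2 ≤ rs.length := by exact_mod_cast hdim
  omega

/-- Being Cohen-Macaulay at all primes is invariant under ring isomorphisms. -/
theorem exists_not_cm_of_equiv {A A' : Type} [CommRing A] [CommRing A'] (E : A ≃+* A')
    (h : ∃ (P : Ideal A') (_ : P.IsPrime), ¬ IsCMLocal (Localization.AtPrime P)) :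
    ∃ (P : Ideal A) (_ : P.IsPrime), ¬ IsCMLocal (Localization.AtPrime P) := by
  obtain ⟨P, hP, h⟩ := h
  have hQ : (P.comap E).IsPrime := Ideal.comap_isPrime E P
  refine ⟨P.comap E, hQ, ?_⟩
  rintro ⟨rs, h1, h2⟩
  apply h
  have e : Localization.AtPrime (P.comap E) ≃+* Localization.AtPrime P :=
    IsLocalization.ringEquivOfRingEquiv (Localization.AtPrime (P.comap E))
      (Localization.AtPrime P) E (E.map_primeCompl_comap_eq P)
  refine ⟨rs.map e, ?_, ?_⟩
  · refine (AddEquiv.isRegular_congr (e := e.toAddEquiv) (as := rs) (bs := rs.map e) ?_).1 h1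
    apply List.forall₂_map_right_iff.mpr
    apply List.forall₂_same.mpr
    intro r _ x
    change e (r * x) = e r * e x
    rw [map_mul]
  · rw [List.length_map, h2, ringKrullDim_eq_of_ringEquiv e]

end Pool.Agent.Run7.h768
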