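import Pool.Agent.Run7.h768.MurphyDef

/-! Cohen-Macaulay and Gorenstein local rings and closed subsets of the flag variety. -/

noncomputable section

namespace Pool.Agent.Run7.h768

/-- A Noetherian local ring is Cohen-Macaulay: there is a regular sequence of length equal to the
Krull dimension (`IsRegular` includes that the sequence does not generate the unit ideal, so it
lies in the maximal ideal). -/
def IsCMLocal (R : Type) [CommRing R] : Prop :=
  ∃ rs : List R, RingTheory.Sequence.IsRegular R rs ∧ (rs.length : WithBot ℕ∞) = ringKrullDim R

/-- A Noetherian local ring is Gorenstein: there is a regular sequence `rs` of length equal to the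
Krull dimension such that the Artinian ring `R/(rs)` has a one dimensional socle: there is `u`
outside `(rs)` such that the elements `v` with `m v ⊆ (rs)` are exactly the elements of
`R u + (rs)`, where `m` is the maximal ideal (the set of nonunits). -/
def IsGorensteinLocal (R : Type) [CommRing R] : Prop :=
  ∃ rs : List R, RingTheory.Sequence.IsRegular R rs ∧
    (rs.length : WithBot ℕ∞) = ringKrullDim R ∧
    ∃ u : R, u ∉ Ideal.ofList rs ∧ ∀ v : R,
      (∀ x : R, ¬ IsUnit x → x * v ∈ Ideal.ofList rs) ↔ v ∈ Ideal.span {u} ⊔ Ideal.ofList rs

/-- All local rings of the closed set `Y` (reduced structure) have the property `Q`: in the affine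
chart around each point `gB` of `Y`, all localizations of the coordinate ring of `Y` at prime
ideals have the property. -/
def AllLocal {n : ℕ} (Q : ∀ (R : Type) [CommRing R], Prop) (Y : Set (Flag n)) : Prop :=
  ∀ g : GL (Fin n) ℂ, (g : Flag n) ∈ Y →
    ∀ (P : Ideal (MvPolynomial (LowIdx n) ℂ ⧸ chartIdeal Y g)) (_ : P.IsPrime),
      Q (Localization.AtPrime P)

/-- `Y` is Cohen-Macaulay. -/
def IsCM {n : ℕ} (Y : Set (Flag n)) : Prop := AllLocal (fun R _ => IsCMLocal R) Y

/-- `Y` is Gorenstein. -/
def IsGorenstein {n : ℕ} (Y : Set (Flag n)) : Prop := AllLocal (fun R _ => IsGorensteinLocal R) Y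

end Pool.Agent.Run7.h768
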