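import Pool.Agent.Run7.h768.CMRing

/-! Cohen-Macaulayness and Gorensteinness of closures of Springer cells encode solvability. -/

set_option linter.unusedSectionVars false
set_option linter.unusedVariables false
set_option linter.unusedSimpArgs false

noncomputable section

namespace Pool.Agent.Run7.h768

open MvPolynomial

theorem net_cm' {V G L : Type} [Fintype V] [Fintype G] [Fintype L] [DecidableEq V] [DecidableEq G]
    [DecidableEq L] {σ : Type} (N : Net V G L) (Au : L → V → MvPolynomial σ ℤ) :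
    ∃ (n : ℕ) (w : Equiv.Perm (Fin n)) (X : Matrix (Fin n) (Fin n) (MvPolynomial σ ℤ)) (NN : ℕ),
      (∀ a a' : σ → ℂ, ∃ g : GL (Fin n) ℂ,
        special X a' = g.1 * special X a * (g⁻¹ : GL (Fin n) ℂ).1) ∧
      ∀ a : σ → ℂ,
        (∀ i j, j ≤ i → special X a i j = 0) ∧
        ((permMat w : GL (Fin n) ℂ) : Flag n) ∈ SpringerFiber (special X a) ∧
        ((∀ z, N.Sys (fun l v => MvPolynomial.aeval a (Au l v)) z → z = 0) →
          IsGorenstein (cellClosure w (special X a))) ∧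
        (ExNotCM (MvPolynomial (Fin NN) (MvPolynomial V ℂ ⧸ MvPolynomial.vanishingIdeal ℂ
                {z : V → ℂ | N.Sys (fun l v => MvPolynomial.aeval a (Au l v)) z})) →
          ¬ IsCM (cellClosure w (special X a))) := by
  obtain ⟨w, e, NN, hmain⟩ := net_chart2 N
  have hsp : ∀ a : σ → ℂ, special (Xf (cfam N Au) e) a =
      Xf (cfam N (fun l v => (MvPolynomial.aeval a (Au l v) : ℂ))) e := by
    intro a
    have h1 := XX_map (MvPolynomial.aeval a : MvPolynomial σ ℤ →ₐ[ℤ] ℂ).toRingHom (cfam N Au)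
    rw [cfam_map] at h1
    exact (congrArg (fun M => Matrix.submatrix M e.symm e.symm) h1).symm
  refine ⟨nn V G L, w, Xf (cfam N Au) e, NN, ?_, ?_⟩
  · intro a a'
    rw [hsp, hsp]
    exact XX_conj e _ _ (fun j => cond_good _ _ _) (fun j => cond_good _ _ _)
  · intro a
    rw [hsp]
    obtain ⟨h1, h2, h3, h4, h5⟩ := hmain (fun l v => (MvPolynomial.aeval a (Au l v) : ℂ))
    exact ⟨h1, h2, h4, h5⟩

theorem cm_main (q d c : ℕ) :
    ∃ (n : ℕ) (w : Equiv.Perm (Fin n))
      (X : Matrix (Fin n) (Fin n) (MvPolynomial (Fin c × (Fin q → Fin (d + 1))) ℤ)),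
      (∀ a a' : Fin c × (Fin q → Fin (d + 1)) → ℂ, ∃ g : GL (Fin n) ℂ,
        special X a' = g.1 * special X a * (g⁻¹ : GL (Fin n) ℂ).1) ∧
      ∀ a : Fin c × (Fin q → Fin (d + 1)) → ℂ,
        (∀ i j, j ≤ i → special X a i j = 0) ∧
        ((permMat w : GL (Fin n) ℂ) : Flag n) ∈ SpringerFiber (special X a) ∧
        (IsCM (cellClosure w (special X a)) ↔
          ¬ ∃ x : Fin q → ℂ, ∀ l : Fin c, polyVal (fun α => a (l, α)) x = 0) ∧
        (IsGorenstein (cellClosure w (special X a)) ↔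
          ¬ ∃ x : Fin q → ℂ, ∀ l : Fin c, polyVal (fun α => a (l, α)) x = 0) := by
  classical
  obtain ⟨n, w, X, NN, hconj, hX⟩ := net_cm' (net3 (c := c) q d)
    (coefA3 fun l α => MvPolynomial.X (l, α))
  refine ⟨n, w, X, hconj, fun a => ?_⟩
  obtain ⟨h1, h2, h4, h5⟩ := hX a
  have hA : (fun l v => (MvPolynomial.aeval a ((coefA3 (q := q) (d := d) (c := c)
      (fun l α => (MvPolynomial.X (l, α) : MvPolynomial (Fin c × (Fin q → Fin (d + 1))) ℤ))) l v)
        : ℂ)) = coefA3 fun l α => a (l, α) := by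
    funext l v
    rcases v with i | α | u
    · simp [coefA3]
    · simp [coefA3]
    · simp [coefA3]
  rw [hA] at h4 h5
  have hG : (¬ ∃ x : Fin q → ℂ, ∀ l : Fin c, polyVal (fun α => a (l, α)) x = 0) →
      IsGorenstein (cellClosure w (special X a)) := by
    intro hno
    refine h4 fun z hz => ?_
    rcases sys_cases3 hz with h | ⟨h, _⟩
    · exact h
    · exact absurd ⟨fun i => z (wx i), h⟩ hno
  have hC : IsCM (cellClosure w (special X a)) →
      ¬ ∃ x : Fin q → ℂ, ∀ l : Fin c, polyVal (fun α => a (l, α)) x = 0 := by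
    rintro hCM ⟨x, hx⟩
    exact h5 (notCM_of_sol (fun l α => a (l, α)) x hx NN) hCM
  exact ⟨h1, h2, ⟨hC, fun h => cm_of_gor (hG h)⟩, ⟨fun h => hC (cm_of_gor h), hG⟩⟩

end Pool.Agent.Run7.h768
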