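import Pool.Agent.Run7.h768.CaseA

/-! The closure contains parabolic cosets; the closure when there is only the trivial solution. -/

set_option linter.unusedSectionVars false
set_option linter.unusedVariables false
set_option linter.unusedSimpArgs false

noncomputable section

namespace Pool.Agent.Run7.h768

open Matrix

variable {S : Type} [Fintype S] [DecidableEq S] {h n : ℕ}

variable (c : Fin h → Cond S ℂ) (o : Orders h S (fun j => (c j).s))
  (e τ : (Fin h × KK S) ≃ Fin n)

theorem wLw_mem (he : ∀ x y, e x < e y ↔ o.val x < o.val y)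
    (hτ : ∀ x y, τ x < τ y ↔ o.time x < o.time y) (L : GL (Fin n) ℂ)
    (hL0 : ∀ i j, i < j → (L : Matrix (Fin n) (Fin n) ℂ) i j = 0)
    (hLβ : (L : Matrix (Fin n) (Fin n) ℂ).BlockTriangular fun p : Fin n => tb (τ.symm p)) :
    permMat (wperm e τ) * L * (permMat (wperm e τ))⁻¹ ∈ Borel n := by
  intro i j hij
  have e1 : ∀ i j, (permMat (wperm e τ) * L * (permMat (wperm e τ))⁻¹ : GL (Fin n) ℂ).1 i j =
      L.1 ((wperm e τ).symm i) ((wperm e τ).symm j) := by
    intro i j
    have h1 := mul_permMat (wperm e τ)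
      (permMat (wperm e τ) * L * (permMat (wperm e τ))⁻¹ : GL (Fin n) ℂ).1 i
      ((wperm e τ).symm j)
    rw [Equiv.apply_symm_apply] at h1
    rw [← h1, ← Units.val_mul, inv_mul_cancel_right]
    have h2 := permMat_inv_mul (wperm e τ) (permMat (wperm e τ) * L : GL (Fin n) ℂ).1
      ((wperm e τ).symm i) ((wperm e τ).symm j)
    rw [Equiv.apply_symm_apply] at h2
    rw [← h2, ← Units.val_mul, inv_mul_cancel_left]
  rw [e1]
  set p := (wperm e τ).symm i with hp
  set q := (wperm e τ).symm j with hq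
  have hi : i = e (τ.symm p) := by
    rw [hp]; simp [wperm]
  have hj : j = e (τ.symm q) := by
    rw [hq]; simp [wperm]
  rw [hi, hj, he] at hij
  by_cases h1 : tb (τ.symm q) < tb (τ.symm p)
  · exact hLβ h1
  · have hpq : p ≠ q := by
      rintro h2
      rw [h2] at hij
      exact lt_irrefl _ hij
    rcases lt_or_gt_of_ne hpq with h2 | h2
    · exact hL0 p q h2
    · exfalso
      have h3 : τ (τ.symm q) < τ (τ.symm p) := by simpa using h2
      rw [hτ, o.time_iff] at h3
      rcases h3 with h4 | ⟨_, h4⟩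
      · exact h1 h4
      · omega

/-- the lower unipotent elements of the Levi subgroup act on the cell over a solution -/
theorem pt_mul_L_mem (he : ∀ x y, e x < e y ↔ o.val x < o.val y)
    (hτ : ∀ x y, τ x < τ y ↔ o.time x < o.time y) (hc : ∀ j, (c j).Good)
    {T : Matrix S (Fin 2) ℂ} (hT : ∀ j, (c j).Sol T) (L : GL (Fin n) ℂ)
    (hL0 : ∀ i j, i < j → (L : Matrix (Fin n) (Fin n) ℂ) i j = 0)
    (hLβ : (L : Matrix (Fin n) (Fin n) ℂ).BlockTriangular fun p : Fin n => tb (τ.symm p)) :
    ((pt c e T * permMat (wperm e τ) * L : GL (Fin n) ℂ) : Flag n) ∈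
      SchubertCell (wperm e τ) ∩ SpringerFiber (Xf c e) := by
  have hβ := beta_mono c o τ hτ
  rw [mem_Y_iff]
  refine ⟨pt c e T * (permMat (wperm e τ) * L * (permMat (wperm e τ))⁻¹),
    mul_mem (pt_mem_borel c o e he hc hT) (wLw_mem c o e τ he hτ L hL0 hLβ), 1, one_mem _,
    by group, ?_⟩
  have e1 : pt c e T * (permMat (wperm e τ) * L * (permMat (wperm e τ))⁻¹) * permMat (wperm e τ) =
      pt c e T * permMat (wperm e τ) * L := by group
  rw [e1]
  have e2 : ((pt c e T * permMat (wperm e τ) * L)⁻¹ : GL (Fin n) ℂ).1 * Xf c e *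
      (pt c e T * permMat (wperm e τ) * L : GL (Fin n) ℂ).1 = (L⁻¹ : GL (Fin n) ℂ).1 *
      (((pt c e T * permMat (wperm e τ))⁻¹ : GL (Fin n) ℂ).1 * Xf c e *
        (pt c e T * permMat (wperm e τ)).1) * L.1 := by
    rw [_root_.mul_inv_rev, Units.val_mul, Units.val_mul _ L]
    simp only [Matrix.mul_assoc]
  rw [e2]
  intro i j hij
  apply strict_mul (β := fun p : Fin n => tb (τ.symm p)) (inv_blockTriangular hLβ) ?_ hLβ
  · exact hβ hij.le
  · intro p q hpq
    have h1 := conj_relabel c e τ (pt c e T)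
    have h2 := congrFun (congrFun h1 (τ.symm p)) (τ.symm q)
    rw [Matrix.submatrix_apply, Equiv.apply_symm_apply, Equiv.apply_symm_apply, pt, toGL_inv_sub,
      toGL_sub] at h2
    rw [pt, h2]
    exact GT_strict c hc hT _ _ hpq

/-- parabolic cosets of points of the cell lie in the closure -/
theorem mem_closure_parabolic (he : ∀ x y, e x < e y ↔ o.val x < o.val y)
    (hτ : ∀ x y, τ x < τ y ↔ o.time x < o.time y) (hc : ∀ j, (c j).Good)
    {T : Matrix S (Fin 2) ℂ} (hT : ∀ j, (c j).Sol T) (p : GL (Fin n) ℂ)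
    (hp : (p : Matrix (Fin n) (Fin n) ℂ).BlockTriangular fun p : Fin n => tb (τ.symm p)) :
    ((pt c e T * permMat (wperm e τ) * p : GL (Fin n) ℂ) : Flag n) ∈
      zariskiClosure (SchubertCell (wperm e τ) ∩ SpringerFiber (Xf c e)) := by
  rw [mem_zariskiClosure_iff]
  intro f hf
  apply vanish_of_vanish_LU (fun p : Fin n => tb (τ.symm p)) (beta_mono c o τ hτ) _ f _ p hp
  intro L U hL0 hL1 hLβ hU
  apply hf
  rw [coe_mul_borel _ _ hU]
  exact pt_mul_L_mem c o e τ he hτ hc hT L hL0 hLβ

theorem closure_of_trivial (he : ∀ x y, e x < e y ↔ o.val x < o.val y)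
    (hτ : ∀ x y, τ x < τ y ↔ o.time x < o.time y) (hc : ∀ j, (c j).Good)
    (j0 : Fin h) (hQ0 : (c j0).Q = 1) (hα0 : (c j0).α = 0)
    (H2 : ∀ T, (∀ j, (c j).α = 0 → dot (app (c j).φ T) ((c j).col 0) = 0) →
      ∀ j, dot (app (c j).α T) ((c j).col 1) = 0)
    (h0 : ∀ T, (∀ j, (c j).Sol T) → T = 0) (g : GL (Fin n) ℂ) :
    (g : Flag n) ∈ zariskiClosure (SchubertCell (wperm e τ) ∩ SpringerFiber (Xf c e)) ↔
      (((permMat (wperm e τ))⁻¹ * g : GL (Fin n) ℂ) : Matrix (Fin n) (Fin n) ℂ).BlockTriangular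
        fun p : Fin n => tb (τ.symm p) := by
  have hβ := beta_mono c o τ hτ
  apply closure_eq_parabolic (fun p : Fin n => tb (τ.symm p)) hβ
  · intro g hg
    rw [mem_Y_iff] at hg
    obtain ⟨b, hb, b', hb', rfl, hX⟩ := hg
    have e1 : (permMat (wperm e τ))⁻¹ * (b * permMat (wperm e τ) * b') =
      (permMat (wperm e τ))⁻¹ * (b * permMat (wperm e τ)) * b' := by group
    rw [e1, Units.val_mul]
    apply Matrix.BlockTriangular.mul
    · intro p q hpq
      rw [Units.val_mul, permMat_inv_mul, Units.val_mul, mul_permMat]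
      -- analysis
      rw [← submatrix_blockTriangular hτ, conj_relabel] at hX
      have hbT : (b.1.submatrix e e).BlockTriangular o.val :=
        (submatrix_blockTriangular he _).2 hb
      have hbiT : ((b⁻¹ : GL (Fin n) ℂ).1.submatrix e e).BlockTriangular o.val :=
        (submatrix_blockTriangular he _).2 (inv_mem hb)
      have hbbi : b.1.submatrix e e * (b⁻¹ : GL (Fin n) ℂ).1.submatrix e e = 1 := by
        rw [← sub_mul, ← Units.val_mul, mul_inv_cancel, Units.val_one, sub_one]
      obtain ⟨T, hT, hK⟩ := analysis c hc o j0 hQ0 hα0 H2 hbbi hbT hbiT hX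
      have hT0 := h0 T hT
      subst hT0
      have hpq' : tb (τ.symm q) < tb (τ.symm p) := hpq
      have hwx : wperm e τ p = e (τ.symm p) := rfl
      have hwy : wperm e τ q = e (τ.symm q) := rfl
      rw [hwx, hwy]
      change (b.1.submatrix e e) (τ.symm p) (τ.symm q) = 0
      clear hwx hwy hpq
      generalize τ.symm p = x at hpq' ⊢
      generalize τ.symm q = y at hpq' ⊢
      rename' hpq' => hpq
      obtain ⟨j, a⟩ := x
      obtain ⟨k, d⟩ := y
      rcases lt_trichotomy j k with h1 | h1 | h1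
      · exfalso
        rcases a with r | i <;> rcases d with r' | i' <;>
          simp only [tb_inl, tb_inr] at hpq <;> have h2 : (j : ℕ) < k := h1 <;> omega
      · subst h1
        rcases a with r | i <;> rcases d with r' | i'
        · simp only [tb_inl, lt_self_iff_false] at hpq
        · obtain ⟨K, _, hK⟩ := hK j
          obtain ⟨W, hW⟩ : ∃ W : Matrix (KK S) (Fin 2) ℂ, W = stack (0 : Matrix S (Fin 2) ℂ) := ⟨_, rfl⟩
          rw [← hW] at hK
          have h3 : colP (bl (b.1.submatrix e e) j j) = (c j).gamInv * (W * K) := by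
            rw [← hK, ← Matrix.mul_assoc, (hc j).gamInv_mul, Matrix.one_mul]
          have h4 := congrFun (congrFun h3 (Sum.inl r)) i'
          have h5 : ((c j).gamInv * (W * K)) (Sum.inl r) i' = 0 := by
            rw [Matrix.mul_apply, Fintype.sum_sum_type]
            have h6 : ∀ x : S, (W * K) (Sum.inl x) i' = 0 := by
              intro x
              simp [hW, Matrix.mul_apply, stack]
            simp [h6, Cond.gamInv]
          rw [h5] at h4
          exact h4
        · simp only [tb_inl, tb_inr] at hpq; omega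
        · simp only [tb_inr, lt_self_iff_false] at hpq
      · exact hbT (o.val_blk (k, d) (j, a) h1)
    · intro p q hpq
      apply hb'
      by_contra hc'
      exact absurd (hβ (not_lt.1 hc')) (not_le.2 hpq)
  · intro L hL0 hL1 hLβ
    have := pt_mul_L_mem c o e τ he hτ hc (T := 0) (fun j => Sol_zero (c j)) L hL0 hLβ
    rw [pt_zero c e hc, one_mul] at this
    exact this

end Pool.Agent.Run7.h768
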