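import Pool.Agent.Run7.h768.CaseA

/-! Case B: a nodal family of solutions makes the closure singular. -/

set_option linter.unusedSectionVars false
set_option linter.unusedVariables false
set_option linter.unusedSimpArgs false

noncomputable section

namespace Pool.Agent.Run7.h768

open Matrix

/-- the universal matrix of the chart -/
def lowPoly (n : ℕ) : Matrix (Fin n) (Fin n) (MvPolynomial (LowIdx n) ℂ) :=
  Matrix.of fun i j => if h : j < i then MvPolynomial.X ⟨(i, j), h⟩ else if i = j then 1 else 0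

theorem eval_lowPoly {n : ℕ} (y : LowIdx n → ℂ) (i j : Fin n) :
    MvPolynomial.eval y (lowPoly n i j) = lowMat y i j := by
  simp only [lowPoly, lowMat, Matrix.of_apply]
  split_ifs <;> simp

/-- restriction of a polynomial on matrices to the chart around `g` -/
def toChart {n : ℕ} (g : GL (Fin n) ℂ) (f : MvPolynomial (Fin n × Fin n) ℂ) :
    MvPolynomial (LowIdx n) ℂ :=
  MvPolynomial.aeval (fun ij => ∑ k, MvPolynomial.C (g.1 ij.1 k) * lowPoly n k ij.2) f

theorem eval_toChart {n : ℕ} (g : GL (Fin n) ℂ) (f : MvPolynomial (Fin n × Fin n) ℂ)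
    (y : LowIdx n → ℂ) :
    MvPolynomial.eval y (toChart g f) = MvPolynomial.eval (entries (g * lowUni y)) f := by
  have : ((MvPolynomial.eval y).comp (MvPolynomial.aeval
      (fun ij : Fin n × Fin n => ∑ k, MvPolynomial.C (g.1 ij.1 k) * lowPoly n k ij.2)
        : MvPolynomial (Fin n × Fin n) ℂ →ₐ[ℂ] MvPolynomial (LowIdx n) ℂ).toRingHom)
      = (MvPolynomial.eval (entries (g * lowUni y)) : MvPolynomial (Fin n × Fin n) ℂ →+* ℂ) := by
    apply MvPolynomial.ringHom_ext
    · intro r
      simp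
    · intro ij
      simp only [RingHom.coe_comp, Function.comp_apply, AlgHom.toRingHom_eq_coe, RingHom.coe_coe,
        MvPolynomial.aeval_X, map_sum, map_mul, MvPolynomial.eval_C, MvPolynomial.eval_X,
        eval_lowPoly]
      rfl
  exact congrArg (fun g => g f) this

theorem singular_of_curves {n : ℕ} {Y : Set (Flag n)} {g : GL (Fin n) ℂ} (hg : (g : Flag n) ∈ Y)
    (F : Bool → MvPolynomial (Fin n × Fin n) ℂ)
    (hF : ∀ x : GL (Fin n) ℂ, (x : Flag n) ∈ Y → MvPolynomial.eval (entries x) (F true) *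
      MvPolynomial.eval (entries x) (F false) = 0)
    (γ : Bool → LowIdx n → Polynomial ℂ) (hγ0 : ∀ b k, (γ b k).eval 0 = 0)
    (hγ : ∀ b s, ((g * lowUni (fun k => (γ b k).eval s) : GL (Fin n) ℂ) : Flag n) ∈ Y)
    (hne : ∀ b, ∃ s, MvPolynomial.eval (entries (g * lowUni (fun k => (γ b k).eval s))) (F b) ≠ 0) :
    IsSingularAt (zariskiClosure Y) g := by
  apply singular_of_zero_divisors (subset_zariskiClosure Y hg) (fun b => toChart g (F b)) _ γ hγ0
  · intro b s
    exact subset_zariskiClosure Y (hγ b s)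
  · intro b h0
    obtain ⟨s, hs⟩ := hne b
    apply hs
    rw [← eval_toChart, ← eval_aeval_poly, h0, Polynomial.eval_zero]
  · intro y hy
    have h1 := (mem_zariskiClosure_iff Y (g * lowUni y)).1 hy (F true * F false) (by
      intro x hx
      rw [map_mul]
      exact hF x hx)
    rw [MvPolynomial.aeval_eq_eval, map_mul]
    change MvPolynomial.eval y (toChart g (F true)) * MvPolynomial.eval y (toChart g (F false)) = 0
    rw [eval_toChart, eval_toChart, ← map_mul]
    exact h1

variable {S : Type} [Fintype S] [DecidableEq S] {h n : ℕ}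

variable (c : Fin h → Cond S ℂ) (o : Orders h S (fun j => (c j).s))
  (e τ : (Fin h × KK S) ≃ Fin n)

/-- linear forms in the entries -/
def PF (hpos : 0 < h) (a : KK S) (i : Fin 2) : MvPolynomial (Fin n × Fin n) ℂ :=
  ∑ a', MvPolynomial.C ((c ⟨0, hpos⟩).gam a a') *
    MvPolynomial.X (e (⟨0, hpos⟩, a'), τ (⟨0, hpos⟩, Sum.inr i))

/-- a minor -/
def FM (hpos : 0 < h) (r : S) : MvPolynomial (Fin n × Fin n) ℂ :=
  PF c e τ hpos (Sum.inl r) 0 * PF c e τ hpos (Sum.inr 1) 1 -
    PF c e τ hpos (Sum.inl r) 1 * PF c e τ hpos (Sum.inr 1) 0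

theorem eval_PF (hpos : 0 < h) (hτ : ∀ x y, τ x < τ y ↔ o.time x < o.time y)
    (b b' : GL (Fin n) ℂ) (hb' : b' ∈ Borel n)
    (T : Matrix S (Fin 2) ℂ) (K : Matrix (Fin 2) (Fin 2) ℂ)
    (hK : (c ⟨0, hpos⟩).gam * colP (bl (b.1.submatrix e e) ⟨0, hpos⟩ ⟨0, hpos⟩) = stack T * K)
    (a : KK S) (i : Fin 2) :
    MvPolynomial.eval (entries (b * permMat (wperm e τ) * b')) (PF c e τ hpos a i) =
      (stack T * (K * (Matrix.of fun i' i => b'.1 (τ (⟨0, hpos⟩, Sum.inr i'))
        (τ (⟨0, hpos⟩, Sum.inr i))))) a i := by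
  obtain ⟨B', hB'⟩ : ∃ B' : Matrix (Fin 2) (Fin 2) ℂ, B' = (Matrix.of fun i' i =>
    b'.1 (τ (⟨0, hpos⟩, Sum.inr i')) (τ (⟨0, hpos⟩, Sum.inr i))) := ⟨_, rfl⟩
  rw [← hB', ← Matrix.mul_assoc, ← hK]
  have hent : ∀ a', (b * permMat (wperm e τ) * b' : GL (Fin n) ℂ).1 (e (⟨0, hpos⟩, a'))
      (τ (⟨0, hpos⟩, Sum.inr i)) =
      (colP (bl (b.1.submatrix e e) ⟨0, hpos⟩ ⟨0, hpos⟩) * B') a' i := by
    intro a'
    rw [Units.val_mul, Matrix.mul_apply, Matrix.mul_apply, ← Equiv.sum_comp τ,
      Fintype.sum_prod_type, Finset.sum_eq_single ⟨0, hpos⟩]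
    · rw [Fintype.sum_sum_type, Finset.sum_eq_zero, zero_add]
      · apply Finset.sum_congr rfl
        intro i' _
        rw [Units.val_mul, mul_permMat, hB']
        simp only [wperm, Equiv.trans_apply, Equiv.symm_apply_apply]
        rfl
      · intro r _
        have : b'.1 (τ (⟨0, hpos⟩, Sum.inl r)) (τ (⟨0, hpos⟩, Sum.inr i)) = 0 := by
          apply hb'
          rw [hτ, o.time_iff]
          left
          simp
        rw [this, mul_zero]
    · intro j _ hj
      apply Finset.sum_eq_zero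
      intro a'' _
      have : b'.1 (τ (j, a'')) (τ (⟨0, hpos⟩, Sum.inr i)) = 0 := by
        apply hb'
        rw [hτ, o.time_iff]
        left
        have h1 : 0 < (j : ℕ) := by
          rcases Nat.eq_zero_or_pos (j : ℕ) with h2 | h2
          · exact absurd (Fin.ext h2) hj
          · exact h2
        rcases a'' with r | i'
        · simp
        · simpa using h1
      rw [this, mul_zero]
    · intro hx
      exact absurd (Finset.mem_univ _) hx
  rw [PF, map_sum, Matrix.mul_assoc, Matrix.mul_apply]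
  apply Finset.sum_congr rfl
  intro a' _
  rw [map_mul, MvPolynomial.eval_C, MvPolynomial.eval_X, ← hent]
  rfl

theorem eval_FM (hpos : 0 < h) (hτ : ∀ x y, τ x < τ y ↔ o.time x < o.time y)
    (b b' : GL (Fin n) ℂ) (hb' : b' ∈ Borel n)
    (T : Matrix S (Fin 2) ℂ) (K : Matrix (Fin 2) (Fin 2) ℂ)
    (hK : (c ⟨0, hpos⟩).gam * colP (bl (b.1.submatrix e e) ⟨0, hpos⟩ ⟨0, hpos⟩) = stack T * K)
    (r : S) :
    MvPolynomial.eval (entries (b * permMat (wperm e τ) * b')) (FM c e τ hpos r) =
      T r 0 * (K * (Matrix.of fun i' i => b'.1 (τ (⟨0, hpos⟩, Sum.inr i'))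
        (τ (⟨0, hpos⟩, Sum.inr i)))).det := by
  rw [FM, map_sub, map_mul, map_mul]
  simp only [eval_PF c o e τ hpos hτ b b' hb' T K hK]
  obtain ⟨B', hB'⟩ : ∃ B' : Matrix (Fin 2) (Fin 2) ℂ, B' = (K * Matrix.of fun i' i =>
    b'.1 (τ (⟨0, hpos⟩, Sum.inr i')) (τ (⟨0, hpos⟩, Sum.inr i))) := ⟨_, rfl⟩
  rw [← hB']
  have h1 : ∀ i, (stack T * B') (Sum.inl r) i = T r 0 * B' 0 i + T r 1 * B' 1 i := by
    intro i
    rw [Matrix.mul_apply, Fin.sum_univ_two]
    rfl
  have h2 : ∀ i, (stack T * B') (Sum.inr 1) i = B' 1 i := by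
    intro i
    rw [Matrix.mul_apply, Fin.sum_univ_two]
    simp [stack]
  rw [h1, h1, h2, h2, Matrix.det_fin_two]
  ring

theorem Cond_map_map (d : Cond S ℂ) (s : ℂ) :
    (d.map (Polynomial.C : ℂ →+* Polynomial ℂ)).map (Polynomial.evalRingHom s) = d := by
  cases d
  simp only [Cond.map, Cond.mk.injEq, Polynomial.coe_evalRingHom, Polynomial.eval_C, true_and]
  refine ⟨?_, ?_⟩ <;>
  · ext i j
    simp

theorem eval_nu (d : Cond S ℂ) (Tp : Matrix S (Fin 2) (Polynomial ℂ)) (s : ℂ) (r : S) (i : Fin 2) :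
    ((d.map (Polynomial.C : ℂ →+* Polynomial ℂ)).nu Tp r i).eval s =
      d.nu (Tp.map (Polynomial.eval s)) r i := by
  have h1 := nu_map (Polynomial.evalRingHom s) (d.map (Polynomial.C : ℂ →+* Polynomial ℂ)) Tp
  rw [Cond_map_map] at h1
  exact (congrFun (congrFun h1 r) i).symm

theorem singular_of_nodal (he : ∀ x y, e x < e y ↔ o.val x < o.val y)
    (hτ : ∀ x y, τ x < τ y ↔ o.time x < o.time y) (hc : ∀ j, (c j).Good)
    (j0 : Fin h) (hQ0 : (c j0).Q = 1) (hα0 : (c j0).α = 0)
    (H2 : ∀ T, (∀ j, (c j).α = 0 → dot (app (c j).φ T) ((c j).col 0) = 0) →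
      ∀ j, dot (app (c j).α T) ((c j).col 1) = 0)
    (T0 : Matrix S (Fin 2) ℂ) (Tp : Bool → Matrix S (Fin 2) (Polynomial ℂ))
    (hTp0 : ∀ b, (Tp b).map (Polynomial.eval 0) = T0)
    (hTp : ∀ b s j, (c j).Sol ((Tp b).map (Polynomial.eval s)))
    (r : Bool → S) (hr : ∀ T, (∀ j, (c j).Sol T) → T (r true) 0 * T (r false) 0 = 0)
    (hne : ∀ b, ∃ s, ((Tp b) (r b) 0).eval s ≠ 0) :
    IsSingular (zariskiClosure (SchubertCell (wperm e τ) ∩ SpringerFiber (Xf c e))) := by
  have hpos : 0 < h := lt_of_le_of_lt (Nat.zero_le _) j0.2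
  have hT0 : ∀ j, (c j).Sol T0 := by
    intro j
    rw [← hTp0 true]
    exact hTp true 0 j
  refine ⟨pt c e T0 * permMat (wperm e τ), ?_⟩
  let γ : Bool → LowIdx n → Polynomial ℂ := fun b k =>
    if (τ.symm k.1.1).1 = (τ.symm k.1.2).1 then
      (Matrix.fromBlocks 0 (((c (τ.symm k.1.1).1).map (Polynomial.C : ℂ →+* Polynomial ℂ)).nu (Tp b)
        - ((c (τ.symm k.1.1).1).nu T0).map Polynomial.C) 0 0 :
        Matrix (KK S) (KK S) (Polynomial ℂ)) (τ.symm k.1.1).2 (τ.symm k.1.2).2
    else 0
  have hγev : ∀ b s k, (γ b k).eval s = if (τ.symm k.1.1).1 = (τ.symm k.1.2).1 then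
      (Matrix.fromBlocks 0 ((c (τ.symm k.1.1).1).nu ((Tp b).map (Polynomial.eval s))
        - (c (τ.symm k.1.1).1).nu T0) 0 0 :
        Matrix (KK S) (KK S) ℂ) (τ.symm k.1.1).2 (τ.symm k.1.2).2
    else 0 := by
    intro b s k
    simp only [γ]
    split_ifs with h1
    · rcases (τ.symm k.1.1).2 with r | i <;> rcases (τ.symm k.1.2).2 with r' | i'
      · simp
      · rw [Matrix.fromBlocks_apply₁₂, Matrix.fromBlocks_apply₁₂, Matrix.sub_apply,
          Matrix.sub_apply, Polynomial.eval_sub, eval_nu, Matrix.map_apply, Polynomial.eval_C]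
      · simp
      · simp
    · simp
  -- the curve in the group
  have hcurve : ∀ b s, pt c e T0 * permMat (wperm e τ) * lowUni (fun k => (γ b k).eval s) =
      pt c e ((Tp b).map (Polynomial.eval s)) * permMat (wperm e τ) := by
    intro b s
    have h1 : lowUni (fun k => (γ b k).eval s) =
        (permMat (wperm e τ))⁻¹ * ((pt c e T0)⁻¹ * pt c e ((Tp b).map (Polynomial.eval s)) *
          permMat (wperm e τ)) := by
      apply Units.ext
      ext p q
      rw [Units.val_mul, permMat_inv_mul, Units.val_mul, mul_permMat]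
      have h2 : ((pt c e T0)⁻¹ * pt c e ((Tp b).map (Polynomial.eval s)) : GL (Fin n) ℂ).1
          (wperm e τ p) (wperm e τ q) =
          (GTi c T0 * GT c ((Tp b).map (Polynomial.eval s))) (τ.symm p) (τ.symm q) := by
        change (((pt c e T0)⁻¹ * pt c e ((Tp b).map (Polynomial.eval s)) : GL (Fin n) ℂ).1.submatrix
          e e) (τ.symm p) (τ.symm q) = _
        rw [Units.val_mul, sub_mul, pt, pt, toGL_inv_sub, toGL_sub]
      rw [h2, GTi_mul_GT, coe_lowUni, lowMat, Matrix.of_apply]
      change _ = bl (diagBl _) (τ.symm p).1 (τ.symm q).1 (τ.symm p).2 (τ.symm q).2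
      rw [bl_diagBl]
      -- case analysis
      by_cases h3 : (τ.symm p).1 = (τ.symm q).1
      · rw [if_pos h3]
        by_cases h4 : q < p
        · rw [dif_pos h4, hγev]
          dsimp only
          rw [if_pos h3]
          have hne : (τ.symm p).2 ≠ (τ.symm q).2 := by
            intro h5
            have h6 : τ.symm p = τ.symm q := Prod.ext h3 h5
            rw [τ.symm.injective h6] at h4
            exact lt_irrefl _ h4
          revert hne
          rcases (τ.symm p).2 with r | i <;> rcases (τ.symm q).2 with r' | i' <;> intro hne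
          · have : r ≠ r' := fun h => hne (by rw [h])
            simp [this]
          · simp
          · simp
          · have : i ≠ i' := fun h => hne (by rw [h])
            simp [this]
        · rw [dif_neg h4]
          by_cases h5 : p = q
          · subst h5
            rw [if_pos rfl]
            rcases (τ.symm p).2 with r | i <;> simp
          · rw [if_neg h5]
            have h6 : p < q := lt_of_le_of_ne (not_lt.1 h4) h5
            have h7 : τ (τ.symm p) < τ (τ.symm q) := by simpa using h6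
            rw [hτ, o.time_iff] at h7
            have hne : τ.symm p ≠ τ.symm q := fun h => h5 (τ.symm.injective h)
            revert h7 h3 hne
            generalize τ.symm p = x
            generalize τ.symm q = y
            obtain ⟨j, a⟩ := x
            obtain ⟨k, d⟩ := y
            intro h3 h7 hne
            dsimp only at h3
            subst h3
            dsimp only
            rcases a with r | i <;> rcases d with r' | i'
            · have : r ≠ r' := fun h => hne (by rw [h])
              simp [this]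
            · exfalso
              simp only [tb_inl, tb_inr] at h7
              omega
            · simp
            · have : i ≠ i' := fun h => hne (by rw [h])
              simp [this]
      · rw [if_neg h3]
        have hpq : p ≠ q := fun h => h3 (by rw [h])
        by_cases h4 : q < p
        · rw [dif_pos h4, hγev]
          dsimp only
          rw [if_neg h3]
          rfl
        · rw [dif_neg h4, if_neg hpq]
          rfl
    rw [h1]
    group
  apply singular_of_curves (pt_mem c o e τ he hτ hc hT0) (fun b => FM c e τ hpos (r b)) ?_ γ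
  · intro b k
    rw [hγev, hTp0]
    split_ifs with h1
    · rcases (τ.symm k.1.1).2 with r | i <;> rcases (τ.symm k.1.2).2 with r' | i' <;> simp
    · rfl
  · intro b s
    rw [hcurve]
    exact pt_mem c o e τ he hτ hc (hTp b s)
  · intro b
    obtain ⟨s, hs⟩ := hne b
    refine ⟨s, ?_⟩
    rw [hcurve]
    have h1 := eval_FM c o e τ hpos hτ (pt c e ((Tp b).map (Polynomial.eval s))) 1 (one_mem _)
      ((Tp b).map (Polynomial.eval s)) ((c ⟨0, hpos⟩).C2 ((Tp b).map (Polynomial.eval s))) (by
        rw [pt, toGL_sub, GT, bl_diagBl, if_pos rfl, colP_nuB (hc _) (hTp b s _),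
          (hc _).gam_mul_ech]) (r b)
    rw [mul_one] at h1
    rw [h1]
    have h2 : (Matrix.of fun i' i => (1 : GL (Fin n) ℂ).1 (τ (⟨0, hpos⟩, Sum.inr i'))
        (τ (⟨0, hpos⟩, Sum.inr i)) : Matrix (Fin 2) (Fin 2) ℂ) = 1 := by
      ext i j
      simp [Matrix.one_apply]
    rw [h2, Matrix.mul_one, det_C2]
    apply mul_ne_zero
    · exact hs
    · intro h3
      have h4 : ((c ⟨0, hpos⟩).Q * (c ⟨0, hpos⟩).Qi).det = 1 := by
        rw [(hc _).hQ, Matrix.det_one]
      rw [Matrix.det_mul, h3, zero_mul] at h4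
      exact zero_ne_one h4
  · intro x hx
    rw [mem_Y_iff] at hx
    obtain ⟨b, hb, b', hb', rfl, hX⟩ := hx
    rw [← submatrix_blockTriangular hτ, conj_relabel] at hX
    have hbT : (b.1.submatrix e e).BlockTriangular o.val :=
      (submatrix_blockTriangular he _).2 hb
    have hbiT : ((b⁻¹ : GL (Fin n) ℂ).1.submatrix e e).BlockTriangular o.val :=
      (submatrix_blockTriangular he _).2 (inv_mem hb)
    have hbbi : b.1.submatrix e e * (b⁻¹ : GL (Fin n) ℂ).1.submatrix e e = 1 := by
      rw [← sub_mul, ← Units.val_mul, mul_inv_cancel, Units.val_one, sub_one]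
    obtain ⟨T, hT, hK⟩ := analysis c hc o j0 hQ0 hα0 H2 hbbi hbT hbiT hX
    obtain ⟨K, _, hK0⟩ := hK ⟨0, hpos⟩
    rw [eval_FM c o e τ hpos hτ b b' hb' T K hK0, eval_FM c o e τ hpos hτ b b' hb' T K hK0]
    have := hr T hT
    linear_combination (K * (Matrix.of fun i' i => b'.1 (τ (⟨0, hpos⟩, Sum.inr i'))
        (τ (⟨0, hpos⟩, Sum.inr i)))).det ^ 2 * this

end Pool.Agent.Run7.h768
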