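import Pool.Agent.Run7.h768.Analysis

/-! Existence of the two orders. -/

set_option linter.unusedSectionVars false
set_option linter.unusedVariables false
set_option linter.unusedSimpArgs false

noncomputable section

namespace Pool.Agent.Run7.h768

variable {S : Type} [Fintype S] [DecidableEq S] {h : ℕ}

/-- order inside a block -/
def rho (s : S) (a : KK S) : ℕ :=
  Sum.elim (fun r => if r = s then Fintype.card S + 1 else (Fintype.equivFin S r : ℕ))
    (fun i => if i = 0 then Fintype.card S else Fintype.card S + 2) a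

theorem rho_lt (s : S) (a : KK S) : rho s a < Fintype.card S + 3 := by
  rcases a with r | i
  · simp only [rho, Sum.elim_inl]
    have := (Fintype.equivFin S r).2
    split_ifs <;> omega
  · simp only [rho, Sum.elim_inr]
    split_ifs <;> omega

theorem rho_inj (s : S) : Function.Injective (rho s) := by
  intro a b hab
  rcases a with r | i <;> rcases b with r' | i' <;>
    simp only [rho, Sum.elim_inl, Sum.elim_inr] at hab
  · have h1 := (Fintype.equivFin S r).2
    have h2 := (Fintype.equivFin S r').2
    by_cases h3 : r = s <;> by_cases h4 : r' = s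
    · rw [h3, h4]
    · rw [if_pos h3, if_neg h4] at hab; omega
    · rw [if_neg h3, if_pos h4] at hab; omega
    · rw [if_neg h3, if_neg h4] at hab
      rw [(Fintype.equivFin S).injective (Fin.ext hab)]
  · have h1 := (Fintype.equivFin S r).2
    exfalso
    split_ifs at hab <;> omega
  · have h1 := (Fintype.equivFin S r').2
    exfalso
    split_ifs at hab <;> omega
  · fin_cases i <;> fin_cases i' <;> simp at hab ⊢

def valF (s : Fin h → S) (x : Fin h × KK S) : ℕ :=
  (x.1 : ℕ) * (Fintype.card S + 3) + rho (s x.1) x.2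

theorem valF_blk (s : Fin h → S) (x y : Fin h × KK S) (hxy : x.1 < y.1) :
    valF s x < valF s y := by
  have h1 := rho_lt (s x.1) x.2
  have h2 : (x.1 : ℕ) + 1 ≤ y.1 := hxy
  have h3 : ((x.1 : ℕ) + 1) * (Fintype.card S + 3) ≤ (y.1 : ℕ) * (Fintype.card S + 3) :=
    Nat.mul_le_mul_right _ h2
  rw [Nat.add_mul, Nat.one_mul] at h3
  simp only [valF]
  omega

theorem valF_inj (s : Fin h → S) : Function.Injective (valF s) := by
  intro x y hxy
  rcases lt_trichotomy x.1 y.1 with h1 | h1 | h1
  · exact absurd hxy (valF_blk s x y h1).ne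
  · simp only [valF, h1] at hxy
    have h2 : rho (s y.1) x.2 = rho (s y.1) y.2 := by omega
    exact Prod.ext h1 (rho_inj _ h2)
  · exact absurd hxy (valF_blk s y x h1).ne'

theorem valF_lt (s : Fin h → S) (x : Fin h × KK S) : valF s x < h * (Fintype.card S + 3) := by
  have h1 := rho_lt (s x.1) x.2
  have h2 : (x.1 : ℕ) + 1 ≤ h := x.1.2
  have h3 : ((x.1 : ℕ) + 1) * (Fintype.card S + 3) ≤ h * (Fintype.card S + 3) :=
    Nat.mul_le_mul_right _ h2
  rw [Nat.add_mul, Nat.one_mul] at h3
  simp only [valF]
  omega

def timeF (s : Fin h → S) (x : Fin h × KK S) : ℕ :=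
  tb x * (h * (Fintype.card S + 3)) + (h * (Fintype.card S + 3) - 1 - valF s x)

theorem timeF_iff (s : Fin h → S) (x y : Fin h × KK S) :
    timeF s x < timeF s y ↔ tb x < tb y ∨ (tb x = tb y ∧ valF s y < valF s x) := by
  have h1 := valF_lt s x
  have h2 := valF_lt s y
  simp only [timeF]
  generalize h * (Fintype.card S + 3) = N at *
  rcases lt_trichotomy (tb x) (tb y) with h3 | h3 | h3
  · have h4 : (tb x + 1) * N ≤ tb y * N := Nat.mul_le_mul_right _ h3
    rw [Nat.add_mul, Nat.one_mul] at h4
    omega
  · rw [h3]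
    omega
  · have h4 : (tb y + 1) * N ≤ tb x * N := Nat.mul_le_mul_right _ h3
    rw [Nat.add_mul, Nat.one_mul] at h4
    omega

theorem timeF_inj (s : Fin h → S) : Function.Injective (timeF s) := by
  intro x y hxy
  have h1 : ¬ (timeF s x < timeF s y) := hxy.not_lt
  have h2 : ¬ (timeF s y < timeF s x) := hxy.not_gt
  rw [timeF_iff] at h1 h2
  apply valF_inj s
  push Not at h1 h2
  have h3 : tb x = tb y := le_antisymm h2.1 h1.1
  have h4 := h1.2 h3
  have h5 := h2.2 h3.symm
  exact le_antisymm h4 h5

def theOrders (s : Fin h → S) : Orders h S s where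
  val := valF s
  time := timeF s
  val_inj := valF_inj s
  time_inj := timeF_inj s
  val_blk := valF_blk s
  val1 := by
    intro j r hr
    have h1 := (Fintype.equivFin S r).2
    simp only [valF, rho, Sum.elim_inl, Sum.elim_inr, if_neg hr, if_true]
    omega
  val2 := by
    intro j
    simp [valF, rho]
  val3 := by
    intro j
    simp [valF, rho]
  time_iff := timeF_iff s

end Pool.Agent.Run7.h768
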