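import Pool.Agent.Run7.h768.PolySys
import Pool.Agent.Run7.h768.OrdersEx
import Pool.Agent.Run7.h768.CaseB

/-! Singularity of closures of Springer cells encodes solvability of polynomial systems. -/

set_option linter.unusedSectionVars false
set_option linter.unusedVariables false
set_option linter.unusedSimpArgs false

noncomputable section

namespace Pool.Agent.Run7.h768

open Matrix

section net

variable {V G L : Type} [Fintype V] [Fintype G] [Fintype L] [DecidableEq V] [DecidableEq G]
  [DecidableEq L]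

/-- number of blocks -/
def hh (V G L : Type) [Fintype V] [Fintype G] [Fintype L] : ℕ := Fintype.card (CI V G L)

def enumC (V G L : Type) [Fintype V] [Fintype G] [Fintype L] : CI V G L ≃ Fin (hh V G L) :=
  Fintype.equivFin _

def cfam {R : Type} [CommRing R] (N : Net V G L) (A : L → V → R) :
    Fin (hh V G L) → Cond (SS V G L) R := fun j => cond N A ((enumC V G L).symm j)

/-- size of the matrices -/
def nn (V G L : Type) [Fintype V] [Fintype G] [Fintype L] : ℕ :=
  Fintype.card (Fin (hh V G L) × KK (SS V G L))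

theorem cfam_map {R R' : Type} [CommRing R] [CommRing R'] (f : R →+* R') (N : Net V G L)
    (A : L → V → R) : (fun j => (cfam N A j).map f) = cfam N (fun l v => f (A l v)) := by
  funext j
  exact cond_map f N A _

theorem XX_upper {S : Type} [Fintype S] [DecidableEq S] {h n : ℕ} {s : Fin h → S}
    (o : Orders h S s) (e : (Fin h × KK S) ≃ Fin n) (he : ∀ x y, e x < e y ↔ o.val x < o.val y)
    (c : Fin h → Cond S ℂ) (i j : Fin n) (hij : j ≤ i) : Xf c e i j = 0 := by
  rw [Xf, Matrix.submatrix_apply]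
  by_contra hne
  have h1 : ((e.symm j).1 : ℕ) = ((e.symm i).1 : ℕ) + 1 := by
    by_contra h2
    apply hne
    have h3 := bl_XX c (e.symm i).1 (e.symm j).1
    rw [if_neg h2] at h3
    exact congrFun (congrFun h3 (e.symm i).2) (e.symm j).2
  have h2 : o.val (e.symm i) < o.val (e.symm j) := by
    apply o.val_blk
    rw [Fin.lt_def]
    omega
  rw [← he] at h2
  simp only [Equiv.apply_symm_apply] at h2
  exact absurd h2 (not_lt.2 hij)

theorem XX_conj {S : Type} [Fintype S] [DecidableEq S] {h n : ℕ}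
    (e : (Fin h × KK S) ≃ Fin n)
    (c c' : Fin h → Cond S ℂ) (hc : ∀ j, (c j).Good) (hc' : ∀ j, (c' j).Good) :
    ∃ g : GL (Fin n) ℂ, Xf c' e = g.1 * Xf c e * (g⁻¹ : GL (Fin n) ℂ).1 := by
  have h1 : diagBl (fun j => (c' j).gamInv * (c j).gam) * diagBl (fun j => (c j).gamInv * (c' j).gam)
      = 1 := by
    rw [diagBl_mul_diagBl, ← diagBl_one]
    congr 1
    funext j
    rw [Matrix.mul_assoc, ← Matrix.mul_assoc (c j).gam, (hc j).gam_mul, Matrix.one_mul,
      (hc' j).gamInv_mul]
  refine ⟨toGL e _ _ h1, ?_⟩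
  have h2 : XX c' = diagBl (fun j => (c' j).gamInv * (c j).gam) * XX c *
      diagBl (fun j => (c j).gamInv * (c' j).gam) := by
    apply ext_bl
    intro j k
    rw [bl_mul_diagBl, bl_diagBl_mul, bl_XX, bl_XX]
    by_cases hjk : (k : ℕ) = (j : ℕ) + 1
    · rw [if_pos hjk, if_pos hjk]
      have e1 : (c' j).gamInv * (c j).gam * ((c j).gamInv * (c k).gam) *
          ((c k).gamInv * (c' k).gam) = (c' j).gamInv * ((c j).gam * (c j).gamInv) *
          ((c k).gam * (c k).gamInv) * (c' k).gam := by
        simp only [Matrix.mul_assoc]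
      rw [e1, (hc j).gam_mul, (hc k).gam_mul, Matrix.mul_one, Matrix.mul_one]
    · rw [if_neg hjk, if_neg hjk, mul_zero, zero_mul]
  have h3 : Xf c' e = (toGL e _ _ h1).1 * Xf c e * ((toGL e _ _ h1)⁻¹ : GL (Fin n) ℂ).1 := by
    change (XX c').submatrix e.symm e.symm = _
    rw [h2]
    change _ = (diagBl (fun j => (c' j).gamInv * (c j).gam)).submatrix e.symm e.symm *
      (XX c).submatrix e.symm e.symm *
      (diagBl (fun j => (c j).gamInv * (c' j).gam)).submatrix e.symm e.symm
    rw [Matrix.submatrix_mul_equiv, Matrix.submatrix_mul_equiv]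
  exact h3

/-- Main theorem for gate systems with a nodal pair of variables. -/
theorem net_main (N : Net V G L) :
    ∃ (w : Equiv.Perm (Fin (nn V G L)))
      (e : (Fin (hh V G L) × KK (SS V G L)) ≃ Fin (nn V G L)),
      ∀ A : L → V → ℂ,
        (∀ i j, j ≤ i → Xf (cfam N A) e i j = 0) ∧
        ((permMat w : GL (Fin (nn V G L)) ℂ) : Flag (nn V G L)) ∈ SpringerFiber (Xf (cfam N A) e) ∧
        ((∀ z, N.Sys A z → z = 0) →
          ¬ IsSingular (zariskiClosure (SchubertCell w ∩ SpringerFiber (Xf (cfam N A) e)))) ∧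
        (∀ (v : Bool → V) (z0 : V → ℂ) (zp : Bool → V → Polynomial ℂ),
          (∀ b v, (zp b v).eval 0 = z0 v) →
          (∀ b s, N.Sys A fun v => (zp b v).eval s) →
          (∀ z, N.Sys A z → z (v true) * z (v false) = 0) →
          (∀ b, ∃ s, (zp b (v b)).eval s ≠ 0) →
          IsSingular (zariskiClosure (SchubertCell w ∩ SpringerFiber (Xf (cfam N A) e)))) := by
  let s : Fin (hh V G L) → SS V G L := fun j => piv N ((enumC V G L).symm j)
  let o := theOrders s
  obtain ⟨e, he⟩ := exists_enum o.val o.val_inj (nn V G L) rfl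
  obtain ⟨τ, hτ⟩ := exists_enum o.time o.time_inj (nn V G L) rfl
  refine ⟨wperm e τ, e, fun A => ?_⟩
  have hc : ∀ j, (cfam N A j).Good := fun j => cond_good N A _
  let j0 := enumC V G L (Sum.inr (Sum.inr (Sum.inr ())))
  have hj0 : cfam N A j0 = cond N A (Sum.inr (Sum.inr (Sum.inr ()))) := by
    simp [cfam, j0]
  have hQ0 : (cfam N A j0).Q = 1 := by rw [hj0]; rfl
  have hα0 : (cfam N A j0).α = 0 := by rw [hj0]; rfl
  have hall : ∀ (P : Cond (SS V G L) ℂ → Prop), (∀ j, P (cfam N A j)) → ∀ i, P (cond N A i) := by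
    intro P hP i
    have := hP (enumC V G L i)
    simpa [cfam] using this
  have H2 : ∀ T, (∀ j, (cfam N A j).α = 0 →
      dot (app (cfam N A j).φ T) ((cfam N A j).col 0) = 0) →
      ∀ j, dot (app (cfam N A j).α T) ((cfam N A j).col 1) = 0 := by
    intro T hT j
    exact H2_holds N A T (hall (fun x => x.α = 0 → dot (app x.φ T) (x.col 0) = 0) hT) _
  refine ⟨XX_upper o e he (cfam N A), (base_mem (cfam N A) o e τ he hτ hc).2, ?_, ?_⟩
  · intro hz
    apply not_singular_of_trivial (cfam N A) o e τ he hτ hc j0 hQ0 hα0 H2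
    intro T hT
    obtain ⟨z, hz', rfl⟩ := Sys_of_Sol (hall (fun x => x.Sol T) hT)
    rw [hz z hz']
    ext r i
    rcases r with v | v | g | l
    · rfl
    · fin_cases i <;> rfl
    · fin_cases i <;> rfl
    · rfl
  · intro v z0 zp h0 hs hn hne
    have hmap : ∀ b s, (Tz N (zp b)).map (Polynomial.eval s) = Tz N fun v => (zp b v).eval s := by
      intro b s
      ext r i
      rcases r with v | v | g | l
      · rfl
      · fin_cases i <;> simp [Tz]
      · fin_cases i <;> simp [Tz]
      · simp [Tz]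
    apply singular_of_nodal (cfam N A) o e τ he hτ hc j0 hQ0 hα0 H2 (Tz N z0)
      (fun b => Tz N (zp b)) ?_ ?_ (fun b => cc (v b)) ?_ ?_
    · intro b
      rw [hmap]
      congr 1
      funext v
      exact h0 b v
    · intro b s j
      rw [hmap]
      exact Sol_of_Sys (hs b s) _
    · intro T hT
      obtain ⟨z, hz', rfl⟩ := Sys_of_Sol (hall (fun x => x.Sol T) hT)
      exact hn z hz'
    · intro b
      exact hne b

/-- specialization of a matrix of integer polynomials in the coefficients -/
def special {n : ℕ} {σ : Type} (X : Matrix (Fin n) (Fin n) (MvPolynomial σ ℤ)) (a : σ → ℂ) :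
    Matrix (Fin n) (Fin n) ℂ := X.map (MvPolynomial.aeval a)

theorem net_main' {σ : Type} (N : Net V G L) (Au : L → V → MvPolynomial σ ℤ) :
    ∃ (n : ℕ) (w : Equiv.Perm (Fin n)) (X : Matrix (Fin n) (Fin n) (MvPolynomial σ ℤ)),
      (∀ a a' : σ → ℂ, ∃ g : GL (Fin n) ℂ,
        special X a' = g.1 * special X a * (g⁻¹ : GL (Fin n) ℂ).1) ∧
      ∀ a : σ → ℂ,
        (∀ i j, j ≤ i → special X a i j = 0) ∧
        ((permMat w : GL (Fin n) ℂ) : Flag n) ∈ SpringerFiber (special X a) ∧
        ((∀ z, N.Sys (fun l v => MvPolynomial.aeval a (Au l v)) z → z = 0) →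
          ¬ IsSingular (zariskiClosure (SchubertCell w ∩ SpringerFiber (special X a)))) ∧
        (∀ (v : Bool → V) (z0 : V → ℂ) (zp : Bool → V → Polynomial ℂ),
          (∀ b v, (zp b v).eval 0 = z0 v) →
          (∀ b s, N.Sys (fun l v => MvPolynomial.aeval a (Au l v)) fun v => (zp b v).eval s) →
          (∀ z, N.Sys (fun l v => MvPolynomial.aeval a (Au l v)) z →
            z (v true) * z (v false) = 0) →
          (∀ b, ∃ s, (zp b (v b)).eval s ≠ 0) →
          IsSingular (zariskiClosure (SchubertCell w ∩ SpringerFiber (special X a)))) := by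
  obtain ⟨w, e, hmain⟩ := net_main N
  have hsp : ∀ a : σ → ℂ, special (Xf (cfam N Au) e) a =
      Xf (cfam N (fun l v => (MvPolynomial.aeval a (Au l v) : ℂ))) e := by
    intro a
    have h1 := XX_map (MvPolynomial.aeval a : MvPolynomial σ ℤ →ₐ[ℤ] ℂ).toRingHom (cfam N Au)
    rw [cfam_map] at h1
    exact (congrArg (fun M => Matrix.submatrix M e.symm e.symm) h1).symm
  refine ⟨nn V G L, w, Xf (cfam N Au) e, ?_, ?_⟩
  · intro a a'
    rw [hsp, hsp]
    exact XX_conj e _ _ (fun j => cond_good _ _ _) (fun j => cond_good _ _ _)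
  · intro a
    rw [hsp]
    exact hmain _

end net

/-- The value at `x` of the polynomial with coefficients `a`, of degree at most `d` in each of the
`q` variables. -/
def polyVal {q d : ℕ} (a : (Fin q → Fin (d + 1)) → ℂ) (x : Fin q → ℂ) : ℂ :=
  ∑ α, a α * ∏ k, x k ^ (α k : ℕ)

theorem main (q d c : ℕ) :
    ∃ (n : ℕ) (w : Equiv.Perm (Fin n))
      (X : Matrix (Fin n) (Fin n) (MvPolynomial (Fin c × (Fin q → Fin (d + 1))) ℤ)),
      (∀ a a' : Fin c × (Fin q → Fin (d + 1)) → ℂ, ∃ g : GL (Fin n) ℂ,
        special X a' = g.1 * special X a * (g⁻¹ : GL (Fin n) ℂ).1) ∧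
      ∀ a : Fin c × (Fin q → Fin (d + 1)) → ℂ,
        (∀ i j, j ≤ i → special X a i j = 0) ∧
        ((permMat w : GL (Fin n) ℂ) : Flag n) ∈ SpringerFiber (special X a) ∧
        (IsSingular (zariskiClosure (SchubertCell w ∩ SpringerFiber (special X a))) ↔
          ∃ x : Fin q → ℂ, ∀ l : Fin c, polyVal (fun α => a (l, α)) x = 0) := by
  classical
  obtain ⟨n, w, X, hconj, hX⟩ := net_main' (net (c := c) q d)
    (coefA fun l α => MvPolynomial.X (l, α))
  refine ⟨n, w, X, hconj, fun a => ?_⟩
  obtain ⟨h1, h2, h3, h4⟩ := hX a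
  have hA : (fun l v => (MvPolynomial.aeval a ((coefA (q := q) (d := d) (c := c)
      (fun l α => (MvPolynomial.X (l, α) : MvPolynomial (Fin c × (Fin q → Fin (d + 1))) ℤ))) l v)
        : ℂ)) = coefA fun l α => a (l, α) := by
    funext l v
    rcases v with i | α | u
    · simp [coefA]
    · simp [coefA]
    · simp [coefA]
  rw [hA] at h3 h4
  refine ⟨h1, h2, ?_⟩
  constructor
  · intro hs
    by_contra hno
    apply h3 _ hs
    intro z hz
    rcases sys_cases hz with h | ⟨h, _⟩
    · exact h
    · exact absurd ⟨fun i => z (vx i), h⟩ hno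
  · rintro ⟨x, hx⟩
    have hp : ∀ (t : Bool → Polynomial ℂ) (s : ℂ) (v : PV q d),
        (zsol (fun i => Polynomial.C (x i)) t v).eval s = zsol x (fun b => (t b).eval s) v := by
      intro t s v
      rcases v with i | α | b | u
      · simp [zsol]
      · simp [zsol, Polynomial.eval_prod]
      · simp [zsol]
      · simp [zsol]
    apply h4 (fun b => vy b) (zsol x fun _ => 0)
      (fun b => zsol (fun i => Polynomial.C (x i)) (fun b' => if b = b' then Polynomial.X else 0))
    · intro b v
      rw [hp]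
      congr 1
      funext b'
      by_cases hb : b = b' <;> simp [hb]
    · intro b s
      simp only [hp]
      apply zsol_sys
      · cases b <;> simp
      · exact hx
    · intro z hz
      rcases sys_cases hz with h | ⟨_, h⟩
      · rw [h]; simp
      · exact h
    · intro b
      refine ⟨1, ?_⟩
      rw [hp]
      simp [zsol]

end Pool.Agent.Run7.h768
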