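import Pool.Agent.Run7.h768.ChartC
import Pool.Agent.Run7.h768.Main

/-! Every affine algebraic set occurs, up to an affine space, in the chart around `w`. -/

set_option linter.unusedSectionVars false
set_option linter.unusedVariables false
set_option linter.unusedSimpArgs false

noncomputable section

namespace Pool.Agent.Run7.h768

open Matrix

section alg

/-- the kernel of a character is generated by generators of the algebra in it -/
theorem ker_eq_span {A : Type} [CommRing A] [Algebra ℂ A] {I : Type} (g : I → A)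
    (hg : Algebra.adjoin ℂ (Set.range g) = ⊤) (ε : A →ₐ[ℂ] ℂ) (h : ∀ i, ε (g i) = 0) :
    RingHom.ker ε = Ideal.span (Set.range g) := by
  apply le_antisymm
  · intro a ha
    have key : ∀ a : A, a - algebraMap ℂ A (ε a) ∈ Ideal.span (Set.range g) := by
      intro a
      have ha : a ∈ Algebra.adjoin ℂ (Set.range g) := by rw [hg]; exact Algebra.mem_top
      induction ha using Algebra.adjoin_induction with
      | mem x hx =>
        obtain ⟨i, rfl⟩ := hx
        rw [h, map_zero, sub_zero]
        exact Ideal.subset_span ⟨i, rfl⟩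
      | algebraMap r => simp
      | add x y _ _ hx hy =>
        have e : x + y - algebraMap ℂ A (ε (x + y)) =
          (x - algebraMap ℂ A (ε x)) + (y - algebraMap ℂ A (ε y)) := by
          rw [map_add, map_add]
          ring
        rw [e]
        exact Ideal.add_mem _ hx hy
      | mul x y _ _ hx hy =>
        have e : x * y - algebraMap ℂ A (ε (x * y)) =
          (x - algebraMap ℂ A (ε x)) * y + algebraMap ℂ A (ε x) * (y - algebraMap ℂ A (ε y)) := by
          rw [map_mul, map_mul]
          ring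
        rw [e]
        exact Ideal.add_mem _ (Ideal.mul_mem_right _ _ hx) (Ideal.mul_mem_left _ _ hy)
    have h1 := key a
    rw [RingHom.mem_ker] at ha
    have h2 : ε a = 0 := ha
    rw [h2, map_zero, sub_zero] at h1
    exact h1
  · rw [Ideal.span_le]
    rintro _ ⟨i, rfl⟩
    exact h i

end alg

section

variable {S : Type} [Fintype S] [DecidableEq S] {h n : ℕ}

theorem adjoin_mk {σ : Type} (I : Ideal (MvPolynomial σ ℂ)) :
    Algebra.adjoin ℂ (Set.range fun k => (Ideal.Quotient.mk I (MvPolynomial.X k))) = ⊤ := by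
  have h1 : (Set.range fun k => (Ideal.Quotient.mk I (MvPolynomial.X k))) =
      (Ideal.Quotient.mkₐ ℂ I) '' (Set.range (MvPolynomial.X : σ → MvPolynomial σ ℂ)) := by
    ext x
    constructor
    · rintro ⟨k, rfl⟩
      exact ⟨_, ⟨k, rfl⟩, rfl⟩
    · rintro ⟨_, ⟨k, rfl⟩, rfl⟩
      exact ⟨k, rfl⟩
  rw [h1, ← AlgHom.map_adjoin, MvPolynomial.adjoin_range_X, Algebra.map_top]
  exact (AlgHom.range_eq_top _).2 Ideal.Quotient.mk_surjective

theorem adjoin_iter {ι V : Type} (I : Ideal (MvPolynomial V ℂ)) :
    Algebra.adjoin ℂ (Set.range (Sum.elim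
      (fun v : V => (MvPolynomial.C (Ideal.Quotient.mk I (MvPolynomial.X v)) :
        MvPolynomial ι (MvPolynomial V ℂ ⧸ I)))
      (fun i : ι => MvPolynomial.X i))) = ⊤ := by
  rw [eq_top_iff]
  rintro G -
  induction G using MvPolynomial.induction_on with
  | C a =>
    have ha : a ∈ Algebra.adjoin ℂ (Set.range fun k => (Ideal.Quotient.mk I
      (MvPolynomial.X k))) := by rw [adjoin_mk]; exact Algebra.mem_top
    induction ha using Algebra.adjoin_induction with
    | mem x hx =>
      obtain ⟨i, rfl⟩ := hx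
      exact Algebra.subset_adjoin ⟨Sum.inl i, rfl⟩
    | algebraMap r =>
      exact Subalgebra.algebraMap_mem _ r
    | add x y _ _ hx hy =>
      rw [map_add]
      exact Subalgebra.add_mem _ hx hy
    | mul x y _ _ hx hy =>
      rw [map_mul]
      exact Subalgebra.mul_mem _ hx hy
  | add p q hp hq => exact Subalgebra.add_mem _ hp hq
  | mul_X p i hp =>
    exact Subalgebra.mul_mem _ hp (Algebra.subset_adjoin ⟨Sum.inr i, rfl⟩)

end

section net

variable {V G L : Type} [Fintype V] [Fintype G] [Fintype L] [DecidableEq V] [DecidableEq G]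
  [DecidableEq L]

/-- the chart around `w` for gate systems -/
theorem net_chart (N : Net V G L) :
    ∃ (w : Equiv.Perm (Fin (nn V G L)))
      (e : (Fin (hh V G L) × KK (SS V G L)) ≃ Fin (nn V G L)) (NN : ℕ),
      ∀ A : L → V → ℂ,
        (∀ i j, j ≤ i → Xf (cfam N A) e i j = 0) ∧
        ((permMat w : GL (Fin (nn V G L)) ℂ) : Flag (nn V G L)) ∈ SpringerFiber (Xf (cfam N A) e) ∧
        (∀ y, ((permMat w * lowUni y : GL (Fin (nn V G L)) ℂ) : Flag (nn V G L)) ∈
            zariskiClosure (SchubertCell w ∩ SpringerFiber (Xf (cfam N A) e)) ↔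
          ((permMat w * lowUni y : GL (Fin (nn V G L)) ℂ) : Flag (nn V G L)) ∈
            SchubertCell w ∩ SpringerFiber (Xf (cfam N A) e)) ∧
        ∀ (W : Type) [Finite W] (Z : Set (W → ℂ)) (zp : V → MvPolynomial W ℂ) (η : W → V),
          (∀ z ∈ Z, N.Sys A fun v => MvPolynomial.eval z (zp v)) →
          (∀ z', N.Sys A z' → ∃ z ∈ Z, z' = fun v => MvPolynomial.eval z (zp v)) →
          (∀ w, zp (η w) = MvPolynomial.X w) →
          ∃ E : (MvPolynomial (LowIdx (nn V G L)) ℂ ⧸ chartIdeal
              (zariskiClosure (SchubertCell w ∩ SpringerFiber (Xf (cfam N A) e)))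
                (permMat w)) ≃ₐ[ℂ]
              MvPolynomial (Fin NN) (MvPolynomial W ℂ ⧸ MvPolynomial.vanishingIdeal ℂ Z),
            (0 ∈ Z → (∀ v, MvPolynomial.eval 0 (zp v) = 0) →
              (Ideal.span (Set.range fun k => Ideal.Quotient.mk _ (MvPolynomial.X k))).map E =
              Ideal.span (Set.range (fun v => MvPolynomial.C (Ideal.Quotient.mk _
                (MvPolynomial.X v))) ∪ Set.range MvPolynomial.X)) := by
  let s : Fin (hh V G L) → SS V G L := fun j => piv N ((enumC V G L).symm j)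
  let o := theOrders s
  obtain ⟨e, he⟩ := exists_enum o.val o.val_inj (nn V G L) rfl
  obtain ⟨τ, hτ⟩ := exists_enum o.time o.time_inj (nn V G L) rfl
  refine ⟨wperm e τ, e, Fintype.card (LevIdx τ), fun A => ?_⟩
  have hc : ∀ j, (cfam N A j).Good := fun j => cond_good N A _
  let j0 := enumC V G L (Sum.inr (Sum.inr (Sum.inr ())))
  have hj0 : cfam N A j0 = cond N A (Sum.inr (Sum.inr (Sum.inr ()))) := by
    simp [cfam, j0]
  have hQ0 : (cfam N A j0).Q = 1 := by rw [hj0]; rfl
  have hα0 : (cfam N A j0).α = 0 := by rw [hj0]; rfl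
  have hγ0 : (cfam N A j0).gam = 1 := by
    have hE : (cond N A (Sum.inr (Sum.inr (Sum.inr ())))).E = 0 := by
      ext r r'
      simp only [Cond.E, cond, piv, del, Matrix.of_apply, Matrix.zero_apply]
      by_cases h1 : r = cc N.o
      · rw [if_pos h1]
        by_cases h2 : r' = cc N.o
        · rw [if_pos h2, if_pos h2, sub_self]
        · rw [if_neg h2, if_neg h2, sub_self]
      · rw [if_neg h1]
    have hD : (cond N A (Sum.inr (Sum.inr (Sum.inr ())))).D = 0 := by
      ext i r
      simp [Cond.D, cond]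
    have hQ : (cond N A (Sum.inr (Sum.inr (Sum.inr ())))).Q = 1 := rfl
    rw [hj0, Cond.gam, hE, hD, hQ, Matrix.mul_zero, neg_zero, sub_zero, Matrix.fromBlocks_one]
  have hall : ∀ (P : Cond (SS V G L) ℂ → Prop), (∀ j, P (cfam N A j)) → ∀ i, P (cond N A i) := by
    intro P hP i
    have := hP (enumC V G L i)
    simpa [cfam] using this
  have H2 : ∀ T, (∀ j, (cfam N A j).α = 0 →
      dot (app (cfam N A j).φ T) ((cfam N A j).col 0) = 0) →
      ∀ j, dot (app (cfam N A j).α T) ((cfam N A j).col 1) = 0 := by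
    intro T hT j
    exact H2_holds N A T (hall (fun x => x.α = 0 → dot (app x.φ T) (x.col 0) = 0) hT) _
  refine ⟨XX_upper o e he (cfam N A), (base_mem (cfam N A) o e τ he hτ hc).2, ?_, ?_⟩
  · intro y
    constructor
    · intro hy
      obtain ⟨T, hT, hyT⟩ := chart_param (cfam N A) o e τ he hτ hc j0 hQ0 hα0 hγ0 H2 y hy
      have h1 := chart_mem (cfam N A) o e τ he hτ hc hT (fun k => y k.1)
      rw [← hyT] at h1
      have h2 : lowP (lowMat y) = y := by
        funext k
        simp only [lowP, lowMat, Matrix.of_apply]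
        rw [dif_pos k.2]
      rwa [h2] at h1
    · exact fun h => subset_zariskiClosure _ h
  · intro W _ Z zp η h1 h2 h3
    have hTz : ∀ z : W → ℂ, (Tz N zp).map (MvPolynomial.eval z) =
        Tz N fun v => MvPolynomial.eval z (zp v) := by
      intro z
      ext r i
      rcases r with v | v | g | l
      · rfl
      · fin_cases i <;> simp [Tz]
      · fin_cases i <;> simp [Tz]
      · simp [Tz]
    have hZ1 : ∀ z ∈ Z, ∀ j, (cfam N A j).Sol ((Tz N zp).map (MvPolynomial.eval z)) := by
      intro z hz j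
      rw [hTz]
      exact Sol_of_Sys (h1 z hz) _
    obtain ⟨E, hE⟩ := chart_equiv (cfam N A) o e τ he hτ hc j0 hQ0 hα0 hγ0 H2 Z (Tz N zp) hZ1
      (by
        intro T hT
        obtain ⟨z', hz', rfl⟩ := Sys_of_Sol (hall (fun x => x.Sol T) hT)
        obtain ⟨z, hz, rfl⟩ := h2 z' hz'
        exact ⟨z, hz, (hTz z).symm⟩)
      (fun w => MvPolynomial.X (cc (η w), 0))
      (by
        intro z hz v
        simp [Tz, h3])
    refine ⟨E.trans ((MvPolynomial.renameEquiv (MvPolynomial W ℂ ⧸
      MvPolynomial.vanishingIdeal ℂ Z) (Fintype.equivFin (LevIdx τ))).restrictScalars ℂ), ?_⟩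
    intro h0 hzp
    -- the two characters
    have e0 : ∀ k, ev2 (0 : W → ℂ) (0 : LevIdx τ → ℂ) (PhiC (cfam N A) τ (Tz N zp) k) = 0 := by
      intro k
      rw [ev2_PhiC, hTz]
      have h4 : (Tz N fun v => MvPolynomial.eval (0 : W → ℂ) (zp v)) = 0 := by
        simp only [hzp]
        ext r i
        rcases r with v | v | g | l
        · rfl
        · fin_cases i <;> rfl
        · fin_cases i <;> rfl
        · rfl
      rw [h4]
      have h5 : NuM τ (cfam N A) (0 : Matrix (SS V G L) (Fin 2) ℂ) = 1 := by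
        rw [NuM]
        simp only [nu_zero _ (hc _), Matrix.fromBlocks_one]
        rw [diagBl_one]
        exact Matrix.submatrix_one_equiv τ.symm
      have h6 : LvM τ (0 : LevIdx τ → ℂ) = 1 := by
        ext p q
        simp only [LvM, Matrix.of_apply, Matrix.one_apply]
        split_ifs with h7 h8
        · exact absurd h8 (ne_of_gt h7.1)
        · rfl
        · rfl
        · rfl
      rw [PX, h5, h6, Matrix.one_mul, Matrix.one_apply_ne]
      exact ne_of_gt k.2
    let ε' : MvPolynomial (LevIdx τ) (MvPolynomial W ℂ ⧸ MvPolynomial.vanishingIdeal ℂ Z) →ₐ[ℂ] ℂ :=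
      { evZ2 Z h0 (0 : LevIdx τ → ℂ) with
        commutes' := fun r => by
          change evZ2 Z h0 (0 : LevIdx τ → ℂ) (MvPolynomial.C (Ideal.Quotient.mk _
            (MvPolynomial.C r))) = r
          simp [evZ2] }
    have hε' : ∀ x, ε' x = evZ2 Z h0 (0 : LevIdx τ → ℂ) x := fun x => rfl
    have hk' : RingHom.ker ε' = Ideal.span (Set.range (Sum.elim
      (fun v : W => (MvPolynomial.C (Ideal.Quotient.mk (MvPolynomial.vanishingIdeal ℂ Z)
        (MvPolynomial.X v)) :
        MvPolynomial (LevIdx τ) (MvPolynomial W ℂ ⧸ MvPolynomial.vanishingIdeal ℂ Z)))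
      (fun i : LevIdx τ => MvPolynomial.X i))) := by
      apply ker_eq_span (A := MvPolynomial (LevIdx τ) (MvPolynomial W ℂ ⧸
        MvPolynomial.vanishingIdeal ℂ Z)) _
        (adjoin_iter (ι := LevIdx τ) (MvPolynomial.vanishingIdeal ℂ Z)) ε'
      rintro (v | i)
      · rw [hε']
        simp [evZ2]
      · rw [hε']
        simp [evZ2]
    have hk := ker_eq_span _ (adjoin_mk (chartIdeal
              (zariskiClosure (SchubertCell (wperm e τ) ∩ SpringerFiber (Xf (cfam N A) e)))
                (permMat (wperm e τ)))) (ε'.comp E.toAlgHom) (by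
      intro k
      have : (ε'.comp E.toAlgHom) (Ideal.Quotient.mk _ (MvPolynomial.X k)) =
        evZ2 Z h0 (0 : LevIdx τ → ℂ) (theta Z (PhiC (cfam N A) τ (Tz N zp))
          (MvPolynomial.X k)) := by
        rw [← hE]
        rfl
      rw [this, evZ2_theta, MvPolynomial.eval_X, e0])
    rw [← hk]
    -- transport
    have h8 : (RingHom.ker (ε'.comp E.toAlgHom)).map E = RingHom.ker ε' := by
      apply le_antisymm
      · rw [Ideal.map_le_iff_le_comap]
        intro x hx
        exact hx
      · intro x hx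
        have h9 : x = E (E.symm x) := (E.apply_symm_apply x).symm
        rw [h9]
        apply Ideal.mem_map_of_mem
        rw [RingHom.mem_ker]
        change ε' (E (E.symm x)) = 0
        rw [E.apply_symm_apply]
        exact hx
    have h10 : (RingHom.ker (ε'.comp E.toAlgHom)).map
        (E.trans ((MvPolynomial.renameEquiv (MvPolynomial W ℂ ⧸
          MvPolynomial.vanishingIdeal ℂ Z) (Fintype.equivFin (LevIdx τ))).restrictScalars ℂ)) =
        ((RingHom.ker (ε'.comp E.toAlgHom)).map E).map
          (MvPolynomial.renameEquiv (MvPolynomial W ℂ ⧸ MvPolynomial.vanishingIdeal ℂ Z)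
            (Fintype.equivFin (LevIdx τ))) := by
      apply le_antisymm
      · rw [Ideal.map_le_iff_le_comap]
        intro x hx
        exact Ideal.mem_map_of_mem (MvPolynomial.renameEquiv (MvPolynomial W ℂ ⧸
          MvPolynomial.vanishingIdeal ℂ Z) (Fintype.equivFin (LevIdx τ)))
          (Ideal.mem_map_of_mem E hx)
      · rw [Ideal.map_le_iff_le_comap, Ideal.map_le_iff_le_comap]
        intro x hx
        exact Ideal.mem_map_of_mem (E.trans ((MvPolynomial.renameEquiv (MvPolynomial W ℂ ⧸
          MvPolynomial.vanishingIdeal ℂ Z) (Fintype.equivFin (LevIdx τ))).restrictScalars ℂ)) hx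
    rw [h10, h8, hk', Ideal.map_span]
    congr 1
    ext x
    constructor
    · intro hx
      obtain ⟨y, ⟨vi, hvi⟩, hy⟩ := hx
      rcases vi with v | i
      · left
        exact ⟨v, by rw [← hy, ← hvi]; simp⟩
      · right
        exact ⟨Fintype.equivFin (LevIdx τ) i, by rw [← hy, ← hvi]; simp⟩
    · rintro (⟨v, rfl⟩ | ⟨i, rfl⟩)
      · exact ⟨_, ⟨Sum.inl v, rfl⟩, by simp⟩
      · exact ⟨_, ⟨Sum.inr ((Fintype.equivFin (LevIdx τ)).symm i), rfl⟩, by simp⟩

end net

end Pool.Agent.Run7.h768
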