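import Pool.Agent.Run7.h768.CMAlg2
import Pool.Agent.Run7.h768.Murphy
import Pool.Agent.Run7.h768.CaseA2

/-! The chart around `w` for gate systems, and parabolic cosets are Gorenstein. -/

set_option linter.unusedSectionVars false
set_option linter.unusedVariables false
set_option linter.unusedSimpArgs false

noncomputable section

namespace Pool.Agent.Run7.h768

open Matrix

section para

variable {n : ℕ}

theorem gorenstein_of_coord {Y : Set (Flag n)}
    (h : ∀ g : GL (Fin n) ℂ, (g : Flag n) ∈ Y →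
      ∃ Bad : LowIdx n → Prop, chartSet Y g = {y | ∀ k, Bad k → y k = 0}) : IsGorenstein Y := by
  intro g hg P hP
  obtain ⟨Bad, hBad⟩ := h g hg
  have hreg : IsRegularRing (MvPolynomial (LowIdx n) ℂ ⧸ chartIdeal Y g) := by
    unfold chartIdeal
    rw [hBad]
    exact regular_coord Bad
  have := hreg.isRegularLocalRing_localization P
  exact gorenstein_of_regular _

theorem chart_parabolic (β : Fin n → ℕ) (hβ : Monotone β) (g₀ : GL (Fin n) ℂ)
    (Y : Set (Flag n))
    (h : ∀ g : GL (Fin n) ℂ, (g : Flag n) ∈ Y ↔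
      ((g₀⁻¹ * g : GL (Fin n) ℂ) : Matrix (Fin n) (Fin n) ℂ).BlockTriangular β)
    (g : GL (Fin n) ℂ) (hg : (g : Flag n) ∈ Y) :
    ∃ Bad : LowIdx n → Prop, chartSet Y g = {y | ∀ k, Bad k → y k = 0} := by
  rw [h] at hg
  refine ⟨fun k => β k.1.2 < β k.1.1, ?_⟩
  ext y
  simp only [chartSet, Set.mem_ofPred_eq]
  rw [h]
  constructor
  · intro h1 k hk
    have h2 : ((lowUni y : GL (Fin n) ℂ) : Matrix (Fin n) (Fin n) ℂ).BlockTriangular β := by
      have e : (lowUni y : GL (Fin n) ℂ) = (g₀⁻¹ * g)⁻¹ * (g₀⁻¹ * (g * lowUni y)) := by group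
      rw [e, Units.val_mul]
      exact (inv_blockTriangular hg).mul h1
    have h3 := h2 hk
    simp only [coe_lowUni, lowMat, Matrix.of_apply] at h3
    rw [dif_pos k.2] at h3
    exact h3
  · intro h1
    rw [← mul_assoc, Units.val_mul]
    apply hg.mul
    intro i j hij
    simp only [coe_lowUni, lowMat, Matrix.of_apply]
    have h3 : j < i := by
      by_contra hc
      exact absurd (hβ (not_lt.1 hc)) (not_le.2 hij)
    rw [dif_pos h3]
    exact h1 ⟨(i, j), h3⟩ hij

end para

section ex

/-- some localization at a prime is not Cohen-Macaulay -/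
def ExNotCM (A : Type) [CommRing A] : Prop :=
  ∃ (P : Ideal A) (_ : P.IsPrime), ¬ IsCMLocal (Localization.AtPrime P)

theorem exNotCM_of_equiv {A A' : Type} [CommRing A] [CommRing A'] (E : A ≃+* A')
    (h : ExNotCM A') : ExNotCM A := exists_not_cm_of_equiv E h

theorem not_cm_of_chart {n : ℕ} {Y : Set (Flag n)} {g : GL (Fin n) ℂ} (hg : (g : Flag n) ∈ Y)
    (h : ExNotCM (MvPolynomial (LowIdx n) ℂ ⧸ chartIdeal Y g)) : ¬ IsCM Y := by
  obtain ⟨P, hP, h⟩ := h
  intro hC
  exact h (hC g hg P hP)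

theorem cm_of_gor {n : ℕ} {Y : Set (Flag n)} (h : IsGorenstein Y) : IsCM Y := by
  intro g hg P hP
  exact cm_of_gorenstein (h g hg P hP)

end ex

section net

variable {V G L : Type} [Fintype V] [Fintype G] [Fintype L] [DecidableEq V] [DecidableEq G]
  [DecidableEq L]

/-- the chart around `w` for gate systems -/
theorem net_chart2 (N : Net V G L) :
    ∃ (w : Equiv.Perm (Fin (nn V G L)))
      (e : (Fin (hh V G L) × KK (SS V G L)) ≃ Fin (nn V G L)) (NN : ℕ),
      ∀ A : L → V → ℂ,
        (∀ i j, j ≤ i → Xf (cfam N A) e i j = 0) ∧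
        ((permMat w : GL (Fin (nn V G L)) ℂ) : Flag (nn V G L)) ∈ SpringerFiber (Xf (cfam N A) e) ∧
        ((permMat w : GL (Fin (nn V G L)) ℂ) : Flag (nn V G L)) ∈
          zariskiClosure (SchubertCell w ∩ SpringerFiber (Xf (cfam N A) e)) ∧
        ((∀ z, N.Sys A z → z = 0) →
          IsGorenstein (zariskiClosure (SchubertCell w ∩ SpringerFiber (Xf (cfam N A) e)))) ∧
        (ExNotCM (MvPolynomial (Fin NN) (MvPolynomial V ℂ ⧸ MvPolynomial.vanishingIdeal ℂ
                {z : V → ℂ | N.Sys A z})) →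
          ¬ IsCM (zariskiClosure (SchubertCell w ∩ SpringerFiber (Xf (cfam N A) e)))) := by
  let s : Fin (hh V G L) → SS V G L := fun j => piv N ((enumC V G L).symm j)
  let o := theOrders s
  obtain ⟨e, he⟩ := exists_enum o.val o.val_inj (nn V G L) rfl
  obtain ⟨τ, hτ⟩ := exists_enum o.time o.time_inj (nn V G L) rfl
  refine ⟨wperm e τ, e, Fintype.card (LevIdx τ), fun A => ?_⟩
  have hc : ∀ j, (cfam N A j).Good := fun j => cond_good N A _
  let j0 := enumC V G L (Sum.inr (Sum.inr (Sum.inr ())))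
  have hj0 : cfam N A j0 = cond N A (Sum.inr (Sum.inr (Sum.inr ()))) := by
    simp [cfam, j0]
  have hQ0 : (cfam N A j0).Q = 1 := by rw [hj0]; rfl
  have hα0 : (cfam N A j0).α = 0 := by rw [hj0]; rfl
  have hγ0 : (cfam N A j0).gam = 1 := by
    have hE : (cond N A (Sum.inr (Sum.inr (Sum.inr ())))).E = 0 := by
      ext r r'
      simp only [Cond.E, cond, piv, del, Matrix.of_apply, Matrix.zero_apply]
      by_cases h1 : r = cc N.o
      · rw [if_pos h1]
        by_cases h2 : r' = cc N.o
        · rw [if_pos h2, if_pos h2, sub_self]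
        · rw [if_neg h2, if_neg h2, sub_self]
      · rw [if_neg h1]
    have hD : (cond N A (Sum.inr (Sum.inr (Sum.inr ())))).D = 0 := by
      ext i r
      simp [Cond.D, cond]
    have hQ : (cond N A (Sum.inr (Sum.inr (Sum.inr ())))).Q = 1 := rfl
    rw [hj0, Cond.gam, hE, hD, hQ, Matrix.mul_zero, neg_zero, sub_zero, Matrix.fromBlocks_one]
  have hall : ∀ (P : Cond (SS V G L) ℂ → Prop), (∀ j, P (cfam N A j)) → ∀ i, P (cond N A i) := by
    intro P hP i
    have := hP (enumC V G L i)
    simpa [cfam] using this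
  have H2 : ∀ T, (∀ j, (cfam N A j).α = 0 →
      dot (app (cfam N A j).φ T) ((cfam N A j).col 0) = 0) →
      ∀ j, dot (app (cfam N A j).α T) ((cfam N A j).col 1) = 0 := by
    intro T hT j
    exact H2_holds N A T (hall (fun x => x.α = 0 → dot (app x.φ T) (x.col 0) = 0) hT) _
  refine ⟨XX_upper o e he (cfam N A), (base_mem (cfam N A) o e τ he hτ hc).2,
    subset_zariskiClosure _ (base_mem (cfam N A) o e τ he hτ hc), ?_, ?_⟩
  · intro hz
    have h0 : ∀ T, (∀ j, (cfam N A j).Sol T) → T = 0 := by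
      intro T hT
      obtain ⟨z, hz', rfl⟩ := Sys_of_Sol (hall (fun x => x.Sol T) hT)
      rw [hz z hz']
      ext r i
      rcases r with v | v | g | l
      · rfl
      · fin_cases i <;> rfl
      · fin_cases i <;> rfl
      · rfl
    apply gorenstein_of_coord
    intro g hg
    exact chart_parabolic (fun p => tb (τ.symm p)) (beta_mono (cfam N A) o τ hτ)
      (permMat (wperm e τ)) _
      (closure_of_trivial (cfam N A) o e τ he hτ hc j0 hQ0 hα0 H2 h0) g hg
  · let Z : Set (V → ℂ) := {z : V → ℂ | N.Sys A z}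
    let zp : V → MvPolynomial V ℂ := MvPolynomial.X
    have hTz : ∀ z : V → ℂ, (Tz N zp).map (MvPolynomial.eval z) = Tz N z := by
      intro z
      ext r i
      rcases r with v | v | g | l
      · simp [Tz, zp]
      · fin_cases i <;> simp [Tz, zp]
      · fin_cases i <;> simp [Tz, zp]
      · simp [Tz, zp]
    obtain ⟨E, hE⟩ := chart_equiv (cfam N A) o e τ he hτ hc j0 hQ0 hα0 hγ0 H2 Z (Tz N zp)
      (by
        intro z hz j
        rw [hTz]
        exact Sol_of_Sys hz _)
      (by
        intro T hT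
        obtain ⟨z', hz', rfl⟩ := Sys_of_Sol (hall (fun x => x.Sol T) hT)
        exact ⟨z', hz', (hTz z').symm⟩)
      (fun w => MvPolynomial.X (cc w, 0))
      (by
        intro z hz v
        simp [Tz, zp])
    intro hex
    exact not_cm_of_chart (subset_zariskiClosure _ (base_mem (cfam N A) o e τ he hτ hc))
      (exNotCM_of_equiv (E.trans ((MvPolynomial.renameEquiv (MvPolynomial V ℂ ⧸
      MvPolynomial.vanishingIdeal ℂ Z) (Fintype.equivFin (LevIdx τ))).restrictScalars
        ℂ)).toRingEquiv hex)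

end net

end Pool.Agent.Run7.h768
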