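import Pool.Agent.Run7.h768.CMSys

/-! Cohen-Macaulayness and Gorensteinness of closures of Springer cells encode solvability. -/

set_option linter.unusedSectionVars false
set_option linter.unusedVariables false
set_option linter.unusedSimpArgs false

noncomputable section

namespace Pool.Agent.Run7.h768

open MvPolynomial

variable {q d c : ℕ} (a : Fin c → Mon q d → ℂ)

theorem vanishingIdeal_rad {σ : Type} (Z : Set (σ → ℂ)) : (vanishingIdeal ℂ Z).IsRadical := by
  rintro f ⟨n, hn⟩
  rw [mem_vanishingIdeal_iff] at hn ⊢
  intro z hz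
  have := hn z hz
  rw [map_pow] at this
  exact eq_zero_of_pow_eq_zero this

/-- the class of a variable -/
def by' (b : Fin 3) : Bf a := Ideal.Quotient.mk _ (X (wy b))

def pat (b0 b1 b2 : Bool) : Fin 3 → Bool := ![b0, b1, b2]

theorem notCM_of_sol (x0 : Fin q → ℂ) (hx0 : x0 ∈ Vf a) (N : ℕ) :
    ExNotCM (MvPolynomial (Fin N) (Bf a)) := by
  -- a minimal prime of the ideal of `Vf`
  have hJ : (vanishingIdeal ℂ (Vf a)) ≠ ⊤ := by
    intro h
    have h1 : (1 : MvPolynomial (Fin q) ℂ) ∈ vanishingIdeal ℂ (Vf a) := by rw [h]; trivial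
    have h2 := (mem_vanishingIdeal_iff.1 h1) x0 hx0
    simp at h2
  obtain ⟨p, hpmin⟩ := Ideal.nonempty_minimalPrimes hJ
  have hpp : p.IsPrime := hpmin.1.1
  have hp : vanishingIdeal ℂ (Vf a) ≤ p := hpmin.1.2
  have hJr : (vanishingIdeal ℂ (Vf a)).IsRadical := vanishingIdeal_rad _
  have hK : IsDomain (MvPolynomial (Fin q) ℂ ⧸ p) := inferInstance
  have a000 : Adm (pat false false false) := Or.inl rfl
  have a001 : Adm (pat false false true) := Or.inl rfl
  have a011 : Adm (pat false true true) := Or.inl rfl
  have a100 : Adm (pat true false false) := Or.inr ⟨rfl, rfl⟩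
  let k000 := kap a p hp a000
  let k001 := kap a p hp a001
  let k011 := kap a p hp a011
  let k100 := kap a p hp a100
  have hprod : ∀ b : Fin 3, b ≠ 0 → by' a 0 * by' a b = 0 := by
    intro b hb
    rw [by', by', ← map_mul, Ideal.Quotient.eq_zero_iff_mem, mem_vanishingIdeal_iff]
    intro z hz
    rw [aeval_eq_eval, map_mul, eval_X, eval_X]
    rcases sys_cases3 hz with h | ⟨_, h1, h2, _⟩
    · rw [h]; simp
    · fin_cases b
      · exact absurd rfl hb
      · exact h1
      · exact h2
  have P0 : (RingHom.ker k011).IsPrime := RingHom.ker_isPrime _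
  have P1 : (RingHom.ker k001).IsPrime := RingHom.ker_isPrime _
  have P2 : (RingHom.ker k000).IsPrime := RingHom.ker_isPrime _
  have hle : ∀ {e e' : Fin 3 → Bool} (he : Adm e) (he' : Adm e')
      (hle : ∀ b, e' b = true → e b = true),
      RingHom.ker (kap a p hp he) ≤ RingHom.ker (kap a p hp he') := by
    intro e e' he he' hle F hF
    rw [RingHom.mem_ker] at hF ⊢
    rw [← spz_kap a p hp he he' hle, hF, map_zero]
  have hkX : ∀ {e : Fin 3 → Bool} (he : Adm e) (b : Fin 3),
      kap a p hp he (by' a b) = if e b then X b else 0 := by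
    intro e he b
    exact kap_X a p hp he (wy b)
  have hXne : ∀ b : Fin 3, (X b : MvPolynomial (Fin 3) (MvPolynomial (Fin q) ℂ ⧸ p)) ≠ 0 :=
    fun b => X_ne_zero b
  have h01 : RingHom.ker k011 < RingHom.ker k001 := by
    refine lt_of_le_of_ne (hle a011 a001 ?_) ?_
    · intro b; fin_cases b <;> simp [pat]
    · intro h
      have h1 : by' a 1 ∈ RingHom.ker k001 := by
        rw [RingHom.mem_ker]
        exact (hkX a001 1).trans (by simp [pat])
      rw [← h, RingHom.mem_ker] at h1
      have h2 := (hkX a011 1).symm.trans h1
      exact hXne 1 (by simp [pat] at h2)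
  have h12 : RingHom.ker k001 < RingHom.ker k000 := by
    refine lt_of_le_of_ne (hle a001 a000 ?_) ?_
    · intro b; fin_cases b <;> simp [pat]
    · intro h
      have h1 : by' a 2 ∈ RingHom.ker k000 := by
        rw [RingHom.mem_ker]
        exact (hkX a000 2).trans (by simp [pat])
      rw [← h, RingHom.mem_ker] at h1
      have h2 := (hkX a001 2).symm.trans h1
      exact hXne 2 (by simp [pat] at h2)
  have hmem : ∀ b : Fin 3, by' a b ∈ RingHom.ker k000 := by
    intro b
    rw [RingHom.mem_ker]
    exact (hkX a000 b).trans (by fin_cases b <;> simp [pat])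
  refine not_cm_of_line_plane N (by' a 0) (by' a 1) (by' a 2) (hprod 1 (by decide))
    (hprod 2 (by decide)) (RingHom.ker k011) (RingHom.ker k001) (RingHom.ker k000) h01 h12
    (hmem 0) (hmem 1) (hmem 2) ?_ ?_
  · -- B1
    intro F hF
    obtain ⟨f, rfl⟩ := Ideal.Quotient.mk_surjective F
    let f0 : MvPolynomial (Fin q) ℂ := aeval (zsol3 X 0 : PV3 q d → MvPolynomial (Fin q) ℂ) f
    have hk0 : ∀ g : MvPolynomial (PV3 q d) ℂ, k000 (Ideal.Quotient.mk _ g) =
        C (Ideal.Quotient.mk p (aeval (zsol3 X 0 : PV3 q d → MvPolynomial (Fin q) ℂ) g)) := by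
      intro g
      have h : k000.comp (Ideal.Quotient.mk _) = ((C : (MvPolynomial (Fin q) ℂ ⧸ p) →+*
          MvPolynomial (Fin 3) (MvPolynomial (Fin q) ℂ ⧸ p)).comp (Ideal.Quotient.mk p)).comp
          (aeval (zsol3 X 0 : PV3 q d → MvPolynomial (Fin q) ℂ)).toRingHom := by
        apply MvPolynomial.ringHom_ext
        · intro r
          simp only [RingHom.comp_apply]
          change kap a p hp a000 _ = _
          rw [kap_C]
          simp
        · intro v
          simp only [RingHom.comp_apply]
          change kap a p hp a000 _ = _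
          rw [kap_X]
          simp only [AlgHom.toRingHom_eq_coe, RingHom.coe_coe, aeval_X]
          rcases v with i | α | b | u
          · rfl
          · simp [zsol3]
          · simp only [zsol3]
            fin_cases b <;> simp [pat]
          · simp [zsol3]
      exact congrArg (fun f => f g) h
    have hf0 : f0 ∈ p := by
      rw [RingHom.mem_ker, hk0] at hF
      rw [← Ideal.Quotient.eq_zero_iff_mem]
      exact C_injective _ _ (hF.trans (map_zero C).symm)
    obtain ⟨s, hs, hsf⟩ := exists_notMem_mul_mem hJr hpmin hf0
    let s' : MvPolynomial (PV3 q d) ℂ := aeval (fun i => X (wx i)) s * X (wm 0)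
    let f' : MvPolynomial (PV3 q d) ℂ := aeval (Sum.elim (fun i => X (wx i))
      (Sum.elim (fun α => X (wm α)) (Sum.elim (fun _ => 0) (fun _ => X wo)))) f
    refine ⟨Ideal.Quotient.mk _ s', ?_, ?_⟩
    · intro h
      rw [RingHom.mem_ker, hk0] at h
      apply hs
      rw [← Ideal.Quotient.eq_zero_iff_mem]
      have h1 : aeval (zsol3 X 0 : PV3 q d → MvPolynomial (Fin q) ℂ) s' = s := by
        simp only [s', map_mul, aeval_X]
        have h2 : (aeval (zsol3 X 0 : PV3 q d → MvPolynomial (Fin q) ℂ)).comp
            (aeval (fun i => X (wx i)) : MvPolynomial (Fin q) ℂ →ₐ[ℂ] MvPolynomial (PV3 q d) ℂ) =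
            AlgHom.id ℂ _ := by
          apply MvPolynomial.algHom_ext
          intro i
          simp [zsol3]
        have h3 := congrArg (fun f => f s) h2
        simp only [AlgHom.comp_apply, AlgHom.id_apply] at h3
        rw [h3]
        simp [zsol3]
      rw [h1] at h
      exact C_injective _ _ (h.trans (map_zero C).symm)
    · -- difference
      have hdiff : ∀ g : MvPolynomial (PV3 q d) ℂ, (Ideal.Quotient.mk (vanishingIdeal ℂ (Zf a)) g) -
          (Ideal.Quotient.mk (vanishingIdeal ℂ (Zf a)) (aeval (Sum.elim (fun i => X (wx i))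
      (Sum.elim (fun α => X (wm α)) (Sum.elim (fun _ => 0) (fun _ => X wo)))) g)) ∈
          Ideal.span {by' a 0, by' a 1, by' a 2} := by
        intro g
        rw [← Ideal.Quotient.eq]
        have h : (Ideal.Quotient.mk (Ideal.span {by' a 0, by' a 1, by' a 2})).comp
            (Ideal.Quotient.mk (vanishingIdeal ℂ (Zf a))) =
            ((Ideal.Quotient.mk (Ideal.span {by' a 0, by' a 1, by' a 2})).comp
            (Ideal.Quotient.mk (vanishingIdeal ℂ (Zf a)))).comp
            (aeval (Sum.elim (fun i => X (wx i))
      (Sum.elim (fun α => X (wm α)) (Sum.elim (fun _ => 0) (fun _ => X wo)))) :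
      MvPolynomial (PV3 q d) ℂ →ₐ[ℂ] MvPolynomial (PV3 q d) ℂ).toRingHom := by
          apply MvPolynomial.ringHom_ext
          · intro r
            simp
          · intro v
            simp only [RingHom.comp_apply, AlgHom.toRingHom_eq_coe, RingHom.coe_coe, aeval_X]
            rcases v with i | α | b | u
            · rfl
            · rfl
            · simp only [Sum.elim_inr, Sum.elim_inl, map_zero]
              rw [Ideal.Quotient.eq_zero_iff_mem]
              apply Ideal.subset_span
              change by' a b ∈ _
              fin_cases b <;> simp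
            · rfl
        exact congrArg (fun f => f g) h
      have h1 : Ideal.Quotient.mk (vanishingIdeal ℂ (Zf a)) s' *
          Ideal.Quotient.mk (vanishingIdeal ℂ (Zf a)) f' = 0 := by
        rw [← map_mul, Ideal.Quotient.eq_zero_iff_mem, mem_vanishingIdeal_iff]
        intro z hz
        rw [aeval_eq_eval, map_mul]
        have es : ∀ z : PV3 q d → ℂ, eval z s' = eval (fun i => z (wx i)) s * z (wm 0) := by
          intro z
          simp only [s', map_mul, eval_X]
          congr 1
          have h2 : ((eval z : MvPolynomial (PV3 q d) ℂ →+* ℂ).comp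
            (aeval (fun i => X (wx i)) : MvPolynomial (Fin q) ℂ →ₐ[ℂ]
              MvPolynomial (PV3 q d) ℂ).toRingHom) = eval (fun i => z (wx i)) := by
            apply MvPolynomial.ringHom_ext
            · intro r; simp
            · intro i; simp
          exact congrArg (fun f => f s) h2
        rcases sys_cases3 hz with h | ⟨hx, _, _, hzz⟩
        · rw [es, h]; simp
        · have hwm : z (wm 0) = 1 := by rw [hzz]; simp [zsol3]
          have ef : eval z f' = eval (fun i => z (wx i)) f0 := by
            have h2 : ((eval z : MvPolynomial (PV3 q d) ℂ →+* ℂ).comp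
              (aeval (Sum.elim (fun i => X (wx i))
                (Sum.elim (fun α => X (wm α)) (Sum.elim (fun _ => 0) (fun _ => X wo)))) :
                MvPolynomial (PV3 q d) ℂ →ₐ[ℂ] MvPolynomial (PV3 q d) ℂ).toRingHom) =
                (eval (fun i => z (wx i))).comp
                  (aeval (zsol3 X 0 : PV3 q d → MvPolynomial (Fin q) ℂ)).toRingHom := by
              apply MvPolynomial.ringHom_ext
              · intro r; simp
              · intro v
                simp only [RingHom.comp_apply, AlgHom.toRingHom_eq_coe, RingHom.coe_coe, aeval_X]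
                rcases v with i | α | b | u
                · simp [zsol3]
                · simp only [Sum.elim_inr, Sum.elim_inl, eval_X]
                  rw [hzz]
                  simp [zsol3]
                · simp [zsol3]
                · simp only [Sum.elim_inr, Sum.elim_inl, eval_X]
                  rw [hzz]
                  simp [zsol3]
            exact congrArg (fun g => g f) h2
          rw [es, ef, hwm, mul_one, ← map_mul]
          have h3 := (mem_vanishingIdeal_iff.1 hsf) (fun i => z (wx i)) hx
          rwa [aeval_eq_eval] at h3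
      have h2 : Ideal.Quotient.mk (vanishingIdeal ℂ (Zf a)) s' *
          Ideal.Quotient.mk (vanishingIdeal ℂ (Zf a)) f =
          Ideal.Quotient.mk (vanishingIdeal ℂ (Zf a)) s' *
          (Ideal.Quotient.mk (vanishingIdeal ℂ (Zf a)) f -
            Ideal.Quotient.mk (vanishingIdeal ℂ (Zf a)) f') := by
        rw [mul_sub, h1, sub_zero]
      rw [h2]
      exact Ideal.mul_mem_left _ _ (hdiff f)
  · -- B2
    intro t ht
    have h1 : k100 t * X 0 = 0 := by
      have h2 : k100 (by' a 0) = X 0 := (hkX a100 0).trans (by simp [pat])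
      rw [← h2, ← map_mul, ht, map_zero]
    have h2 : k100 t = 0 := (mul_eq_zero.1 h1).resolve_right (hXne 0)
    rw [RingHom.mem_ker]
    have h3 := spz_kap a p hp a100 a000 (by intro b; fin_cases b <;> simp [pat]) t
    rw [← h3]
    change spz _ (k100 t) = 0
    rw [h2, map_zero]

end Pool.Agent.Run7.h768
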