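import Pool.Agent.Run7.h768.Encode

/-! Polynomial systems as gate systems. -/

set_option linter.unusedSectionVars false
set_option linter.unusedVariables false
set_option linter.unusedSimpArgs false

noncomputable section

namespace Pool.Agent.Run7.h768

/-- exponents of monomials -/
abbrev Mon (q d : ℕ) : Type := Fin q → Fin (d + 1)

/-- variables: `x i`, monomials, two nodal variables, zero -/
abbrev PV (q d : ℕ) : Type := Fin q ⊕ Mon q d ⊕ Bool ⊕ Unit

/-- gates -/
abbrev PG (q d : ℕ) : Type := (Fin q × Mon q d) ⊕ Fin q ⊕ Bool ⊕ Bool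

variable {q d c : ℕ}

abbrev vx (i : Fin q) : PV q d := Sum.inl i
abbrev vm (α : Mon q d) : PV q d := Sum.inr (Sum.inl α)
abbrev vy (b : Bool) : PV q d := Sum.inr (Sum.inr (Sum.inl b))
abbrev vo : PV q d := Sum.inr (Sum.inr (Sum.inr ()))

def net (q d : ℕ) : Net (PV q d) (PG q d) (Fin c) where
  g1 := fun g => match g with
    | Sum.inl (i, α) => if (α i : ℕ) < d then vx i else vo
    | Sum.inr (Sum.inl i) => vx i
    | Sum.inr (Sum.inr (Sum.inl b)) => vy b
    | Sum.inr (Sum.inr (Sum.inr b)) => if b then vm 0 else vy true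
  g2 := fun g => match g with
    | Sum.inl (i, α) => if (α i : ℕ) < d then vm α else vo
    | Sum.inr (Sum.inl i) => vm 0
    | Sum.inr (Sum.inr (Sum.inl b)) => vm 0
    | Sum.inr (Sum.inr (Sum.inr b)) => if b then vm 0 else vy false
  go := fun g => match g with
    | Sum.inl (i, α) => if h : (α i : ℕ) < d then vm (Function.update α i ⟨(α i : ℕ) + 1, by omega⟩)
        else vo
    | Sum.inr (Sum.inl i) => vx i
    | Sum.inr (Sum.inr (Sum.inl b)) => vy b
    | Sum.inr (Sum.inr (Sum.inr b)) => if b then vm 0 else vo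
  o := vo

/-- coefficients of the linear equations -/
def coefA {R : Type} [CommRing R] (a : Fin c → Mon q d → R) (l : Fin c) : PV q d → R
  | Sum.inl _ => 0
  | Sum.inr (Sum.inl α) => a l α
  | Sum.inr (Sum.inr _) => 0

theorem sum_coefA {R : Type} [CommRing R] (a : Fin c → Mon q d → R) (l : Fin c) (z : PV q d → R) :
    ∑ v, coefA a l v * z v = ∑ α, a l α * z (vm α) := by
  rw [Fintype.sum_sum_type, Fintype.sum_sum_type]
  simp [coefA]

theorem prod_update {R : Type} [CommRing R] (x : Fin q → R) (α : Mon q d) (i : Fin q)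
    (h : (α i : ℕ) < d) :
    x i * ∏ k, x k ^ (α k : ℕ) =
      ∏ k, x k ^ ((Function.update α i ⟨(α i : ℕ) + 1, by omega⟩ : Mon q d) k : ℕ) := by
  rw [← Finset.mul_prod_erase Finset.univ _ (Finset.mem_univ i),
    ← Finset.mul_prod_erase Finset.univ
      (fun k => x k ^ ((Function.update α i ⟨(α i : ℕ) + 1, by omega⟩ : Mon q d) k : ℕ))
      (Finset.mem_univ i)]
  have h1 : ∀ k ∈ Finset.univ.erase i,
      x k ^ ((Function.update α i ⟨(α i : ℕ) + 1, by omega⟩ : Mon q d) k : ℕ) =
        x k ^ (α k : ℕ) := by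
    intro k hk
    rw [Function.update_of_ne (Finset.ne_of_mem_erase hk)]
  rw [Finset.prod_congr rfl h1]
  simp only [Function.update_self]
  ring

/-- value of the variables -/
def zsol {R : Type} [CommRing R] (x : Fin q → R) (t : Bool → R) : PV q d → R
  | Sum.inl i => x i
  | Sum.inr (Sum.inl α) => ∏ k, x k ^ (α k : ℕ)
  | Sum.inr (Sum.inr (Sum.inl b)) => t b
  | Sum.inr (Sum.inr (Sum.inr _)) => 0

theorem zsol_sys {R : Type} [CommRing R] (a : Fin c → Mon q d → R) (x : Fin q → R) (t : Bool → R)
    (ht : t true * t false = 0)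
    (hx : ∀ l, ∑ α, a l α * ∏ k, x k ^ (α k : ℕ) = 0) :
    (net q d).Sys (coefA a) (zsol x t) where
  gate := by
    intro g
    have h0 : (zsol x t (vm (0 : Mon q d)) : R) = 1 := by
      simp [zsol]
    rcases g with ⟨i, α⟩ | i | b | b
    · simp only [net]
      by_cases h : (α i : ℕ) < d
      · rw [if_pos h, if_pos h, dif_pos h]
        exact prod_update x α i h
      · rw [if_neg h, if_neg h, dif_neg h]
        simp [zsol]
    · simp only [net]
      rw [h0, mul_one]
    · simp only [net]
      rw [h0, mul_one]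
    · cases b
      · simp [net, zsol, ht]
      · simp only [net, if_true]
        rw [h0, mul_one]
  zero := rfl
  lin := by
    intro l
    rw [sum_coefA]
    exact hx l

theorem sys_cases {a : Fin c → Mon q d → ℂ} {z : PV q d → ℂ} (hz : (net q d).Sys (coefA a) z) :
    z = 0 ∨ ((∀ l, ∑ α, a l α * ∏ k, z (vx k) ^ (α k : ℕ) = 0) ∧
      z (vy true) * z (vy false) = 0) := by
  have hm : z (vm 0) * z (vm 0) = z (vm 0) := hz.gate (Sum.inr (Sum.inr (Sum.inr true)))
  have hyy : z (vy true) * z (vy false) = z vo := hz.gate (Sum.inr (Sum.inr (Sum.inr false)))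
  have ho : z vo = 0 := hz.zero
  have hx : ∀ i, z (vx i) * z (vm 0) = z (vx i) := fun i => hz.gate (Sum.inr (Sum.inl i))
  have hy : ∀ b, z (vy b) * z (vm 0) = z (vy b) := fun b => hz.gate (Sum.inr (Sum.inr (Sum.inl b)))
  have hmul : ∀ (i : Fin q) (α : Mon q d) (h : (α i : ℕ) < d), z (vx i) * z (vm α) =
      z (vm (Function.update α i ⟨(α i : ℕ) + 1, by omega⟩)) := by
    intro i α h
    have := hz.gate (Sum.inl (i, α))
    simp only [net] at this
    rw [if_pos h, if_pos h, dif_pos h] at this
    exact this
  -- monomials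
  have hmon : ∀ (N : ℕ) (α : Mon q d), ∑ k, (α k : ℕ) = N →
      z (vm α) = z (vm 0) * ∏ k, z (vx k) ^ (α k : ℕ) := by
    intro N
    induction N with
    | zero =>
      intro α hα
      have h1 : α = 0 := by
        funext k
        have h2 := (Finset.sum_eq_zero_iff.1 hα) k (Finset.mem_univ k)
        exact Fin.ext h2
      subst h1
      simp
    | succ N ih =>
      intro α hα
      obtain ⟨i, hi⟩ : ∃ i, (α i : ℕ) ≠ 0 := by
        by_contra hcon
        push Not at hcon
        rw [Finset.sum_eq_zero (fun k _ => hcon k)] at hα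
        omega
      have hlt := (α i).2
      let α' : Mon q d := Function.update α i ⟨(α i : ℕ) - 1, by omega⟩
      have hα'i : (α' i : ℕ) = (α i : ℕ) - 1 := by simp [α']
      have h' : (α' i : ℕ) < d := by omega
      have hback : (Function.update α' i ⟨(α' i : ℕ) + 1, by omega⟩ : Mon q d) = α := by
        funext k
        by_cases hk : k = i
        · subst hk
          rw [Function.update_self]
          apply Fin.ext
          simp only [hα'i]
          omega
        · rw [Function.update_of_ne hk]
          simp only [α']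
          rw [Function.update_of_ne hk]
      have hsum : ∑ k, (α' k : ℕ) = N := by
        have h1 : ∑ k, (α k : ℕ) = (α i : ℕ) + ∑ k ∈ Finset.univ.erase i, (α k : ℕ) :=
          (Finset.add_sum_erase _ _ (Finset.mem_univ i)).symm
        have h2 : ∑ k, (α' k : ℕ) = (α' i : ℕ) + ∑ k ∈ Finset.univ.erase i, (α' k : ℕ) :=
          (Finset.add_sum_erase _ _ (Finset.mem_univ i)).symm
        have h3 : ∑ k ∈ Finset.univ.erase i, (α' k : ℕ) = ∑ k ∈ Finset.univ.erase i, (α k : ℕ) := by
          apply Finset.sum_congr rfl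
          intro k hk
          simp only [α']
          rw [Function.update_of_ne (Finset.ne_of_mem_erase hk)]
        rw [h2, h3, hα'i]
        omega
      have h1 := hmul i α' h'
      have h2 := prod_update (fun k => z (vx k)) α' i h'
      simp only [hback] at h1 h2
      rw [← h1, ih α' hsum, ← h2]
      ring
  have h01 : z (vm 0) = 0 ∨ z (vm 0) = 1 := by
    have : z (vm 0) * (z (vm 0) - 1) = 0 := by linear_combination hm
    rcases mul_eq_zero.1 this with h | h
    · exact Or.inl h
    · exact Or.inr (sub_eq_zero.1 h)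
  rcases h01 with h0 | h1
  · left
    funext v
    rcases v with i | α | b | u
    · rw [← hx i, h0, mul_zero]; rfl
    · rw [hmon _ α rfl, h0, zero_mul]; rfl
    · rw [← hy b, h0, mul_zero]; rfl
    · exact ho
  · right
    refine ⟨fun l => ?_, by rw [hyy, ho]⟩
    have := hz.lin l
    rw [sum_coefA] at this
    rw [← this]
    apply Finset.sum_congr rfl
    intro α _
    rw [hmon _ α rfl, h1, one_mul]

end Pool.Agent.Run7.h768
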