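import Pool.Agent.Run7.h768.CMNet
import Pool.Agent.Run7.h768.PolySys

/-! Polynomial systems as gate systems, with a line and a plane. -/

set_option linter.unusedSectionVars false
set_option linter.unusedVariables false
set_option linter.unusedSimpArgs false

noncomputable section

namespace Pool.Agent.Run7.h768

/-- variables: `x i`, monomials, three variables `y`, zero -/
abbrev PV3 (q d : ℕ) : Type := Fin q ⊕ Mon q d ⊕ Fin 3 ⊕ Unit

/-- gates -/
abbrev PG3 (q d : ℕ) : Type := (Fin q × Mon q d) ⊕ Fin q ⊕ Fin 3 ⊕ Fin 3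

variable {q d c : ℕ}

abbrev wx (i : Fin q) : PV3 q d := Sum.inl i
abbrev wm (α : Mon q d) : PV3 q d := Sum.inr (Sum.inl α)
abbrev wy (b : Fin 3) : PV3 q d := Sum.inr (Sum.inr (Sum.inl b))
abbrev wo : PV3 q d := Sum.inr (Sum.inr (Sum.inr ()))

def net3 (q d : ℕ) : Net (PV3 q d) (PG3 q d) (Fin c) where
  g1 := fun g => match g with
    | Sum.inl (i, α) => if (α i : ℕ) < d then wx i else wo
    | Sum.inr (Sum.inl i) => wx i
    | Sum.inr (Sum.inr (Sum.inl b)) => wy b
    | Sum.inr (Sum.inr (Sum.inr b)) => if b = 0 then wm 0 else wy 0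
  g2 := fun g => match g with
    | Sum.inl (i, α) => if (α i : ℕ) < d then wm α else wo
    | Sum.inr (Sum.inl i) => wm 0
    | Sum.inr (Sum.inr (Sum.inl b)) => wm 0
    | Sum.inr (Sum.inr (Sum.inr b)) => if b = 0 then wm 0 else wy b
  go := fun g => match g with
    | Sum.inl (i, α) => if h : (α i : ℕ) < d then wm (Function.update α i ⟨(α i : ℕ) + 1, by omega⟩)
        else wo
    | Sum.inr (Sum.inl i) => wx i
    | Sum.inr (Sum.inr (Sum.inl b)) => wy b
    | Sum.inr (Sum.inr (Sum.inr b)) => if b = 0 then wm 0 else wo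
  o := wo

/-- coefficients of the linear equations -/
def coefA3 {R : Type} [CommRing R] (a : Fin c → Mon q d → R) (l : Fin c) : PV3 q d → R
  | Sum.inl _ => 0
  | Sum.inr (Sum.inl α) => a l α
  | Sum.inr (Sum.inr _) => 0

theorem sum_coefA3 {R : Type} [CommRing R] (a : Fin c → Mon q d → R) (l : Fin c)
    (z : PV3 q d → R) : ∑ v, coefA3 a l v * z v = ∑ α, a l α * z (wm α) := by
  rw [Fintype.sum_sum_type, Fintype.sum_sum_type]
  simp [coefA3]

/-- value of the variables -/
def zsol3 {R : Type} [CommRing R] (x : Fin q → R) (t : Fin 3 → R) : PV3 q d → R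
  | Sum.inl i => x i
  | Sum.inr (Sum.inl α) => ∏ k, x k ^ (α k : ℕ)
  | Sum.inr (Sum.inr (Sum.inl b)) => t b
  | Sum.inr (Sum.inr (Sum.inr _)) => 0

theorem zsol3_map {R R' : Type} [CommRing R] [CommRing R'] (f : R →+* R') (x : Fin q → R)
    (t : Fin 3 → R) (v : PV3 q d) :
    f (zsol3 x t v) = zsol3 (fun i => f (x i)) (fun b => f (t b)) v := by
  rcases v with i | α | b | u <;> simp [zsol3]

theorem zsol3_sys {R : Type} [CommRing R] (a : Fin c → Mon q d → R) (x : Fin q → R)
    (t : Fin 3 → R) (ht1 : t 0 * t 1 = 0) (ht2 : t 0 * t 2 = 0)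
    (hx : ∀ l, ∑ α, a l α * ∏ k, x k ^ (α k : ℕ) = 0) :
    (net3 q d).Sys (coefA3 a) (zsol3 x t) where
  gate := by
    intro g
    have h0 : (zsol3 x t (wm (0 : Mon q d)) : R) = 1 := by
      simp [zsol3]
    rcases g with ⟨i, α⟩ | i | b | b
    · simp only [net3]
      by_cases h : (α i : ℕ) < d
      · rw [if_pos h, if_pos h, dif_pos h]
        exact prod_update x α i h
      · rw [if_neg h, if_neg h, dif_neg h]
        simp [zsol3]
    · simp only [net3]
      rw [h0, mul_one]
    · simp only [net3]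
      rw [h0, mul_one]
    · fin_cases b
      · simp only [net3]
        simp only [Fin.zero_eta, if_true]
        rw [h0, mul_one]
      · simp [net3, zsol3, ht1]
      · have h2 : (2 : Fin 3) ≠ 0 := by decide
        simp [net3, zsol3, ht2]
  zero := rfl
  lin := by
    intro l
    rw [sum_coefA3]
    exact hx l

theorem sys_cases3 {a : Fin c → Mon q d → ℂ} {z : PV3 q d → ℂ}
    (hz : (net3 q d).Sys (coefA3 a) z) :
    z = 0 ∨ ((∀ l, ∑ α, a l α * ∏ k, z (wx k) ^ (α k : ℕ) = 0) ∧
      z (wy 0) * z (wy 1) = 0 ∧ z (wy 0) * z (wy 2) = 0 ∧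
      z = zsol3 (fun i => z (wx i)) (fun b => z (wy b))) := by
  have hm : z (wm 0) * z (wm 0) = z (wm 0) := hz.gate (Sum.inr (Sum.inr (Sum.inr 0)))
  have hyy1 : z (wy 0) * z (wy 1) = z wo := hz.gate (Sum.inr (Sum.inr (Sum.inr 1)))
  have hyy2 : z (wy 0) * z (wy 2) = z wo := hz.gate (Sum.inr (Sum.inr (Sum.inr 2)))
  have ho : z wo = 0 := hz.zero
  have hx : ∀ i, z (wx i) * z (wm 0) = z (wx i) := fun i => hz.gate (Sum.inr (Sum.inl i))
  have hy : ∀ b, z (wy b) * z (wm 0) = z (wy b) := fun b => hz.gate (Sum.inr (Sum.inr (Sum.inl b)))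
  have hmul : ∀ (i : Fin q) (α : Mon q d) (h : (α i : ℕ) < d), z (wx i) * z (wm α) =
      z (wm (Function.update α i ⟨(α i : ℕ) + 1, by omega⟩)) := by
    intro i α h
    have := hz.gate (Sum.inl (i, α))
    simp only [net3] at this
    rw [if_pos h, if_pos h, dif_pos h] at this
    exact this
  -- monomials
  have hmon : ∀ (N : ℕ) (α : Mon q d), ∑ k, (α k : ℕ) = N →
      z (wm α) = z (wm 0) * ∏ k, z (wx k) ^ (α k : ℕ) := by
    intro N
    induction N with
    | zero =>
      intro α hα
      have h1 : α = 0 := by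
        funext k
        have h2 := (Finset.sum_eq_zero_iff.1 hα) k (Finset.mem_univ k)
        exact Fin.ext h2
      subst h1
      simp
    | succ N ih =>
      intro α hα
      obtain ⟨i, hi⟩ : ∃ i, (α i : ℕ) ≠ 0 := by
        by_contra hcon
        push Not at hcon
        rw [Finset.sum_eq_zero (fun k _ => hcon k)] at hα
        omega
      have hlt := (α i).2
      let α' : Mon q d := Function.update α i ⟨(α i : ℕ) - 1, by omega⟩
      have hα'i : (α' i : ℕ) = (α i : ℕ) - 1 := by simp [α']
      have h' : (α' i : ℕ) < d := by omega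
      have hback : (Function.update α' i ⟨(α' i : ℕ) + 1, by omega⟩ : Mon q d) = α := by
        funext k
        by_cases hk : k = i
        · subst hk
          rw [Function.update_self]
          apply Fin.ext
          simp only [hα'i]
          omega
        · rw [Function.update_of_ne hk]
          simp only [α']
          rw [Function.update_of_ne hk]
      have hsum : ∑ k, (α' k : ℕ) = N := by
        have h1 : ∑ k, (α k : ℕ) = (α i : ℕ) + ∑ k ∈ Finset.univ.erase i, (α k : ℕ) :=
          (Finset.add_sum_erase _ _ (Finset.mem_univ i)).symm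
        have h2 : ∑ k, (α' k : ℕ) = (α' i : ℕ) + ∑ k ∈ Finset.univ.erase i, (α' k : ℕ) :=
          (Finset.add_sum_erase _ _ (Finset.mem_univ i)).symm
        have h3 : ∑ k ∈ Finset.univ.erase i, (α' k : ℕ) = ∑ k ∈ Finset.univ.erase i, (α k : ℕ) := by
          apply Finset.sum_congr rfl
          intro k hk
          simp only [α']
          rw [Function.update_of_ne (Finset.ne_of_mem_erase hk)]
        rw [h2, h3, hα'i]
        omega
      have h1 := hmul i α' h'
      have h2 := prod_update (fun k => z (wx k)) α' i h'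
      simp only [hback] at h1 h2
      rw [← h1, ih α' hsum, ← h2]
      ring
  have h01 : z (wm 0) = 0 ∨ z (wm 0) = 1 := by
    have : z (wm 0) * (z (wm 0) - 1) = 0 := by linear_combination hm
    rcases mul_eq_zero.1 this with h | h
    · exact Or.inl h
    · exact Or.inr (sub_eq_zero.1 h)
  rcases h01 with h0 | h1
  · left
    funext v
    rcases v with i | α | b | u
    · rw [← hx i, h0, mul_zero]; rfl
    · rw [hmon _ α rfl, h0, zero_mul]; rfl
    · rw [← hy b, h0, mul_zero]; rfl
    · exact ho
  · right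
    refine ⟨fun l => ?_, by rw [hyy1, ho], by rw [hyy2, ho], ?_⟩
    · have := hz.lin l
      rw [sum_coefA3] at this
      rw [← this]
      apply Finset.sum_congr rfl
      intro α _
      rw [hmon _ α rfl, h1, one_mul]
    · funext v
      rcases v with i | α | b | u
      · rfl
      · rw [hmon _ α rfl, h1, one_mul]; rfl
      · rfl
      · exact ho

section ring

open MvPolynomial

variable (a : Fin c → Mon q d → ℂ)

/-- the algebraic set of solutions -/
def Vf : Set (Fin q → ℂ) := {x | ∀ l, ∑ α, a l α * ∏ k, x k ^ (α k : ℕ) = 0}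

/-- the solutions of the gate system -/
def Zf : Set (PV3 q d → ℂ) := {z | (net3 q d).Sys (coefA3 a) z}

abbrev Bf : Type := MvPolynomial (PV3 q d) ℂ ⧸ vanishingIdeal ℂ (Zf a)

/-- parametrization of the components -/
def Pat (e : Fin 3 → Bool) (v : PV3 q d) : MvPolynomial (Fin 3) (MvPolynomial (Fin q) ℂ) :=
  zsol3 (fun i => C (X i)) (fun b => if e b then X b else 0) v

theorem ev2_Pat (e : Fin 3 → Bool) (x : Fin q → ℂ) (u : Fin 3 → ℂ) (v : PV3 q d) :
    ev2 x u (Pat e v) = zsol3 x (fun b => if e b then u b else 0) v := by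
  rw [Pat, zsol3_map]
  have h1 : (fun i => ev2 x u (C (X i) : MvPolynomial (Fin 3) (MvPolynomial (Fin q) ℂ))) = x := by
    funext i
    simp
  have h2 : (fun b => ev2 x u (if e b = true then X b else 0 :
      MvPolynomial (Fin 3) (MvPolynomial (Fin q) ℂ))) = fun b => if e b then u b else 0 := by
    funext b
    split_ifs <;> simp
  rw [h1, h2]

/-- admissible patterns -/
def Adm (e : Fin 3 → Bool) : Prop := e 0 = false ∨ (e 1 = false ∧ e 2 = false)

theorem theta_zero {e : Fin 3 → Bool} (he : Adm e) (F : MvPolynomial (PV3 q d) ℂ)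
    (hF : F ∈ vanishingIdeal ℂ (Zf a)) : theta (Vf a) (Pat e) F = 0 := by
  apply zero_of_evZ2
  intro x hx u
  rw [evZ2_theta]
  have h1 : (fun k => ev2 x u (Pat e k)) =
      (zsol3 x (fun b => if e b then u b else 0) : PV3 q d → ℂ) := by
    funext k
    exact ev2_Pat e x u k
  rw [h1]
  have h2 : (zsol3 x (fun b => if e b then u b else 0) : PV3 q d → ℂ) ∈ Zf a := by
    apply zsol3_sys _ _ _ _ _ hx
    · rcases he with h | ⟨h, h'⟩ <;> simp [h]
    · rcases he with h | ⟨h, h'⟩ <;> simp [*]
  have h3 := (mem_vanishingIdeal_iff.1 hF) _ h2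
  rwa [aeval_eq_eval] at h3

variable (p : Ideal (MvPolynomial (Fin q) ℂ)) (hp : vanishingIdeal ℂ (Vf a) ≤ p)

/-- the coordinate map of a component -/
def kap {e : Fin 3 → Bool} (he : Adm e) :
    Bf a →+* MvPolynomial (Fin 3) (MvPolynomial (Fin q) ℂ ⧸ p) :=
  Ideal.Quotient.lift _ ((map (Ideal.Quotient.factor hp)).comp
    (theta (Vf a) (Pat e)).toRingHom) fun F hF => by
      have h1 : theta (Vf a) (Pat e) F = 0 := theta_zero a he F hF
      change map (Ideal.Quotient.factor hp) (theta (Vf a) (Pat e) F) = 0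
      rw [h1, map_zero]

theorem kap_mk {e : Fin 3 → Bool} (he : Adm e) (F : MvPolynomial (PV3 q d) ℂ) :
    kap a p hp he (Ideal.Quotient.mk _ F) =
      map (Ideal.Quotient.factor hp) (theta (Vf a) (Pat e) F) := rfl

theorem kap_C {e : Fin 3 → Bool} (he : Adm e) (r : ℂ) :
    kap a p hp he (Ideal.Quotient.mk _ (C r)) = C (Ideal.Quotient.mk _ (C r)) := by
  rw [kap_mk, theta, ← algebraMap_eq, AlgHom.commutes]
  change map (Ideal.Quotient.factor hp) (C (Ideal.Quotient.mk _ (C r))) = _
  rw [map_C]
  rfl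

theorem kap_X {e : Fin 3 → Bool} (he : Adm e) (v : PV3 q d) :
    kap a p hp he (Ideal.Quotient.mk _ (X v)) =
      zsol3 (fun i => C (Ideal.Quotient.mk _ (X i))) (fun b => if e b then X b else 0) v := by
  rw [kap_mk, theta, aeval_X, Pat]
  refine (congrArg _ (zsol3_map (R := MvPolynomial (Fin 3) (MvPolynomial (Fin q) ℂ))
    (R' := MvPolynomial (Fin 3) (MvPolynomial (Fin q) ℂ ⧸ vanishingIdeal ℂ (Vf a)))
    (map (Ideal.Quotient.mk (vanishingIdeal ℂ (Vf a)))) _ _ v)).trans ?_
  refine (zsol3_map (R := MvPolynomial (Fin 3) (MvPolynomial (Fin q) ℂ ⧸ vanishingIdeal ℂ (Vf a)))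
    (R' := MvPolynomial (Fin 3) (MvPolynomial (Fin q) ℂ ⧸ p))
    (map (Ideal.Quotient.factor hp)) _ _ v).trans ?_
  congr 1
  · funext i
    rw [map_C, map_C]
    rfl
  · funext b
    split_ifs <;> simp

/-- specialization of patterns -/
def spz {K : Type} [CommRing K] (e : Fin 3 → Bool) : MvPolynomial (Fin 3) K →+* MvPolynomial (Fin 3) K :=
  eval₂Hom C fun b => if e b then X b else 0

theorem spz_kap {e e' : Fin 3 → Bool} (he : Adm e) (he' : Adm e') (hle : ∀ b, e' b = true → e b = true) (F : Bf a) :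
    spz e' (kap a p hp he F) = kap a p hp he' F := by
  have h : (spz e').comp (kap a p hp he) = kap a p hp he' := by
    apply Ideal.Quotient.ringHom_ext
    apply MvPolynomial.ringHom_ext
    · intro r
      simp only [RingHom.comp_apply]
      rw [kap_C, kap_C]
      simp [spz]
    · intro v
      simp only [RingHom.comp_apply]
      rw [kap_X, kap_X, zsol3_map]
      congr 1
      · funext i
        simp [spz]
      · funext b
        by_cases h1 : e' b = true
        · rw [if_pos h1, if_pos (hle b h1)]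
          simp [spz, h1]
        · rw [if_neg h1]
          by_cases h2 : e b = true
          · rw [if_pos h2]
            simp [spz, h1]
          · rw [if_neg h2, map_zero]
  exact congrArg (fun f => f F) h

end ring

end Pool.Agent.Run7.h768
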