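import Pool.Agent.Run7.h768.Transport

/-! Points of the Springer cell; case A: only the trivial solution. -/

set_option linter.unusedSectionVars false
set_option linter.unusedVariables false
set_option linter.unusedSimpArgs false

noncomputable section

namespace Pool.Agent.Run7.h768

open Matrix

variable {S : Type} [Fintype S] [DecidableEq S] {h n : ℕ}

/-- element of `GL` from a matrix with relabelled rows and columns -/
def toGL (e : (Fin h × KK S) ≃ Fin n) (M Mi : Matrix (Fin h × KK S) (Fin h × KK S) ℂ)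
    (h1 : M * Mi = 1) : GL (Fin n) ℂ where
  val := M.submatrix e.symm e.symm
  inv := Mi.submatrix e.symm e.symm
  val_inv := by
    rw [Matrix.submatrix_mul_equiv, h1]
    exact Matrix.submatrix_one_equiv e.symm
  inv_val := by
    rw [Matrix.submatrix_mul_equiv, mul_eq_one_comm.1 h1]
    exact Matrix.submatrix_one_equiv e.symm

theorem toGL_sub (e : (Fin h × KK S) ≃ Fin n) (M Mi : Matrix (Fin h × KK S) (Fin h × KK S) ℂ)
    (h1 : M * Mi = 1) : (toGL e M Mi h1).1.submatrix e e = M := by
  ext x y
  simp [toGL]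

theorem toGL_inv_sub (e : (Fin h × KK S) ≃ Fin n)
    (M Mi : Matrix (Fin h × KK S) (Fin h × KK S) ℂ)
    (h1 : M * Mi = 1) : ((toGL e M Mi h1)⁻¹ : GL (Fin n) ℂ).1.submatrix e e = Mi := by
  ext x y
  change (toGL e M Mi h1).inv (e x) (e y) = Mi x y
  simp [toGL]

variable (c : Fin h → Cond S ℂ) (o : Orders h S (fun j => (c j).s))
  (e τ : (Fin h × KK S) ≃ Fin n)

theorem time_of_strict {M : Matrix (Fin h × KK S) (Fin h × KK S) ℂ}
    (hM : ∀ x y, tb y ≤ tb x → M x y = 0) : M.BlockTriangular o.time := by
  intro x y hxy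
  rw [o.time_iff] at hxy
  rcases hxy with h1 | ⟨h1, _⟩
  · exact hM x y h1.le
  · exact hM x y h1.le

/-- the point of the cell attached to a solution -/
def pt (T : Matrix S (Fin 2) ℂ) : GL (Fin n) ℂ := toGL e (GT c T) (GTi c T) (GT_mul_self c T)

theorem pt_mem_borel (he : ∀ x y, e x < e y ↔ o.val x < o.val y) (hc : ∀ j, (c j).Good)
    {T : Matrix S (Fin 2) ℂ} (hT : ∀ j, (c j).Sol T) : pt c e T ∈ Borel n := by
  change UpperTri _
  rw [← submatrix_blockTriangular he, pt, toGL_sub]
  exact GT_val c hc o hT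

theorem pt_mem (he : ∀ x y, e x < e y ↔ o.val x < o.val y)
    (hτ : ∀ x y, τ x < τ y ↔ o.time x < o.time y) (hc : ∀ j, (c j).Good)
    {T : Matrix S (Fin 2) ℂ} (hT : ∀ j, (c j).Sol T) :
    ((pt c e T * permMat (wperm e τ) : GL (Fin n) ℂ) : Flag n) ∈
      SchubertCell (wperm e τ) ∩ SpringerFiber (Xf c e) := by
  rw [mem_Y_iff]
  refine ⟨pt c e T, pt_mem_borel c o e he hc hT, 1, one_mem _, by rw [mul_one], ?_⟩
  rw [← submatrix_blockTriangular hτ, conj_relabel, pt, toGL_sub, toGL_inv_sub]
  exact time_of_strict c o (GT_strict c hc hT)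

theorem Sol_zero (d : Cond S ℂ) : d.Sol (0 : Matrix S (Fin 2) ℂ) := by
  constructor <;> simp [app, dot]

theorem nu_zero (d : Cond S ℂ) (hd : d.Good) : d.nu (0 : Matrix S (Fin 2) ℂ) = 0 := by
  ext r i
  simp only [Cond.nu, Cond.ech, Matrix.of_apply, Matrix.zero_apply]
  have : ∀ k, (d.gamInv * stack (0 : Matrix S (Fin 2) ℂ)) (Sum.inl r) k = 0 := by
    intro k
    rw [Matrix.mul_apply, Fintype.sum_sum_type]
    simp [stack, Cond.gamInv]
  rw [Matrix.mul_apply]
  exact Finset.sum_eq_zero fun k _ => by rw [this, zero_mul]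

theorem pt_zero (hc : ∀ j, (c j).Good) : pt c e 0 = 1 := by
  apply Units.ext
  change (GT c 0).submatrix e.symm e.symm = 1
  have : GT c (0 : Matrix S (Fin 2) ℂ) = 1 := by
    rw [GT]
    simp only [nuB, nu_zero _ (hc _), Matrix.fromBlocks_one]
    exact diagBl_one
  rw [this]
  exact Matrix.submatrix_one_equiv e.symm

theorem base_mem (he : ∀ x y, e x < e y ↔ o.val x < o.val y)
    (hτ : ∀ x y, τ x < τ y ↔ o.time x < o.time y) (hc : ∀ j, (c j).Good) :
    ((permMat (wperm e τ) : GL (Fin n) ℂ) : Flag n) ∈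
      SchubertCell (wperm e τ) ∩ SpringerFiber (Xf c e) := by
  have := pt_mem c o e τ he hτ hc (T := 0) (fun j => Sol_zero (c j))
  rw [pt_zero c e hc, one_mul] at this
  exact this

/-- strictness is preserved by multiplication by block triangular matrices -/
theorem strict_mul {β : Fin n → ℕ} {A N B : Matrix (Fin n) (Fin n) ℂ}
    (hA : A.BlockTriangular β) (hN : ∀ p q, β q ≤ β p → N p q = 0) (hB : B.BlockTriangular β)
    (p q : Fin n) (hpq : β q ≤ β p) : (A * N * B) p q = 0 := by
  rw [Matrix.mul_apply]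
  apply Finset.sum_eq_zero
  intro s _
  rcases lt_or_ge (β q) (β s) with h1 | h1
  · rw [hB h1, mul_zero]
  · have : (A * N) p s = 0 := by
      rw [Matrix.mul_apply]
      apply Finset.sum_eq_zero
      intro r _
      rcases lt_or_ge (β r) (β p) with h2 | h2
      · rw [hA h2, zero_mul]
      · rw [hN r s (by omega), mul_zero]
    rw [this, zero_mul]

theorem Xf_conj_strict (p q : Fin n) (hpq : tb (τ.symm q) ≤ tb (τ.symm p)) :
    (((permMat (wperm e τ))⁻¹ : GL (Fin n) ℂ).1 * Xf c e * (permMat (wperm e τ)).1) p q = 0 := by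
  rw [mul_permMat, permMat_inv_mul]
  simp only [Xf, Matrix.submatrix_apply, wperm, Equiv.trans_apply, Equiv.symm_apply_apply]
  exact XX_strict c _ _ hpq

theorem beta_mono (hτ : ∀ x y, τ x < τ y ↔ o.time x < o.time y) :
    Monotone fun p : Fin n => tb (τ.symm p) := by
  intro p q hpq
  rcases hpq.lt_or_eq with h1 | h1
  · have h2 : τ (τ.symm p) < τ (τ.symm q) := by simpa using h1
    rw [hτ, o.time_iff] at h2
    rcases h2 with h3 | ⟨h3, _⟩
    · exact h3.le
    · exact h3.le
  · rw [h1]

theorem not_singular_of_trivial (he : ∀ x y, e x < e y ↔ o.val x < o.val y)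
    (hτ : ∀ x y, τ x < τ y ↔ o.time x < o.time y) (hc : ∀ j, (c j).Good)
    (j0 : Fin h) (hQ0 : (c j0).Q = 1) (hα0 : (c j0).α = 0)
    (H2 : ∀ T, (∀ j, (c j).α = 0 → dot (app (c j).φ T) ((c j).col 0) = 0) →
      ∀ j, dot (app (c j).α T) ((c j).col 1) = 0)
    (h0 : ∀ T, (∀ j, (c j).Sol T) → T = 0) :
    ¬ IsSingular (zariskiClosure (SchubertCell (wperm e τ) ∩ SpringerFiber (Xf c e))) := by
  have hβ := beta_mono c o τ hτ
  apply not_singular_parabolic (fun p : Fin n => tb (τ.symm p)) hβ (permMat (wperm e τ))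
  apply closure_eq_parabolic (fun p : Fin n => tb (τ.symm p)) hβ
  · intro g hg
    rw [mem_Y_iff] at hg
    obtain ⟨b, hb, b', hb', rfl, hX⟩ := hg
    have e1 : (permMat (wperm e τ))⁻¹ * (b * permMat (wperm e τ) * b') =
      (permMat (wperm e τ))⁻¹ * (b * permMat (wperm e τ)) * b' := by group
    rw [e1, Units.val_mul]
    apply Matrix.BlockTriangular.mul
    · intro p q hpq
      rw [Units.val_mul, permMat_inv_mul, Units.val_mul, mul_permMat]
      -- analysis
      rw [← submatrix_blockTriangular hτ, conj_relabel] at hX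
      have hbT : (b.1.submatrix e e).BlockTriangular o.val :=
        (submatrix_blockTriangular he _).2 hb
      have hbiT : ((b⁻¹ : GL (Fin n) ℂ).1.submatrix e e).BlockTriangular o.val :=
        (submatrix_blockTriangular he _).2 (inv_mem hb)
      have hbbi : b.1.submatrix e e * (b⁻¹ : GL (Fin n) ℂ).1.submatrix e e = 1 := by
        rw [← sub_mul, ← Units.val_mul, mul_inv_cancel, Units.val_one, sub_one]
      obtain ⟨T, hT, hK⟩ := analysis c hc o j0 hQ0 hα0 H2 hbbi hbT hbiT hX
      have hT0 := h0 T hT
      subst hT0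
      have hpq' : tb (τ.symm q) < tb (τ.symm p) := hpq
      have hwx : wperm e τ p = e (τ.symm p) := rfl
      have hwy : wperm e τ q = e (τ.symm q) := rfl
      rw [hwx, hwy]
      change (b.1.submatrix e e) (τ.symm p) (τ.symm q) = 0
      clear hwx hwy hpq
      generalize τ.symm p = x at hpq' ⊢
      generalize τ.symm q = y at hpq' ⊢
      rename' hpq' => hpq
      obtain ⟨j, a⟩ := x
      obtain ⟨k, d⟩ := y
      rcases lt_trichotomy j k with h1 | h1 | h1
      · exfalso
        rcases a with r | i <;> rcases d with r' | i' <;>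
          simp only [tb_inl, tb_inr] at hpq <;> have h2 : (j : ℕ) < k := h1 <;> omega
      · subst h1
        rcases a with r | i <;> rcases d with r' | i'
        · simp only [tb_inl, lt_self_iff_false] at hpq
        · obtain ⟨K, _, hK⟩ := hK j
          obtain ⟨W, hW⟩ : ∃ W : Matrix (KK S) (Fin 2) ℂ, W = stack (0 : Matrix S (Fin 2) ℂ) := ⟨_, rfl⟩
          rw [← hW] at hK
          have h3 : colP (bl (b.1.submatrix e e) j j) = (c j).gamInv * (W * K) := by
            rw [← hK, ← Matrix.mul_assoc, (hc j).gamInv_mul, Matrix.one_mul]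
          have h4 := congrFun (congrFun h3 (Sum.inl r)) i'
          have h5 : ((c j).gamInv * (W * K)) (Sum.inl r) i' = 0 := by
            rw [Matrix.mul_apply, Fintype.sum_sum_type]
            have h6 : ∀ x : S, (W * K) (Sum.inl x) i' = 0 := by
              intro x
              simp [hW, Matrix.mul_apply, stack]
            simp [h6, Cond.gamInv]
          rw [h5] at h4
          exact h4
        · simp only [tb_inl, tb_inr] at hpq; omega
        · simp only [tb_inr, lt_self_iff_false] at hpq
      · exact hbT (o.val_blk (k, d) (j, a) h1)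
    · intro p q hpq
      apply hb'
      by_contra hc'
      exact absurd (hβ (not_lt.1 hc')) (not_le.2 hpq)
  · intro L hL0 hL1 hLβ
    rw [mem_Y_iff]
    refine ⟨permMat (wperm e τ) * L * (permMat (wperm e τ))⁻¹, ?_, 1, one_mem _, by group, ?_⟩
    · -- upper triangular
      intro i j hij
      have e1 : ∀ i j, (permMat (wperm e τ) * L * (permMat (wperm e τ))⁻¹ : GL (Fin n) ℂ).1 i j =
          L.1 ((wperm e τ).symm i) ((wperm e τ).symm j) := by
        intro i j
        have h1 := mul_permMat (wperm e τ)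
          (permMat (wperm e τ) * L * (permMat (wperm e τ))⁻¹ : GL (Fin n) ℂ).1 i
          ((wperm e τ).symm j)
        rw [Equiv.apply_symm_apply] at h1
        rw [← h1, ← Units.val_mul, inv_mul_cancel_right]
        have h2 := permMat_inv_mul (wperm e τ) (permMat (wperm e τ) * L : GL (Fin n) ℂ).1
          ((wperm e τ).symm i) ((wperm e τ).symm j)
        rw [Equiv.apply_symm_apply] at h2
        rw [← h2, ← Units.val_mul, inv_mul_cancel_left]
      rw [e1]
      set p := (wperm e τ).symm i with hp
      set q := (wperm e τ).symm j with hq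
      have hi : i = e (τ.symm p) := by
        rw [hp]; simp [wperm]
      have hj : j = e (τ.symm q) := by
        rw [hq]; simp [wperm]
      rw [hi, hj, he] at hij
      by_cases h1 : tb (τ.symm q) < tb (τ.symm p)
      · exact hLβ h1
      · have hpq : p ≠ q := by
          rintro h2
          rw [h2] at hij
          exact lt_irrefl _ hij
        rcases lt_or_gt_of_ne hpq with h2 | h2
        · exact hL0 p q h2
        · exfalso
          have h3 : τ (τ.symm q) < τ (τ.symm p) := by simpa using h2
          rw [hτ, o.time_iff] at h3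
          rcases h3 with h4 | ⟨_, h4⟩
          · exact h1 h4
          · omega
    · have e1 : permMat (wperm e τ) * L * (permMat (wperm e τ))⁻¹ * permMat (wperm e τ) =
          permMat (wperm e τ) * L := by group
      rw [e1]
      have e2 : ((permMat (wperm e τ) * L)⁻¹ : GL (Fin n) ℂ).1 * Xf c e *
          (permMat (wperm e τ) * L : GL (Fin n) ℂ).1 = (L⁻¹ : GL (Fin n) ℂ).1 *
          (((permMat (wperm e τ))⁻¹ : GL (Fin n) ℂ).1 * Xf c e * (permMat (wperm e τ)).1) * L.1 := by
        rw [_root_.mul_inv_rev, Units.val_mul, Units.val_mul]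
        simp only [Matrix.mul_assoc]
      rw [e2]
      intro i j hij
      apply strict_mul (β := fun p : Fin n => tb (τ.symm p)) (inv_blockTriangular hLβ)
        (Xf_conj_strict c e τ) hLβ
      exact hβ hij.le

end Pool.Agent.Run7.h768
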