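import Pool.Agent.Run7.h768.CaseA2

/-! The chart around `w`: the closure of a Springer cell there is the cell itself. -/

set_option linter.unusedSectionVars false
set_option linter.unusedVariables false
set_option linter.unusedSimpArgs false

noncomputable section

namespace Pool.Agent.Run7.h768

open Matrix

/-! ### polynomial functions on the group -/

/-- a polynomial function of the matrix entries -/
def IsPol {n : ℕ} (F : GL (Fin n) ℂ → ℂ) : Prop :=
  ∃ f : MvPolynomial (Fin n × Fin n) ℂ, ∀ g, MvPolynomial.eval (entries g) f = F g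

namespace IsPol

variable {n : ℕ} {F G : GL (Fin n) ℂ → ℂ}

theorem const (a : ℂ) : IsPol (fun _ : GL (Fin n) ℂ => a) := ⟨MvPolynomial.C a, fun g => by simp⟩

theorem entry (i j : Fin n) : IsPol (fun g : GL (Fin n) ℂ => g.1 i j) :=
  ⟨MvPolynomial.X (i, j), fun g => by simp [entries]⟩

theorem add (hF : IsPol F) (hG : IsPol G) : IsPol fun g => F g + G g :=
  let ⟨f, hf⟩ := hF; let ⟨f', hf'⟩ := hG
  ⟨f + f', fun g => by rw [map_add, hf, hf']⟩

theorem mul (hF : IsPol F) (hG : IsPol G) : IsPol fun g => F g * G g :=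
  let ⟨f, hf⟩ := hF; let ⟨f', hf'⟩ := hG
  ⟨f * f', fun g => by rw [map_mul, hf, hf']⟩

theorem sub (hF : IsPol F) (hG : IsPol G) : IsPol fun g => F g - G g :=
  let ⟨f, hf⟩ := hF; let ⟨f', hf'⟩ := hG
  ⟨f - f', fun g => by rw [map_sub, hf, hf']⟩

theorem sum {ι : Type} [Fintype ι] {F : ι → GL (Fin n) ℂ → ℂ} (hF : ∀ i, IsPol (F i)) :
    IsPol fun g => ∑ i, F i g := by
  choose f hf using hF
  exact ⟨∑ i, f i, fun g => by simp only [map_sum, hf]⟩

theorem vanish (hF : IsPol F) {Y : Set (Flag n)} (hY : ∀ g : GL (Fin n) ℂ, (g : Flag n) ∈ Y → F g = 0)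
    {g : GL (Fin n) ℂ} (hg : (g : Flag n) ∈ zariskiClosure Y) : F g = 0 := by
  obtain ⟨f, hf⟩ := hF
  rw [← hf]
  exact (mem_zariskiClosure_iff Y g).1 hg f fun h hh => by rw [hf]; exact hY h hh

end IsPol

variable {S : Type} [Fintype S] [DecidableEq S] {h n : ℕ}

variable (c : Fin h → Cond S ℂ) (o : Orders h S (fun j => (c j).s))
  (e τ : (Fin h × KK S) ≃ Fin n)

/-- entries in the coordinates of the flag `j` -/
def UU (g : GL (Fin n) ℂ) (j : Fin h) (a : KK S) (x : Fin h × KK S) : ℂ :=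
  ∑ a', (c j).gam a a' * g.1 (e (j, a')) (τ x)

theorem isPol_UU (j : Fin h) (a : KK S) (x : Fin h × KK S) :
    IsPol fun g => UU c e τ g j a x :=
  IsPol.sum fun a' => (IsPol.const _).mul (IsPol.entry _ _)

/-- two by two minors -/
def DD (j0 : Fin h) (g : GL (Fin n) ℂ) : ℂ :=
  UU c e τ g j0 (Sum.inr 0) (j0, Sum.inr 0) * UU c e τ g j0 (Sum.inr 1) (j0, Sum.inr 1) -
    UU c e τ g j0 (Sum.inr 0) (j0, Sum.inr 1) * UU c e τ g j0 (Sum.inr 1) (j0, Sum.inr 0)

def mm (j0 : Fin h) (g : GL (Fin n) ℂ) : Matrix S (Fin 2) ℂ := Matrix.of fun r i =>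
  if i = 0 then
    UU c e τ g j0 (Sum.inl r) (j0, Sum.inr 0) * UU c e τ g j0 (Sum.inr 1) (j0, Sum.inr 1) -
      UU c e τ g j0 (Sum.inl r) (j0, Sum.inr 1) * UU c e τ g j0 (Sum.inr 1) (j0, Sum.inr 0)
  else
    UU c e τ g j0 (Sum.inr 0) (j0, Sum.inr 0) * UU c e τ g j0 (Sum.inl r) (j0, Sum.inr 1) -
      UU c e τ g j0 (Sum.inr 0) (j0, Sum.inr 1) * UU c e τ g j0 (Sum.inl r) (j0, Sum.inr 0)

theorem isPol_DD (j0 : Fin h) : IsPol fun g => DD c e τ j0 g :=
  ((isPol_UU c e τ _ _ _).mul (isPol_UU c e τ _ _ _)).sub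
    ((isPol_UU c e τ _ _ _).mul (isPol_UU c e τ _ _ _))

theorem isPol_mm (j0 : Fin h) (r : S) (i : Fin 2) : IsPol fun g => mm c e τ j0 g r i := by
  fin_cases i
  · exact ((isPol_UU c e τ _ _ _).mul (isPol_UU c e τ _ _ _)).sub
      ((isPol_UU c e τ _ _ _).mul (isPol_UU c e τ _ _ _))
  · exact ((isPol_UU c e τ _ _ _).mul (isPol_UU c e τ _ _ _)).sub
      ((isPol_UU c e τ _ _ _).mul (isPol_UU c e τ _ _ _))

theorem isPol_app (j0 : Fin h) (φ : S → ℂ) (i : Fin 2) :
    IsPol fun g => app φ (mm c e τ j0 g) i :=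
  IsPol.sum fun r => (IsPol.const _).mul (isPol_mm c e τ j0 r i)

theorem isPol_dot (j0 : Fin h) (φ : S → ℂ) (v : Fin 2 → ℂ) :
    IsPol fun g => dot (app φ (mm c e τ j0 g)) v :=
  ((isPol_app c e τ j0 φ 0).mul (IsPol.const _)).add
    ((isPol_app c e τ j0 φ 1).mul (IsPol.const _))

/-- the structure of the matrices in the cone over the cell -/
theorem cone_analysis (he : ∀ x y, e x < e y ↔ o.val x < o.val y)
    (hτ : ∀ x y, τ x < τ y ↔ o.time x < o.time y) (hc : ∀ j, (c j).Good)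
    (j0 : Fin h) (hQ0 : (c j0).Q = 1) (hα0 : (c j0).α = 0)
    (H2 : ∀ T, (∀ j, (c j).α = 0 → dot (app (c j).φ T) ((c j).col 0) = 0) →
      ∀ j, dot (app (c j).α T) ((c j).col 1) = 0) (g : GL (Fin n) ℂ)
    (hg : (g : Flag n) ∈ SchubertCell (wperm e τ) ∩ SpringerFiber (Xf c e)) :
    (∀ (k : Fin h) (a : KK S) (x : Fin h × KK S), tb x < (k : ℕ) → g.1 (e (k, a)) (τ x) = 0) ∧
    ∃ T : Matrix S (Fin 2) ℂ, (∀ j, (c j).Sol T) ∧ ∀ (j : Fin h) (x : Fin h × KK S),
      tb x = (j : ℕ) → ∃ κ : Fin 2 → ℂ, ∀ a, UU c e τ g j a x = ∑ i, stack T a i * κ i := by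
  rw [mem_Y_iff] at hg
  obtain ⟨b, hb, b', hb', rfl, hX⟩ := hg
  rw [← submatrix_blockTriangular hτ, conj_relabel] at hX
  have hbT : (b.1.submatrix e e).BlockTriangular o.val :=
    (submatrix_blockTriangular he _).2 hb
  have hbiT : ((b⁻¹ : GL (Fin n) ℂ).1.submatrix e e).BlockTriangular o.val :=
    (submatrix_blockTriangular he _).2 (inv_mem hb)
  have hbbi : b.1.submatrix e e * (b⁻¹ : GL (Fin n) ℂ).1.submatrix e e = 1 := by
    rw [← sub_mul, ← Units.val_mul, mul_inv_cancel, Units.val_one, sub_one]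
  obtain ⟨T, hT, hK⟩ := analysis c hc o j0 hQ0 hα0 H2 hbbi hbT hbiT hX
  have hb'T : (b'.1.submatrix τ τ).BlockTriangular o.time :=
    (submatrix_blockTriangular hτ _).2 hb'
  have hent : ∀ x y, (b * permMat (wperm e τ) * b' : GL (Fin n) ℂ).1 (e x) (τ y) =
      ∑ z, b.1.submatrix e e x z * b'.1.submatrix τ τ z y := by
    intro x y
    rw [Units.val_mul, Matrix.mul_apply, ← Equiv.sum_comp τ]
    apply Finset.sum_congr rfl
    intro z _
    rw [Units.val_mul, mul_permMat]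
    simp only [wperm, Equiv.trans_apply, Equiv.symm_apply_apply, Matrix.submatrix_apply]
  have hz : ∀ (z x : Fin h × KK S), tb x < tb z → b'.1.submatrix τ τ z x = 0 := by
    intro z x hzx
    apply hb'T
    rw [o.time_iff]
    exact Or.inl hzx
  have hle : ∀ z : Fin h × KK S, (z.1 : ℕ) ≤ tb z := by
    rintro ⟨l, a | i⟩
    · simp
    · simp
  constructor
  · intro k a x hx
    rw [hent]
    apply Finset.sum_eq_zero
    intro z _
    by_cases h1 : z.1 < k
    · rw [hbT (o.val_blk z (k, a) h1), zero_mul]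
    · rw [hz z x, mul_zero]
      have h2 : (k : ℕ) ≤ z.1 := not_lt.1 h1
      exact hx.trans_le (h2.trans (hle z))
  · refine ⟨T, hT, ?_⟩
    intro j x hx
    obtain ⟨K, _, hK⟩ := hK j
    refine ⟨fun i => ∑ i', K i i' * b'.1.submatrix τ τ (j, Sum.inr i') x, ?_⟩
    intro a
    have e1 : ∀ a', (b * permMat (wperm e τ) * b' : GL (Fin n) ℂ).1 (e (j, a')) (τ x) =
        ∑ i', colP (bl (b.1.submatrix e e) j j) a' i' * b'.1.submatrix τ τ (j, Sum.inr i') x := by
      intro a'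
      rw [hent, Fintype.sum_prod_type, Finset.sum_eq_single j]
      · rw [Fintype.sum_sum_type, Finset.sum_eq_zero, zero_add]
        · rfl
        · intro r _
          rw [hz (j, Sum.inl r) x (by rw [tb_inl, hx]; omega), mul_zero]
      · intro l _ hl
        apply Finset.sum_eq_zero
        intro a'' _
        rcases lt_or_gt_of_ne hl with h1 | h1
        · rw [hbT (o.val_blk (l, a'') (j, a') h1), zero_mul]
        · rw [hz (l, a'') x, mul_zero]
          have h2 : (j : ℕ) < l := h1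
          have h3 := hle (l, a'')
          dsimp only at h3
          omega
      · intro hx
        exact absurd (Finset.mem_univ _) hx
    simp only [UU, e1]
    have e2 : ∑ a', (c j).gam a a' * ∑ i', colP (bl (b.1.submatrix e e) j j) a' i' *
        b'.1.submatrix τ τ (j, Sum.inr i') x =
        ∑ i', ((c j).gam * colP (bl (b.1.submatrix e e) j j)) a i' *
          b'.1.submatrix τ τ (j, Sum.inr i') x := by
      simp only [Matrix.mul_apply, Finset.mul_sum, Finset.sum_mul]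
      rw [Finset.sum_comm]
      apply Finset.sum_congr rfl
      intro i' _
      apply Finset.sum_congr rfl
      intro a' _
      ring
    rw [e2, hK]
    simp only [Matrix.mul_apply, Fin.sum_univ_two]
    ring

/-- the equations of the cell hold on the closure -/
theorem closure_equations (he : ∀ x y, e x < e y ↔ o.val x < o.val y)
    (hτ : ∀ x y, τ x < τ y ↔ o.time x < o.time y) (hc : ∀ j, (c j).Good)
    (j0 : Fin h) (hQ0 : (c j0).Q = 1) (hα0 : (c j0).α = 0)
    (H2 : ∀ T, (∀ j, (c j).α = 0 → dot (app (c j).φ T) ((c j).col 0) = 0) →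
      ∀ j, dot (app (c j).α T) ((c j).col 1) = 0) (g : GL (Fin n) ℂ)
    (hg : (g : Flag n) ∈ zariskiClosure (SchubertCell (wperm e τ) ∩ SpringerFiber (Xf c e))) :
    (∀ (k : Fin h) (a : KK S) (x : Fin h × KK S), tb x < (k : ℕ) → g.1 (e (k, a)) (τ x) = 0) ∧
    (∀ j, dot (app (c j).α (mm c e τ j0 g)) ((c j).col 1) = 0) ∧
    (∀ j, DD c e τ j0 g * dot (app (c j).φ (mm c e τ j0 g)) ((c j).col 0) =
      dot (app (c j).α (mm c e τ j0 g)) ((c j).col 0) *
        dot (app (c j).φ (mm c e τ j0 g)) ((c j).col 1)) ∧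
    (∀ (j : Fin h) (x : Fin h × KK S), tb x = (j : ℕ) → ∀ r : S,
      DD c e τ j0 g * UU c e τ g j (Sum.inl r) x =
        mm c e τ j0 g r 0 * UU c e τ g j (Sum.inr 0) x +
          mm c e τ j0 g r 1 * UU c e τ g j (Sum.inr 1) x) := by
  have key : ∀ g : GL (Fin n) ℂ,
      (g : Flag n) ∈ SchubertCell (wperm e τ) ∩ SpringerFiber (Xf c e) →
      ∃ T : Matrix S (Fin 2) ℂ, (∀ j, (c j).Sol T) ∧ (mm c e τ j0 g = DD c e τ j0 g • T) ∧
        (∀ (j : Fin h) (x : Fin h × KK S), tb x = (j : ℕ) → ∀ r : S,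
          UU c e τ g j (Sum.inl r) x = T r 0 * UU c e τ g j (Sum.inr 0) x +
            T r 1 * UU c e τ g j (Sum.inr 1) x) := by
    intro g hg
    obtain ⟨_, T, hT, hκ⟩ := cone_analysis c o e τ he hτ hc j0 hQ0 hα0 H2 g hg
    have h1 : ∀ (j : Fin h) (x : Fin h × KK S), tb x = (j : ℕ) → ∀ r : S,
          UU c e τ g j (Sum.inl r) x = T r 0 * UU c e τ g j (Sum.inr 0) x +
            T r 1 * UU c e τ g j (Sum.inr 1) x := by
      intro j x hx r
      obtain ⟨κ, hκ⟩ := hκ j x hx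
      rw [hκ, hκ, hκ]
      simp [Fin.sum_univ_two, stack]
    refine ⟨T, hT, ?_, h1⟩
    have e0 := fun r => h1 j0 (j0, Sum.inr 0) (by simp) r
    have e1 := fun r => h1 j0 (j0, Sum.inr 1) (by simp) r
    ext r i
    rw [Matrix.smul_apply, smul_eq_mul]
    fin_cases i
    · simp only [mm, DD, Matrix.of_apply, Fin.zero_eta, if_true, e0, e1]
      ring
    · simp only [mm, DD, Matrix.of_apply, Fin.mk_one, one_ne_zero, if_false, e0, e1]
      ring
  have happ : ∀ (φ : S → ℂ) (D : ℂ) (T : Matrix S (Fin 2) ℂ) (i : Fin 2),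
      app φ (D • T) i = D * app φ T i := by
    intro φ D T i
    simp only [app, Matrix.smul_apply, smul_eq_mul, Finset.mul_sum]
    apply Finset.sum_congr rfl
    intro r _
    ring
  have hdot : ∀ (φ : S → ℂ) (D : ℂ) (T : Matrix S (Fin 2) ℂ) (v : Fin 2 → ℂ),
      dot (app φ (D • T)) v = D * dot (app φ T) v := by
    intro φ D T v
    simp only [dot, happ]
    ring
  refine ⟨?_, ?_, ?_, ?_⟩
  · intro k a x hx
    exact (IsPol.entry (e (k, a)) (τ x)).vanish (fun g hg =>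
      (cone_analysis c o e τ he hτ hc j0 hQ0 hα0 H2 g hg).1 k a x hx) hg
  · intro j
    apply (isPol_dot c e τ j0 (c j).α ((c j).col 1)).vanish _ hg
    intro g hg
    obtain ⟨T, hT, hm, _⟩ := key g hg
    rw [hm, hdot, (hT j).h0, mul_zero]
  · intro j
    apply sub_eq_zero.1
    apply (((isPol_DD c e τ j0).mul (isPol_dot c e τ j0 (c j).φ ((c j).col 0))).sub
      ((isPol_dot c e τ j0 (c j).α ((c j).col 0)).mul
        (isPol_dot c e τ j0 (c j).φ ((c j).col 1)))).vanish _ hg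
    intro g hg
    obtain ⟨T, hT, hm, _⟩ := key g hg
    rw [hm, hdot, hdot, hdot, (hT j).h1]
    ring
  · intro j x hx r
    apply sub_eq_zero.1
    apply (((isPol_DD c e τ j0).mul (isPol_UU c e τ j (Sum.inl r) x)).sub
      (((isPol_mm c e τ j0 r 0).mul (isPol_UU c e τ j (Sum.inr 0) x)).add
        ((isPol_mm c e τ j0 r 1).mul (isPol_UU c e τ j (Sum.inr 1) x)))).vanish _ hg
    intro g hg
    obtain ⟨T, hT, hm, h1⟩ := key g hg
    rw [hm, h1 j x hx r, Matrix.smul_apply, Matrix.smul_apply, smul_eq_mul, smul_eq_mul]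
    ring

end Pool.Agent.Run7.h768
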