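import Pool.Agent.Run7.h768.ChartA
import Pool.Agent.Run7.h768.CoordRing

/-! Parametrization of the chart around `w`. -/

set_option linter.unusedSectionVars false
set_option linter.unusedVariables false
set_option linter.unusedSimpArgs false

noncomputable section

namespace Pool.Agent.Run7.h768

open Matrix

variable {S : Type} [Fintype S] [DecidableEq S] {h n : ℕ}

/-- positions below the diagonal in the diagonal blocks -/
abbrev LevIdx (τ : (Fin h × KK S) ≃ Fin n) : Type :=
  {k : LowIdx n // tb (τ.symm k.1.1) = tb (τ.symm k.1.2)}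

section ring

variable {R R' : Type} [CommRing R] [CommRing R'] (f : R →+* R')

def LvM (τ : (Fin h × KK S) ≃ Fin n) (u : LevIdx τ → R) : Matrix (Fin n) (Fin n) R :=
  Matrix.of fun p q => if hpq : q < p ∧ tb (τ.symm p) = tb (τ.symm q) then
    u ⟨⟨(p, q), hpq.1⟩, hpq.2⟩ else if p = q then 1 else 0

def NuM (τ : (Fin h × KK S) ≃ Fin n) (c : Fin h → Cond S R) (T : Matrix S (Fin 2) R) :
    Matrix (Fin n) (Fin n) R :=
  (diagBl fun j => Matrix.fromBlocks (1 : Matrix S S R) ((c j).nu T) 0
    (1 : Matrix (Fin 2) (Fin 2) R)).submatrix τ.symm τ.symm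

def PX (τ : (Fin h × KK S) ≃ Fin n) (c : Fin h → Cond S R) (T : Matrix S (Fin 2) R)
    (u : LevIdx τ → R) : Matrix (Fin n) (Fin n) R := NuM τ c T * LvM τ u

theorem LvM_map (τ : (Fin h × KK S) ≃ Fin n) (u : LevIdx τ → R) :
    LvM τ (fun k => f (u k)) = (LvM τ u).map f := by
  ext p q
  simp only [LvM, Matrix.of_apply, Matrix.map_apply]
  split_ifs <;> simp

theorem NuM_map (τ : (Fin h × KK S) ≃ Fin n) (c : Fin h → Cond S R) (T : Matrix S (Fin 2) R) :
    NuM τ (fun j => (c j).map f) (T.map f) = (NuM τ c T).map f := by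
  have h1 : (diagBl fun j => Matrix.fromBlocks (1 : Matrix S S R') (((c j).map f).nu (T.map f)) 0
      (1 : Matrix (Fin 2) (Fin 2) R')) =
      (diagBl fun j => Matrix.fromBlocks (1 : Matrix S S R) ((c j).nu T) 0
    (1 : Matrix (Fin 2) (Fin 2) R)).map f := by
    apply ext_bl
    intro j k
    rw [bl_diagBl]
    ext a b
    change _ = f (bl (diagBl _) j k a b)
    rw [bl_diagBl]
    by_cases hjk : j = k
    · subst hjk
      rw [if_pos rfl, if_pos rfl]
      rcases a with r | i <;> rcases b with r' | i'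
      · simp only [Matrix.fromBlocks_apply₁₁, Matrix.one_apply]
        split_ifs <;> simp
      · simp only [Matrix.fromBlocks_apply₁₂]
        rw [nu_map]
        rfl
      · simp
      · simp only [Matrix.fromBlocks_apply₂₂, Matrix.one_apply]
        split_ifs <;> simp
    · rw [if_neg hjk, if_neg hjk]
      simp
  rw [NuM, h1]
  rfl

theorem PX_map (τ : (Fin h × KK S) ≃ Fin n) (c : Fin h → Cond S R) (T : Matrix S (Fin 2) R)
    (u : LevIdx τ → R) :
    PX τ (fun j => (c j).map f) (T.map f) (fun k => f (u k)) = (PX τ c T u).map f := by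
  rw [PX, NuM_map, LvM_map, PX, Matrix.map_mul]

theorem NuM_apply (τ : (Fin h × KK S) ≃ Fin n) (c : Fin h → Cond S R) (T : Matrix S (Fin 2) R)
    (x y : Fin h × KK S) : NuM τ c T (τ x) (τ y) = if x.1 = y.1 then
      (Matrix.fromBlocks (1 : Matrix S S R) ((c x.1).nu T) 0
    (1 : Matrix (Fin 2) (Fin 2) R)) x.2 y.2 else 0 := by
  rw [NuM, Matrix.submatrix_apply, Equiv.symm_apply_apply, Equiv.symm_apply_apply]
  change bl (diagBl _) x.1 y.1 x.2 y.2 = _
  rw [bl_diagBl]
  split_ifs <;> rfl

end ring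

section tri

variable {R : Type} [CommRing R] {s : Fin h → S} (o : Orders h S s)
  (e τ : (Fin h × KK S) ≃ Fin n)

theorem NuM_upper (hτ : ∀ x y, τ x < τ y ↔ o.time x < o.time y) (c : Fin h → Cond S R)
    (T : Matrix S (Fin 2) R) (p q : Fin n) (hpq : p < q) : NuM τ c T p q = 0 := by
  have h1 : τ (τ.symm p) < τ (τ.symm q) := by simpa using hpq
  rw [hτ, o.time_iff] at h1
  have hne : τ.symm p ≠ τ.symm q := fun h => by
    rw [τ.symm.injective h] at hpq
    exact lt_irrefl _ hpq
  have h2 := NuM_apply τ c T (τ.symm p) (τ.symm q)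
  rw [Equiv.apply_symm_apply, Equiv.apply_symm_apply] at h2
  rw [h2]
  revert h1 hne
  generalize τ.symm p = x
  generalize τ.symm q = y
  obtain ⟨j, a⟩ := x
  obtain ⟨k, b⟩ := y
  intro h1 hne
  dsimp only
  by_cases hjk : j = k
  · subst hjk
    rw [if_pos rfl]
    rcases a with r | i <;> rcases b with r' | i'
    · rw [Matrix.fromBlocks_apply₁₁, Matrix.one_apply_ne]
      exact fun h => hne (by rw [h])
    · simp only [tb_inl, tb_inr] at h1
      omega
    · rfl
    · rw [Matrix.fromBlocks_apply₂₂, Matrix.one_apply_ne]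
      exact fun h => hne (by rw [h])
  · rw [if_neg hjk]

theorem NuM_diag (c : Fin h → Cond S R) (T : Matrix S (Fin 2) R) (p : Fin n) :
    NuM τ c T p p = 1 := by
  have h2 := NuM_apply τ c T (τ.symm p) (τ.symm p)
  rw [Equiv.apply_symm_apply, if_pos rfl] at h2
  rw [h2]
  rcases (τ.symm p).2 with r | i <;> simp

theorem LvM_upper (u : LevIdx τ → R) (p q : Fin n) (hpq : p < q) : LvM τ u p q = 0 := by
  simp only [LvM, Matrix.of_apply]
  rw [dif_neg (fun h => absurd h.1 (not_lt_of_gt hpq)), if_neg (ne_of_lt hpq)]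

theorem LvM_diag (u : LevIdx τ → R) (p : Fin n) : LvM τ u p p = 1 := by
  simp only [LvM, Matrix.of_apply]
  rw [dif_neg (fun h => lt_irrefl _ h.1)]
  simp

theorem LvM_block (u : LevIdx τ → R) (p q : Fin n) (hpq : tb (τ.symm p) ≠ tb (τ.symm q)) :
    LvM τ u p q = 0 := by
  simp only [LvM, Matrix.of_apply]
  rw [dif_neg (fun h => hpq h.2), if_neg]
  rintro rfl
  exact hpq rfl

theorem LvM_low (u : LevIdx τ → R) (k : LevIdx τ) : LvM τ u k.1.1.1 k.1.1.2 = u k := by
  simp only [LvM, Matrix.of_apply]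
  rw [dif_pos ⟨k.1.2, k.2⟩]

theorem PX_upper (hτ : ∀ x y, τ x < τ y ↔ o.time x < o.time y) (c : Fin h → Cond S R)
    (T : Matrix S (Fin 2) R) (u : LevIdx τ → R) (p q : Fin n) (hpq : p < q) :
    PX τ c T u p q = 0 := by
  rw [PX, Matrix.mul_apply]
  apply Finset.sum_eq_zero
  intro s _
  rcases lt_or_ge p s with h1 | h1
  · rw [NuM_upper o τ hτ c T p s h1, zero_mul]
  · rw [LvM_upper τ u s q (h1.trans_lt hpq), mul_zero]

theorem PX_diag (hτ : ∀ x y, τ x < τ y ↔ o.time x < o.time y) (c : Fin h → Cond S R)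
    (T : Matrix S (Fin 2) R) (u : LevIdx τ → R) (p : Fin n) : PX τ c T u p p = 1 := by
  rw [PX, Matrix.mul_apply, Finset.sum_eq_single p]
  · rw [NuM_diag, LvM_diag, mul_one]
  · intro s _ hs
    rcases lt_or_gt_of_ne hs with h1 | h1
    · rw [LvM_upper τ u s p h1, mul_zero]
    · rw [NuM_upper o τ hτ c T p s h1, zero_mul]
  · intro hx
    exact absurd (Finset.mem_univ _) hx

/-- entries of the product: same block -/
theorem PX_same (c : Fin h → Cond S R) (T : Matrix S (Fin 2) R) (u : LevIdx τ → R)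
    (x y : Fin h × KK S) (hxy : tb x = tb y) : PX τ c T u (τ x) (τ y) = LvM τ u (τ x) (τ y) := by
  rw [PX, Matrix.mul_apply, Finset.sum_eq_single (τ x)]
  · rw [NuM_diag, one_mul]
  · intro s _ hs
    by_cases h1 : tb (τ.symm s) = tb y
    · have h2 := NuM_apply τ c T x (τ.symm s)
      rw [Equiv.apply_symm_apply] at h2
      rw [h2]
      have hne : x ≠ τ.symm s := fun h => hs (by rw [h]; simp)
      rw [← hxy] at h1
      revert h1 hne
      generalize τ.symm s = z
      obtain ⟨j, a⟩ := x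
      obtain ⟨k, b⟩ := z
      intro h1 hne
      dsimp only
      by_cases hjk : j = k
      · subst hjk
        rw [if_pos rfl]
        rcases a with r | i <;> rcases b with r' | i'
        · rw [Matrix.fromBlocks_apply₁₁, Matrix.one_apply_ne, zero_mul]
          exact fun h => hne (by rw [h])
        · simp only [tb_inl, tb_inr] at h1
          omega
        · rw [Matrix.fromBlocks_apply₂₁, Matrix.zero_apply, zero_mul]
        · rw [Matrix.fromBlocks_apply₂₂, Matrix.one_apply_ne, zero_mul]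
          exact fun h => hne (by rw [h])
      · rw [if_neg hjk, zero_mul]
    · rw [LvM_block τ u s (τ y), mul_zero]
      rwa [Equiv.symm_apply_apply]
  · intro hx
    exact absurd (Finset.mem_univ _) hx

/-- entries of the product: rows `inr` -/
theorem PX_inr (c : Fin h → Cond S R) (T : Matrix S (Fin 2) R) (u : LevIdx τ → R)
    (j : Fin h) (i : Fin 2) (y : Fin h × KK S) :
    PX τ c T u (τ (j, Sum.inr i)) (τ y) = LvM τ u (τ (j, Sum.inr i)) (τ y) := by
  rw [PX, Matrix.mul_apply, Finset.sum_eq_single (τ (j, Sum.inr i))]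
  · rw [NuM_diag, one_mul]
  · intro s _ hs
    have h2 := NuM_apply τ c T (j, Sum.inr i) (τ.symm s)
    rw [Equiv.apply_symm_apply] at h2
    rw [h2]
    have hne : (j, Sum.inr i) ≠ τ.symm s := fun h => hs (by rw [h]; simp)
    revert hne
    generalize τ.symm s = z
    obtain ⟨k, b⟩ := z
    intro hne
    dsimp only
    by_cases hjk : j = k
    · subst hjk
      rw [if_pos rfl]
      rcases b with r' | i'
      · rw [Matrix.fromBlocks_apply₂₁, Matrix.zero_apply, zero_mul]
      · rw [Matrix.fromBlocks_apply₂₂, Matrix.one_apply_ne, zero_mul]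
        exact fun h => hne (by rw [h])
    · rw [if_neg hjk, zero_mul]
  · intro hx
    exact absurd (Finset.mem_univ _) hx

/-- entries of the product: rows `inl`, columns of an earlier block -/
theorem PX_inl (c : Fin h → Cond S R) (T : Matrix S (Fin 2) R) (u : LevIdx τ → R)
    (j : Fin h) (r : S) (y : Fin h × KK S) (hy : tb y ≠ (j : ℕ) + 1) :
    PX τ c T u (τ (j, Sum.inl r)) (τ y) =
      ∑ i, (c j).nu T r i * LvM τ u (τ (j, Sum.inr i)) (τ y) := by
  rw [PX, Matrix.mul_apply, ← Equiv.sum_comp τ, Fintype.sum_prod_type, Finset.sum_eq_single j]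
  · rw [Fintype.sum_sum_type, Finset.sum_eq_zero, zero_add]
    · apply Finset.sum_congr rfl
      intro i _
      rw [NuM_apply, if_pos rfl, Matrix.fromBlocks_apply₁₂]
    · intro r' _
      rw [LvM_block, mul_zero]
      rw [Equiv.symm_apply_apply, Equiv.symm_apply_apply, tb_inl]
      exact fun h => hy h.symm
  · intro k _ hk
    apply Finset.sum_eq_zero
    intro a _
    rw [NuM_apply, if_neg (Ne.symm hk), zero_mul]
  · intro hx
    exact absurd (Finset.mem_univ _) hx

end tri

/-- lower entries -/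
def lowP {R : Type} (M : Matrix (Fin n) (Fin n) R) : LowIdx n → R := fun k => M k.1.1 k.1.2

theorem lowMat_lowP (M : Matrix (Fin n) (Fin n) ℂ) (h0 : ∀ p q, p < q → M p q = 0)
    (h1 : ∀ p, M p p = 1) : lowMat (lowP M) = M := by
  ext p q
  simp only [lowMat, lowP, Matrix.of_apply]
  rcases lt_trichotomy q p with h2 | h2 | h2
  · rw [dif_pos h2]
  · subst h2
    rw [dif_neg (lt_irrefl _), if_pos rfl, h1]
  · rw [dif_neg (not_lt_of_gt h2), if_neg (ne_of_lt h2), h0 p q h2]

variable (c : Fin h → Cond S ℂ) (o : Orders h S (fun j => (c j).s))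
  (e τ : (Fin h × KK S) ≃ Fin n)

/-- the points of the parametrization lie on the cell -/
theorem chart_mem (he : ∀ x y, e x < e y ↔ o.val x < o.val y)
    (hτ : ∀ x y, τ x < τ y ↔ o.time x < o.time y) (hc : ∀ j, (c j).Good)
    {T : Matrix S (Fin 2) ℂ} (hT : ∀ j, (c j).Sol T) (u : LevIdx τ → ℂ) :
    ((permMat (wperm e τ) * lowUni (lowP (PX τ c T u)) : GL (Fin n) ℂ) : Flag n) ∈
      SchubertCell (wperm e τ) ∩ SpringerFiber (Xf c e) := by
  have h1 : permMat (wperm e τ) * lowUni (lowP (PX τ c T u)) =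
      pt c e T * permMat (wperm e τ) * lowUni (lowP (LvM τ u)) := by
    apply Units.ext
    rw [Units.val_mul, Units.val_mul, coe_lowUni, coe_lowUni,
      lowMat_lowP _ (PX_upper o τ hτ c T u) (PX_diag o τ hτ c T u),
      lowMat_lowP _ (LvM_upper τ u) (LvM_diag τ u), PX, ← Matrix.mul_assoc]
    congr 1
    ext p q
    rw [Units.val_mul, mul_permMat]
    have h2 := permMat_inv_mul (wperm e τ) (permMat (wperm e τ) : GL (Fin n) ℂ).1
    have h3 : ((permMat (wperm e τ) : GL (Fin n) ℂ).1 * NuM τ c T) p q =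
        NuM τ c T ((wperm e τ).symm p) q := by
      rw [Matrix.mul_apply, Finset.sum_eq_single ((wperm e τ).symm p)]
      · rw [coe_permMat, if_pos (by simp), one_mul]
      · intro b _ hb
        rw [coe_permMat, if_neg, zero_mul]
        intro h4
        exact hb (by rw [h4]; simp)
      · intro hx
        exact absurd (Finset.mem_univ _) hx
    rw [h3]
    simp only [NuM, Matrix.submatrix_apply, pt, toGL, wperm, Equiv.symm_trans_apply,
      Equiv.symm_symm, Equiv.symm_apply_apply, Equiv.trans_apply, GT, nuB]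
  rw [h1]
  apply pt_mul_L_mem c o e τ he hτ hc hT
  · intro i j hij
    rw [coe_lowUni, lowMat_lowP _ (LvM_upper τ u) (LvM_diag τ u)]
    exact LvM_upper τ u i j hij
  · intro p q hpq
    rw [coe_lowUni, lowMat_lowP _ (LvM_upper τ u) (LvM_diag τ u)]
    exact LvM_block τ u p q (ne_of_gt hpq)

theorem LvM_eq_lowMat (y : LowIdx n → ℂ) (x x' : Fin h × KK S) (hxx : tb x = tb x') :
    LvM τ (fun k => y k.1) (τ x) (τ x') = lowMat y (τ x) (τ x') := by
  simp only [LvM, lowMat, Matrix.of_apply]
  by_cases h1 : τ x' < τ x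
  · rw [dif_pos h1, dif_pos]
    exact ⟨h1, by simpa using hxx⟩
  · rw [dif_neg h1, dif_neg (fun h => h1 h.1)]

/-- every point of the closure in the chart is a point of the parametrization -/
theorem chart_param (he : ∀ x y, e x < e y ↔ o.val x < o.val y)
    (hτ : ∀ x y, τ x < τ y ↔ o.time x < o.time y) (hc : ∀ j, (c j).Good)
    (j0 : Fin h) (hQ0 : (c j0).Q = 1) (hα0 : (c j0).α = 0) (hγ0 : (c j0).gam = 1)
    (H2 : ∀ T, (∀ j, (c j).α = 0 → dot (app (c j).φ T) ((c j).col 0) = 0) →
      ∀ j, dot (app (c j).α T) ((c j).col 1) = 0) (y : LowIdx n → ℂ)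
    (hy : ((permMat (wperm e τ) * lowUni y : GL (Fin n) ℂ) : Flag n) ∈
      zariskiClosure (SchubertCell (wperm e τ) ∩ SpringerFiber (Xf c e))) :
    ∃ T : Matrix S (Fin 2) ℂ, (∀ j, (c j).Sol T) ∧ lowMat y = PX τ c T (fun k => y k.1) := by
  obtain ⟨h1, h2, h3, h4⟩ := closure_equations c o e τ he hτ hc j0 hQ0 hα0 H2 _ hy
  have hent : ∀ (x : Fin h × KK S) (q : Fin n),
      (permMat (wperm e τ) * lowUni y : GL (Fin n) ℂ).1 (e x) q = lowMat y (τ x) q := by
    intro x q
    rw [Units.val_mul, Matrix.mul_apply, Finset.sum_eq_single (τ x)]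
    · rw [coe_permMat, if_pos (by simp [wperm]), one_mul, coe_lowUni]
    · intro b _ hb
      rw [coe_permMat, if_neg, zero_mul]
      intro h5
      apply hb
      have : e x = e (τ.symm b) := h5
      rw [e.injective this]
      simp
    · intro hx
      exact absurd (Finset.mem_univ _) hx
  have hUU : ∀ j a x, UU c e τ (permMat (wperm e τ) * lowUni y) j a x =
      ∑ a', (c j).gam a a' * lowMat y (τ (j, a')) (τ x) := by
    intro j a x
    simp only [UU, hent]
  have hUU0 : ∀ a x, UU c e τ (permMat (wperm e τ) * lowUni y) j0 a x =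
      lowMat y (τ (j0, a)) (τ x) := by
    intro a x
    rw [hUU, hγ0]
    simp [Matrix.one_apply]
  have hdiag : ∀ p, lowMat y p p = 1 := by
    intro p
    simp [lowMat]
  have hupp : ∀ p q, p < q → lowMat y p q = 0 := by
    intro p q hpq
    simp only [lowMat, Matrix.of_apply]
    rw [dif_neg (not_lt_of_gt hpq), if_neg (ne_of_lt hpq)]
  have h10 : lowMat y (τ (j0, Sum.inr 1)) (τ (j0, Sum.inr 0)) = 0 := by
    apply hupp
    rw [hτ, o.time_iff]
    right
    exact ⟨rfl, (o.val2 j0).trans (o.val3 j0)⟩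
  have hD : DD c e τ j0 (permMat (wperm e τ) * lowUni y) = 1 := by
    simp only [DD, hUU0, hdiag, h10]
    ring
  obtain ⟨T, hTdef⟩ : ∃ T, T = mm c e τ j0 (permMat (wperm e τ) * lowUni y) := ⟨_, rfl⟩
  rw [← hTdef, hD] at h3
  rw [← hTdef] at h2
  rw [← hTdef, hD] at h4
  have hT : ∀ j, (c j).Sol T := by
    intro j
    refine ⟨h2 j, ?_⟩
    have := h3 j
    rw [one_mul] at this
    exact this
  -- the relation in each block
  have h5 : ∀ (j : Fin h) (x : Fin h × KK S), tb x = (j : ℕ) → ∀ r : S,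
      lowMat y (τ (j, Sum.inl r)) (τ x) =
        ∑ i, (c j).nu T r i * lowMat y (τ (j, Sum.inr i)) (τ x) := by
    intro j x hx r
    obtain ⟨κ, hκ⟩ : ∃ κ : Fin 2 → ℂ, κ = fun i => UU c e τ (permMat (wperm e τ) * lowUni y) j
      (Sum.inr i) x := ⟨_, rfl⟩
    have e1 : (c j).gam.mulVec (fun a => lowMat y (τ (j, a)) (τ x)) = (stack T).mulVec κ := by
      funext a
      have e2 : (c j).gam.mulVec (fun a => lowMat y (τ (j, a)) (τ x)) a =
          UU c e τ (permMat (wperm e τ) * lowUni y) j a x := by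
        rw [hUU]
        rfl
      rw [e2]
      rcases a with r | i
      · have := h4 j x hx r
        rw [one_mul] at this
        rw [this]
        simp [Matrix.mulVec, dotProduct, Fin.sum_univ_two, stack, hκ]
      · simp [Matrix.mulVec, dotProduct, stack, hκ]
    have e3 : (fun a => lowMat y (τ (j, a)) (τ x)) =
        ((c j).ech T).mulVec ((C2i (c j) T).mulVec κ) := by
      have e4 : (c j).gamInv.mulVec ((c j).gam.mulVec (fun a => lowMat y (τ (j, a)) (τ x))) =
          (c j).gamInv.mulVec ((stack T).mulVec κ) := by rw [e1]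
      rw [Matrix.mulVec_mulVec, (hc j).gamInv_mul, Matrix.one_mulVec, Matrix.mulVec_mulVec,
        gamInv_stack (hc j), ← Matrix.mulVec_mulVec] at e4
      exact e4
    obtain ⟨κ', hκ'⟩ : ∃ κ' : Fin 2 → ℂ, κ' = (C2i (c j) T).mulVec κ := ⟨_, rfl⟩
    rw [← hκ'] at e3
    have e5 : ∀ i, lowMat y (τ (j, Sum.inr i)) (τ x) = κ' i := by
      intro i
      have := congrFun e3 (Sum.inr i)
      rw [Matrix.mulVec, dotProduct] at this
      simp only [(hc j).ech_inr (hT j)] at this
      simpa using this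
    refine (congrFun e3 (Sum.inl r)).trans ?_
    rw [Matrix.mulVec, dotProduct]
    apply Finset.sum_congr rfl
    intro i _
    rw [e5]
    rfl
  refine ⟨T, hT, ?_⟩
  ext p q
  obtain ⟨x, rfl⟩ := τ.surjective p
  obtain ⟨x', rfl⟩ := τ.surjective q
  rcases lt_trichotomy (tb x) (tb x') with h6 | h6 | h6
  · have h7 : τ x < τ x' := by
      rw [hτ, o.time_iff]
      exact Or.inl h6
    rw [hupp _ _ h7, PX_upper o τ hτ c T _ _ _ h7]
  · rw [PX_same τ c T _ x x' h6, LvM_eq_lowMat τ y x x' h6]
  · obtain ⟨j, a⟩ := x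
    rcases a with r | i
    · rw [tb_inl] at h6
      rw [PX_inl τ c T _ j r x' (by omega)]
      by_cases h7 : tb x' = (j : ℕ)
      · rw [h5 j x' h7 r]
        apply Finset.sum_congr rfl
        intro i _
        rw [LvM_eq_lowMat τ y (j, Sum.inr i) x' (by rw [tb_inr, h7])]
      · rw [Finset.sum_eq_zero]
        · have := h1 j (Sum.inl r) x' (by omega)
          rwa [hent] at this
        · intro i _
          rw [LvM_block, mul_zero]
          rw [Equiv.symm_apply_apply, Equiv.symm_apply_apply, tb_inr]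
          exact fun h => h7 h.symm
    · rw [tb_inr] at h6
      rw [PX_inr, LvM_block]
      · have := h1 j (Sum.inr i) x' h6
        rwa [hent] at this
      · rw [Equiv.symm_apply_apply, Equiv.symm_apply_apply, tb_inr]
        exact ne_of_gt h6

end Pool.Agent.Run7.h768
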