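import Pool.Agent.Run7.h768.ChartB

/-! The coordinate ring of the closure in the chart around `w`. -/

set_option linter.unusedSectionVars false
set_option linter.unusedVariables false
set_option linter.unusedSimpArgs false

noncomputable section

namespace Pool.Agent.Run7.h768

open Matrix

variable {S : Type} [Fintype S] [DecidableEq S] {h n : ℕ}

theorem nu_of_trivial (d : Cond S ℂ) (hd : d.Good) (hQ : d.Q = 1) (hα : d.α = 0)
    (hγ : d.gam = 1) (T : Matrix S (Fin 2) ℂ) : d.nu T = T := by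
  have h1 : d.gamInv = 1 := by
    have := hd.gamInv_mul
    rwa [hγ, Matrix.mul_one] at this
  have h2 : d.C2 T = 1 := by
    ext k i
    simp only [Cond.C2, hQ, hα, Matrix.of_apply, dot, app]
    fin_cases k <;> fin_cases i <;> simp [Matrix.one_apply]
  ext r i
  simp only [Cond.nu, Cond.ech, h1, h2, Matrix.one_mul, Matrix.mul_one, Matrix.of_apply, stack,
    Sum.elim_inl]

variable (c : Fin h → Cond S ℂ) (o : Orders h S (fun j => (c j).s))
  (e τ : (Fin h × KK S) ≃ Fin n)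

section

variable {V : Type} [Finite V]

/-- the coordinates of the chart in terms of the parameters -/
def PhiC (Tp : Matrix S (Fin 2) (MvPolynomial V ℂ)) (k : LowIdx n) :
    MvPolynomial (LevIdx τ) (MvPolynomial V ℂ) :=
  PX τ (fun j => (c j).map (MvPolynomial.C.comp MvPolynomial.C)) (Tp.map MvPolynomial.C)
    (fun l => MvPolynomial.X l) k.1.1 k.1.2

theorem ev2_PhiC (Tp : Matrix S (Fin 2) (MvPolynomial V ℂ)) (z : V → ℂ) (u : LevIdx τ → ℂ)
    (k : LowIdx n) : ev2 z u (PhiC c τ Tp k) =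
      PX τ c (Tp.map (MvPolynomial.eval z)) u k.1.1 k.1.2 := by
  have h1 := PX_map (ev2 z u) τ (fun j => (c j).map (MvPolynomial.C.comp MvPolynomial.C))
    (Tp.map MvPolynomial.C) (fun l => MvPolynomial.X l)
  have h2 : (fun j => ((c j).map (MvPolynomial.C.comp MvPolynomial.C)).map (ev2 z u)) = c := by
    funext j
    have : c j = ⟨(c j).s, (c j).φ, (c j).α, (c j).Q, (c j).Qi⟩ := rfl
    rw [this]
    simp only [Cond.map, Cond.mk.injEq, RingHom.coe_comp, Function.comp_apply, ev2_C,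
      MvPolynomial.eval_C, true_and]
    refine ⟨?_, ?_⟩ <;>
    · ext i j
      simp
  have h3 : (Tp.map MvPolynomial.C).map (ev2 z u : MvPolynomial (LevIdx τ) (MvPolynomial V ℂ) → ℂ)
      = Tp.map (MvPolynomial.eval z) := by
    ext r i
    simp
  have h4 : (fun k : LevIdx τ => ev2 z u (MvPolynomial.X k : MvPolynomial (LevIdx τ)
      (MvPolynomial V ℂ))) = u := by
    funext k
    simp
  rw [h2, h3, h4] at h1
  rw [h1]
  rfl

/-- coordinates of the solution -/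
def kr (hτ : ∀ x y, τ x < τ y ↔ o.time x < o.time y) (j0 : Fin h) (r : S) (i : Fin 2) : LowIdx n :=
  ⟨(τ (j0, Sum.inl r), τ (j0, Sum.inr i)), by
    rw [hτ, o.time_iff]
    left
    simp⟩

def kl (hτ : ∀ x y, τ x < τ y ↔ o.time x < o.time y) (j0 : Fin h) : LowIdx n :=
  ⟨(τ (j0, Sum.inr 0), τ (j0, Sum.inr 1)), by
    rw [hτ, o.time_iff]
    right
    exact ⟨rfl, (o.val2 j0).trans (o.val3 j0)⟩⟩

def Psi0 (hτ : ∀ x y, τ x < τ y ↔ o.time x < o.time y) (j0 : Fin h) (ri : S × Fin 2) :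
    MvPolynomial (LowIdx n) ℂ :=
  if ri.2 = 0 then MvPolynomial.X (kr c o τ hτ j0 ri.1 0)
  else MvPolynomial.X (kr c o τ hτ j0 ri.1 1) -
    MvPolynomial.X (kl c o τ hτ j0) * MvPolynomial.X (kr c o τ hτ j0 ri.1 0)

theorem eval_Psi0 (hτ : ∀ x y, τ x < τ y ↔ o.time x < o.time y) (hc : ∀ j, (c j).Good)
    (j0 : Fin h) (hQ0 : (c j0).Q = 1) (hα0 : (c j0).α = 0) (hγ0 : (c j0).gam = 1)
    (T : Matrix S (Fin 2) ℂ) (u : LevIdx τ → ℂ) (ri : S × Fin 2) :
    MvPolynomial.eval (fun k : LowIdx n => PX τ c T u k.1.1 k.1.2) (Psi0 c o τ hτ j0 ri) =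
      T ri.1 ri.2 := by
  have hnu := nu_of_trivial (c j0) (hc j0) hQ0 hα0 hγ0 T
  have h0 : ∀ r, PX τ c T u (τ (j0, Sum.inl r)) (τ (j0, Sum.inr 0)) = T r 0 := by
    intro r
    rw [PX_inl τ c T u j0 r _ (by simp), hnu, Fin.sum_univ_two, LvM_diag,
      LvM_upper τ u (τ (j0, Sum.inr 1)) (τ (j0, Sum.inr 0))]
    · ring
    · rw [hτ, o.time_iff]
      right
      exact ⟨rfl, (o.val2 j0).trans (o.val3 j0)⟩
  have h1 : ∀ r, PX τ c T u (τ (j0, Sum.inl r)) (τ (j0, Sum.inr 1)) =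
      T r 0 * PX τ c T u (τ (j0, Sum.inr 0)) (τ (j0, Sum.inr 1)) + T r 1 := by
    intro r
    rw [PX_inl τ c T u j0 r _ (by simp), hnu, Fin.sum_univ_two, LvM_diag,
      PX_inr]
    ring
  obtain ⟨r, i⟩ := ri
  by_cases hi : i = 0
  · subst hi
    simp [Psi0, kr, h0]
  · have hi1 : i = 1 := by omega
    subst hi1
    simp only [Psi0, kr, kl, one_ne_zero, if_false, map_sub, map_mul, MvPolynomial.eval_X, h0, h1]
    ring

/-- **The coordinate ring of the closure of the cell in the chart around `w`.** -/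
theorem chart_equiv (he : ∀ x y, e x < e y ↔ o.val x < o.val y)
    (hτ : ∀ x y, τ x < τ y ↔ o.time x < o.time y) (hc : ∀ j, (c j).Good)
    (j0 : Fin h) (hQ0 : (c j0).Q = 1) (hα0 : (c j0).α = 0) (hγ0 : (c j0).gam = 1)
    (H2 : ∀ T, (∀ j, (c j).α = 0 → dot (app (c j).φ T) ((c j).col 0) = 0) →
      ∀ j, dot (app (c j).α T) ((c j).col 1) = 0)
    (Z : Set (V → ℂ)) (Tp : Matrix S (Fin 2) (MvPolynomial V ℂ))
    (hZ1 : ∀ z ∈ Z, ∀ j, (c j).Sol (Tp.map (MvPolynomial.eval z)))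
    (hZ2 : ∀ T, (∀ j, (c j).Sol T) → ∃ z ∈ Z, T = Tp.map (MvPolynomial.eval z))
    (ψ : V → MvPolynomial (S × Fin 2) ℂ)
    (hψ : ∀ z ∈ Z, ∀ v, MvPolynomial.eval
      (fun ri : S × Fin 2 => MvPolynomial.eval z (Tp ri.1 ri.2)) (ψ v) = z v) :
    ∃ E : (MvPolynomial (LowIdx n) ℂ ⧸ chartIdeal
        (zariskiClosure (SchubertCell (wperm e τ) ∩ SpringerFiber (Xf c e)))
          (permMat (wperm e τ))) ≃ₐ[ℂ]
        MvPolynomial (LevIdx τ) (MvPolynomial V ℂ ⧸ MvPolynomial.vanishingIdeal ℂ Z),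
      ∀ F, E (Ideal.Quotient.mk _ F) = theta Z (PhiC c τ Tp) F := by
  have h1 : ∀ z ∈ Z, ∀ u : LevIdx τ → ℂ, (fun k => ev2 z u (PhiC c τ Tp k)) ∈
      chartSet (zariskiClosure (SchubertCell (wperm e τ) ∩ SpringerFiber (Xf c e)))
          (permMat (wperm e τ)) := by
    intro z hz u
    have h5 : (fun k => ev2 z u (PhiC c τ Tp k)) =
        lowP (PX τ c (Tp.map (MvPolynomial.eval z)) u) := by
      funext k
      rw [ev2_PhiC]
      rfl
    rw [h5]
    exact subset_zariskiClosure _ (chart_mem c o e τ he hτ hc (hZ1 z hz) u)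
  have h2 : ∀ y ∈ chartSet (zariskiClosure (SchubertCell (wperm e τ) ∩ SpringerFiber (Xf c e)))
          (permMat (wperm e τ)), ∃ z ∈ Z, ∃ u : LevIdx τ → ℂ,
          ∀ k, ev2 z u (PhiC c τ Tp k) = y k := by
    intro y hy
    obtain ⟨T, hT, hyT⟩ := chart_param c o e τ he hτ hc j0 hQ0 hα0 hγ0 H2 y hy
    obtain ⟨z, hz, rfl⟩ := hZ2 T hT
    refine ⟨z, hz, fun k => y k.1, fun k => ?_⟩
    rw [ev2_PhiC, ← hyT]
    simp only [lowMat, Matrix.of_apply]
    rw [dif_pos k.2]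
  have h3 : ∀ z ∈ Z, ∀ u : LevIdx τ → ℂ, ∀ v, MvPolynomial.eval
      (fun k => ev2 z u (PhiC c τ Tp k))
      (MvPolynomial.aeval (fun ri => Psi0 c o τ hτ j0 ri) (ψ v)) = z v := by
    intro z hz u v
    rw [← hψ z hz v]
    have h5 : (MvPolynomial.eval (fun k => ev2 z u (PhiC c τ Tp k)) :
        MvPolynomial (LowIdx n) ℂ →+* ℂ).comp (MvPolynomial.aeval (fun ri => Psi0 c o τ hτ j0 ri) :
          MvPolynomial (S × Fin 2) ℂ →ₐ[ℂ] MvPolynomial (LowIdx n) ℂ).toRingHom =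
        MvPolynomial.eval (fun ri : S × Fin 2 => MvPolynomial.eval z (Tp ri.1 ri.2)) := by
      apply MvPolynomial.ringHom_ext
      · intro r
        simp
      · intro ri
        have h6 := eval_Psi0 c o τ hτ hc j0 hQ0 hα0 hγ0 (Tp.map (MvPolynomial.eval z)) u ri
        simp only [AlgHom.toRingHom_eq_coe, RingHom.coe_comp, RingHom.coe_coe,
          Function.comp_apply, MvPolynomial.aeval_X, MvPolynomial.eval_X, ev2_PhiC]
        exact h6
    exact congrArg (fun f => f (ψ v)) h5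
  have h4 : ∀ z ∈ Z, ∀ u : LevIdx τ → ℂ, ∀ i : LevIdx τ, MvPolynomial.eval
      (fun k => ev2 z u (PhiC c τ Tp k)) (MvPolynomial.X i.1) = u i := by
    intro z hz u i
    rw [MvPolynomial.eval_X, ev2_PhiC]
    have h5 := PX_same τ c (Tp.map (MvPolynomial.eval z)) u (τ.symm i.1.1.1) (τ.symm i.1.1.2) i.2
    rw [Equiv.apply_symm_apply, Equiv.apply_symm_apply] at h5
    rw [h5, LvM_low]
  exact ⟨coordEquiv Z _ (PhiC c τ Tp) h1 h2
    (theta_surjective Z (PhiC c τ Tp) _ h3 (fun i => MvPolynomial.X i.1) h4), fun F => rfl⟩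

end

end Pool.Agent.Run7.h768
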