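import Pool.Agent.Run7.h768.Local

/-! Zariski closure upstairs, generic LU decomposition, closures that are cosets of a parabolic. -/

noncomputable section

namespace Pool.Agent.Run7.h768

open MvPolynomial

variable {n : ℕ}

theorem coe_mul_borel (g b : GL (Fin n) ℂ) (hb : b ∈ Borel n) : ((g * b : GL (Fin n) ℂ) : Flag n) = g := by
  rw [QuotientGroup.eq]
  have : (g * b)⁻¹ * g = b⁻¹ := by group
  rw [this]
  exact inv_mem hb

theorem exists_of_coe_eq {g h : GL (Fin n) ℂ} (e : (g : Flag n) = (h : Flag n)) :
    ∃ b ∈ Borel n, h = g * b := by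
  rw [QuotientGroup.eq] at e
  exact ⟨g⁻¹ * h, e, by group⟩

/-- the polynomial `x ↦ f (A x C)` -/
def transl (A C : Matrix (Fin n) (Fin n) ℂ) (f : MvPolynomial (Fin n × Fin n) ℂ) :
    MvPolynomial (Fin n × Fin n) ℂ :=
  aeval (fun ij => ∑ k, ∑ l, MvPolynomial.C (A ij.1 k) * X (k, l) * MvPolynomial.C (C l ij.2)) f

theorem eval_transl (A C M : Matrix (Fin n) (Fin n) ℂ) (f : MvPolynomial (Fin n × Fin n) ℂ) :
    eval (fun ij => M ij.1 ij.2) (transl A C f) = eval (fun ij => (A * M * C) ij.1 ij.2) f := by
  have : ((eval (fun ij : Fin n × Fin n => M ij.1 ij.2)).comp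
      (aeval (fun ij => ∑ k, ∑ l, MvPolynomial.C (A ij.1 k) * X (k, l) * MvPolynomial.C (C l ij.2))
        : MvPolynomial (Fin n × Fin n) ℂ →ₐ[ℂ] MvPolynomial (Fin n × Fin n) ℂ).toRingHom)
      = (eval (fun ij => (A * M * C) ij.1 ij.2) : MvPolynomial (Fin n × Fin n) ℂ →+* ℂ) := by
    apply MvPolynomial.ringHom_ext
    · intro r
      simp
    · intro ij
      simp only [RingHom.coe_comp, Function.comp_apply, AlgHom.toRingHom_eq_coe, RingHom.coe_coe,
        aeval_X, map_sum, map_mul, eval_C, eval_X, Matrix.mul_apply, Finset.sum_mul]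
      rw [Finset.sum_comm]
  exact congrArg (fun g => g f) this

theorem mem_zariskiClosure_iff (Y : Set (Flag n)) (g : GL (Fin n) ℂ) :
    (g : Flag n) ∈ zariskiClosure Y ↔
      ∀ f : MvPolynomial (Fin n × Fin n) ℂ,
        (∀ h : GL (Fin n) ℂ, (h : Flag n) ∈ Y → eval (entries h) f = 0) →
          eval (entries g) f = 0 := by
  constructor
  · intro h
    let S : Set (MvPolynomial (Fin n × Fin n) ℂ) :=
      {f | ∀ h : GL (Fin n) ℂ, (h : Flag n) ∈ Y → eval (entries h) f = 0}
    let Z : Set (Flag n) := {p | ∀ g : GL (Fin n) ℂ, (g : Flag n) = p → ∀ f ∈ S,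
      eval (entries g) f = 0}
    have hZ : IsZariskiClosed Z := by
      refine ⟨S, fun g => ⟨fun hg f hf => hg g rfl f hf, fun hg => ?_⟩⟩
      intro g' hg' f hf
      obtain ⟨b, hb, rfl⟩ := exists_of_coe_eq hg'.symm
      have h1 : transl 1 (b : Matrix (Fin n) (Fin n) ℂ) f ∈ S := by
        intro h hh
        have h2 := eval_transl (1 : Matrix (Fin n) (Fin n) ℂ) (b : Matrix (Fin n) (Fin n) ℂ)
          (h : Matrix (Fin n) (Fin n) ℂ) f
        have h3 := hf (h * b) (by rw [coe_mul_borel h b hb]; exact hh)
        rw [one_mul] at h2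
        exact h2.trans h3
      have h2 := hg _ h1
      have h3 := eval_transl (1 : Matrix (Fin n) (Fin n) ℂ) (b : Matrix (Fin n) (Fin n) ℂ)
          (g : Matrix (Fin n) (Fin n) ℂ) f
      rw [one_mul] at h3
      exact h3.symm.trans h2
    have hYZ : Y ⊆ Z := by
      intro p hp g hg f hf
      exact hf g (by rw [hg]; exact hp)
    have := Set.mem_sInter.1 h Z ⟨hZ, hYZ⟩
    intro f hf
    exact this g rfl f hf
  · intro h
    rw [zariskiClosure, Set.mem_sInter]
    rintro Z ⟨⟨S, hS⟩, hYZ⟩
    rw [hS]
    intro f hf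
    apply h
    intro h' hh'
    exact (hS h').1 (hYZ hh') f hf

theorem subset_zariskiClosure (Y : Set (Flag n)) : Y ⊆ zariskiClosure Y :=
  Set.subset_sInter fun _ hZ => hZ.2

/-- Generic LU decomposition along a polynomial path through the identity. -/
theorem lu_generic (n : ℕ) : ∀ (A : Matrix (Fin n) (Fin n) (Polynomial ℂ)),
    (∀ i j, (A i j).eval 0 = if i = j then 1 else 0) →
    ∃ Δ : Polynomial ℂ, Δ ≠ 0 ∧ ∀ s : ℂ, Δ.eval s ≠ 0 →
      ∃ L U : Matrix (Fin n) (Fin n) ℂ, (∀ i j, i < j → L i j = 0) ∧ (∀ i, L i i = 1) ∧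
        (∀ i j, j < i → U i j = 0) ∧ ∀ i j, (A i j).eval s = (L * U) i j := by
  induction n with
  | zero =>
    intro A _
    refine ⟨1, one_ne_zero, fun s _ => ⟨1, 1, fun i => i.elim0, fun i => i.elim0, fun i => i.elim0,
      fun i => i.elim0⟩⟩
  | succ n ih =>
    intro A hA
    let A' : Matrix (Fin n) (Fin n) (Polynomial ℂ) := Matrix.of fun i j =>
      A 0 0 * A i.succ j.succ - A i.succ 0 * A 0 j.succ
    obtain ⟨Δ', hΔ', hLU⟩ := ih A' (by
      intro i j
      simp only [A', Matrix.of_apply, Polynomial.eval_sub, Polynomial.eval_mul, hA]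
      simp)
    have h00 : A 0 0 ≠ 0 := by
      intro h
      have := hA 0 0
      rw [h] at this
      simp at this
    refine ⟨A 0 0 * Δ', mul_ne_zero h00 hΔ', fun s hs => ?_⟩
    rw [Polynomial.eval_mul] at hs
    have ha : (A 0 0).eval s ≠ 0 := left_ne_zero_of_mul hs
    obtain ⟨L', U', hL', hL1, hU', hLU'⟩ := hLU s (right_ne_zero_of_mul hs)
    let L : Matrix (Fin (n+1)) (Fin (n+1)) ℂ := Matrix.of
      (Fin.cases (Fin.cases 1 (fun _ => 0))
        (fun i => Fin.cases ((A i.succ 0).eval s / (A 0 0).eval s) (fun j => L' i j)))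
    let U : Matrix (Fin (n+1)) (Fin (n+1)) ℂ := Matrix.of
      (Fin.cases (fun j => (A 0 j).eval s)
        (fun i => Fin.cases 0 (fun j => U' i j / (A 0 0).eval s)))
    refine ⟨L, U, ?_, ?_, ?_, ?_⟩
    · intro i j hij
      induction i using Fin.cases with
      | zero =>
        induction j using Fin.cases with
        | zero => exact absurd hij (lt_irrefl _)
        | succ j => simp [L]
      | succ i =>
        induction j using Fin.cases with
        | zero => exact absurd hij (not_lt_of_ge (Fin.zero_le _))
        | succ j =>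
          simp only [L, Matrix.of_apply, Fin.cases_succ]
          exact hL' i j (Fin.succ_lt_succ_iff.1 hij)
    · intro i
      induction i using Fin.cases with
      | zero => simp [L]
      | succ i =>
        simp only [L, Matrix.of_apply, Fin.cases_succ]
        exact hL1 i
    · intro i j hij
      induction i using Fin.cases with
      | zero => exact absurd hij (not_lt_of_ge (Fin.zero_le _))
      | succ i =>
        induction j using Fin.cases with
        | zero => simp [U]
        | succ j =>
          simp only [U, Matrix.of_apply, Fin.cases_succ]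
          rw [hU' i j (Fin.succ_lt_succ_iff.1 hij), zero_div]
    · intro i j
      rw [Matrix.mul_apply, Fin.sum_univ_succ]
      induction i using Fin.cases with
      | zero => simp [L, U]
      | succ i =>
        induction j using Fin.cases with
        | zero =>
          simp only [L, U, Matrix.of_apply, Fin.cases_succ, Fin.cases_zero, mul_zero,
            Finset.sum_const_zero, add_zero]
          field_simp
        | succ j =>
          simp only [L, U, Matrix.of_apply, Fin.cases_succ, Fin.cases_zero]
          have h1 := hLU' i j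
          simp only [A', Matrix.of_apply, Polynomial.eval_sub, Polynomial.eval_mul,
            Matrix.mul_apply] at h1
          have h2 : ∑ k, L' i k * (U' k j / (A 0 0).eval s) =
              (∑ k, L' i k * U' k j) / (A 0 0).eval s := by
            rw [Finset.sum_div]
            apply Finset.sum_congr rfl
            intro k _
            ring
          rw [h2, ← h1]
          field_simp
          ring

end Pool.Agent.Run7.h768
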