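import Mathlib

/-!
Flag variety `GL_n(ℂ)/B`, Schubert cells, Springer fibers, Zariski closure and singular points.
-/

noncomputable section

namespace Pool.Agent.Run7.h768

open MvPolynomial

/-- `M` is upper triangular. -/
def UpperTri {n : ℕ} (M : Matrix (Fin n) (Fin n) ℂ) : Prop :=
  ∀ i j, j < i → M i j = 0

theorem UpperTri.blockTriangular {n : ℕ} {M : Matrix (Fin n) (Fin n) ℂ} (h : UpperTri M) :
    M.BlockTriangular id := fun i j hij => h i j hij

theorem UpperTri.mul {n : ℕ} {M N : Matrix (Fin n) (Fin n) ℂ} (hM : UpperTri M)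
    (hN : UpperTri N) : UpperTri (M * N) :=
  fun i j hij => (hM.blockTriangular.mul hN.blockTriangular) hij

theorem UpperTri.inv {n : ℕ} {g : GL (Fin n) ℂ} (hM : UpperTri (g : Matrix (Fin n) (Fin n) ℂ)) :
    UpperTri ((g⁻¹ : GL (Fin n) ℂ) : Matrix (Fin n) (Fin n) ℂ) := by
  intro i j hij
  have h : Invertible (g : Matrix (Fin n) (Fin n) ℂ) := (Units.isUnit g).invertible
  have := Matrix.blockTriangular_inv_of_blockTriangular hM.blockTriangular
  rw [Matrix.coe_units_inv]
  exact this hij

/-- The Borel subgroup `B` of invertible upper triangular matrices. -/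
def Borel (n : ℕ) : Subgroup (GL (Fin n) ℂ) where
  carrier := {g | UpperTri (g : Matrix (Fin n) (Fin n) ℂ)}
  mul_mem' := fun {a b} ha hb => by
    have : UpperTri ((a : Matrix (Fin n) (Fin n) ℂ) * (b : Matrix (Fin n) (Fin n) ℂ)) :=
      UpperTri.mul ha hb
    simpa using this
  one_mem' := by
    intro i j hij
    simp [Matrix.one_apply, (ne_of_lt hij).symm]
  inv_mem' := fun {a} ha => UpperTri.inv ha

/-- The flag variety `G/B`, `G = GL_n(ℂ)`. -/
abbrev Flag (n : ℕ) : Type := GL (Fin n) ℂ ⧸ Borel n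

/-- The permutation matrix of `w`: it sends the `j`-th basis vector to the `w j`-th one. -/
def permMat {n : ℕ} (w : Equiv.Perm (Fin n)) : GL (Fin n) ℂ where
  val := Matrix.of fun i j => if i = w j then 1 else 0
  inv := Matrix.of fun i j => if w i = j then 1 else 0
  val_inv := by
    ext i j
    simp only [Matrix.mul_apply, Matrix.of_apply, Matrix.one_apply]
    rw [Finset.sum_eq_single (w.symm i)]
    · simp
    · intro b _ hb
      have : i ≠ w b := fun h => hb (by simp [h])
      simp [this]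
    · simp
  inv_val := by
    ext i j
    simp only [Matrix.mul_apply, Matrix.of_apply, Matrix.one_apply]
    rw [Finset.sum_eq_single (w i)]
    · simp
    · intro b _ hb
      simp [Ne.symm hb]
    · simp

/-- The Schubert cell `C_w = B w B / B`. -/
def SchubertCell {n : ℕ} (w : Equiv.Perm (Fin n)) : Set (Flag n) :=
  {p | ∃ b ∈ Borel n, p = ((b * permMat w : GL (Fin n) ℂ) : Flag n)}

/-- The Springer fiber `S_X = {gB : g⁻¹ X g upper triangular}`. -/
def SpringerFiber {n : ℕ} (X : Matrix (Fin n) (Fin n) ℂ) : Set (Flag n) :=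
  {p | ∃ g : GL (Fin n) ℂ, (g : Flag n) = p ∧
    UpperTri (((g⁻¹ : GL (Fin n) ℂ) : Matrix (Fin n) (Fin n) ℂ) * X * (g : Matrix (Fin n) (Fin n) ℂ))}

/-- The matrix entries of `g`, as a point of affine space `ℂ^(n×n)`. -/
def entries {n : ℕ} (g : GL (Fin n) ℂ) : Fin n × Fin n → ℂ :=
  fun ij => (g : Matrix (Fin n) (Fin n) ℂ) ij.1 ij.2

/-- Zariski closed subsets of `G/B` (quotient topology of the Zariski topology of
`GL_n(ℂ) ⊆ ℂ^(n×n)`): the preimage in `GL_n(ℂ)` is the zero locus of a set of polynomials in the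
matrix entries. -/
def IsZariskiClosed {n : ℕ} (Z : Set (Flag n)) : Prop :=
  ∃ S : Set (MvPolynomial (Fin n × Fin n) ℂ),
    ∀ g : GL (Fin n) ℂ, (g : Flag n) ∈ Z ↔ ∀ f ∈ S, eval (entries g) f = 0

/-- The Zariski closure in `G/B`. -/
def zariskiClosure {n : ℕ} (Y : Set (Flag n)) : Set (Flag n) :=
  ⋂₀ {Z | IsZariskiClosed Z ∧ Y ⊆ Z}

/-- Positions strictly below the diagonal. -/
abbrev LowIdx (n : ℕ) : Type := {ij : Fin n × Fin n // ij.2 < ij.1}

/-- The matrix with ones on the diagonal, entries `y` below it and zeros above it. -/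
def lowMat {n : ℕ} (y : LowIdx n → ℂ) : Matrix (Fin n) (Fin n) ℂ :=
  Matrix.of fun i j => if h : j < i then y ⟨(i, j), h⟩ else if i = j then 1 else 0

theorem det_lowMat {n : ℕ} (y : LowIdx n → ℂ) : (lowMat y).det = 1 := by
  rw [Matrix.det_of_isLowerTriangular]
  · simp [lowMat]
  · intro i j hij
    have h : i < j := hij
    simp [lowMat, not_lt_of_gt h, ne_of_lt h]

/-- The lower unitriangular matrix with entries `y`, as an element of `GL_n(ℂ)`. -/
def lowUni {n : ℕ} (y : LowIdx n → ℂ) : GL (Fin n) ℂ :=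
  Matrix.GeneralLinearGroup.mkOfDetNeZero (lowMat y) (by rw [det_lowMat]; exact one_ne_zero)

@[simp] theorem coe_lowUni {n : ℕ} (y : LowIdx n → ℂ) :
    ((lowUni y : GL (Fin n) ℂ) : Matrix (Fin n) (Fin n) ℂ) = lowMat y := rfl

/-- `Y` in the affine chart `y ↦ g * lowUni y * B` of `G/B` around the point `gB`
(this is an open immersion of the affine space of dimension `n(n-1)/2` onto an open neighbourhood
of `gB`, the origin going to `gB`). -/
def chartSet {n : ℕ} (Y : Set (Flag n)) (g : GL (Fin n) ℂ) : Set (LowIdx n → ℂ) :=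
  {y | ((g * lowUni y : GL (Fin n) ℂ) : Flag n) ∈ Y}

/-- The ideal of `Y` in that chart (for a closed `Y` with its reduced structure). -/
def chartIdeal {n : ℕ} (Y : Set (Flag n)) (g : GL (Fin n) ℂ) :
    Ideal (MvPolynomial (LowIdx n) ℂ) :=
  vanishingIdeal ℂ (chartSet Y g)

/-- The point `gB` of `G/B` lies on `Y` and is a singular point of `Y` (reduced structure): the
local ring at `gB`, which is the localization of the coordinate ring of `Y` in the chart around `gB`
at the prime `P` of the origin, is not regular. -/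
def IsSingularAt {n : ℕ} (Y : Set (Flag n)) (g : GL (Fin n) ℂ) : Prop :=
  (g : Flag n) ∈ Y ∧
    ∃ (P : Ideal (MvPolynomial (LowIdx n) ℂ ⧸ chartIdeal Y g)) (_ : P.IsPrime),
      P.comap (Ideal.Quotient.mk (chartIdeal Y g)) = vanishingIdeal ℂ {(0 : LowIdx n → ℂ)} ∧
      ¬ IsRegularLocalRing (Localization.AtPrime P)

/-- The closed subset `Y` of `G/B` (reduced structure) has a singular point. -/
def IsSingular {n : ℕ} (Y : Set (Flag n)) : Prop :=
  ∃ g : GL (Fin n) ℂ, IsSingularAt Y g

end Pool.Agent.Run7.h768
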