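import Pool.Agent.Run7.h768.MapC

/-! Encoding of polynomial systems as configurations of flags. -/

set_option linter.unusedSectionVars false
set_option linter.unusedVariables false
set_option linter.unusedSimpArgs false

noncomputable section

namespace Pool.Agent.Run7.h768

open Matrix

/-- A gate system: variables `V`, gates `G` with `z (g1 g) * z (g2 g) = z (go g)`, linear
equations indexed by `L`, and a variable `o` which is zero. -/
structure Net (V G L : Type) where
  g1 : G → V
  g2 : G → V
  go : G → V
  o : V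

variable {V G L : Type} [Fintype V] [Fintype G] [Fintype L] [DecidableEq V] [DecidableEq G]
  [DecidableEq L]

/-- coordinates -/
abbrev SS (V G L : Type) : Type := V ⊕ V ⊕ G ⊕ L

/-- index type of the conditions -/
abbrev CI (V G L : Type) : Type := (V × Fin 3) ⊕ (G × Fin 3) ⊕ (L × Fin 3) ⊕ Unit

abbrev cc (v : V) : SS V G L := Sum.inl v
abbrev aa (v : V) : SS V G L := Sum.inr (Sum.inl v)
abbrev bb (g : G) : SS V G L := Sum.inr (Sum.inr (Sum.inl g))
abbrev dd (l : L) : SS V G L := Sum.inr (Sum.inr (Sum.inr l))

variable {R : Type} [CommRing R]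

def del (s : SS V G L) : SS V G L → R := fun r => if r = s then 1 else 0

def swapM : Matrix (Fin 2) (Fin 2) R := !![0, 1; 1, 0]
def subM : Matrix (Fin 2) (Fin 2) R := !![1, 0; -1, 1]
def subMi : Matrix (Fin 2) (Fin 2) R := !![1, 0; 1, 1]

/-- pivots -/
def piv (N : Net V G L) : CI V G L → SS V G L
  | Sum.inl (v, k) => if k = 0 then cc v else aa v
  | Sum.inr (Sum.inl (g, _)) => bb g
  | Sum.inr (Sum.inr (Sum.inl (l, _))) => dd l
  | Sum.inr (Sum.inr (Sum.inr _)) => cc N.o

/-- the conditions; `A l v` are the coefficients of the linear equations -/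
def cond (N : Net V G L) (A : L → V → R) (i : CI V G L) : Cond (SS V G L) R where
  s := piv N i
  φ := match i with
    | Sum.inl (v, k) => if k = 0 then del (cc v) else
        if k = 1 then (fun r => del (aa v) r - del (cc v) r) else del (aa v)
    | Sum.inr (Sum.inl (g, k)) => if k = 0 then (fun r => del (bb g) r - del (cc (N.go g)) r) else
        if k = 1 then (fun r => del (bb g) r - del (cc (N.g2 g)) r) else del (bb g)
    | Sum.inr (Sum.inr (Sum.inl (l, k))) => if k = 2 then
        (fun r => del (dd l) r + ∑ v, A l v * del (cc v) r) else del (dd l)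
    | Sum.inr (Sum.inr (Sum.inr _)) => del (cc N.o)
  α := match i with
    | Sum.inl _ => 0
    | Sum.inr (Sum.inl (g, k)) => if k = 2 then del (aa (N.g1 g)) else 0
    | Sum.inr (Sum.inr (Sum.inl _)) => 0
    | Sum.inr (Sum.inr (Sum.inr _)) => 0
  Q := match i with
    | Sum.inl (_, k) => if k = 0 then subM else if k = 1 then 1 else swapM
    | Sum.inr (Sum.inl (_, k)) => if k = 1 then swapM else 1
    | Sum.inr (Sum.inr (Sum.inl (_, k))) => if k = 1 then swapM else 1
    | Sum.inr (Sum.inr (Sum.inr _)) => 1
  Qi := match i with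
    | Sum.inl (_, k) => if k = 0 then subMi else if k = 1 then 1 else swapM
    | Sum.inr (Sum.inl (_, k)) => if k = 1 then swapM else 1
    | Sum.inr (Sum.inr (Sum.inl (_, k))) => if k = 1 then swapM else 1
    | Sum.inr (Sum.inr (Sum.inr _)) => 1

theorem subM_mul : (subM : Matrix (Fin 2) (Fin 2) R) * subMi = 1 := by
  ext i j
  fin_cases i <;> fin_cases j <;> simp [subM, subMi, Matrix.mul_apply, Fin.sum_univ_two]

theorem subMi_mul : (subMi : Matrix (Fin 2) (Fin 2) R) * subM = 1 := by
  ext i j
  fin_cases i <;> fin_cases j <;> simp [subM, subMi, Matrix.mul_apply, Fin.sum_univ_two]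

theorem swapM_mul : (swapM : Matrix (Fin 2) (Fin 2) R) * swapM = 1 := by
  ext i j
  fin_cases i <;> fin_cases j <;> simp [swapM, Matrix.mul_apply, Fin.sum_univ_two]

theorem cond_good (N : Net V G L) (A : L → V → R) (i : CI V G L) : (cond N A i).Good where
  hφ := by
    rcases i with ⟨v, k⟩ | ⟨g, k⟩ | ⟨l, k⟩ | u
    · fin_cases k <;> simp [cond, piv, del]
    · fin_cases k <;> simp [cond, piv, del]
    · fin_cases k <;> simp [cond, piv, del]
    · simp [cond, piv, del]
  hα := by
    rcases i with ⟨v, k⟩ | ⟨g, k⟩ | ⟨l, k⟩ | u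
    · fin_cases k <;> simp [cond, piv, del]
    · fin_cases k <;> simp [cond, piv, del]
    · fin_cases k <;> simp [cond, piv, del]
    · simp [cond, piv, del]
  hQ := by
    rcases i with ⟨v, k⟩ | ⟨g, k⟩ | ⟨l, k⟩ | u
    · fin_cases k <;> simp [cond, subM_mul, swapM_mul]
    · fin_cases k <;> simp [cond, subM_mul, swapM_mul]
    · fin_cases k <;> simp [cond, subM_mul, swapM_mul]
    · simp [cond]
  hQ' := by
    rcases i with ⟨v, k⟩ | ⟨g, k⟩ | ⟨l, k⟩ | u
    · fin_cases k <;> simp [cond, subMi_mul, swapM_mul]
    · fin_cases k <;> simp [cond, subM_mul, swapM_mul]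
    · fin_cases k <;> simp [cond, subM_mul, swapM_mul]
    · simp [cond]

theorem cond_map {R' : Type} [CommRing R'] (f : R →+* R') (N : Net V G L) (A : L → V → R)
    (i : CI V G L) : (cond N A i).map f = cond N (fun l v => f (A l v)) i := by
  have h1 : (subM : Matrix (Fin 2) (Fin 2) R).map f = subM := by
    ext i j
    fin_cases i <;> fin_cases j <;> simp [subM]
  have h2 : (swapM : Matrix (Fin 2) (Fin 2) R).map f = swapM := by
    ext i j
    fin_cases i <;> fin_cases j <;> simp [swapM]
  have h3 : (subMi : Matrix (Fin 2) (Fin 2) R).map f = subMi := by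
    ext i j
    fin_cases i <;> fin_cases j <;> simp [subMi]
  have h4 : (1 : Matrix (Fin 2) (Fin 2) R).map f = 1 := Matrix.map_one f (map_zero f) (map_one f)
  have hd : ∀ (s r : SS V G L), f (del s r) = del s r := by
    intro s r
    simp only [del]
    split_ifs <;> simp
  rcases i with ⟨v, k⟩ | ⟨g, k⟩ | ⟨l, k⟩ | u
  · fin_cases k <;> simp [Cond.map, cond, h1, h2, h3, h4, hd] <;> rfl
  · fin_cases k <;> simp [Cond.map, cond, h1, h2, h3, h4, hd] <;> rfl
  · fin_cases k <;> simp [Cond.map, cond, h1, h2, h3, h4, hd] <;> rfl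
  · simp [Cond.map, cond, h1, h2, h3, h4, hd]
    rfl

/-- the solution attached to values of the variables -/
def Tz (N : Net V G L) (z : V → R) : Matrix (SS V G L) (Fin 2) R := Matrix.of fun r i =>
  match r with
  | Sum.inl v => z v
  | Sum.inr (Sum.inl v) => if i = 0 then z v else 0
  | Sum.inr (Sum.inr (Sum.inl g)) => if i = 0 then z (N.go g) else z (N.g2 g)
  | Sum.inr (Sum.inr (Sum.inr _)) => 0

/-- the gate system with the linear equations -/
structure Net.Sys (N : Net V G L) (A : L → V → R) (z : V → R) : Prop where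
  gate : ∀ g, z (N.g1 g) * z (N.g2 g) = z (N.go g)
  zero : z N.o = 0
  lin : ∀ l, ∑ v, A l v * z v = 0

theorem app_del (s : SS V G L) (T : Matrix (SS V G L) (Fin 2) R) (i : Fin 2) :
    app (del s) T i = T s i := by
  simp [app, del]

theorem app_sub (φ ψ : SS V G L → R) (T : Matrix (SS V G L) (Fin 2) R) (i : Fin 2) :
    app (fun r => φ r - ψ r) T i = app φ T i - app ψ T i := by
  simp only [app, sub_mul, Finset.sum_sub_distrib]

theorem app_add (φ ψ : SS V G L → R) (T : Matrix (SS V G L) (Fin 2) R) (i : Fin 2) :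
    app (fun r => φ r + ψ r) T i = app φ T i + app ψ T i := by
  simp only [app, add_mul, Finset.sum_add_distrib]

theorem app_lin (a : V → R) (T : Matrix (SS V G L) (Fin 2) R) (i : Fin 2) :
    app (fun r => ∑ v, a v * del (cc v) r) T i = ∑ v, a v * T (cc v) i := by
  simp only [app, Finset.sum_mul]
  rw [Finset.sum_comm]
  apply Finset.sum_congr rfl
  intro v _
  have h1 : ∀ r, a v * del (cc v) r * T r i = a v * (del (cc v) r * T r i) := fun r => by ring
  simp only [h1, ← Finset.mul_sum]
  congr 1
  exact app_del (cc v) T i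

theorem app_zero (T : Matrix (SS V G L) (Fin 2) R) (i : Fin 2) :
    app (0 : SS V G L → R) T i = 0 := by
  simp [app]

theorem Sol_of_Sys {N : Net V G L} {A : L → V → R} {z : V → R} (hz : N.Sys A z)
    (i : CI V G L) : (cond N A i).Sol (Tz N z) := by
  rcases i with ⟨v, k⟩ | ⟨g, k⟩ | ⟨l, k⟩ | u
  · fin_cases k <;> constructor <;>
      simp [cond, app_del, app_sub, app_zero, dot, Cond.col, subM, swapM, Tz]
  · have hg := hz.gate g
    fin_cases k <;> constructor <;>
      simp [cond, app_del, app_sub, app_zero, dot, Cond.col, subM, swapM, Tz, hg]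
  · have hl := hz.lin l
    fin_cases k <;> constructor <;>
      simp [cond, app_del, app_sub, app_add, app_lin, app_zero, dot, Cond.col, subM, swapM, Tz, hl]
  · have ho := hz.zero
    constructor <;>
      simp [cond, app_del, app_sub, app_zero, dot, Cond.col, subM, swapM, Tz, ho]

theorem H2_holds (N : Net V G L) (A : L → V → R) (T : Matrix (SS V G L) (Fin 2) R)
    (hT : ∀ i : CI V G L, (cond N A i).α = 0 →
      dot (app (cond N A i).φ T) ((cond N A i).col 0) = 0) (i : CI V G L) :
    dot (app (cond N A i).α T) ((cond N A i).col 1) = 0 := by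
  rcases i with ⟨v, k⟩ | ⟨g, k⟩ | ⟨l, k⟩ | u
  · simp [cond, dot, app_zero]
  · by_cases hk : k = 2
    · subst hk
      have h1 := hT (Sum.inl (N.g1 g, 2)) rfl
      simp [cond, dot, app_del, Cond.col, swapM] at h1
      simp [cond, dot, app_del, Cond.col, h1]
    · simp [cond, dot, app_zero, hk]
  · simp [cond, dot, app_zero]
  · simp [cond, dot, app_zero]

theorem Sys_of_Sol {N : Net V G L} {A : L → V → R} {T : Matrix (SS V G L) (Fin 2) R}
    (hT : ∀ i : CI V G L, (cond N A i).Sol T) : ∃ z : V → R, N.Sys A z ∧ T = Tz N z := by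
  have hc : ∀ v, T (cc v) 0 = T (cc v) 1 := by
    intro v
    have := (hT (Sum.inl (v, 0))).h1
    simp [cond, dot, app_del, app_zero, Cond.col, subM] at this
    linear_combination this
  have ha0 : ∀ v, T (aa v) 0 = T (cc v) 0 := by
    intro v
    have := (hT (Sum.inl (v, 1))).h1
    simp [cond, dot, app_del, app_sub, app_zero, Cond.col] at this
    linear_combination this
  have ha1 : ∀ v, T (aa v) 1 = 0 := by
    intro v
    have := (hT (Sum.inl (v, 2))).h1
    simp [cond, dot, app_del, app_sub, app_zero, Cond.col, swapM] at this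
    linear_combination this
  have hb0 : ∀ g, T (bb g) 0 = T (cc (N.go g)) 0 := by
    intro g
    have := (hT (Sum.inr (Sum.inl (g, 0)))).h1
    simp [cond, dot, app_del, app_sub, app_zero, Cond.col] at this
    linear_combination this
  have hb1 : ∀ g, T (bb g) 1 = T (cc (N.g2 g)) 1 := by
    intro g
    have := (hT (Sum.inr (Sum.inl (g, 1)))).h1
    simp [cond, dot, app_del, app_sub, app_zero, Cond.col, swapM] at this
    linear_combination this
  have hg : ∀ g, T (bb g) 0 = T (aa (N.g1 g)) 0 * T (bb g) 1 := by
    intro g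
    have := (hT (Sum.inr (Sum.inl (g, 2)))).h1
    simp [cond, dot, app_del, app_sub, app_zero, Cond.col, swapM] at this
    linear_combination this
  have hd0 : ∀ l, T (dd l) 0 = 0 := by
    intro l
    have := (hT (Sum.inr (Sum.inr (Sum.inl (l, 0))))).h1
    simp [cond, dot, app_del, app_sub, app_zero, Cond.col, swapM] at this
    linear_combination this
  have hd1 : ∀ l, T (dd l) 1 = 0 := by
    intro l
    have := (hT (Sum.inr (Sum.inr (Sum.inl (l, 1))))).h1
    simp [cond, dot, app_del, app_sub, app_zero, Cond.col, swapM] at this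
    linear_combination this
  have hl : ∀ l, T (dd l) 0 + ∑ v, A l v * T (cc v) 0 = 0 := by
    intro l
    have := (hT (Sum.inr (Sum.inr (Sum.inl (l, 2))))).h1
    simp [cond, dot, app_del, app_add, app_lin, app_zero, Cond.col, swapM] at this
    linear_combination this
  have ho : T (cc N.o) 0 = 0 := by
    have := (hT (Sum.inr (Sum.inr (Sum.inr ())))).h1
    simp [cond, dot, app_del, app_add, app_lin, app_zero, Cond.col, swapM] at this
    linear_combination this
  refine ⟨fun v => T (cc v) 0, ⟨?_, ho, ?_⟩, ?_⟩
  · intro g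
    have h1 := hg g
    rw [hb0, hb1, ha0, ← hc] at h1
    exact h1.symm
  · intro l
    have := hl l
    rw [hd0, zero_add] at this
    exact this
  · ext r i
    rcases r with v | v | g | l
    · fin_cases i
      · rfl
      · exact (hc v).symm
    · fin_cases i
      · exact ha0 v
      · exact ha1 v
    · fin_cases i
      · exact hb0 g
      · exact (hb1 g).trans (hc _).symm
    · fin_cases i
      · exact hd0 l
      · exact hd1 l

end Pool.Agent.Run7.h768
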