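import Pool.Agent.Run7.h768.FixPt2
import Pool.Agent.Run7.h768.Main

/-! Permutation flags in closures of Springer cells encode solvability of polynomial systems. -/

set_option linter.unusedSectionVars false
set_option linter.unusedVariables false
set_option linter.unusedSimpArgs false

noncomputable section

namespace Pool.Agent.Run7.h768

open Matrix

section guard

variable {V G L : Type} [Fintype V] [Fintype G] [Fintype L] [DecidableEq V] [DecidableEq G]
  [DecidableEq L] {R : Type} [CommRing R]

/-- The conditions of a gate system and one more: `z y = z m * z y`. -/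
def condG (N : Net V G L) (m y : V) (A : L → V → R) : CI V G L ⊕ Unit → Cond (SS V G L) R
  | Sum.inl i => cond N A i
  | Sum.inr _ =>
    { s := cc y
      φ := del (cc y)
      α := del (aa m)
      Q := 1
      Qi := 1 }

theorem condG_good (N : Net V G L) (m y : V) (A : L → V → R) (i : CI V G L ⊕ Unit) :
    (condG N m y A i).Good := by
  rcases i with i | u
  · exact cond_good N A i
  · constructor <;> simp [condG, del]

theorem condG_map {R' : Type} [CommRing R'] (f : R →+* R') (N : Net V G L) (m y : V)
    (A : L → V → R) (i : CI V G L ⊕ Unit) :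
    (condG N m y A i).map f = condG N m y (fun l v => f (A l v)) i := by
  rcases i with i | u
  · exact cond_map f N A i
  · have h4 : (1 : Matrix (Fin 2) (Fin 2) R).map f = 1 :=
      Matrix.map_one f (map_zero f) (map_one f)
    have hd : ∀ (s r : SS V G L), f (del s r) = del s r := by
      intro s r
      simp only [del]
      split_ifs <;> simp
    simp [Cond.map, condG, h4, hd]

theorem SolG_of_Sys {N : Net V G L} {m y : V} {A : L → V → R} {z : V → R} (hz : N.Sys A z)
    (hg : z m * z y = z y) (i : CI V G L ⊕ Unit) : (condG N m y A i).Sol (Tz N z) := by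
  rcases i with i | u
  · exact Sol_of_Sys hz i
  · constructor <;>
      simp [condG, app_del, dot, Cond.col, Tz, hg]

theorem SysG_of_Sol {N : Net V G L} {m y : V} {A : L → V → R} {T : Matrix (SS V G L) (Fin 2) R}
    (hT : ∀ i, (condG N m y A i).Sol T) :
    ∃ z : V → R, N.Sys A z ∧ z m * z y = z y ∧ T = Tz N z := by
  obtain ⟨z, hz, rfl⟩ := Sys_of_Sol (N := N) (A := A) fun i => hT (Sum.inl i)
  refine ⟨z, hz, ?_, rfl⟩
  have := (hT (Sum.inr ())).h1
  simp [condG, app_del, dot, Cond.col, Tz] at this
  exact this.symm

theorem H2G (N : Net V G L) (m y : V) (A : L → V → R) (T : Matrix (SS V G L) (Fin 2) R)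
    (hT : ∀ i, (condG N m y A i).α = 0 →
      dot (app (condG N m y A i).φ T) ((condG N m y A i).col 0) = 0) (i : CI V G L ⊕ Unit) :
    dot (app (condG N m y A i).α T) ((condG N m y A i).col 1) = 0 := by
  rcases i with i | u
  · exact H2_holds N A T (fun i hi => hT (Sum.inl i) hi) i
  · have h1 := hT (Sum.inl (Sum.inl (m, 2))) rfl
    simp [condG, cond, dot, app_del, Cond.col, swapM] at h1
    simp [condG, dot, app_del, Cond.col, h1]

/-- The variable `y` occurs in no other equation. -/
structure Net.Free (N : Net V G L) (A : L → V → R) (m y : V) : Prop where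
  g1 : ∀ g, N.g1 g ≠ y
  g2 : ∀ g, N.g2 g ≠ y
  go : ∀ g, N.go g ≠ y
  o : N.o ≠ y
  m : m ≠ y
  A : ∀ l, A l y = 0

theorem atInf_condG {N : Net V G L} {m y : V} {A : L → V → R} (hf : N.Free A m y)
    (i : CI V G L ⊕ Unit) : AtInf (condG N m y A i) (cc y) (aa y) := by
  have hg1 := hf.g1
  have hg2 := hf.g2
  have hgo := hf.go
  have hm := hf.m
  have ho := hf.o
  have hA := hf.A
  rcases i with (⟨v, k⟩ | ⟨g, k⟩ | ⟨l, k⟩ | u) | u
  · have hk : k = 0 ∨ k = 1 ∨ k = 2 := by fin_cases k <;> simp
    rcases hk with rfl | rfl | rfl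
    · constructor
      · rfl
      · rfl
      · intro h1 h2
        have h3 : v ≠ y := fun h => h1 (by simp [condG, cond, piv, h])
        simp [condG, cond, del, Ne.symm h3]
      · intro h1 h2
        simp [condG, cond, del]
      · intro h1 r h2 h3
        have h4 : v = y := by
          rcases h1 with h1 | h1
          · simpa [condG, cond, piv] using h1
          · simp [condG, cond, piv] at h1
        subst h4
        simp [condG, cond, del, h2]
    · constructor
      · rfl
      · rfl
      · intro h1 h2
        have h3 : v ≠ y := fun h => h2 (by simp [condG, cond, piv, h])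
        simp [condG, cond, del, Ne.symm h3]
      · intro h1 h2
        have h3 : v ≠ y := fun h => h2 (by simp [condG, cond, piv, h])
        simp [condG, cond, del, Ne.symm h3]
      · intro h1 r h2 h3
        have h4 : v = y := by
          rcases h1 with h1 | h1
          · simp [condG, cond, piv] at h1
          · simpa [condG, cond, piv] using h1
        subst h4
        simp [condG, cond, del, h2, h3]
    · constructor
      · rfl
      · rfl
      · intro h1 h2
        simp [condG, cond, del]
      · intro h1 h2
        have h3 : v ≠ y := fun h => h2 (by simp [condG, cond, piv, h])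
        simp [condG, cond, del, Ne.symm h3]
      · intro h1 r h2 h3
        have h4 : v = y := by
          rcases h1 with h1 | h1
          · simp [condG, cond, piv] at h1
          · simpa [condG, cond, piv] using h1
        subst h4
        simp [condG, cond, del, h3]
  · have hk : k = 0 ∨ k = 1 ∨ k = 2 := by fin_cases k <;> simp
    rcases hk with rfl | rfl | rfl
    · constructor
      · simp [condG, cond]
      · simp [condG, cond]
      · intro h1 h2
        simp [condG, cond, del, Ne.symm (hgo g)]
      · intro h1 h2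
        simp [condG, cond, del]
      · intro h1
        simp [condG, cond, piv] at h1
    · constructor
      · simp [condG, cond]
      · simp [condG, cond]
      · intro h1 h2
        simp [condG, cond, del, Ne.symm (hg2 g)]
      · intro h1 h2
        simp [condG, cond, del]
      · intro h1
        simp [condG, cond, piv] at h1
    · constructor
      · simp [condG, cond, del]
      · simp [condG, cond, del, Ne.symm (hg1 g)]
      · intro h1 h2
        simp [condG, cond, del]
      · intro h1 h2
        simp [condG, cond, del]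
      · intro h1
        simp [condG, cond, piv] at h1
  · have hk : k = 0 ∨ k = 1 ∨ k = 2 := by fin_cases k <;> simp
    rcases hk with rfl | rfl | rfl
    · constructor
      · rfl
      · rfl
      · intro h1 h2
        simp [condG, cond, del]
      · intro h1 h2
        simp [condG, cond, del]
      · intro h1
        simp [condG, cond, piv] at h1
    · constructor
      · rfl
      · rfl
      · intro h1 h2
        simp [condG, cond, del]
      · intro h1 h2
        simp [condG, cond, del]
      · intro h1
        simp [condG, cond, piv] at h1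
    · constructor
      · rfl
      · rfl
      · intro h1 h2
        have h3 : ∑ v, A l v * del (cc v : SS V G L) (cc y) = A l y := by
          rw [Finset.sum_eq_single y]
          · simp [del]
          · intro v _ hv
            simp [del, Ne.symm hv]
          · simp
        have h4 : (condG N m y A (Sum.inl (Sum.inr (Sum.inr (Sum.inl (l, 2)))))).φ (cc y) =
          del (dd l) (cc y) + ∑ v, A l v * del (cc v : SS V G L) (cc y) := rfl
        rw [h4, h3, hA]
        simp [del]
      · intro h1 h2
        simp [condG, cond, del]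
      · intro h1
        simp [condG, cond, piv] at h1
  · constructor
    · rfl
    · rfl
    · intro h1 h2
      simp [condG, cond, del, Ne.symm ho]
    · intro h1 h2
      simp [condG, cond, del]
    · intro h1
      simp [condG, cond, piv, ho] at h1
  · constructor
    · simp [condG, del]
    · simp [condG, del, Ne.symm hm]
    · intro h1
      simp [condG] at h1
    · intro h1
      simp [condG] at h1
    · intro h1 r h2 h3
      simp [condG, del, h2]

theorem Tz_line (N : Net V G L) {A : L → V → ℂ} {m y : V} (hf : N.Free A m y) (z : V → ℂ) (t : ℂ) :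
    Tz N (Function.update z y t) = Tz N (Function.update z y 0) + t • T1 (cc y) (aa y) := by
  have hg2 := hf.g2
  have hgo := hf.go
  ext r i
  rcases r with v | v | g | l
  · by_cases hv : v = y
    · subst hv
      simp [Tz, T1]
    · simp [Tz, T1, hv]
  · by_cases hv : v = y
    · subst hv
      fin_cases i <;> simp [Tz, T1]
    · fin_cases i <;> simp [Tz, T1, hv]
  · fin_cases i <;> simp [Tz, T1, hg2 g, hgo g]
  · simp [Tz, T1]

/-- number of blocks -/
def hG (V G L : Type) [Fintype V] [Fintype G] [Fintype L] : ℕ := Fintype.card (CI V G L ⊕ Unit)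

def enumG (V G L : Type) [Fintype V] [Fintype G] [Fintype L] : (CI V G L ⊕ Unit) ≃ Fin (hG V G L) :=
  Fintype.equivFin _

def cfamG (N : Net V G L) (m y : V) (A : L → V → R) : Fin (hG V G L) → Cond (SS V G L) R :=
  fun j => condG N m y A ((enumG V G L).symm j)

/-- size of the matrices -/
def nG (V G L : Type) [Fintype V] [Fintype G] [Fintype L] : ℕ :=
  Fintype.card (Fin (hG V G L) × KK (SS V G L))

theorem cfamG_map {R' : Type} [CommRing R'] (f : R →+* R') (N : Net V G L) (m y : V)
    (A : L → V → R) :
    (fun j => (cfamG N m y A j).map f) = cfamG N m y (fun l v => f (A l v)) := by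
  funext j
  exact condG_map f N m y A _

/-- Main theorem for gate systems with a free variable. -/
theorem netG_main (N : Net V G L) (m y : V) :
    ∃ (v w : Equiv.Perm (Fin (nG V G L)))
      (e : (Fin (hG V G L) × KK (SS V G L)) ≃ Fin (nG V G L)),
      ∀ A : L → V → ℂ, N.Free A m y →
        (∀ i j, j ≤ i → Xf (cfamG N m y A) e i j = 0) ∧
        ((permMat w : GL (Fin (nG V G L)) ℂ) : Flag (nG V G L)) ∈
          SpringerFiber (Xf (cfamG N m y A) e) ∧
        ((permMat v : GL (Fin (nG V G L)) ℂ) : Flag (nG V G L)) ∈
          SpringerFiber (Xf (cfamG N m y A) e) ∧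
        ((∀ z, N.Sys A z → z m * z y = z y → z = 0) →
          ((permMat v : GL (Fin (nG V G L)) ℂ) : Flag (nG V G L)) ∉
          zariskiClosure (SchubertCell w ∩ SpringerFiber (Xf (cfamG N m y A) e))) ∧
        (∀ z, (∀ t, N.Sys A (Function.update z y t)) → z m = 1 →
          ((permMat v : GL (Fin (nG V G L)) ℂ) : Flag (nG V G L)) ∈
          zariskiClosure (SchubertCell w ∩ SpringerFiber (Xf (cfamG N m y A) e))) := by
  let s : Fin (hG V G L) → SS V G L := fun j =>
    (condG N m y (fun _ _ => (0 : ℂ)) ((enumG V G L).symm j)).s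
  let o := theOrders s
  obtain ⟨e, he⟩ := exists_enum o.val o.val_inj (nG V G L) rfl
  obtain ⟨τ, hτ⟩ := exists_enum o.time o.time_inj (nG V G L) rfl
  have hr : (cc y : SS V G L) ≠ aa y := by simp
  refine ⟨wperm (eS hr e) τ, wperm e τ, e, fun A hf => ?_⟩
  have hs : ∀ j, s j = (cfamG N m y A j).s := by
    intro j
    simp only [s, cfamG]
    rcases (enumG V G L).symm j with i | u
    · rfl
    · rfl
  have hs' : s = fun j => (cfamG N m y A j).s := funext hs
  obtain ⟨o', ho'⟩ : ∃ o' : Orders (hG V G L) (SS V G L) (fun j => (cfamG N m y A j).s),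
      o'.val = o.val ∧ o'.time = o.time := by
    rw [← hs']
    exact ⟨o, rfl, rfl⟩
  rw [← ho'.1] at he
  rw [← ho'.2] at hτ
  have hc : ∀ j, (cfamG N m y A j).Good := fun j => condG_good N m y A _
  let j0 := enumG V G L (Sum.inl (Sum.inr (Sum.inr (Sum.inr ()))))
  have hj0 : cfamG N m y A j0 = cond N A (Sum.inr (Sum.inr (Sum.inr ()))) := by
    simp [cfamG, j0, condG]
  have hQ0 : (cfamG N m y A j0).Q = 1 := by rw [hj0]; rfl
  have hα0 : (cfamG N m y A j0).α = 0 := by rw [hj0]; rfl
  have hall : ∀ (P : Cond (SS V G L) ℂ → Prop), (∀ j, P (cfamG N m y A j)) →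
      ∀ i, P (condG N m y A i) := by
    intro P hP i
    have := hP (enumG V G L i)
    simpa [cfamG] using this
  have H2 : ∀ T, (∀ j, (cfamG N m y A j).α = 0 →
      dot (app (cfamG N m y A j).φ T) ((cfamG N m y A j).col 0) = 0) →
      ∀ j, dot (app (cfamG N m y A j).α T) ((cfamG N m y A j).col 1) = 0 := by
    intro T hT j
    exact H2G N m y A T (hall (fun x => x.α = 0 → dot (app x.φ T) (x.col 0) = 0) hT) _
  have hinf : ∀ j, AtInf (cfamG N m y A j) (cc y) (aa y) := fun j => atInf_condG hf _
  refine ⟨XX_upper o' e he (cfamG N m y A), (base_mem (cfamG N m y A) o' e τ he hτ hc).2,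
    fix_mem (cfamG N m y A) o' e τ hτ hr hinf, ?_, ?_⟩
  · intro hz
    apply fix_not_mem (cfamG N m y A) o' e τ he hτ hc j0 hQ0 hα0 H2 ?_ hr
    intro T hT
    obtain ⟨z, hz', hg, rfl⟩ := SysG_of_Sol (hall (fun x => x.Sol T) hT)
    rw [hz z hz' hg]
    ext r i
    rcases r with v | v | g | l
    · rfl
    · fin_cases i <;> rfl
    · fin_cases i <;> rfl
    · rfl
  · intro z hz hm
    apply fix_in_closure (cfamG N m y A) o' e τ he hτ hc hr hinf
      (Tz N (Function.update z y 0))
    · intro i k
      fin_cases i
      · simp [rr, Tz]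
      · fin_cases k <;> simp [rr, Tz]
    · intro t j
      rw [← Tz_line N hf]
      apply SolG_of_Sys (hz t)
      rw [Function.update_of_ne hf.m, hm, one_mul]

theorem netG_main' {σ : Type} (N : Net V G L) (m y : V) (Au : L → V → MvPolynomial σ ℤ)
    (hf : N.Free Au m y) :
    ∃ (n : ℕ) (v w : Equiv.Perm (Fin n)) (X : Matrix (Fin n) (Fin n) (MvPolynomial σ ℤ)),
      (∀ a a' : σ → ℂ, ∃ g : GL (Fin n) ℂ,
        special X a' = g.1 * special X a * (g⁻¹ : GL (Fin n) ℂ).1) ∧
      ∀ a : σ → ℂ,
        (∀ i j, j ≤ i → special X a i j = 0) ∧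
        ((permMat w : GL (Fin n) ℂ) : Flag n) ∈ SpringerFiber (special X a) ∧
        ((permMat v : GL (Fin n) ℂ) : Flag n) ∈ SpringerFiber (special X a) ∧
        ((∀ z, N.Sys (fun l v => MvPolynomial.aeval a (Au l v)) z → z m * z y = z y → z = 0) →
          ((permMat v : GL (Fin n) ℂ) : Flag n) ∉
            zariskiClosure (SchubertCell w ∩ SpringerFiber (special X a))) ∧
        (∀ z, (∀ t, N.Sys (fun l v => MvPolynomial.aeval a (Au l v)) (Function.update z y t)) →
          z m = 1 →
          ((permMat v : GL (Fin n) ℂ) : Flag n) ∈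
            zariskiClosure (SchubertCell w ∩ SpringerFiber (special X a))) := by
  obtain ⟨v, w, e, hmain⟩ := netG_main N m y
  have hsp : ∀ a : σ → ℂ, special (Xf (cfamG N m y Au) e) a =
      Xf (cfamG N m y (fun l v => (MvPolynomial.aeval a (Au l v) : ℂ))) e := by
    intro a
    have h1 := XX_map (MvPolynomial.aeval a : MvPolynomial σ ℤ →ₐ[ℤ] ℂ).toRingHom (cfamG N m y Au)
    rw [cfamG_map] at h1
    exact (congrArg (fun M => Matrix.submatrix M e.symm e.symm) h1).symm
  refine ⟨nG V G L, v, w, Xf (cfamG N m y Au) e, ?_, ?_⟩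
  · intro a a'
    rw [hsp, hsp]
    exact XX_conj e _ _ (fun j => condG_good _ _ _ _ _) (fun j => condG_good _ _ _ _ _)
  · intro a
    rw [hsp]
    exact hmain _ ⟨hf.g1, hf.g2, hf.go, hf.o, hf.m, fun l => by rw [hf.A, map_zero]⟩

end guard

section poly

/-- variables: `x i`, monomials, free variable, zero -/
abbrev PV2 (q d : ℕ) : Type := Fin q ⊕ Mon q d ⊕ Unit ⊕ Unit

abbrev PG2 (q d : ℕ) : Type := (Fin q × Mon q d) ⊕ Fin q ⊕ Unit

variable {q d c : ℕ}

abbrev ux (i : Fin q) : PV2 q d := Sum.inl i
abbrev um (α : Mon q d) : PV2 q d := Sum.inr (Sum.inl α)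
abbrev uy : PV2 q d := Sum.inr (Sum.inr (Sum.inl ()))
abbrev uo : PV2 q d := Sum.inr (Sum.inr (Sum.inr ()))

def net2 (q d : ℕ) : Net (PV2 q d) (PG2 q d) (Fin c) where
  g1 := fun g => match g with
    | Sum.inl (i, α) => if (α i : ℕ) < d then ux i else uo
    | Sum.inr (Sum.inl i) => ux i
    | Sum.inr (Sum.inr _) => um 0
  g2 := fun g => match g with
    | Sum.inl (i, α) => if (α i : ℕ) < d then um α else uo
    | Sum.inr (Sum.inl i) => um 0
    | Sum.inr (Sum.inr _) => um 0
  go := fun g => match g with
    | Sum.inl (i, α) => if h : (α i : ℕ) < d then um (Function.update α i ⟨(α i : ℕ) + 1, by omega⟩)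
        else uo
    | Sum.inr (Sum.inl i) => ux i
    | Sum.inr (Sum.inr _) => um 0
  o := uo

def coefA2 {R : Type} [CommRing R] (a : Fin c → Mon q d → R) (l : Fin c) : PV2 q d → R
  | Sum.inl _ => 0
  | Sum.inr (Sum.inl α) => a l α
  | Sum.inr (Sum.inr _) => 0

theorem sum_coefA2 {R : Type} [CommRing R] (a : Fin c → Mon q d → R) (l : Fin c)
    (z : PV2 q d → R) : ∑ v, coefA2 a l v * z v = ∑ α, a l α * z (um α) := by
  rw [Fintype.sum_sum_type, Fintype.sum_sum_type]
  simp [coefA2]

theorem net2_free {R : Type} [CommRing R] (a : Fin c → Mon q d → R) :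
    (net2 (c := c) q d).Free (coefA2 a) (um 0) uy where
  g1 := by
    rintro (⟨i, α⟩ | i | u)
    · simp only [net2]
      split_ifs <;> simp
    · simp [net2]
    · simp [net2]
  g2 := by
    rintro (⟨i, α⟩ | i | u)
    · simp only [net2]
      split_ifs <;> simp
    · simp [net2]
    · simp [net2]
  go := by
    rintro (⟨i, α⟩ | i | u)
    · simp only [net2]
      split_ifs <;> simp
    · simp [net2]
    · simp [net2]
  o := by simp [net2]
  m := by simp
  A := fun l => rfl

/-- value of the variables -/
def zsol2 {R : Type} [CommRing R] (x : Fin q → R) (t : R) : PV2 q d → R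
  | Sum.inl i => x i
  | Sum.inr (Sum.inl α) => ∏ k, x k ^ (α k : ℕ)
  | Sum.inr (Sum.inr (Sum.inl b)) => t
  | Sum.inr (Sum.inr (Sum.inr _)) => 0

theorem zsol2_sys {R : Type} [CommRing R] (a : Fin c → Mon q d → R) (x : Fin q → R) (t : R)
    (hx : ∀ l, ∑ α, a l α * ∏ k, x k ^ (α k : ℕ) = 0) :
    (net2 q d).Sys (coefA2 a) (zsol2 x t) where
  gate := by
    intro g
    have h0 : (zsol2 x t (um (0 : Mon q d)) : R) = 1 := by
      simp [zsol2]
    rcases g with ⟨i, α⟩ | i | b
    · simp only [net2]
      by_cases h : (α i : ℕ) < d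
      · rw [if_pos h, if_pos h, dif_pos h]
        exact prod_update x α i h
      · rw [if_neg h, if_neg h, dif_neg h]
        simp [zsol2]
    · simp only [net2]
      rw [h0, mul_one]
    · simp only [net2]
      rw [h0, mul_one]
  zero := rfl
  lin := by
    intro l
    rw [sum_coefA2]
    exact hx l

theorem sys_cases2 {a : Fin c → Mon q d → ℂ} {z : PV2 q d → ℂ} (hz : (net2 q d).Sys (coefA2 a) z)
    (hy : z (um 0) * z uy = z uy) :
    z = 0 ∨ (∀ l, ∑ α, a l α * ∏ k, z (ux k) ^ (α k : ℕ) = 0) := by
  have hm : z (um 0) * z (um 0) = z (um 0) := hz.gate (Sum.inr (Sum.inr ()))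
  have ho : z uo = 0 := hz.zero
  have hx : ∀ i, z (ux i) * z (um 0) = z (ux i) := fun i => hz.gate (Sum.inr (Sum.inl i))
  have hmul : ∀ (i : Fin q) (α : Mon q d) (h : (α i : ℕ) < d), z (ux i) * z (um α) =
      z (um (Function.update α i ⟨(α i : ℕ) + 1, by omega⟩)) := by
    intro i α h
    have := hz.gate (Sum.inl (i, α))
    simp only [net2] at this
    rw [if_pos h, if_pos h, dif_pos h] at this
    exact this
  -- monomials
  have hmon : ∀ (N : ℕ) (α : Mon q d), ∑ k, (α k : ℕ) = N →
      z (um α) = z (um 0) * ∏ k, z (ux k) ^ (α k : ℕ) := by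
    intro N
    induction N with
    | zero =>
      intro α hα
      have h1 : α = 0 := by
        funext k
        have h2 := (Finset.sum_eq_zero_iff.1 hα) k (Finset.mem_univ k)
        exact Fin.ext h2
      subst h1
      simp
    | succ N ih =>
      intro α hα
      obtain ⟨i, hi⟩ : ∃ i, (α i : ℕ) ≠ 0 := by
        by_contra hcon
        push Not at hcon
        rw [Finset.sum_eq_zero (fun k _ => hcon k)] at hα
        omega
      have hlt := (α i).2
      let α' : Mon q d := Function.update α i ⟨(α i : ℕ) - 1, by omega⟩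
      have hα'i : (α' i : ℕ) = (α i : ℕ) - 1 := by simp [α']
      have h' : (α' i : ℕ) < d := by omega
      have hback : (Function.update α' i ⟨(α' i : ℕ) + 1, by omega⟩ : Mon q d) = α := by
        funext k
        by_cases hk : k = i
        · subst hk
          rw [Function.update_self]
          apply Fin.ext
          simp only [hα'i]
          omega
        · rw [Function.update_of_ne hk]
          simp only [α']
          rw [Function.update_of_ne hk]
      have hsum : ∑ k, (α' k : ℕ) = N := by
        have h1 : ∑ k, (α k : ℕ) = (α i : ℕ) + ∑ k ∈ Finset.univ.erase i, (α k : ℕ) :=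
          (Finset.add_sum_erase _ _ (Finset.mem_univ i)).symm
        have h2 : ∑ k, (α' k : ℕ) = (α' i : ℕ) + ∑ k ∈ Finset.univ.erase i, (α' k : ℕ) :=
          (Finset.add_sum_erase _ _ (Finset.mem_univ i)).symm
        have h3 : ∑ k ∈ Finset.univ.erase i, (α' k : ℕ) = ∑ k ∈ Finset.univ.erase i, (α k : ℕ) := by
          apply Finset.sum_congr rfl
          intro k hk
          simp only [α']
          rw [Function.update_of_ne (Finset.ne_of_mem_erase hk)]
        rw [h2, h3, hα'i]
        omega
      have h1 := hmul i α' h'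
      have h2 := prod_update (fun k => z (ux k)) α' i h'
      simp only [hback] at h1 h2
      rw [← h1, ih α' hsum, ← h2]
      ring
  have h01 : z (um 0) = 0 ∨ z (um 0) = 1 := by
    have : z (um 0) * (z (um 0) - 1) = 0 := by linear_combination hm
    rcases mul_eq_zero.1 this with h | h
    · exact Or.inl h
    · exact Or.inr (sub_eq_zero.1 h)
  rcases h01 with h0 | h1
  · left
    funext v
    rcases v with i | α | b | u
    · rw [← hx i, h0, mul_zero]; rfl
    · rw [hmon _ α rfl, h0, zero_mul]; rfl
    · rw [← hy, h0, zero_mul]; rfl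
    · exact ho
  · right
    intro l
    have := hz.lin l
    rw [sum_coefA2] at this
    rw [← this]
    apply Finset.sum_congr rfl
    intro α _
    rw [hmon _ α rfl, h1, one_mul]

theorem mainFix (q d c : ℕ) :
    ∃ (n : ℕ) (v w : Equiv.Perm (Fin n))
      (X : Matrix (Fin n) (Fin n) (MvPolynomial (Fin c × (Fin q → Fin (d + 1))) ℤ)),
      (∀ a a' : Fin c × (Fin q → Fin (d + 1)) → ℂ, ∃ g : GL (Fin n) ℂ,
        special X a' = g.1 * special X a * (g⁻¹ : GL (Fin n) ℂ).1) ∧
      ∀ a : Fin c × (Fin q → Fin (d + 1)) → ℂ,
        (∀ i j, j ≤ i → special X a i j = 0) ∧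
        ((permMat w : GL (Fin n) ℂ) : Flag n) ∈ SpringerFiber (special X a) ∧
        ((permMat v : GL (Fin n) ℂ) : Flag n) ∈ SpringerFiber (special X a) ∧
        (((permMat v : GL (Fin n) ℂ) : Flag n) ∈
            zariskiClosure (SchubertCell w ∩ SpringerFiber (special X a)) ↔
          ∃ x : Fin q → ℂ, ∀ l : Fin c, polyVal (fun α => a (l, α)) x = 0) := by
  classical
  obtain ⟨n, v, w, X, hconj, hX⟩ := netG_main' (net2 (c := c) q d) (um 0) uy
    (coefA2 fun l α => MvPolynomial.X (l, α)) (net2_free _)
  refine ⟨n, v, w, X, hconj, fun a => ?_⟩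
  obtain ⟨h1, h2, h2', h3, h4⟩ := hX a
  have hA : (fun l v => (MvPolynomial.aeval a ((coefA2 (q := q) (d := d) (c := c)
      (fun l α => (MvPolynomial.X (l, α) : MvPolynomial (Fin c × (Fin q → Fin (d + 1))) ℤ))) l v)
        : ℂ)) = coefA2 fun l α => a (l, α) := by
    funext l v
    rcases v with i | α | u
    · simp [coefA2]
    · simp [coefA2]
    · simp [coefA2]
  rw [hA] at h3 h4
  refine ⟨h1, h2, h2', ?_⟩
  constructor
  · intro hs
    by_contra hno
    apply h3 _ hs
    intro z hz hy
    rcases sys_cases2 hz hy with h | h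
    · exact h
    · exact absurd ⟨fun i => z (ux i), h⟩ hno
  · rintro ⟨x, hx⟩
    apply h4 (zsol2 x 0)
    · intro t
      have : Function.update (zsol2 (d := d) x 0) uy t = zsol2 x t := by
        funext v
        rcases v with i | α | b | u
        · simp [zsol2]
        · simp [zsol2]
        · simp [zsol2]
        · simp [zsol2]
      rw [this]
      exact zsol2_sys _ x t hx
    · simp [zsol2]

end poly

end Pool.Agent.Run7.h768
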