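import Pool.Agent.Run7.h768.CaseA2
import Pool.Agent.Run7.h768.Encode

/-! Permutation flags in the closure: a plane of coordinates at infinity. -/

set_option linter.unusedSectionVars false
set_option linter.unusedVariables false
set_option linter.unusedSimpArgs false

noncomputable section

namespace Pool.Agent.Run7.h768

open Matrix

variable {S : Type} [Fintype S] [DecidableEq S] {h n : ℕ}

/-- the plane spanned by the coordinates `r0`, `r1` is a coordinate plane for the flag -/
structure AtInf {R : Type} [CommRing R] (c : Cond S R) (r0 r1 : S) : Prop where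
  α0 : c.α r0 = 0
  α1 : c.α r1 = 0
  out0 : c.s ≠ r0 → c.s ≠ r1 → c.φ r0 = 0
  out1 : c.s ≠ r0 → c.s ≠ r1 → c.φ r1 = 0
  inn : c.s = r0 ∨ c.s = r1 → ∀ r, r ≠ r0 → r ≠ r1 → c.φ r = 0

/-- exchange of the two distinguished coordinates with `r0`, `r1` -/
def sg (r0 r1 : S) (a : KK S) : KK S :=
  Sum.elim (fun r => if r = r0 then Sum.inr 0 else if r = r1 then Sum.inr 1 else Sum.inl r)
    (fun i => if i = 0 then Sum.inl r0 else Sum.inl r1) a

@[simp] theorem sg_inr0 (r0 r1 : S) : sg r0 r1 (Sum.inr 0) = Sum.inl r0 := rfl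
@[simp] theorem sg_inr1 (r0 r1 : S) : sg r0 r1 (Sum.inr 1) = Sum.inl r1 := rfl
@[simp] theorem sg_r0 (r0 r1 : S) : sg r0 r1 (Sum.inl r0) = Sum.inr 0 := by simp [sg]
theorem sg_r1 {r0 r1 : S} (hr : r0 ≠ r1) : sg r0 r1 (Sum.inl r1) = Sum.inr 1 := by
  simp [sg, hr.symm]
theorem sg_other {r0 r1 : S} (r : S) (h0 : r ≠ r0) (h1 : r ≠ r1) :
    sg r0 r1 (Sum.inl r) = Sum.inl r := by
  simp [sg, h0, h1]

theorem sg_invol {r0 r1 : S} (hr : r0 ≠ r1) : Function.Involutive (sg r0 r1) := by
  intro a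
  rcases a with r | i
  · by_cases h0 : r = r0
    · subst h0
      simp
    · by_cases h1 : r = r1
      · subst h1
        rw [sg_r1 hr, sg_inr1]
      · rw [sg_other r h0 h1, sg_other r h0 h1]
  · fin_cases i
    · simp
    · simp [sg_r1 hr]

def sgE {r0 r1 : S} (hr : r0 ≠ r1) : KK S ≃ KK S := (sg_invol hr).toPerm

/-- value labels for the second permutation -/
def eS {r0 r1 : S} (hr : r0 ≠ r1) (e : (Fin h × KK S) ≃ Fin n) : (Fin h × KK S) ≃ Fin n :=
  (Equiv.prodCongr (Equiv.refl _) (sgE hr)).trans e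

theorem eS_apply {r0 r1 : S} (hr : r0 ≠ r1) (e : (Fin h × KK S) ≃ Fin n) (x : Fin h × KK S) :
    eS hr e x = e (x.1, sg r0 r1 x.2) := rfl

/-- matrices preserving the plane -/
def Pres {R : Type} [CommRing R] (r0 r1 : S) (M : Matrix (KK S) (KK S) R) : Prop :=
  ∀ r i, M (sg r0 r1 (Sum.inl r)) (sg r0 r1 (Sum.inr i)) = 0

theorem Pres.mul {R : Type} [CommRing R] {r0 r1 : S} (hr : r0 ≠ r1)
    {M N : Matrix (KK S) (KK S) R} (hM : Pres r0 r1 M) (hN : Pres r0 r1 N) :
    Pres r0 r1 (M * N) := by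
  intro r i
  rw [Matrix.mul_apply, ← Equiv.sum_comp (sgE hr)]
  apply Finset.sum_eq_zero
  intro a _
  change M (sg r0 r1 (Sum.inl r)) (sg r0 r1 a) * N (sg r0 r1 a) (sg r0 r1 (Sum.inr i)) = 0
  rcases a with r' | i'
  · rw [hN, mul_zero]
  · rw [hM, zero_mul]

theorem pres_block {R : Type} [CommRing R] {c : Cond S R} {r0 r1 : S} (hr : r0 ≠ r1)
    (hc : AtInf c r0 r1) (E : Matrix S S R) (A : Matrix (Fin 2) S R)
    (B : Matrix (Fin 2) (Fin 2) R)
    (hE : ∀ r r', r ≠ c.s → E r r' = if r = r' then 1 else 0)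
    (hE' : ∀ r', r' ≠ c.s → c.φ r' = 0 → E c.s r' = 0)
    (hA : ∀ i r, c.α r = 0 → (c.s ≠ r0 → c.s ≠ r1 → c.φ r = 0) → A i r = 0 ) :
    Pres r0 r1 (Matrix.fromBlocks E 0 A B) := by
  have hA0 : ∀ i, A i r0 = 0 := fun i => hA i r0 hc.α0 hc.out0
  have hA1 : ∀ i, A i r1 = 0 := fun i => hA i r1 hc.α1 hc.out1
  intro r i
  by_cases h0 : r = r0
  · subst h0
    rw [sg_r0]
    fin_cases i
    · exact hA0 0
    · exact hA1 0
  · by_cases h1 : r = r1
    · subst h1
      rw [sg_r1 hr]
      fin_cases i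
      · exact hA0 1
      · exact hA1 1
    · rw [sg_other r h0 h1]
      by_cases hs : r = c.s
      · fin_cases i
        · change E r r0 = 0
          rw [hs]
          apply hE'
          · rintro h2
            exact h0 (hs.trans h2.symm)
          · apply hc.out0
            · rintro h2
              exact h0 (hs.trans h2)
            · rintro h2
              exact h1 (hs.trans h2)
        · change E r r1 = 0
          rw [hs]
          apply hE'
          · rintro h2
            exact h1 (hs.trans h2.symm)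
          · apply hc.out1
            · rintro h2
              exact h0 (hs.trans h2)
            · rintro h2
              exact h1 (hs.trans h2)
      · fin_cases i
        · change E r r0 = 0
          rw [hE r r0 hs, if_neg h0]
        · change E r r1 = 0
          rw [hE r r1 hs, if_neg h1]

theorem pres_gamInv {R : Type} [CommRing R] {c : Cond S R} {r0 r1 : S} (hr : r0 ≠ r1)
    (hc : AtInf c r0 r1) : Pres r0 r1 c.gamInv := by
  apply pres_block hr hc
  · intro r r' hs
    simp [Cond.E, hs, Matrix.one_apply]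
  · intro r' h1 h2
    simp [Cond.E, Matrix.one_apply, h1, h2, Ne.symm h1]
  · intro i r hα _
    simp [Cond.D, hα]

theorem pres_gam {R : Type} [CommRing R] {c : Cond S R} {r0 r1 : S} (hr : r0 ≠ r1)
    (hc : AtInf c r0 r1) : Pres r0 r1 c.gam := by
  apply pres_block hr hc
  · intro r r' hs
    simp [Cond.E, hs, Matrix.one_apply]
  · intro r' h1 h2
    simp [Cond.E, Matrix.one_apply, h1, h2, Ne.symm h1]
  · intro i r hα _
    simp [Cond.D, hα, Matrix.mul_apply]

variable (c : Fin h → Cond S ℂ) (o : Orders h S (fun j => (c j).s))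
  (e τ : (Fin h × KK S) ≃ Fin n)

/-- the second permutation flag lies on the Springer fiber -/
theorem fix_mem (hτ : ∀ x y, τ x < τ y ↔ o.time x < o.time y) {r0 r1 : S} (hr : r0 ≠ r1)
    (hinf : ∀ j, AtInf (c j) r0 r1) :
    ((permMat (wperm (eS hr e) τ) : GL (Fin n) ℂ) : Flag n) ∈ SpringerFiber (Xf c e) := by
  refine ⟨_, rfl, ?_⟩
  intro p q hqp
  rw [mul_permMat, permMat_inv_mul]
  have e1 : Xf c e (wperm (eS hr e) τ p) (wperm (eS hr e) τ q) =
      XX c ((τ.symm p).1, sg r0 r1 (τ.symm p).2) ((τ.symm q).1, sg r0 r1 (τ.symm q).2) := by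
    simp only [Xf, Matrix.submatrix_apply, wperm, Equiv.trans_apply, eS_apply,
      Equiv.symm_apply_apply]
  rw [e1]
  have h2 := beta_mono c o τ hτ hqp.le
  dsimp only at h2
  revert h2
  generalize τ.symm p = x
  generalize τ.symm q = y
  obtain ⟨j, a⟩ := x
  obtain ⟨k, a'⟩ := y
  intro h2
  change bl (XX c) j k (sg r0 r1 a) (sg r0 r1 a') = 0
  rw [bl_XX]
  by_cases hjk : (k : ℕ) = (j : ℕ) + 1
  · rw [if_pos hjk]
    rcases a with r | i <;> rcases a' with r' | i'
    · simp only [tb_inl] at h2; omega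
    · exact (pres_gamInv hr (hinf j)).mul hr (pres_gam hr (hinf k)) r i'
    · simp only [tb_inl, tb_inr] at h2; omega
    · simp only [tb_inr] at h2; omega
  · rw [if_neg hjk]
    rfl

/-- it does not lie in the closure if there is only the trivial solution -/
theorem fix_not_mem (he : ∀ x y, e x < e y ↔ o.val x < o.val y)
    (hτ : ∀ x y, τ x < τ y ↔ o.time x < o.time y) (hc : ∀ j, (c j).Good)
    (j0 : Fin h) (hQ0 : (c j0).Q = 1) (hα0 : (c j0).α = 0)
    (H2 : ∀ T, (∀ j, (c j).α = 0 → dot (app (c j).φ T) ((c j).col 0) = 0) →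
      ∀ j, dot (app (c j).α T) ((c j).col 1) = 0)
    (h0 : ∀ T, (∀ j, (c j).Sol T) → T = 0) {r0 r1 : S} (hr : r0 ≠ r1) :
    ((permMat (wperm (eS hr e) τ) : GL (Fin n) ℂ) : Flag n) ∉
      zariskiClosure (SchubertCell (wperm e τ) ∩ SpringerFiber (Xf c e)) := by
  rw [closure_of_trivial c o e τ he hτ hc j0 hQ0 hα0 H2 h0]
  intro hB
  have h1 := @hB (τ (j0, Sum.inl r0)) (τ (j0, Sum.inr 0)) (by simp)
  rw [Units.val_mul, permMat_inv_mul, coe_permMat, if_pos] at h1
  · exact one_ne_zero h1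
  · simp [wperm, eS_apply]

end Pool.Agent.Run7.h768
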