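import Pool.Agent.Run7.h768.FixPt

/-! Permutation flags in the closure: the limit of a line of solutions. -/

set_option linter.unusedSectionVars false
set_option linter.unusedVariables false
set_option linter.unusedSimpArgs false

noncomputable section

namespace Pool.Agent.Run7.h768

open Matrix

/-- a polynomial vanishing on the punctured pencil vanishes at its origin -/
theorem vanish_limit {n : ℕ} (A : GL (Fin n) ℂ) (B : Matrix (Fin n) (Fin n) ℂ)
    (f : MvPolynomial (Fin n × Fin n) ℂ)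
    (hf : ∀ (s : ℂ) (g : GL (Fin n) ℂ), s ≠ 0 → g.1 = A.1 + s • B →
      MvPolynomial.eval (entries g) f = 0) :
    MvPolynomial.eval (entries A) f = 0 := by
  let M : Matrix (Fin n) (Fin n) (Polynomial ℂ) := Matrix.of fun i j =>
    Polynomial.C (A.1 i j) + Polynomial.X * Polynomial.C (B i j)
  have hM : ∀ s i j, (M i j).eval s = (A.1 + s • B) i j := by
    intro s i j
    simp [M]
    ring
  let F : Polynomial ℂ := MvPolynomial.aeval (fun ij : Fin n × Fin n => M ij.1 ij.2) f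
  have hF : ∀ s, F.eval s = MvPolynomial.eval (fun ij : Fin n × Fin n => (A.1 + s • B) ij.1 ij.2) f := by
    intro s
    rw [eval_aeval_poly]
    congr 2
    funext ij
    exact hM s _ _
  have hdet : ∀ s, M.det.eval s = (A.1 + s • B).det := by
    intro s
    rw [← Polynomial.coe_evalRingHom, RingHom.map_det]
    congr 1
    ext i j
    rw [RingHom.mapMatrix_apply, Matrix.map_apply, Polynomial.coe_evalRingHom, hM]
  have hdet0 : M.det ≠ 0 := by
    intro h
    have h1 := hdet 0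
    rw [h, Polynomial.eval_zero, zero_smul, add_zero] at h1
    have h2 : IsUnit A.1.det := (Matrix.isUnit_iff_isUnit_det _).1 A.isUnit
    rw [← h1] at h2
    exact not_isUnit_zero h2
  have hz : F * (M.det * Polynomial.X) = 0 := by
    apply Polynomial.funext
    intro s
    rw [Polynomial.eval_zero, Polynomial.eval_mul, Polynomial.eval_mul, Polynomial.eval_X]
    by_cases h1 : M.det.eval s = 0
    · simp [h1]
    by_cases h2 : s = 0
    · simp [h2]
    rw [hdet] at h1
    have := hf s (Matrix.GeneralLinearGroup.mkOfDetNeZero (A.1 + s • B) h1) h2 rfl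
    have h3 : F.eval s = 0 := by
      rw [hF]
      exact this
    rw [h3, zero_mul]
  have hF0 : F = 0 :=
    (mul_eq_zero.1 hz).resolve_right (mul_ne_zero hdet0 Polynomial.X_ne_zero)
  have := hF 0
  rw [hF0, Polynomial.eval_zero, zero_smul, add_zero] at this
  exact this.symm

variable {S : Type} [Fintype S] [DecidableEq S] {h n : ℕ}

/-- rows after the change of basis -/
def rowF (c : Cond S ℂ) (T : Matrix S (Fin 2) ℂ) : Matrix S (Fin 2) ℂ :=
  Matrix.of fun r k => if r = c.s then app c.φ T k else T r k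

theorem nu_eq (c : Cond S ℂ) (T : Matrix S (Fin 2) ℂ) : c.nu T = rowF c T * c.C2 T := by
  ext r i
  simp only [Cond.nu, Cond.ech, Matrix.of_apply]
  rw [Matrix.mul_apply, Matrix.mul_apply]
  apply Finset.sum_congr rfl
  intro k _
  congr 1
  rw [Matrix.mul_apply, Fintype.sum_sum_type]
  have h2 : ∀ x : Fin 2, c.gamInv (Sum.inl r) (Sum.inr x) * stack T (Sum.inr x) k = 0 := by
    intro x
    simp [Cond.gamInv]
  rw [Finset.sum_eq_zero (fun x _ => h2 x), add_zero]
  simp only [rowF, Matrix.of_apply]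
  by_cases hr : r = c.s
  · rw [if_pos hr, app]
    apply Finset.sum_congr rfl
    intro x _
    simp only [Cond.gamInv, Matrix.fromBlocks_apply₁₁, Matrix.add_apply, Cond.E, Matrix.of_apply,
      stack, Sum.elim_inl, hr, if_true]
    by_cases hx : x = c.s
    · subst hx
      simp
    · simp [hx, Ne.symm hx, Matrix.one_apply]
  · rw [if_neg hr, Finset.sum_eq_single r]
    · simp [Cond.gamInv, Cond.E, hr, stack]
    · intro x _ hx
      simp [Cond.gamInv, Cond.E, hr, stack, Matrix.one_apply, Ne.symm hx]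
    · intro hx
      exact absurd (Finset.mem_univ r) hx

/-- direction of the line at infinity -/
def T1 (r0 r1 : S) : Matrix S (Fin 2) ℂ := Matrix.of fun r k =>
  if r = r0 then 1 else if r = r1 then (if k = 0 then 1 else 0) else 0

def Jm : Matrix (Fin 2) (Fin 2) ℂ := !![1, 1; 1, 0]
def Ji : Matrix (Fin 2) (Fin 2) ℂ := !![0, 1; 1, -1]

theorem Jm_mul : Jm * Ji = 1 := by
  ext i j
  fin_cases i <;> fin_cases j <;> simp [Jm, Ji, Matrix.mul_apply, Fin.sum_univ_two]

def rr (r0 r1 : S) (i : Fin 2) : S := if i = 0 then r0 else r1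

def Pm (c : Cond S ℂ) (r0 r1 : S) : Matrix (Fin 2) (Fin 2) ℂ := Matrix.of fun i i' =>
  if c.s = rr r0 r1 i then c.φ (rr r0 r1 i') else if i = i' then 1 else 0

def Pi (c : Cond S ℂ) (r0 r1 : S) : Matrix (Fin 2) (Fin 2) ℂ := Matrix.of fun i i' =>
  if i = i' then 1 else if c.s = rr r0 r1 i then -c.φ (rr r0 r1 i') else 0

theorem Pm_mul {c : Cond S ℂ} (hc : c.Good) {r0 r1 : S} (hr : r0 ≠ r1) :
    Pm c r0 r1 * Pi c r0 r1 = 1 := by
  ext i j
  have hφ := hc.hφ
  rw [Matrix.mul_apply, Fin.sum_univ_two]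
  by_cases h0 : c.s = r0
  · have h1 : c.s ≠ r1 := fun h => hr (h0.symm.trans h)
    rw [h0] at hφ
    fin_cases i <;> fin_cases j <;> simp [Pm, Pi, rr, h0, hr, hφ]
  · by_cases h1 : c.s = r1
    · rw [h1] at hφ
      fin_cases i <;> fin_cases j <;> simp [Pm, Pi, rr, h1, hr.symm, hφ]
    · fin_cases i <;> fin_cases j <;> simp [Pm, Pi, rr, h0, h1]

theorem app_T1 (φ : S → ℂ) {r0 r1 : S} (hr : r0 ≠ r1) (k : Fin 2) :
    app φ (T1 r0 r1) k = φ r0 + φ r1 * (if k = 0 then 1 else 0) := by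
  rw [app, Finset.sum_eq_add r0 r1 hr]
  · simp [T1, hr.symm]
  · intro x _ hx
    simp [T1, hx.1, hx.2]
  · intro hx
    exact absurd (Finset.mem_univ _) hx
  · intro hx
    exact absurd (Finset.mem_univ _) hx

theorem app_line (φ : S → ℂ) {r0 r1 : S} (hr : r0 ≠ r1) (T0 : Matrix S (Fin 2) ℂ) (y : ℂ)
    (k : Fin 2) : app φ (T0 + y • T1 r0 r1) k =
      app φ T0 k + y * (φ r0 + φ r1 * (if k = 0 then 1 else 0)) := by
  rw [← app_T1 φ hr k]
  simp only [app, Finset.mul_sum, ← Finset.sum_add_distrib]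
  apply Finset.sum_congr rfl
  intro x _
  simp only [Matrix.add_apply, Matrix.smul_apply, smul_eq_mul]
  ring

theorem C2_line {c : Cond S ℂ} {r0 r1 : S} (hr : r0 ≠ r1) (hinf : AtInf c r0 r1)
    (T0 : Matrix S (Fin 2) ℂ) (y : ℂ) : c.C2 (T0 + y • T1 r0 r1) = c.C2 T0 := by
  ext k i
  simp only [Cond.C2, Matrix.of_apply, dot, app_line _ hr, hinf.α0, hinf.α1]
  simp

theorem row_out {c : Cond S ℂ} {r0 r1 : S} (hr : r0 ≠ r1) (hinf : AtInf c r0 r1)
    (T0 : Matrix S (Fin 2) ℂ) (y : ℂ) (r : S) (h0 : r ≠ r0) (h1 : r ≠ r1) (k : Fin 2) :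
    rowF c (T0 + y • T1 r0 r1) r k = rowF c T0 r k := by
  simp only [rowF, Matrix.of_apply]
  by_cases hs : r = c.s
  · rw [if_pos hs, if_pos hs, app_line _ hr, hinf.out0, hinf.out1]
    · simp
    · exact fun h => h0 (hs.trans h)
    · exact fun h => h1 (hs.trans h)
    · exact fun h => h0 (hs.trans h)
    · exact fun h => h1 (hs.trans h)
  · rw [if_neg hs, if_neg hs]
    simp [T1, h0, h1]

theorem rr_ne {r0 r1 : S} (hr : r0 ≠ r1) {i i' : Fin 2} (h : i ≠ i') : rr r0 r1 i ≠ rr r0 r1 i' := by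
  fin_cases i <;> fin_cases i' <;> simp_all [rr, Ne.symm]

theorem row_in {c : Cond S ℂ} {r0 r1 : S} (hr : r0 ≠ r1) (hinf : AtInf c r0 r1)
    (T0 : Matrix S (Fin 2) ℂ) (hT0 : ∀ i k, T0 (rr r0 r1 i) k = 0) (y : ℂ) (i k : Fin 2) :
    rowF c (T0 + y • T1 r0 r1) (rr r0 r1 i) k = y * (Pm c r0 r1 * Jm) i k := by
  have e1 : ∀ i k, T1 r0 r1 (rr r0 r1 i) k = Jm i k := by
    intro i k
    fin_cases i <;> fin_cases k <;> simp [T1, rr, Jm, hr.symm]
  simp only [rowF, Matrix.of_apply]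
  rw [Matrix.mul_apply, Fin.sum_univ_two]
  by_cases hs : rr r0 r1 i = c.s
  · rw [if_pos hs, app_line _ hr]
    have h2 : app c.φ T0 k = 0 := by
      apply Finset.sum_eq_zero
      intro x _
      by_cases hx0 : x = r0
      · have := hT0 0 k
        simp only [rr, if_true] at this
        rw [hx0, this, mul_zero]
      · by_cases hx1 : x = r1
        · have := hT0 1 k
          simp only [rr, one_ne_zero, if_false] at this
          rw [hx1, this, mul_zero]
        · rw [hinf.inn _ x hx0 hx1, zero_mul]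
          rw [← hs]
          fin_cases i
          · left; rfl
          · right; rfl
    rw [h2, zero_add]
    simp only [Pm, Matrix.of_apply, hs, if_true]
    fin_cases k <;> simp [rr, Jm]
  · rw [if_neg hs, Matrix.add_apply, Matrix.smul_apply, hT0, e1, smul_eq_mul, zero_add]
    simp only [Pm, Matrix.of_apply, Ne.symm hs, if_false]
    fin_cases i <;> simp

/-- the correction matrices -/
def K1 (c : Cond S ℂ) (r0 r1 : S) (T0 : Matrix S (Fin 2) ℂ) : Matrix (Fin 2) (Fin 2) ℂ :=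
  C2i c T0 * Ji * Pi c r0 r1

def B1 (c : Cond S ℂ) (r0 r1 : S) (T0 : Matrix S (Fin 2) ℂ) : Matrix S (Fin 2) ℂ :=
  Matrix.of fun r i => if r = r0 ∨ r = r1 then 0 else (rowF c T0 * Ji * Pi c r0 r1) r i

def B0 (r0 r1 : S) : Matrix S (Fin 2) ℂ := Matrix.of fun r i => if r = rr r0 r1 i then 1 else 0

theorem limit_rel {c : Cond S ℂ} (hc : c.Good) {r0 r1 : S} (hr : r0 ≠ r1)
    (hinf : AtInf c r0 r1) (T0 : Matrix S (Fin 2) ℂ) (hT0 : ∀ i k, T0 (rr r0 r1 i) k = 0)
    (s : ℂ) (hs : s ≠ 0) :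
    c.nu (T0 + s⁻¹ • T1 r0 r1) * (s • K1 c r0 r1 T0) = B0 r0 r1 + s • B1 c r0 r1 T0 := by
  have e1 : c.nu (T0 + s⁻¹ • T1 r0 r1) * (s • K1 c r0 r1 T0) =
      s • (rowF c (T0 + s⁻¹ • T1 r0 r1) * (Ji * Pi c r0 r1)) := by
    rw [nu_eq, C2_line hr hinf, K1, Matrix.mul_smul]
    congr 1
    rw [Matrix.mul_assoc (C2i c T0), ← Matrix.mul_assoc (rowF c _ * c.C2 T0),
      Matrix.mul_assoc (rowF c _), C2_mul_C2i hc, Matrix.mul_one]
  rw [e1]
  ext r i
  rw [Matrix.smul_apply, Matrix.add_apply, Matrix.smul_apply]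
  by_cases hri : ∃ i', r = rr r0 r1 i'
  · obtain ⟨i', rfl⟩ := hri
    have h1 : B1 c r0 r1 T0 (rr r0 r1 i') i = 0 := by
      fin_cases i' <;> simp [B1, rr]
    rw [h1, smul_zero, add_zero]
    have h2 : (rowF c (T0 + s⁻¹ • T1 r0 r1) * (Ji * Pi c r0 r1)) (rr r0 r1 i') i =
        s⁻¹ * (Pm c r0 r1 * Jm * (Ji * Pi c r0 r1)) i' i := by
      rw [Matrix.mul_apply, Matrix.mul_apply (M := Pm c r0 r1 * Jm), Finset.mul_sum]
      apply Finset.sum_congr rfl
      intro k _
      rw [row_in hr hinf T0 hT0]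
      ring
    have h3 : Pm c r0 r1 * Jm * (Ji * Pi c r0 r1) = 1 := by
      rw [Matrix.mul_assoc, ← Matrix.mul_assoc Jm, Jm_mul, Matrix.one_mul, Pm_mul hc hr]
    rw [h2, h3, smul_eq_mul, ← mul_assoc, mul_inv_cancel₀ hs, one_mul, Matrix.one_apply]
    simp only [B0, Matrix.of_apply]
    by_cases hii : i' = i
    · rw [if_pos hii, hii, if_pos rfl]
    · rw [if_neg hii, if_neg (rr_ne hr hii)]
  · push Not at hri
    have h0 : r ≠ r0 := hri 0
    have h1 : r ≠ r1 := hri 1
    have h2 : B0 r0 r1 r i = 0 := by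
      simp only [B0, Matrix.of_apply]
      rw [if_neg (hri i)]
    rw [h2, zero_add]
    congr 1
    simp only [B1, Matrix.of_apply, h0, h1, or_self, if_false]
    rw [Matrix.mul_assoc, Matrix.mul_apply, Matrix.mul_apply]
    apply Finset.sum_congr rfl
    intro k _
    rw [row_out hr hinf T0 _ r h0 h1]

/-- the perturbation of the permutation matrix -/
def M1 (c : Fin h → Cond S ℂ) (r0 r1 : S) (T0 : Matrix S (Fin 2) ℂ) :
    Matrix (Fin h × KK S) (Fin h × KK S) ℂ :=
  diagBl fun j => Matrix.fromBlocks 0 (B1 (c j) r0 r1 T0) 0 (K1 (c j) r0 r1 T0)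

/-- the pencil through the permutation matrix, one block -/
def Gs (c : Cond S ℂ) (r0 r1 : S) (T0 : Matrix S (Fin 2) ℂ) (s : ℂ) : Matrix (KK S) (KK S) ℂ :=
  (Matrix.of fun a a' => if a = sg r0 r1 a' then (1 : ℂ) else 0) +
    s • Matrix.fromBlocks 0 (B1 c r0 r1 T0) 0 (K1 c r0 r1 T0)

theorem Gs_inl (c : Cond S ℂ) (r0 r1 : S) (T0 : Matrix S (Fin 2) ℂ) (s : ℂ) (r : S) (i : Fin 2) :
    Gs c r0 r1 T0 s (Sum.inl r) (Sum.inr i) = B0 r0 r1 r i + s • B1 c r0 r1 T0 r i := by
  rw [Gs, Matrix.add_apply, Matrix.smul_apply, Matrix.fromBlocks_apply₁₂, Matrix.of_apply, B0,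
    Matrix.of_apply]
  congr 1
  fin_cases i <;> simp [sg, rr]

theorem Gs_inr (c : Cond S ℂ) (r0 r1 : S) (T0 : Matrix S (Fin 2) ℂ) (s : ℂ) (x i : Fin 2) :
    Gs c r0 r1 T0 s (Sum.inr x) (Sum.inr i) = (s • K1 c r0 r1 T0) x i := by
  have h8 : (Sum.inr x : KK S) ≠ sg r0 r1 (Sum.inr i) := by
    fin_cases i <;> simp [sg]
  rw [Gs, Matrix.add_apply, Matrix.smul_apply, Matrix.fromBlocks_apply₂₂, Matrix.of_apply,
    if_neg h8, zero_add, Matrix.smul_apply]

variable (c : Fin h → Cond S ℂ) (o : Orders h S (fun j => (c j).s))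
  (e τ : (Fin h × KK S) ≃ Fin n)

theorem fix_in_closure (he : ∀ x y, e x < e y ↔ o.val x < o.val y)
    (hτ : ∀ x y, τ x < τ y ↔ o.time x < o.time y) (hc : ∀ j, (c j).Good) {r0 r1 : S}
    (hr : r0 ≠ r1) (hinf : ∀ j, AtInf (c j) r0 r1) (T0 : Matrix S (Fin 2) ℂ)
    (hT0 : ∀ i k, T0 (rr r0 r1 i) k = 0)
    (hT : ∀ (y : ℂ) (j), (c j).Sol (T0 + y • T1 r0 r1)) :
    ((permMat (wperm (eS hr e) τ) : GL (Fin n) ℂ) : Flag n) ∈
      zariskiClosure (SchubertCell (wperm e τ) ∩ SpringerFiber (Xf c e)) := by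
  rw [mem_zariskiClosure_iff]
  intro f hf
  apply vanish_limit _ ((M1 c r0 r1 T0).submatrix e.symm τ.symm)
  intro s g hs hg
  refine (mem_zariskiClosure_iff _ g).1 ?_ f hf
  set T := T0 + s⁻¹ • T1 r0 r1 with hTdef
  have h1 : g = pt c e T * permMat (wperm e τ) * ((pt c e T * permMat (wperm e τ))⁻¹ * g) := by
    group
  rw [h1]
  apply mem_closure_parabolic c o e τ he hτ hc (hT s⁻¹)
  intro p q hpq
  dsimp only at hpq
  -- entries
  have h2 : ((pt c e T * permMat (wperm e τ))⁻¹ * g : GL (Fin n) ℂ).1 p q =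
      (GTi c T * g.1.submatrix e τ) (τ.symm p) (τ.symm q) := by
    have e1 : (pt c e T * permMat (wperm e τ))⁻¹ * g =
      (permMat (wperm e τ))⁻¹ * ((pt c e T)⁻¹ * g) := by group
    rw [e1, Units.val_mul, permMat_inv_mul]
    have e2 : ((pt c e T)⁻¹ * g : GL (Fin n) ℂ).1 (wperm e τ p) q =
      (((pt c e T)⁻¹ * g : GL (Fin n) ℂ).1.submatrix e τ) (τ.symm p) (τ.symm q) := by
      rw [Matrix.submatrix_apply, Equiv.apply_symm_apply]
      rfl
    rw [e2, Units.val_mul, ← Matrix.submatrix_mul_equiv _ _ e e τ, pt, toGL_inv_sub]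
  rw [h2]
  have h3 : g.1.submatrix e τ = diagBl fun j => Gs (c j) r0 r1 T0 s := by
    rw [hg]
    ext ⟨j, a⟩ ⟨k, a'⟩
    rw [Matrix.submatrix_apply, Matrix.add_apply, Matrix.smul_apply, Matrix.submatrix_apply,
      coe_permMat, Equiv.symm_apply_apply, Equiv.symm_apply_apply]
    change _ = bl (diagBl _) j k a a'
    rw [bl_diagBl]
    have e1 : M1 c r0 r1 T0 (j, a) (k, a') = bl (diagBl fun j =>
      Matrix.fromBlocks 0 (B1 (c j) r0 r1 T0) 0 (K1 (c j) r0 r1 T0)) j k a a' := rfl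
    rw [e1, bl_diagBl]
    simp only [wperm, Equiv.trans_apply, Equiv.symm_apply_apply, eS_apply, e.injective.eq_iff,
      Prod.mk.injEq]
    by_cases hjk : j = k
    · subst hjk
      simp [Gs]
    · simp [hjk]
  rw [h3]
  revert hpq
  generalize τ.symm p = x
  generalize τ.symm q = y
  obtain ⟨j, a⟩ := x
  obtain ⟨k, a'⟩ := y
  intro hpq
  change bl (GTi c T * _) j k a a' = 0
  rw [GTi, bl_diagBl_mul, bl_diagBl]
  by_cases hjk : j = k
  · subst hjk
    rw [if_pos rfl]
    rcases a with r | i <;> rcases a' with r' | i'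
    · simp only [tb_inl, lt_self_iff_false] at hpq
    · have h4 := limit_rel (hc j) hr (hinf j) T0 hT0 s hs
      rw [← hTdef] at h4
      have h5 := congrFun (congrFun h4 r) i'
      rw [Matrix.mul_apply, Fintype.sum_sum_type]
      rw [Matrix.add_apply, Matrix.smul_apply, Matrix.mul_apply] at h5
      have h6 : ∑ x : S, nuBi (c j) T (Sum.inl r) (Sum.inl x) *
          Gs (c j) r0 r1 T0 s (Sum.inl x) (Sum.inr i')
          = B0 r0 r1 r i' + s • B1 (c j) r0 r1 T0 r i' := by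
        rw [Finset.sum_eq_single r]
        · rw [Gs_inl, nuBi, Matrix.fromBlocks_apply₁₁, Matrix.one_apply_eq, one_mul]
        · intro x _ hx
          simp [nuBi, Matrix.one_apply, Ne.symm hx]
        · intro hx
          exact absurd (Finset.mem_univ r) hx
      have h7 : ∀ x : Fin 2, nuBi (c j) T (Sum.inl r) (Sum.inr x) *
          Gs (c j) r0 r1 T0 s (Sum.inr x) (Sum.inr i')
          = - ((c j).nu T r x * (s • K1 (c j) r0 r1 T0) x i') := by
        intro x
        rw [Gs_inr, nuBi, Matrix.fromBlocks_apply₁₂, Matrix.neg_apply, neg_mul]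
      rw [h6, Finset.sum_congr rfl (fun x _ => h7 x), Finset.sum_neg_distrib, h5]
      ring
    · simp only [tb_inl, tb_inr] at hpq; omega
    · simp only [tb_inr, lt_self_iff_false] at hpq
  · rw [if_neg hjk, mul_zero]
    rfl

end Pool.Agent.Run7.h768
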