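import Pool.Agent.Run7.h768.Defs
import Pool.Agent.H379R3.Reg

/-! Local algebra: two criteria for (non)singularity in charts. -/

noncomputable section

namespace Pool.Agent.Run7.h768

open MvPolynomial

variable {n : ℕ}

theorem lowUni_zero : (lowUni (0 : LowIdx n → ℂ)) = 1 := by
  ext i j
  simp only [coe_lowUni, lowMat, Matrix.of_apply, Pi.zero_apply, Units.val_one, Matrix.one_apply]
  split_ifs with h1 h2 h2
  · exact absurd h2 (ne_of_gt h1)
  all_goals rfl

theorem zero_mem_chartSet {Y : Set (Flag n)} {g : GL (Fin n) ℂ} (h : (g : Flag n) ∈ Y) :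
    (0 : LowIdx n → ℂ) ∈ chartSet Y g := by
  simp only [chartSet, Set.mem_ofPred_eq, lowUni_zero, mul_one]
  exact h

theorem chartIdeal_le {Y : Set (Flag n)} {g : GL (Fin n) ℂ} (h : (g : Flag n) ∈ Y) :
    chartIdeal Y g ≤ vanishingIdeal ℂ {(0 : LowIdx n → ℂ)} := by
  apply vanishingIdeal_anti_mono
  intro x hx
  rw [Set.mem_singleton_iff] at hx
  rw [hx]
  exact zero_mem_chartSet h

theorem eval_aeval_poly {σ : Type*} (γ : σ → Polynomial ℂ) (F : MvPolynomial σ ℂ) (s : ℂ) :
    (aeval γ F).eval s = eval (fun k => (γ k).eval s) F := by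
  have h : ((Polynomial.evalRingHom s).comp (aeval γ : MvPolynomial σ ℂ →ₐ[ℂ] Polynomial ℂ).toRingHom)
      = (eval (fun k => (γ k).eval s) : MvPolynomial σ ℂ →+* ℂ) := by
    apply MvPolynomial.ringHom_ext
    · intro r
      simp
    · intro i
      simp
  have := congrArg (fun f => f F) h
  simpa using this

theorem singular_of_zero_divisors {Y : Set (Flag n)} {g : GL (Fin n) ℂ} (hg : (g : Flag n) ∈ Y)
    (F : Bool → MvPolynomial (LowIdx n) ℂ) (hF : F true * F false ∈ chartIdeal Y g)
    (γ : Bool → LowIdx n → Polynomial ℂ) (hγ0 : ∀ b k, (γ b k).eval 0 = 0)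
    (hγ : ∀ b s, (fun k => (γ b k).eval s) ∈ chartSet Y g)
    (hne : ∀ b, aeval (γ b) (F b) ≠ 0) : IsSingularAt Y g := by
  refine ⟨hg, ?_⟩
  set I := chartIdeal Y g with hI
  have hle : I ≤ vanishingIdeal ℂ {(0 : LowIdx n → ℂ)} := chartIdeal_le hg
  set m : Ideal (MvPolynomial (LowIdx n) ℂ) := vanishingIdeal ℂ {(0 : LowIdx n → ℂ)} with hm
  have hmprime : m.IsPrime := inferInstance
  set P := m.map (Ideal.Quotient.mk I) with hP
  have hker : RingHom.ker (Ideal.Quotient.mk I) ≤ m := by rw [Ideal.mk_ker]; exact hle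
  have hPprime : P.IsPrime :=
    Ideal.map_isPrime_of_surjective Ideal.Quotient.mk_surjective hker
  have hcomap : P.comap (Ideal.Quotient.mk I) = m := by
    rw [hP, Ideal.comap_map_of_surjective _ Ideal.Quotient.mk_surjective]
    rw [← RingHom.ker_eq_comap_bot]
    exact sup_eq_left.2 hker
  refine ⟨P, hPprime, hcomap, ?_⟩
  intro hreg
  have hdom : IsDomain (Localization.AtPrime P) :=
    Pool.Agent.H379R3.isDomain (Localization.AtPrime P)
  have hmul : algebraMap (MvPolynomial (LowIdx n) ℂ ⧸ I) (Localization.AtPrime P)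
      (Ideal.Quotient.mk I (F true)) * algebraMap _ (Localization.AtPrime P)
      (Ideal.Quotient.mk I (F false)) = 0 := by
    rw [← map_mul, ← map_mul, Ideal.Quotient.eq_zero_iff_mem.2 hF, map_zero]
  have key : ∀ b, algebraMap (MvPolynomial (LowIdx n) ℂ ⧸ I) (Localization.AtPrime P)
      (Ideal.Quotient.mk I (F b)) ≠ 0 := by
    intro b hb
    rw [IsLocalization.map_eq_zero_iff P.primeCompl (Localization.AtPrime P)] at hb
    obtain ⟨⟨t, ht⟩, htF⟩ := hb
    obtain ⟨t, rfl⟩ := Ideal.Quotient.mk_surjective t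
    simp only at htF
    rw [← map_mul, Ideal.Quotient.eq_zero_iff_mem] at htF
    have h0 : aeval (γ b) (t * F b) = 0 := by
      apply Polynomial.funext
      intro s
      rw [eval_aeval_poly, Polynomial.eval_zero]
      have := htF _ (hγ b s)
      simpa using this
    rw [map_mul] at h0
    have h1 : aeval (γ b) t = 0 := (mul_eq_zero.1 h0).resolve_right (hne b)
    apply ht
    have h2 : eval (fun k => (γ b k).eval 0) t = 0 := by
      rw [← eval_aeval_poly, h1, Polynomial.eval_zero]
    have h3 : (fun k => (γ b k).eval 0) = (0 : LowIdx n → ℂ) := funext fun k => hγ0 b k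
    rw [h3] at h2
    have h4 : t ∈ m := by
      rw [hm, mem_vanishingIdeal_singleton_iff]
      simpa using h2
    rw [← hcomap] at h4
    exact h4
  rcases mul_eq_zero.1 hmul with h | h
  · exact key true h
  · exact key false h

/-- The coordinate ring of a coordinate subspace. -/
theorem regular_coord {σ : Type} [Finite σ] (Bad : σ → Prop) :
    IsRegularRing (MvPolynomial σ ℂ ⧸ vanishingIdeal ℂ {y : σ → ℂ | ∀ k, Bad k → y k = 0}) := by
  classical
  let φ : MvPolynomial σ ℂ →ₐ[ℂ] MvPolynomial {k : σ // ¬ Bad k} ℂ :=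
    aeval fun k => if h : Bad k then 0 else X ⟨k, h⟩
  have hsurj : Function.Surjective φ := by
    intro p
    refine ⟨rename Subtype.val p, ?_⟩
    have : (φ.comp (rename Subtype.val)) = AlgHom.id ℂ (MvPolynomial {k : σ // ¬ Bad k} ℂ) := by
      apply MvPolynomial.algHom_ext
      intro k
      simp [φ, k.2]
    exact congrArg (fun f => f p) this
  have hker : RingHom.ker φ.toRingHom = vanishingIdeal ℂ {y : σ → ℂ | ∀ k, Bad k → y k = 0} := by
    ext f
    rw [RingHom.mem_ker, mem_vanishingIdeal_iff]
    have hext : ∀ z : {k : σ // ¬ Bad k} → ℂ,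
        eval z (φ f) = eval (fun k => if h : Bad k then 0 else z ⟨k, h⟩) f := by
      intro z
      have : ((eval z).comp φ.toRingHom) =
          (eval (fun k => if h : Bad k then 0 else z ⟨k, h⟩) : MvPolynomial σ ℂ →+* ℂ) := by
        apply MvPolynomial.ringHom_ext
        · intro r
          simp
        · intro i
          by_cases h : Bad i <;> simp [φ, h]
      exact congrArg (fun g => g f) this
    constructor
    · intro h y hy
      have h1 := hext (fun k => y k.1)
      have h2 : φ f = 0 := h
      rw [h2, map_zero] at h1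
      have h3 : (fun k => if h : Bad k then 0 else y k) = y := by
        funext k
        by_cases h : Bad k
        · simp [h, hy k h]
        · simp [h]
      rw [aeval_eq_eval]
      simp only [h3] at h1
      exact h1.symm
    · intro h
      change φ f = 0
      apply MvPolynomial.funext
      intro z
      rw [hext z, map_zero]
      have := h (fun k => if h : Bad k then 0 else z ⟨k, h⟩) (by
        intro k hk
        simp [hk])
      rw [aeval_eq_eval] at this
      exact this
  have e := (Ideal.quotEquivOfEq hker).symm.trans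
    (RingHom.quotientKerEquivOfSurjective (f := φ.toRingHom) hsurj)
  have hreg : IsRegularRing (MvPolynomial {k : σ // ¬ Bad k} ℂ) := inferInstance
  exact IsRegularRing.of_ringEquiv e.symm

theorem not_singular_of_coord {Y : Set (Flag n)}
    (h : ∀ g : GL (Fin n) ℂ, (g : Flag n) ∈ Y →
      ∃ Bad : LowIdx n → Prop, chartSet Y g = {y | ∀ k, Bad k → y k = 0}) : ¬ IsSingular Y := by
  rintro ⟨g, hg, P, hP, _, hnr⟩
  apply hnr
  obtain ⟨Bad, hBad⟩ := h g hg
  have hreg : IsRegularRing (MvPolynomial (LowIdx n) ℂ ⧸ chartIdeal Y g) := by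
    unfold chartIdeal
    rw [hBad]
    exact regular_coord Bad
  exact hreg.isRegularLocalRing_localization P

end Pool.Agent.Run7.h768
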