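import Pool.Agent.Run7.h768.Synthesis

/-! Base change of configurations. -/

set_option linter.unusedSectionVars false
set_option linter.unusedVariables false
set_option linter.unusedSimpArgs false

noncomputable section

namespace Pool.Agent.Run7.h768

open Matrix

variable {S : Type} [Fintype S] [DecidableEq S] {h : ℕ} {R R' : Type} [CommRing R] [CommRing R']
  (f : R →+* R')

def Cond.map (c : Cond S R) : Cond S R' where
  s := c.s
  φ := fun r => f (c.φ r)
  α := fun r => f (c.α r)
  Q := c.Q.map f
  Qi := c.Qi.map f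

theorem Cond.Good.map {c : Cond S R} (hc : c.Good) : (c.map f).Good where
  hφ := by simp [Cond.map, hc.hφ]
  hα := by simp [Cond.map, hc.hα]
  hQ := by
    simp only [Cond.map]
    rw [← Matrix.map_mul, hc.hQ]
    exact Matrix.map_one f (map_zero f) (map_one f)
  hQ' := by
    simp only [Cond.map]
    rw [← Matrix.map_mul, hc.hQ']
    exact Matrix.map_one f (map_zero f) (map_one f)

theorem E_map (c : Cond S R) : (c.map f).E = c.E.map f := by
  ext i j
  simp only [Cond.E, Cond.map, Matrix.of_apply, Matrix.map_apply]
  by_cases h1 : i = c.s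
  · by_cases h2 : j = c.s <;> simp [h1, h2]
  · simp [h1]

theorem D_map (c : Cond S R) : (c.map f).D = c.D.map f := by
  ext i j
  simp only [Cond.D, Cond.map, Matrix.of_apply, Matrix.map_apply]
  by_cases h1 : i = 1 <;> simp [h1]

theorem gam_map (c : Cond S R) : (c.map f).gam = c.gam.map f := by
  rw [Cond.gam, Cond.gam, Matrix.fromBlocks_map, E_map, D_map]
  congr 1
  · ext i j
    by_cases h1 : i = j <;> simp [Matrix.one_apply, h1]
  · ext i j
    simp
  · have : (c.map f).Q = c.Q.map f := rfl
    rw [this, ← Matrix.map_mul]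
    ext i j
    simp only [Matrix.map_apply, Matrix.neg_apply, map_neg]

theorem gamInv_map (c : Cond S R) : (c.map f).gamInv = c.gamInv.map f := by
  rw [Cond.gamInv, Cond.gamInv, Matrix.fromBlocks_map, E_map, D_map]
  congr 1
  · ext i j
    by_cases h1 : i = j <;> simp [Matrix.one_apply, h1]
  · ext i j
    simp

theorem stack_map (T : Matrix S (Fin 2) R) : stack (T.map f) = (stack T).map f := by
  ext a i
  rcases a with r | i'
  · rfl
  · by_cases h1 : i' = i <;> simp [stack, h1]

theorem app_map (φ : S → R) (T : Matrix S (Fin 2) R) (i : Fin 2) :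
    app (fun r => f (φ r)) (T.map f) i = f (app φ T i) := by
  simp [app]

theorem C2_map (c : Cond S R) (T : Matrix S (Fin 2) R) :
    (c.map f).C2 (T.map f) = (c.C2 T).map f := by
  have hα : (c.map f).α = fun r => f (c.α r) := rfl
  ext k i
  simp only [Cond.C2, Matrix.of_apply, Matrix.map_apply, dot, hα, app_map, Cond.col]
  by_cases h1 : i = 0
  · simp only [h1, if_true, Cond.map, Matrix.map_apply, map_sub, map_mul, map_add]
  · simp only [h1, if_false, Cond.map, Matrix.map_apply]

theorem ech_map (c : Cond S R) (T : Matrix S (Fin 2) R) :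
    (c.map f).ech (T.map f) = (c.ech T).map f := by
  rw [Cond.ech, Cond.ech, Matrix.map_mul, Matrix.map_mul, gamInv_map, stack_map, C2_map]

theorem nu_map (c : Cond S R) (T : Matrix S (Fin 2) R) :
    (c.map f).nu (T.map f) = (c.nu T).map f := by
  ext r i
  simp only [Cond.nu, ech_map, Matrix.of_apply, Matrix.map_apply]

theorem XX_map (c : Fin h → Cond S R) : XX (fun j => (c j).map f) = (XX c).map f := by
  apply ext_bl
  intro j k
  rw [bl_XX]
  ext a b
  change _ = f (bl (XX c) j k a b)
  rw [bl_XX]
  by_cases hjk : (k : ℕ) = (j : ℕ) + 1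
  · rw [if_pos hjk, if_pos hjk, gamInv_map, gam_map, ← Matrix.map_mul]
    rfl
  · rw [if_neg hjk, if_neg hjk]
    simp

end Pool.Agent.Run7.h768
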