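import Pool.Agent.Run7.h768.Murphy

/-! Systems of polynomials without constant term. -/

set_option linter.unusedSectionVars false
set_option linter.unusedVariables false
set_option linter.unusedSimpArgs false

noncomputable section

namespace Pool.Agent.Run7.h768

open Matrix

section

variable {q d c : ℕ}

/-- the exponent of the variable `i` -/
def ee (hd : 0 < d) (i : Fin q) : Mon q d := Function.update 0 i ⟨1, by omega⟩

theorem ee_same (hd : 0 < d) (i : Fin q) : ((ee hd i) i : ℕ) = 1 := by
  simp [ee]

theorem ee_ne (hd : 0 < d) (i k : Fin q) (h : k ≠ i) : ((ee hd i) k : ℕ) = 0 := by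
  simp [ee, Function.update_of_ne h]

theorem ee_ne_zero (hd : 0 < d) (i : Fin q) : ee hd i ≠ 0 := by
  intro h
  have h1 := ee_same hd i
  rw [h] at h1
  simp at h1

def netM (hd : 0 < d) (q c : ℕ) : Net (Mon q d) (Fin q × Mon q d) (Fin c) where
  g1 := fun g => if g.2 ≠ 0 ∧ (g.2 g.1 : ℕ) < d then ee hd g.1 else 0
  g2 := fun g => if g.2 ≠ 0 ∧ (g.2 g.1 : ℕ) < d then g.2 else 0
  go := fun g => if h : g.2 ≠ 0 ∧ (g.2 g.1 : ℕ) < d then
    Function.update g.2 g.1 ⟨(g.2 g.1 : ℕ) + 1, by omega⟩ else 0
  o := 0

/-- values of the monomials of positive degree -/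
def zmon {R : Type} [CommRing R] (x : Fin q → R) (α : Mon q d) : R :=
  if α = 0 then 0 else ∏ k, x k ^ (α k : ℕ)

theorem zmon_ee {R : Type} [CommRing R] (hd : 0 < d) (x : Fin q → R) (i : Fin q) :
    zmon x (ee hd i) = x i := by
  rw [zmon, if_neg (ee_ne_zero hd i), Finset.prod_eq_single i]
  · rw [ee_same, pow_one]
  · intro k _ hk
    rw [ee_ne hd i k hk, pow_zero]
  · intro h
    exact absurd (Finset.mem_univ _) h

theorem update_ne_zero (α : Mon q d) (i : Fin q) (h : (α i : ℕ) < d) :
    (Function.update α i ⟨(α i : ℕ) + 1, by omega⟩ : Mon q d) ≠ 0 := by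
  intro h0
  have := congrFun h0 i
  rw [Function.update_self] at this
  have := congrArg Fin.val this
  simp at this

theorem zmon_sys {R : Type} [CommRing R] (hd : 0 < d) (a : Fin c → Mon q d → R) (x : Fin q → R)
    (hx : ∀ l, ∑ α, a l α * zmon x α = 0) : (netM hd q c).Sys a (zmon x) where
  gate := by
    rintro ⟨i, α⟩
    simp only [netM]
    by_cases h : α ≠ 0 ∧ (α i : ℕ) < d
    · rw [if_pos h, if_pos h, dif_pos h, zmon_ee, zmon, if_neg h.1, zmon,
        if_neg (update_ne_zero α i h.2)]
      exact prod_update x α i h.2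
    · rw [if_neg h, if_neg h, dif_neg h]
      simp [zmon]
  zero := by simp [netM, zmon]
  lin := hx

theorem sysM_cases (hd : 0 < d) {a : Fin c → Mon q d → ℂ} {z : Mon q d → ℂ}
    (hz : (netM hd q c).Sys a z) : z = zmon fun i => z (ee hd i) := by
  have ho : z 0 = 0 := hz.zero
  have hmul : ∀ (i : Fin q) (α : Mon q d) (h0 : α ≠ 0) (h : (α i : ℕ) < d), z (ee hd i) * z α =
      z (Function.update α i ⟨(α i : ℕ) + 1, by omega⟩) := by
    intro i α h0 h
    have := hz.gate (i, α)
    simp only [netM] at this
    rw [if_pos ⟨h0, h⟩, if_pos ⟨h0, h⟩, dif_pos ⟨h0, h⟩] at this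
    exact this
  have hmon : ∀ (N : ℕ) (α : Mon q d), ∑ k, (α k : ℕ) = N → α ≠ 0 →
      z α = ∏ k, z (ee hd k) ^ (α k : ℕ) := by
    intro N
    induction N with
    | zero =>
      intro α hα h0
      exfalso
      apply h0
      funext k
      have h2 := (Finset.sum_eq_zero_iff.1 hα) k (Finset.mem_univ k)
      exact Fin.ext h2
    | succ N ih =>
      intro α hα h0
      obtain ⟨i, hi⟩ : ∃ i, (α i : ℕ) ≠ 0 := by
        by_contra hcon
        push Not at hcon
        rw [Finset.sum_eq_zero (fun k _ => hcon k)] at hα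
        omega
      have hlt := (α i).2
      let α' : Mon q d := Function.update α i ⟨(α i : ℕ) - 1, by omega⟩
      have hα'i : (α' i : ℕ) = (α i : ℕ) - 1 := by simp [α']
      have h' : (α' i : ℕ) < d := by omega
      have hback : (Function.update α' i ⟨(α' i : ℕ) + 1, by omega⟩ : Mon q d) = α := by
        funext k
        by_cases hk : k = i
        · subst hk
          rw [Function.update_self]
          apply Fin.ext
          simp only [hα'i]
          omega
        · rw [Function.update_of_ne hk]
          simp only [α']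
          rw [Function.update_of_ne hk]
      have hsum : ∑ k, (α' k : ℕ) = N := by
        have h1 : ∑ k, (α k : ℕ) = (α i : ℕ) + ∑ k ∈ Finset.univ.erase i, (α k : ℕ) :=
          (Finset.add_sum_erase _ _ (Finset.mem_univ i)).symm
        have h2 : ∑ k, (α' k : ℕ) = (α' i : ℕ) + ∑ k ∈ Finset.univ.erase i, (α' k : ℕ) :=
          (Finset.add_sum_erase _ _ (Finset.mem_univ i)).symm
        have h3 : ∑ k ∈ Finset.univ.erase i, (α' k : ℕ) = ∑ k ∈ Finset.univ.erase i, (α k : ℕ) := by
          apply Finset.sum_congr rfl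
          intro k hk
          simp only [α']
          rw [Function.update_of_ne (Finset.ne_of_mem_erase hk)]
        rw [h2, h3, hα'i]
        omega
      have h2 := prod_update (fun k => z (ee hd k)) α' i h'
      by_cases hz0 : α' = 0
      · have h3 : α = ee hd i := by
          rw [← hback, ee]
          have h4 : (⟨(α' i : ℕ) + 1, by omega⟩ : Fin (d + 1)) = ⟨1, by omega⟩ := by
            apply Fin.ext
            have h5 : (α' i : ℕ) = 0 := by rw [hz0]; rfl
            change (α' i : ℕ) + 1 = 1
            rw [h5]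
          rw [h4, hz0]
        rw [h3, Finset.prod_eq_single i]
        · rw [ee_same, pow_one]
        · intro k _ hk
          rw [ee_ne hd i k hk, pow_zero]
        · intro h
          exact absurd (Finset.mem_univ _) h
      · have h1 := hmul i α' hz0 h'
        simp only [hback] at h1 h2
        rw [← h1, ih α' hsum hz0, ← h2]
  funext α
  rw [zmon]
  by_cases h0 : α = 0
  · rw [if_pos h0, h0, ho]
  · rw [if_neg h0]
    exact hmon _ α rfl h0

theorem sum_zmon {R : Type} [CommRing R] (a : Mon q d → R) (ha : a 0 = 0) (x : Fin q → R) :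
    ∑ α, a α * zmon x α = ∑ α, a α * ∏ k, x k ^ (α k : ℕ) := by
  apply Finset.sum_congr rfl
  intro α _
  by_cases h0 : α = 0
  · rw [h0, ha, zero_mul, zero_mul]
  · rw [zmon, if_neg h0]

/-- **Murphy's law.** -/
theorem murphy (q d c : ℕ) (hd : 0 < d) :
    ∃ (n N : ℕ) (w : Equiv.Perm (Fin n))
      (X : Matrix (Fin n) (Fin n) (MvPolynomial (Fin c × (Fin q → Fin (d + 1))) ℤ)),
      (∀ a a' : Fin c × (Fin q → Fin (d + 1)) → ℂ, ∃ g : GL (Fin n) ℂ,
        special X a' = g.1 * special X a * (g⁻¹ : GL (Fin n) ℂ).1) ∧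
      ∀ a : Fin c × (Fin q → Fin (d + 1)) → ℂ, (∀ l, a (l, 0) = 0) →
        (∀ i j, j ≤ i → special X a i j = 0) ∧
        ((permMat w : GL (Fin n) ℂ) : Flag n) ∈ SpringerFiber (special X a) ∧
        (∀ y, ((permMat w * lowUni y : GL (Fin n) ℂ) : Flag n) ∈
            zariskiClosure (SchubertCell w ∩ SpringerFiber (special X a)) ↔
          ((permMat w * lowUni y : GL (Fin n) ℂ) : Flag n) ∈
            SchubertCell w ∩ SpringerFiber (special X a)) ∧
        ∃ E : (MvPolynomial (LowIdx n) ℂ ⧸ chartIdeal
            (zariskiClosure (SchubertCell w ∩ SpringerFiber (special X a))) (permMat w)) ≃ₐ[ℂ]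
            MvPolynomial (Fin N) (MvPolynomial (Fin q) ℂ ⧸ MvPolynomial.vanishingIdeal ℂ
              {x : Fin q → ℂ | ∀ l : Fin c, polyVal (fun α => a (l, α)) x = 0}),
          (Ideal.span (Set.range fun k => Ideal.Quotient.mk _ (MvPolynomial.X k))).map E =
            Ideal.span (Set.range (fun i => MvPolynomial.C (Ideal.Quotient.mk _
              (MvPolynomial.X i))) ∪ Set.range MvPolynomial.X) := by
  classical
  obtain ⟨w, e, NN, hmain⟩ := net_chart (netM hd q c)
  let Au : Fin c → Mon q d → MvPolynomial (Fin c × Mon q d) ℤ := fun l α => MvPolynomial.X (l, α)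
  have hsp : ∀ a : Fin c × Mon q d → ℂ, special (Xf (cfam (netM hd q c) Au) e) a =
      Xf (cfam (netM hd q c) (fun l v => a (l, v))) e := by
    intro a
    have h1 := XX_map (MvPolynomial.aeval a : MvPolynomial (Fin c × Mon q d) ℤ →ₐ[ℤ] ℂ).toRingHom
      (cfam (netM hd q c) Au)
    rw [cfam_map] at h1
    have h2 : (fun l v => (MvPolynomial.aeval a : MvPolynomial (Fin c × Mon q d) ℤ →ₐ[ℤ] ℂ).toRingHom
        (Au l v)) = fun l v => a (l, v) := by
      funext l v
      simp [Au]
    rw [h2] at h1
    exact (congrArg (fun M => Matrix.submatrix M e.symm e.symm) h1).symm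
  refine ⟨_, NN, w, Xf (cfam (netM hd q c) Au) e, ?_, ?_⟩
  · intro a a'
    rw [hsp, hsp]
    exact XX_conj e _ _ (fun j => cond_good _ _ _) (fun j => cond_good _ _ _)
  · intro a ha
    rw [hsp]
    obtain ⟨h1, h2, h3, h4⟩ := hmain fun l v => a (l, v)
    refine ⟨h1, h2, h3, ?_⟩
    have hpv : ∀ (l : Fin c) (x : Fin q → ℂ), polyVal (fun α => a (l, α)) x =
        ∑ α, a (l, α) * zmon x α := by
      intro l x
      rw [sum_zmon (fun α => a (l, α)) (ha l)]
      rfl
    obtain ⟨E, hE⟩ := h4 (Fin q) {x : Fin q → ℂ | ∀ l : Fin c, polyVal (fun α => a (l, α)) x = 0}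
      (zmon fun i => MvPolynomial.X i) (ee hd) (by
        intro x hx
        have h5 : (fun v => MvPolynomial.eval x (zmon (fun i => MvPolynomial.X i) v)) =
            zmon (d := d) x := by
          funext α
          by_cases h0 : α = 0
          · simp [zmon, h0]
          · simp [zmon, h0]
        rw [h5]
        apply zmon_sys
        intro l
        rw [← hpv]
        exact hx l) (by
        intro z' hz'
        have h6 := sysM_cases hd hz'
        refine ⟨fun i => z' (ee hd i), ?_, ?_⟩
        · intro l
          rw [hpv, ← h6]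
          exact hz'.lin l
        · have h5 : (fun v => MvPolynomial.eval (fun i => z' (ee hd i))
              (zmon (fun i => MvPolynomial.X i) v)) = zmon (d := d) (fun i => z' (ee hd i)) := by
            funext α
            by_cases h0 : α = 0
            · simp [zmon, h0]
            · simp [zmon, h0]
          rw [h5]
          exact h6) (fun i => zmon_ee hd _ i)
    refine ⟨E, hE ?_ ?_⟩
    · intro l
      rw [hpv]
      apply Finset.sum_eq_zero
      intro α _
      by_cases h0 : α = 0
      · simp [zmon, h0]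
      · rw [zmon, if_neg h0]
        obtain ⟨i, hi⟩ : ∃ i, α i ≠ 0 := by
          by_contra hcon
          push Not at hcon
          exact h0 (funext hcon)
        rw [Finset.prod_eq_zero (Finset.mem_univ i), mul_zero]
        rw [Pi.zero_apply, zero_pow]
        intro h7
        exact hi (Fin.ext h7)
    · intro α
      by_cases h0 : α = 0
      · simp [zmon, h0]
      · rw [zmon, if_neg h0]
        obtain ⟨i, hi⟩ : ∃ i, α i ≠ 0 := by
          by_contra hcon
          push Not at hcon
          exact h0 (funext hcon)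
        rw [map_prod, Finset.prod_eq_zero (Finset.mem_univ i)]
        rw [map_pow, MvPolynomial.eval_X, Pi.zero_apply, zero_pow]
        intro h7
        exact hi (Fin.ext h7)

end

end Pool.Agent.Run7.h768
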