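import Pool.Agent.Run7.h768.Closure

/-! Closures which are cosets of a parabolic subgroup are nonsingular. -/

noncomputable section

namespace Pool.Agent.Run7.h768

open MvPolynomial

variable {n : ℕ}

/-- density of `L U` with `L` in the parabolic -/
theorem vanish_of_vanish_LU (β : Fin n → ℕ) (hβ : Monotone β) (g₀ : GL (Fin n) ℂ)
    (f : MvPolynomial (Fin n × Fin n) ℂ)
    (hf : ∀ L U : GL (Fin n) ℂ, (∀ i j, i < j → (L : Matrix (Fin n) (Fin n) ℂ) i j = 0) →
      (∀ i, (L : Matrix (Fin n) (Fin n) ℂ) i i = 1) →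
      (L : Matrix (Fin n) (Fin n) ℂ).BlockTriangular β → U ∈ Borel n →
      eval (entries (g₀ * L * U)) f = 0)
    (p : GL (Fin n) ℂ) (hp : (p : Matrix (Fin n) (Fin n) ℂ).BlockTriangular β) :
    eval (entries (g₀ * p)) f = 0 := by
  classical
  let A : Matrix (Fin n) (Fin n) (Polynomial ℂ) := Matrix.of fun i j =>
    Polynomial.C (if i = j then 1 else 0) +
      Polynomial.X * Polynomial.C ((p : Matrix (Fin n) (Fin n) ℂ) i j - if i = j then 1 else 0)
  have hA0 : ∀ i j, (A i j).eval 0 = if i = j then 1 else 0 := by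
    intro i j
    by_cases h : i = j <;> simp [A, h]
  have hA1 : ∀ i j, (A i j).eval 1 = (p : Matrix (Fin n) (Fin n) ℂ) i j := by
    intro i j
    simp [A]
  have hAβ : ∀ s i j, β j < β i → (A i j).eval s = 0 := by
    intro s i j hij
    have h1 : i ≠ j := by
      rintro rfl
      exact lt_irrefl _ hij
    simp [A, h1, hp hij]
  obtain ⟨Δ, hΔ, hLU⟩ := lu_generic n A hA0
  have hdet : A.det ≠ 0 := by
    intro h
    have h1 : (A.det).eval 0 = 1 := by
      rw [← Polynomial.coe_evalRingHom, RingHom.map_det]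
      have : (Polynomial.evalRingHom (0:ℂ)).mapMatrix A = 1 := by
        ext i j
        rw [RingHom.mapMatrix_apply, Matrix.map_apply, Polynomial.coe_evalRingHom, hA0,
          Matrix.one_apply]
      rw [this, Matrix.det_one]
    rw [h] at h1
    simp at h1
  -- the polynomial in `s`
  let F : Polynomial ℂ := aeval (fun ij : Fin n × Fin n =>
    ∑ k, Polynomial.C ((g₀ : Matrix (Fin n) (Fin n) ℂ) ij.1 k) * A k ij.2) f
  have hF : ∀ s, F.eval s = eval (fun ij => ∑ k, (g₀ : Matrix (Fin n) (Fin n) ℂ) ij.1 k *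
      (A k ij.2).eval s) f := by
    intro s
    rw [eval_aeval_poly]
    congr 2
    funext ij
    simp [Polynomial.eval_finsetSum]
  have hFz : F * (Δ * A.det) = 0 := by
    apply Polynomial.funext
    intro s
    rw [Polynomial.eval_zero, Polynomial.eval_mul, Polynomial.eval_mul]
    by_cases h1 : Δ.eval s = 0
    · simp [h1]
    by_cases h2 : A.det.eval s = 0
    · simp [h2]
    have : F.eval s = 0 := by
      obtain ⟨L, U, hL0, hL1, hU0, hAs⟩ := hLU s h1
      have hAm : A.map (Polynomial.eval s) = L * U := by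
        ext i j
        exact hAs i j
      have hdetLU : (L * U).det ≠ 0 := by
        rw [← hAm]
        have h3 : (A.det).eval s = (A.map (Polynomial.eval s)).det := by
          rw [← Polynomial.coe_evalRingHom, RingHom.map_det]
          rfl
        rw [← h3]
        exact h2
      have hLdet : L.det ≠ 0 := by
        rw [Matrix.det_mul] at hdetLU
        exact left_ne_zero_of_mul hdetLU
      have hUdet : U.det ≠ 0 := by
        rw [Matrix.det_mul] at hdetLU
        exact right_ne_zero_of_mul hdetLU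
      let L' : GL (Fin n) ℂ := Matrix.GeneralLinearGroup.mkOfDetNeZero L hLdet
      let U' : GL (Fin n) ℂ := Matrix.GeneralLinearGroup.mkOfDetNeZero U hUdet
      have hU'B : U' ∈ Borel n := fun i j hij => hU0 i j hij
      have hLβ : L.BlockTriangular β := by
        have e : L = A.map (Polynomial.eval s) * ((U'⁻¹ : GL (Fin n) ℂ) : Matrix (Fin n) (Fin n) ℂ) := by
          rw [hAm]
          have : (L * U) * ((U'⁻¹ : GL (Fin n) ℂ) : Matrix (Fin n) (Fin n) ℂ)
            = ((L' * U' * U'⁻¹ : GL (Fin n) ℂ) : Matrix (Fin n) (Fin n) ℂ) := rfl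
          rw [this, mul_inv_cancel_right]
          rfl
        rw [e]
        apply Matrix.BlockTriangular.mul
        · intro i j hij
          exact hAβ s i j hij
        · intro i j hij
          have h3 : j < i := by
            by_contra hc
            exact absurd (hβ (not_lt.1 hc)) (not_le.2 hij)
          exact UpperTri.inv hU'B i j h3
      have := hf L' U' hL0 hL1 hLβ hU'B
      rw [hF]
      rw [← this]
      congr 2
      funext ij
      have h4 : (fun i j => ∑ k, (g₀ : Matrix (Fin n) (Fin n) ℂ) i k * (A k j).eval s) =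
        (g₀ : Matrix (Fin n) (Fin n) ℂ) * (L * U) := by
        funext i j
        rw [← hAm, Matrix.mul_apply]
        rfl
      have h5 : (fun i j => ∑ k, (g₀ : Matrix (Fin n) (Fin n) ℂ) i k * (A k j).eval s) ij.1 ij.2 =
        ((g₀ : Matrix (Fin n) (Fin n) ℂ) * (L * U)) ij.1 ij.2 := by rw [h4]
      refine Eq.trans h5 ?_
      rw [← Matrix.mul_assoc]
      rfl
    rw [this, zero_mul]
  have hF0 : F = 0 := (mul_eq_zero.1 hFz).resolve_right (mul_ne_zero hΔ hdet)
  have := hF 1
  rw [hF0, Polynomial.eval_zero] at this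
  rw [this]
  congr 2
  funext ij
  simp only [hA1]
  rfl

/-- the closure is a coset of a parabolic -/
theorem closure_eq_parabolic (β : Fin n → ℕ) (hβ : Monotone β) (g₀ : GL (Fin n) ℂ)
    (Y : Set (Flag n))
    (h1 : ∀ g : GL (Fin n) ℂ, (g : Flag n) ∈ Y →
      ((g₀⁻¹ * g : GL (Fin n) ℂ) : Matrix (Fin n) (Fin n) ℂ).BlockTriangular β)
    (h2 : ∀ L : GL (Fin n) ℂ, (∀ i j, i < j → (L : Matrix (Fin n) (Fin n) ℂ) i j = 0) →
      (∀ i, (L : Matrix (Fin n) (Fin n) ℂ) i i = 1) →
      (L : Matrix (Fin n) (Fin n) ℂ).BlockTriangular β → ((g₀ * L : GL (Fin n) ℂ) : Flag n) ∈ Y)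
    (g : GL (Fin n) ℂ) :
    (g : Flag n) ∈ zariskiClosure Y ↔
      ((g₀⁻¹ * g : GL (Fin n) ℂ) : Matrix (Fin n) (Fin n) ℂ).BlockTriangular β := by
  rw [mem_zariskiClosure_iff]
  constructor
  · intro h i j hij
    let f : MvPolynomial (Fin n × Fin n) ℂ :=
      transl ((g₀⁻¹ : GL (Fin n) ℂ) : Matrix (Fin n) (Fin n) ℂ) 1 (X (i, j))
    have hf : ∀ h : GL (Fin n) ℂ, eval (entries h) f =
        ((g₀⁻¹ * h : GL (Fin n) ℂ) : Matrix (Fin n) (Fin n) ℂ) i j := by
      intro h
      have := eval_transl ((g₀⁻¹ : GL (Fin n) ℂ) : Matrix (Fin n) (Fin n) ℂ) 1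
        (h : Matrix (Fin n) (Fin n) ℂ) (X (i, j))
      rw [mul_one, eval_X] at this
      exact this
    have h3 := h f (by
      intro h' hh'
      rw [hf]
      exact h1 h' hh' hij)
    rw [hf] at h3
    exact h3
  · intro hg f hf
    have := vanish_of_vanish_LU β hβ g₀ f (by
      intro L U hL0 hL1 hLβ hU
      apply hf
      rw [coe_mul_borel _ _ hU]
      exact h2 L hL0 hL1 hLβ) (g₀⁻¹ * g) hg
    rw [← mul_assoc, mul_inv_cancel, one_mul] at this
    exact this

theorem inv_blockTriangular {β : Fin n → ℕ} {g : GL (Fin n) ℂ}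
    (h : (g : Matrix (Fin n) (Fin n) ℂ).BlockTriangular β) :
    ((g⁻¹ : GL (Fin n) ℂ) : Matrix (Fin n) (Fin n) ℂ).BlockTriangular β := by
  have : Invertible (g : Matrix (Fin n) (Fin n) ℂ) := (Units.isUnit g).invertible
  rw [Matrix.coe_units_inv]
  exact Matrix.blockTriangular_inv_of_blockTriangular h

theorem not_singular_parabolic (β : Fin n → ℕ) (hβ : Monotone β) (g₀ : GL (Fin n) ℂ)
    (Y : Set (Flag n))
    (h : ∀ g : GL (Fin n) ℂ, (g : Flag n) ∈ Y ↔
      ((g₀⁻¹ * g : GL (Fin n) ℂ) : Matrix (Fin n) (Fin n) ℂ).BlockTriangular β) :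
    ¬ IsSingular Y := by
  apply not_singular_of_coord
  intro g hg
  rw [h] at hg
  refine ⟨fun k => β k.1.2 < β k.1.1, ?_⟩
  ext y
  simp only [chartSet, Set.mem_ofPred_eq]
  rw [h]
  constructor
  · intro h1 k hk
    have h2 : ((lowUni y : GL (Fin n) ℂ) : Matrix (Fin n) (Fin n) ℂ).BlockTriangular β := by
      have e : (lowUni y : GL (Fin n) ℂ) = (g₀⁻¹ * g)⁻¹ * (g₀⁻¹ * (g * lowUni y)) := by group
      rw [e, Units.val_mul]
      exact (inv_blockTriangular hg).mul h1
    have h3 := h2 hk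
    simp only [coe_lowUni, lowMat, Matrix.of_apply] at h3
    rw [dif_pos k.2] at h3
    exact h3
  · intro h1
    rw [← mul_assoc, Units.val_mul]
    apply hg.mul
    intro i j hij
    simp only [coe_lowUni, lowMat, Matrix.of_apply]
    have h3 : j < i := by
      by_contra hc
      exact absurd (hβ (not_lt.1 hc)) (not_le.2 hij)
    rw [dif_pos h3]
    exact h1 ⟨(i, j), h3⟩ hij

end Pool.Agent.Run7.h768
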