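import Mathlib

/-! Block matrices and configurations of flags in a vector space with coordinates `S ⊕ Fin 2`. -/

set_option linter.unusedSectionVars false
set_option linter.unusedVariables false
set_option linter.unusedSimpArgs false

noncomputable section

namespace Pool.Agent.Run7.h768

open Matrix

/-- coordinates of the base space: `S` and two distinguished ones -/
abbrev KK (S : Type) : Type := S ⊕ Fin 2

section blocks

variable {h : ℕ} {κ R : Type} [Fintype κ] [DecidableEq κ] [CommRing R]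

/-- the block `(j,k)` -/
def bl (M : Matrix (Fin h × κ) (Fin h × κ) R) (j k : Fin h) : Matrix κ κ R :=
  fun a c => M (j, a) (k, c)

theorem bl_mul (M N : Matrix (Fin h × κ) (Fin h × κ) R) (j k : Fin h) :
    bl (M * N) j k = ∑ l, bl M j l * bl N l k := by
  ext a c
  simp only [bl, Matrix.mul_apply, Fintype.sum_prod_type, Matrix.sum_apply]

theorem bl_one (j k : Fin h) : bl (1 : Matrix (Fin h × κ) (Fin h × κ) R) j k =
    if j = k then 1 else 0 := by
  ext a c
  by_cases hjk : j = k
  · subst hjk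
    simp [bl, Matrix.one_apply]
  · simp [bl, Matrix.one_apply, hjk]

/-- block matrix from blocks -/
def ofBl (B : Fin h → Fin h → Matrix κ κ R) : Matrix (Fin h × κ) (Fin h × κ) R :=
  Matrix.of fun x y => B x.1 y.1 x.2 y.2

@[simp] theorem bl_ofBl (B : Fin h → Fin h → Matrix κ κ R) (j k : Fin h) :
    bl (ofBl B) j k = B j k := rfl

theorem ext_bl {M N : Matrix (Fin h × κ) (Fin h × κ) R} (H : ∀ j k, bl M j k = bl N j k) :
    M = N := by
  ext ⟨j, a⟩ ⟨k, c⟩
  exact congrFun (congrFun (H j k) a) c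

/-- block diagonal -/
def diagBl (B : Fin h → Matrix κ κ R) : Matrix (Fin h × κ) (Fin h × κ) R :=
  ofBl fun j k => if j = k then B j else 0

theorem bl_diagBl (B : Fin h → Matrix κ κ R) (j k : Fin h) :
    bl (diagBl B) j k = if j = k then B j else 0 := rfl

theorem bl_diagBl_mul (B : Fin h → Matrix κ κ R) (M : Matrix (Fin h × κ) (Fin h × κ) R)
    (j k : Fin h) : bl (diagBl B * M) j k = B j * bl M j k := by
  rw [bl_mul, Finset.sum_eq_single j]
  · rw [bl_diagBl, if_pos rfl]
  · intro l _ hl
    rw [bl_diagBl, if_neg (Ne.symm hl), zero_mul]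
  · simp

theorem bl_mul_diagBl (B : Fin h → Matrix κ κ R) (M : Matrix (Fin h × κ) (Fin h × κ) R)
    (j k : Fin h) : bl (M * diagBl B) j k = bl M j k * B k := by
  rw [bl_mul, Finset.sum_eq_single k]
  · rw [bl_diagBl, if_pos rfl]
  · intro l _ hl
    rw [bl_diagBl, if_neg hl, mul_zero]
  · simp

theorem diagBl_mul_diagBl (B C : Fin h → Matrix κ κ R) :
    diagBl B * diagBl C = diagBl fun j => B j * C j := by
  apply ext_bl
  intro j k
  rw [bl_diagBl_mul, bl_diagBl, bl_diagBl]
  by_cases hjk : j = k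
  · subst hjk; simp
  · simp [hjk]

theorem diagBl_one : diagBl (fun _ : Fin h => (1 : Matrix κ κ R)) = 1 := by
  apply ext_bl
  intro j k
  rw [bl_diagBl, bl_one]

end blocks

section cond

variable {S R : Type} [Fintype S] [DecidableEq S] [CommRing R]

/-- Data of a flag: a pivot coordinate `s`, two linear forms `φ`, `α` on `R^S`, a basis `Q` of `R²`
(the columns) with inverse `Qi`. -/
structure Cond (S R : Type) where
  s : S
  φ : S → R
  α : S → R
  Q : Matrix (Fin 2) (Fin 2) R
  Qi : Matrix (Fin 2) (Fin 2) R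

/-- Consistency of the data. -/
structure Cond.Good (c : Cond S R) : Prop where
  hφ : c.φ c.s = 1
  hα : c.α c.s = 0
  hQ : c.Q * c.Qi = 1
  hQ' : c.Qi * c.Q = 1

def Cond.E (c : Cond S R) : Matrix S S R :=
  Matrix.of fun r' r => if r' = c.s then (c.φ r - if r = c.s then 1 else 0) else 0

theorem Cond.Good.E_mul_E {c : Cond S R} (hc : c.Good) : c.E * c.E = 0 := by
  ext r' r
  rw [Matrix.mul_apply, Matrix.zero_apply]
  apply Finset.sum_eq_zero
  intro x _
  simp only [Cond.E, Matrix.of_apply]
  by_cases hx : x = c.s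
  · subst hx
    simp [hc.hφ]
  · simp [hx]

/-- the lower left block of `gamInv` -/
def Cond.D (c : Cond S R) : Matrix (Fin 2) S R := Matrix.of fun i r => if i = 1 then c.α r else 0

theorem Cond.Good.D_mul_E {c : Cond S R} (hc : c.Good) : c.D * c.E = 0 := by
  ext i r
  rw [Matrix.mul_apply, Matrix.zero_apply]
  apply Finset.sum_eq_zero
  intro x _
  simp only [Cond.E, Cond.D, Matrix.of_apply]
  by_cases hx : x = c.s
  · subst hx
    simp [hc.hα]
  · simp [hx]

/-- the basis adapted to the flag -/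
def Cond.gam (c : Cond S R) : Matrix (KK S) (KK S) R :=
  Matrix.fromBlocks (1 - c.E) 0 (-(c.Q * c.D)) c.Q

def Cond.gamInv (c : Cond S R) : Matrix (KK S) (KK S) R :=
  Matrix.fromBlocks (1 + c.E) 0 c.D c.Qi

theorem Cond.Good.gam_mul {c : Cond S R} (hc : c.Good) : c.gam * c.gamInv = 1 := by
  rw [Cond.gam, Cond.gamInv, Matrix.fromBlocks_multiply, ← Matrix.fromBlocks_one]
  congr 1
  · rw [sub_mul, mul_add, mul_add, hc.E_mul_E]
    simp
  · simp
  · rw [Matrix.mul_add, Matrix.mul_one, Matrix.neg_mul, Matrix.mul_assoc, hc.D_mul_E]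
    simp
  · rw [hc.hQ]
    simp

theorem Cond.Good.gamInv_mul {c : Cond S R} (hc : c.Good) : c.gamInv * c.gam = 1 :=
  mul_eq_one_comm.1 hc.gam_mul

/-- `T` stacked over the identity. -/
def stack (T : Matrix S (Fin 2) R) : Matrix (KK S) (Fin 2) R :=
  Matrix.of fun a i => Sum.elim (fun r => T r i) (fun i' => if i' = i then 1 else 0) a

/-- value of the form `φ` on the two columns of `T` -/
def app (φ : S → R) (T : Matrix S (Fin 2) R) : Fin 2 → R := fun i => ∑ r, φ r * T r i

/-- column `i` of `Q` -/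
def Cond.col (c : Cond S R) (i : Fin 2) : Fin 2 → R := fun k => c.Q k i

def dot (u v : Fin 2 → R) : R := u 0 * v 0 + u 1 * v 1

theorem Cond.Good.mulVec_stack_s {c : Cond S R} (hc : c.Good) (T : Matrix S (Fin 2) R)
    (u : Fin 2 → R) : ((c.gamInv * stack T).mulVec u) (Sum.inl c.s) = dot (app c.φ T) u := by
  have h1 : ∀ i, (c.gamInv * stack T) (Sum.inl c.s) i = app c.φ T i := by
    intro i
    rw [Matrix.mul_apply, Fintype.sum_sum_type]
    have h2 : ∀ x : Fin 2, c.gamInv (Sum.inl c.s) (Sum.inr x) * stack T (Sum.inr x) i = 0 := by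
      intro x
      simp [Cond.gamInv]
    rw [Finset.sum_eq_zero (fun x _ => h2 x), add_zero]
    have h3 : ∀ x : S, c.gamInv (Sum.inl c.s) (Sum.inl x) * stack T (Sum.inl x) i =
        c.φ x * T x i := by
      intro x
      simp only [Cond.gamInv, Matrix.fromBlocks_apply₁₁, Matrix.add_apply, Cond.E, Matrix.of_apply,
        stack, Sum.elim_inl, if_true]
      by_cases hx : x = c.s
      · subst hx
        simp
      · simp [hx, Ne.symm hx, Matrix.one_apply]
    rw [Finset.sum_congr rfl (fun x _ => h3 x)]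
    rfl
  simp only [Matrix.mulVec, dotProduct, Fin.sum_univ_two, h1, dot]

theorem Cond.mulVec_stack_inr {c : Cond S R} (T : Matrix S (Fin 2) R)
    (u : Fin 2 → R) (i : Fin 2) : ((c.gamInv * stack T).mulVec u) (Sum.inr i) =
      (if i = 1 then dot (app c.α T) u else 0) + (c.Qi.mulVec u) i := by
  have h1 : ∀ k, (c.gamInv * stack T) (Sum.inr i) k =
      (if i = 1 then app c.α T k else 0) + c.Qi i k := by
    intro k
    rw [Matrix.mul_apply, Fintype.sum_sum_type]
    congr 1
    · simp only [Cond.gamInv, Matrix.fromBlocks_apply₂₁, Cond.D, Matrix.of_apply, stack,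
        Sum.elim_inl, app]
      by_cases hi : i = 1 <;> simp [hi]
    · simp [Cond.gamInv, stack]
  simp only [Matrix.mulVec, dotProduct, Fin.sum_univ_two, h1, dot]
  by_cases hi : i = 1
  · simp only [hi, if_true]; ring
  · simp only [hi, if_false]; ring

/-- The equation attached to the flag: the line of `graph T` in the hyperplane of the flag lies in
the codimension two subspace. -/
structure Cond.Sol (c : Cond S R) (T : Matrix S (Fin 2) R) : Prop where
  h0 : dot (app c.α T) (c.col 1) = 0
  h1 : dot (app c.φ T) (c.col 0) = dot (app c.α T) (c.col 0) * dot (app c.φ T) (c.col 1)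

/-- change of basis of the parameter plane: columns `v - T_α(v) v'` and `v'` -/
def Cond.C2 (c : Cond S R) (T : Matrix S (Fin 2) R) : Matrix (Fin 2) (Fin 2) R :=
  Matrix.of fun k i => if i = 0 then c.Q k 0 - dot (app c.α T) (c.col 0) * c.Q k 1 else c.Q k 1

/-- the echelon form -/
def Cond.ech (c : Cond S R) (T : Matrix S (Fin 2) R) : Matrix (KK S) (Fin 2) R :=
  c.gamInv * stack T * c.C2 T

def Cond.nu (c : Cond S R) (T : Matrix S (Fin 2) R) : Matrix S (Fin 2) R :=
  Matrix.of fun r i => c.ech T (Sum.inl r) i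

theorem mul_apply_mulVec {A B : Type} [Fintype B] (M : Matrix A B R) (N : Matrix B (Fin 2) R)
    (a : A) (i : Fin 2) : (M * N) a i = (M.mulVec fun k => N k i) a := rfl

theorem Cond.Good.Qi_mulVec {c : Cond S R} (hc : c.Good) (x y : R) (i : Fin 2) :
    (c.Qi.mulVec fun k => x * c.Q k 0 + y * c.Q k 1) i = if i = 0 then x else y := by
  have h1 : ∀ k, ∑ l, c.Qi i l * c.Q l k = if i = k then 1 else 0 := by
    intro k
    have := congrFun (congrFun hc.hQ' i) k
    rw [Matrix.mul_apply, Matrix.one_apply] at this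
    exact this
  have h0 := h1 0
  have h2 := h1 1
  rw [Fin.sum_univ_two] at h0 h2
  simp only [Matrix.mulVec, dotProduct, Fin.sum_univ_two]
  fin_cases i
  · simp only [Fin.zero_eta, Fin.isValue, if_true, zero_ne_one, if_false] at h0 h2 ⊢
    linear_combination x * h0 + y * h2
  · simp only [Fin.mk_one, Fin.isValue, one_ne_zero, if_false, if_true] at h0 h2 ⊢
    linear_combination x * h0 + y * h2

theorem dot_add_smul (u : Fin 2 → R) (c : Cond S R) (x y : R) :
    dot u (fun k => x * c.Q k 0 + y * c.Q k 1) = x * dot u (c.col 0) + y * dot u (c.col 1) := by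
  simp only [dot, Cond.col]
  ring

theorem Cond.C2_col0 (c : Cond S R) (T : Matrix S (Fin 2) R) :
    (fun k => c.C2 T k 0) = fun k => 1 * c.Q k 0 + (-(dot (app c.α T) (c.col 0))) * c.Q k 1 := by
  funext k
  simp [Cond.C2]
  ring

theorem Cond.C2_col1 (c : Cond S R) (T : Matrix S (Fin 2) R) :
    (fun k => c.C2 T k 1) = fun k => 0 * c.Q k 0 + 1 * c.Q k 1 := by
  funext k
  simp [Cond.C2]

theorem Cond.Good.ech_inr {c : Cond S R} (hc : c.Good) {T : Matrix S (Fin 2) R} (hT : c.Sol T)
    (i k : Fin 2) : c.ech T (Sum.inr i) k = if i = k then 1 else 0 := by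
  rw [Cond.ech, mul_apply_mulVec, Cond.mulVec_stack_inr]
  have h0 := hT.h0
  fin_cases k
  · simp only [Fin.zero_eta, Fin.isValue]
    rw [Cond.C2_col0, hc.Qi_mulVec, dot_add_smul, h0]
    fin_cases i <;> simp
  · simp only [Fin.mk_one, Fin.isValue]
    rw [Cond.C2_col1, hc.Qi_mulVec, dot_add_smul, h0]
    fin_cases i <;> simp

theorem Cond.Good.ech_s {c : Cond S R} (hc : c.Good) {T : Matrix S (Fin 2) R} (hT : c.Sol T) :
    c.ech T (Sum.inl c.s) 0 = 0 := by
  rw [Cond.ech, mul_apply_mulVec, hc.mulVec_stack_s, Cond.C2_col0, dot_add_smul, hT.h1]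
  ring

theorem Cond.Good.ech_eq {c : Cond S R} (hc : c.Good) {T : Matrix S (Fin 2) R} (hT : c.Sol T)
    (a : KK S) (i : Fin 2) : c.ech T a i =
      Sum.elim (fun r => c.nu T r i) (fun i' => if i' = i then 1 else 0) a := by
  rcases a with r | i'
  · rfl
  · exact hc.ech_inr hT i' i

theorem Cond.Good.gam_mul_ech {c : Cond S R} (hc : c.Good) (T : Matrix S (Fin 2) R) :
    c.gam * c.ech T = stack T * c.C2 T := by
  rw [Cond.ech, ← Matrix.mul_assoc, ← Matrix.mul_assoc, hc.gam_mul, Matrix.one_mul]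

end cond

end Pool.Agent.Run7.h768
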