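import Pool.Agent.Run7.h768.Analysis

/-! Construction of points of the Springer cell. -/

set_option linter.unusedSectionVars false
set_option linter.unusedVariables false
set_option linter.unusedSimpArgs false

noncomputable section

namespace Pool.Agent.Run7.h768

open Matrix

variable {S : Type} [Fintype S] [DecidableEq S] {h : ℕ}

def nuB (c : Cond S ℂ) (T : Matrix S (Fin 2) ℂ) : Matrix (KK S) (KK S) ℂ :=
  Matrix.fromBlocks 1 (c.nu T) 0 1

def nuBi (c : Cond S ℂ) (T : Matrix S (Fin 2) ℂ) : Matrix (KK S) (KK S) ℂ :=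
  Matrix.fromBlocks 1 (-(c.nu T)) 0 1

def GT (c : Fin h → Cond S ℂ) (T : Matrix S (Fin 2) ℂ) :
    Matrix (Fin h × KK S) (Fin h × KK S) ℂ := diagBl fun j => nuB (c j) T

def GTi (c : Fin h → Cond S ℂ) (T : Matrix S (Fin 2) ℂ) :
    Matrix (Fin h × KK S) (Fin h × KK S) ℂ := diagBl fun j => nuBi (c j) T

theorem nuBi_mul_nuB (c : Cond S ℂ) (T T' : Matrix S (Fin 2) ℂ) :
    nuBi c T * nuB c T' = Matrix.fromBlocks 1 (c.nu T' - c.nu T) 0 1 := by
  rw [nuBi, nuB, Matrix.fromBlocks_multiply]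
  congr 1
  · simp
  · simp [sub_eq_add_neg]
  · simp
  · simp

theorem GTi_mul_GT (c : Fin h → Cond S ℂ) (T T' : Matrix S (Fin 2) ℂ) :
    GTi c T * GT c T' = diagBl fun j => Matrix.fromBlocks 1 ((c j).nu T' - (c j).nu T) 0 1 := by
  rw [GTi, GT, diagBl_mul_diagBl]
  simp only [nuBi_mul_nuB]

theorem GTi_mul_self (c : Fin h → Cond S ℂ) (T : Matrix S (Fin 2) ℂ) :
    GTi c T * GT c T = 1 := by
  rw [GTi_mul_GT]
  simp only [sub_self, Matrix.fromBlocks_one]
  exact diagBl_one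

theorem GT_mul_self (c : Fin h → Cond S ℂ) (T : Matrix S (Fin 2) ℂ) :
    GT c T * GTi c T = 1 := mul_eq_one_comm.1 (GTi_mul_self c T)

/-- block diagonal unipotent matrices with admissible entries are triangular for `val` -/
theorem blockTriangular_val {s : Fin h → S} (o : Orders h S s) (N : Fin h → Matrix S (Fin 2) ℂ)
    (hN : ∀ j, N j (s j) 0 = 0) :
    (diagBl fun j => Matrix.fromBlocks (1 : Matrix S S ℂ) (N j) 0 (1 : Matrix (Fin 2) (Fin 2) ℂ)
      : Matrix (Fin h × KK S) (Fin h × KK S) ℂ).BlockTriangular o.val := by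
  rintro ⟨j, a⟩ ⟨k, c⟩ hlt
  change bl (diagBl _) j k a c = 0
  rw [bl_diagBl]
  by_cases hjk : j = k
  · subst hjk
    rw [if_pos rfl]
    rcases a with r | i <;> rcases c with r' | i'
    · rw [Matrix.fromBlocks_apply₁₁, Matrix.one_apply_ne]
      rintro rfl
      exact lt_irrefl _ hlt
    · rw [Matrix.fromBlocks_apply₁₂]
      by_cases hr : r = s j
      · subst hr
        fin_cases i'
        · exact hN j
        · exact absurd hlt (not_lt_of_gt (o.val3 j))
      · have h1 := o.val1 j r hr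
        fin_cases i'
        · exact absurd hlt (not_lt_of_gt h1)
        · exact absurd hlt (not_lt_of_gt (h1.trans ((o.val2 j).trans (o.val3 j))))
    · rfl
    · rw [Matrix.fromBlocks_apply₂₂, Matrix.one_apply_ne]
      rintro rfl
      exact lt_irrefl _ hlt
  · rw [if_neg hjk]
    rfl

/-- strict block triangularity for the time blocks -/
theorem strict_tb (M : Matrix (Fin h × KK S) (Fin h × KK S) ℂ)
    (h1 : ∀ j k : Fin h, (k : ℕ) ≠ (j : ℕ) + 1 → bl M j k = 0)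
    (h2 : ∀ j k : Fin h, (k : ℕ) = (j : ℕ) + 1 → ∀ r i, bl M j k (Sum.inl r) (Sum.inr i) = 0)
    (x y : Fin h × KK S) (hxy : tb y ≤ tb x) : M x y = 0 := by
  obtain ⟨j, a⟩ := x
  obtain ⟨k, c⟩ := y
  change bl M j k a c = 0
  by_cases hjk : (k : ℕ) = (j : ℕ) + 1
  · rcases a with r | i <;> rcases c with r' | i'
    · simp only [tb_inl] at hxy; omega
    · exact h2 j k hjk r i'
    · simp only [tb_inl, tb_inr] at hxy; omega
    · simp only [tb_inr] at hxy; omega
  · rw [h1 j k hjk]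
    rfl

theorem XX_strict (c : Fin h → Cond S ℂ) (x y : Fin h × KK S) (hxy : tb y ≤ tb x) :
    XX c x y = 0 := by
  apply strict_tb _ _ _ _ _ hxy
  · intro j k hjk
    rw [bl_XX, if_neg hjk]
  · intro j k hjk r i
    rw [bl_XX, if_pos hjk, Cond.gamInv, Cond.gam, Matrix.fromBlocks_multiply,
      Matrix.fromBlocks_apply₁₂]
    simp

theorem colP_nuB {c : Cond S ℂ} (hc : c.Good) {T : Matrix S (Fin 2) ℂ} (hT : c.Sol T) :
    colP (nuB c T) = c.ech T := by
  ext a i
  rw [hc.ech_eq hT]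
  rcases a with r | i'
  · rfl
  · simp [colP, nuB, Matrix.one_apply]

/-- inverse of `C2` -/
def C2i (c : Cond S ℂ) (T : Matrix S (Fin 2) ℂ) : Matrix (Fin 2) (Fin 2) ℂ :=
  !![1, 0; dot (app c.α T) (c.col 0), 1] * c.Qi

theorem C2_eq (c : Cond S ℂ) (T : Matrix S (Fin 2) ℂ) :
    c.C2 T = c.Q * !![1, 0; -dot (app c.α T) (c.col 0), 1] := by
  ext k i
  fin_cases i
  · simp [Cond.C2, Matrix.mul_apply, Fin.sum_univ_two]
    ring
  · simp [Cond.C2, Matrix.mul_apply, Fin.sum_univ_two]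

theorem C2_mul_C2i {c : Cond S ℂ} (hc : c.Good) (T : Matrix S (Fin 2) ℂ) :
    c.C2 T * C2i c T = 1 := by
  rw [C2_eq, C2i, Matrix.mul_assoc, ← Matrix.mul_assoc !![1, 0; _, 1]]
  have : !![1, 0; -dot (app c.α T) (c.col 0), 1] * !![1, 0; dot (app c.α T) (c.col 0), 1]
      = (1 : Matrix (Fin 2) (Fin 2) ℂ) := by
    ext i j
    fin_cases i <;> fin_cases j <;> simp [Matrix.mul_apply, Fin.sum_univ_two]
  rw [this, Matrix.one_mul, hc.hQ]

theorem det_C2 (c : Cond S ℂ) (T : Matrix S (Fin 2) ℂ) : (c.C2 T).det = c.Q.det := by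
  rw [C2_eq, Matrix.det_mul, Matrix.det_fin_two_of]
  ring

theorem gamInv_stack {c : Cond S ℂ} (hc : c.Good) (T : Matrix S (Fin 2) ℂ) :
    c.gamInv * stack T = c.ech T * C2i c T := by
  rw [Cond.ech, Matrix.mul_assoc, C2_mul_C2i hc, Matrix.mul_one]

theorem nuBi_ech {c : Cond S ℂ} (hc : c.Good) {T : Matrix S (Fin 2) ℂ} (hT : c.Sol T) :
    nuBi c T * c.ech T = stack 0 := by
  rw [← colP_nuB hc hT, ← colP_mul, nuBi_mul_nuB, sub_self, Matrix.fromBlocks_one]
  ext a i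
  rcases a with r | i' <;> simp [colP, stack, Matrix.one_apply]

theorem GT_strict (c : Fin h → Cond S ℂ) (hc : ∀ j, (c j).Good) {T : Matrix S (Fin 2) ℂ}
    (hT : ∀ j, (c j).Sol T) (x y : Fin h × KK S) (hxy : tb y ≤ tb x) :
    (GTi c T * XX c * GT c T) x y = 0 := by
  apply strict_tb _ _ _ _ _ hxy
  · intro j k hjk
    rw [GT, bl_mul_diagBl, GTi, bl_diagBl_mul, bl_XX, if_neg hjk, mul_zero, zero_mul]
  · intro j k hjk r i
    rw [GT, bl_mul_diagBl, GTi, bl_diagBl_mul, bl_XX, if_pos hjk]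
    obtain ⟨Z, hZ⟩ : ∃ Z : Matrix (Fin 2) (Fin 2) ℂ, Z = C2i (c j) T * (c k).C2 T := ⟨_, rfl⟩
    obtain ⟨W, hW⟩ : ∃ W : Matrix (KK S) (Fin 2) ℂ, W = stack 0 := ⟨_, rfl⟩
    have h1 : colP (nuBi (c j) T * ((c j).gamInv * (c k).gam) * nuB (c k) T) = W * Z := by
      have e1 : nuBi (c j) T * ((c j).gamInv * (c k).gam) * nuB (c k) T =
          nuBi (c j) T * ((c j).gamInv * ((c k).gam * nuB (c k) T)) := by
        simp only [Matrix.mul_assoc]
      rw [e1, colP_mul, colP_mul, colP_mul, colP_nuB (hc k) (hT k), (hc k).gam_mul_ech,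
        ← Matrix.mul_assoc (c j).gamInv, gamInv_stack (hc j), Matrix.mul_assoc ((c j).ech T),
        ← Matrix.mul_assoc (nuBi (c j) T), nuBi_ech (hc j) (hT j), ← hZ, ← hW]
    have h2 : (nuBi (c j) T * ((c j).gamInv * (c k).gam) * nuB (c k) T) (Sum.inl r) (Sum.inr i) =
      colP (nuBi (c j) T * ((c j).gamInv * (c k).gam) * nuB (c k) T) (Sum.inl r) i := rfl
    rw [h2, h1, Matrix.mul_apply, hW]
    simp [stack]

theorem GT_val (c : Fin h → Cond S ℂ) (hc : ∀ j, (c j).Good)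
    (o : Orders h S (fun j => (c j).s)) {T : Matrix S (Fin 2) ℂ}
    (hT : ∀ j, (c j).Sol T) : (GT c T).BlockTriangular o.val :=
  blockTriangular_val o (fun j => (c j).nu T) (fun j => (hc j).ech_s (hT j))

end Pool.Agent.Run7.h768
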