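import Pool.Agent.Run7.h768.MapC
import Pool.Agent.Run7.h768.Parabolic

/-! From the two orders to permutations. -/

set_option linter.unusedSectionVars false
set_option linter.unusedVariables false
set_option linter.unusedSimpArgs false

noncomputable section

namespace Pool.Agent.Run7.h768

open Matrix

theorem exists_enum {ι : Type} [Fintype ι] (f : ι → ℕ) (hf : Function.Injective f) (n : ℕ)
    (hn : Fintype.card ι = n) : ∃ e : ι ≃ Fin n, ∀ x y, e x < e y ↔ f x < f y := by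
  letI : LinearOrder ι := LinearOrder.lift' f hf
  let e := (Fintype.orderIsoFinOfCardEq ι hn).symm
  refine ⟨e.toEquiv, fun x y => ?_⟩
  have : e x < e y ↔ x < y := e.lt_iff_lt
  exact this

section perm

variable {n : ℕ}

theorem coe_permMat (w : Equiv.Perm (Fin n)) (i j : Fin n) :
    (permMat w : Matrix (Fin n) (Fin n) ℂ) i j = if i = w j then 1 else 0 := rfl

theorem coe_permMat_inv (w : Equiv.Perm (Fin n)) (i j : Fin n) :
    ((permMat w)⁻¹ : GL (Fin n) ℂ) i j = if w i = j then 1 else 0 := rfl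

theorem mul_permMat (w : Equiv.Perm (Fin n)) (M : Matrix (Fin n) (Fin n) ℂ) (p q : Fin n) :
    (M * (permMat w : Matrix (Fin n) (Fin n) ℂ)) p q = M p (w q) := by
  rw [Matrix.mul_apply, Finset.sum_eq_single (w q)]
  · rw [coe_permMat, if_pos rfl, mul_one]
  · intro b _ hb
    rw [coe_permMat, if_neg hb, mul_zero]
  · intro hx
    exact absurd (Finset.mem_univ _) hx

theorem permMat_inv_mul (w : Equiv.Perm (Fin n)) (M : Matrix (Fin n) (Fin n) ℂ) (p q : Fin n) :
    (((permMat w)⁻¹ : GL (Fin n) ℂ).1 * M) p q = M (w p) q := by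
  rw [Matrix.mul_apply, Finset.sum_eq_single (w p)]
  · rw [coe_permMat_inv, if_pos rfl, one_mul]
  · intro b _ hb
    rw [coe_permMat_inv, if_neg (Ne.symm hb), zero_mul]
  · intro hx
    exact absurd (Finset.mem_univ _) hx

theorem conj_upper {X : Matrix (Fin n) (Fin n) ℂ} {p b : GL (Fin n) ℂ} (hb : b ∈ Borel n)
    (h : UpperTri (((p * b)⁻¹ : GL (Fin n) ℂ).1 * X * (p * b : GL (Fin n) ℂ).1)) :
    UpperTri ((p⁻¹ : GL (Fin n) ℂ).1 * X * p.1) := by
  have e : (p⁻¹ : GL (Fin n) ℂ).1 * X * p.1 =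
      b.1 * (((p * b)⁻¹ : GL (Fin n) ℂ).1 * X * (p * b : GL (Fin n) ℂ).1) *
        (b⁻¹ : GL (Fin n) ℂ).1 := by
    have h1 : b.1 * ((p * b)⁻¹ : GL (Fin n) ℂ).1 = (p⁻¹ : GL (Fin n) ℂ).1 := by
      rw [← Units.val_mul]
      congr 1
      group
    have h2 : (p * b : GL (Fin n) ℂ).1 * (b⁻¹ : GL (Fin n) ℂ).1 = p.1 := by
      rw [← Units.val_mul]
      congr 1
      group
    rw [← Matrix.mul_assoc, ← Matrix.mul_assoc, h1, Matrix.mul_assoc _ _ (b⁻¹ : GL (Fin n) ℂ).1, h2]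
  rw [e]
  exact (UpperTri.mul hb h).mul (inv_mem hb)

theorem conj_upper' {X : Matrix (Fin n) (Fin n) ℂ} {p b : GL (Fin n) ℂ} (hb : b ∈ Borel n)
    (h : UpperTri ((p⁻¹ : GL (Fin n) ℂ).1 * X * p.1)) :
    UpperTri (((p * b)⁻¹ : GL (Fin n) ℂ).1 * X * (p * b : GL (Fin n) ℂ).1) := by
  apply conj_upper (b := b⁻¹) (inv_mem hb)
  rw [mul_inv_cancel_right]
  exact h

theorem mem_Y_iff (w : Equiv.Perm (Fin n)) (X : Matrix (Fin n) (Fin n) ℂ) (g : GL (Fin n) ℂ) :
    (g : Flag n) ∈ SchubertCell w ∩ SpringerFiber X ↔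
      ∃ b ∈ Borel n, ∃ b' ∈ Borel n, g = b * permMat w * b' ∧
        UpperTri (((b * permMat w)⁻¹ : GL (Fin n) ℂ).1 * X * (b * permMat w : GL (Fin n) ℂ).1) := by
  constructor
  · rintro ⟨⟨b, hb, hgb⟩, ⟨g', hg', hX⟩⟩
    obtain ⟨b', hb', h1⟩ := exists_of_coe_eq hgb.symm
    obtain ⟨b'', hb'', h2⟩ := exists_of_coe_eq (hg'.trans hgb).symm
    refine ⟨b, hb, b', hb', h1, ?_⟩
    rw [h2] at hX
    exact conj_upper hb'' hX
  · rintro ⟨b, hb, b', hb', rfl, hX⟩
    refine ⟨⟨b, hb, coe_mul_borel _ _ hb'⟩, ⟨b * permMat w, (coe_mul_borel _ _ hb').symm, hX⟩⟩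

end perm

section

variable {S : Type} [Fintype S] [DecidableEq S] {h n : ℕ}

/-- the permutation: `position ↦ value` -/
def wperm (e τ : (Fin h × KK S) ≃ Fin n) : Equiv.Perm (Fin n) := τ.symm.trans e

def Xf {R : Type} [CommRing R] (c : Fin h → Cond S R) (e : (Fin h × KK S) ≃ Fin n) :
    Matrix (Fin n) (Fin n) R := (XX c).submatrix e.symm e.symm

theorem submatrix_blockTriangular {ι : Type} {f : ι → ℕ} {e : ι ≃ Fin n}
    (he : ∀ x y, e x < e y ↔ f x < f y) (M : Matrix (Fin n) (Fin n) ℂ) :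
    (M.submatrix e e).BlockTriangular f ↔ UpperTri M := by
  constructor
  · intro hM i j hij
    have := hM (i := e.symm i) (j := e.symm j) (by
      rw [← he]; simpa using hij)
    simpa using this
  · intro hM x y hxy
    exact hM _ _ ((he _ _).2 hxy)

variable (c : Fin h → Cond S ℂ) (e τ : (Fin h × KK S) ≃ Fin n)

theorem sub_mul (M N : Matrix (Fin n) (Fin n) ℂ) :
    (M * N).submatrix e e = M.submatrix e e * N.submatrix e e :=
  (Matrix.submatrix_mul_equiv M N e e e).symm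

theorem sub_one : (1 : Matrix (Fin n) (Fin n) ℂ).submatrix e e = 1 :=
  Matrix.submatrix_one_equiv e

theorem sub_Xf : (Xf c e).submatrix e e = XX c := by
  ext x y
  simp [Xf]

/-- conjugation by `b w` in relabelled form -/
theorem conj_relabel (b : GL (Fin n) ℂ) :
    ((((b * permMat (wperm e τ))⁻¹ : GL (Fin n) ℂ).1 * Xf c e *
      (b * permMat (wperm e τ) : GL (Fin n) ℂ).1).submatrix τ τ) =
    (b⁻¹ : GL (Fin n) ℂ).1.submatrix e e * XX c * b.1.submatrix e e := by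
  have e1 : ((b * permMat (wperm e τ))⁻¹ : GL (Fin n) ℂ).1 * Xf c e *
      (b * permMat (wperm e τ) : GL (Fin n) ℂ).1 =
      ((permMat (wperm e τ))⁻¹ : GL (Fin n) ℂ).1 * (((b⁻¹ : GL (Fin n) ℂ).1 * Xf c e * b.1) *
        (permMat (wperm e τ)).1) := by
    rw [_root_.mul_inv_rev, Units.val_mul, Units.val_mul]
    simp only [Matrix.mul_assoc]
  rw [e1]
  ext x y
  rw [Matrix.submatrix_apply, permMat_inv_mul, mul_permMat]
  have h1 : wperm e τ (τ x) = e x := by simp [wperm]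
  have h2 : wperm e τ (τ y) = e y := by simp [wperm]
  rw [h1, h2, ← sub_Xf c e, ← sub_mul, ← sub_mul, Matrix.submatrix_apply]

end

end Pool.Agent.Run7.h768
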